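import Pool.Agent.HCH.A2

namespace Pool.Agent.HCH

/-- Additivity of the length modulo a prime. -/
theorem length_mul {O : Type} [CommRing O] (W : Ideal O) [hW : W.IsPrime] (g h : O) (hh : h ∉ W) :
    Module.length O (O ⧸ (W ⊔ Ideal.span {g * h})) =
      Module.length O (O ⧸ (W ⊔ Ideal.span {g})) + Module.length O (O ⧸ (W ⊔ Ideal.span {h})) := by
  have h1 : W ⊔ Ideal.span {g} ≤
      Submodule.comap (LinearMap.mulRight O h) (W ⊔ Ideal.span {g * h}) := by
    apply sup_le
    · intro x hx
      exact Submodule.mem_sup_left (W.mul_mem_right h hx)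
    · rw [Ideal.span_le, Set.singleton_subset_iff]
      exact Submodule.mem_sup_right (Ideal.mem_span_singleton_self _)
  have h2 : W ⊔ Ideal.span {g * h} ≤ W ⊔ Ideal.span {h} := by
    apply sup_le_sup_left
    rw [Ideal.span_singleton_le_span_singleton]
    exact dvd_mul_left h g
  apply Module.length_eq_add_of_exact
    (Submodule.mapQ (W ⊔ Ideal.span {g}) (W ⊔ Ideal.span {g * h}) (LinearMap.mulRight O h) h1)
    (Submodule.factor h2)
  · rw [injective_iff_map_eq_zero]
    intro y hy
    obtain ⟨x, rfl⟩ := Submodule.Quotient.mk_surjective _ y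
    have hy' : x * h ∈ W ⊔ Ideal.span {g * h} := (Submodule.Quotient.mk_eq_zero _).mp hy
    obtain ⟨w, hw, z, hz, hwz⟩ := Submodule.mem_sup.mp hy'
    obtain ⟨c, rfl⟩ := Ideal.mem_span_singleton'.mp hz
    have h3 : (x - c * g) * h ∈ W := by
      have : (x - c * g) * h = w := by
        rw [sub_mul, ← hwz]
        ring
      rw [this]
      exact hw
    have h4 := (hW.mem_or_mem h3).resolve_right hh
    refine (Submodule.Quotient.mk_eq_zero _).mpr ?_
    have : x = (x - c * g) + c * g := by ring
    rw [this]
    exact Submodule.add_mem_sup h4 (Ideal.mul_mem_left _ _ (Ideal.mem_span_singleton_self g))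
  · exact Submodule.factor_surjective h2
  · intro y
    constructor
    · intro hy
      obtain ⟨x, rfl⟩ := Submodule.Quotient.mk_surjective _ y
      have hy' : x ∈ W ⊔ Ideal.span {h} := (Submodule.Quotient.mk_eq_zero _).mp hy
      obtain ⟨w, hw, z, hz, rfl⟩ := Submodule.mem_sup.mp hy'
      obtain ⟨c, rfl⟩ := Ideal.mem_span_singleton'.mp hz
      refine ⟨Submodule.Quotient.mk c, ?_⟩
      change Submodule.Quotient.mk (c * h) = Submodule.Quotient.mk (w + c * h)
      rw [Submodule.Quotient.eq]
      have : c * h - (w + c * h) = -w := by ring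
      rw [this]
      exact Submodule.mem_sup_left (W.neg_mem hw)
    · rintro ⟨z, rfl⟩
      obtain ⟨x, rfl⟩ := Submodule.Quotient.mk_surjective _ z
      change Submodule.Quotient.mk (x * h) = 0
      exact (Submodule.Quotient.mk_eq_zero _).mpr (Submodule.mem_sup_right
        (Ideal.mul_mem_left _ _ (Ideal.mem_span_singleton_self h)))

theorem mlt_mul {R : Type} [CommRing R] (W : Ideal R) [hW : W.IsPrime] (g h : R) (hg : g ∉ W)
    (hh : h ∉ W) (P : PrimeSpectrum R) :
    mlt (W ⊔ Ideal.span {g * h}) P = mlt (W ⊔ Ideal.span {g}) P + mlt (W ⊔ Ideal.span {h}) P := by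
  by_cases hWP : W ≤ P.asIdeal
  · unfold mlt
    have hdis : Disjoint (P.asIdeal.primeCompl : Set R) (W : Set R) := by
      rw [Set.disjoint_left]
      intro x hx hxW
      exact hx (hWP hxW)
    have hp : (W.map (algebraMap R (Localization.AtPrime P.asIdeal))).IsPrime :=
      IsLocalization.isPrime_of_isPrime_disjoint P.asIdeal.primeCompl _ W hW hdis
    have hc : (W.map (algebraMap R (Localization.AtPrime P.asIdeal))).comap
        (algebraMap R (Localization.AtPrime P.asIdeal)) = W :=
      IsLocalization.under_map_of_isPrime_disjoint P.asIdeal.primeCompl _ hW hdis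
    have hh' : algebraMap R (Localization.AtPrime P.asIdeal) h ∉
        W.map (algebraMap R (Localization.AtPrime P.asIdeal)) := by
      intro hmem
      apply hh
      rw [← hc]
      exact hmem
    have e : ∀ x : R, (W ⊔ Ideal.span {x}).map
        (algebraMap R (Localization.AtPrime P.asIdeal)) =
        W.map (algebraMap R (Localization.AtPrime P.asIdeal)) ⊔
          Ideal.span {algebraMap R (Localization.AtPrime P.asIdeal) x} := by
      intro x
      rw [Ideal.map_sup, Ideal.map_span, Set.image_singleton]
    rw [e, e, e, map_mul]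
    exact length_mul _ _ _ hh'
  · rw [mlt_eq_zero _ _ (fun h1 => hWP (le_sup_left.trans h1)),
      mlt_eq_zero _ _ (fun h1 => hWP (le_sup_left.trans h1)),
      mlt_eq_zero _ _ (fun h1 => hWP (le_sup_left.trans h1)), add_zero]

end Pool.Agent.HCH
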