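import Pool.Agent.HCH.B

namespace Pool.Agent.HCH

open MvPolynomial

theorem dm_comap {K R R' : Type} [Field K] [CommRing R] [CommRing R'] [Algebra K R]
    [Algebra K R'] (φ : R →ₐ[K] R') (hφ : Function.Surjective φ) (P' : Ideal R') :
    dm K (P'.comap (φ : R →+* R')) = dm K P' := by
  unfold dm
  congr 1
  let f : (R ⧸ P'.comap (φ : R →+* R')) →ₐ[K] (R' ⧸ P') := Ideal.quotientMapₐ P' φ le_rfl
  have hf : Function.Injective f := Ideal.quotientMap_injective' (H := le_rfl) le_rfl
  have hs : Function.Surjective f := Ideal.quotientMap_surjective (H := le_rfl) hφ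
  let e := AlgEquiv.ofBijective f ⟨hf, hs⟩
  exact le_antisymm (trdeg_le_of_injective e.toAlgHom e.injective)
    (trdeg_le_of_injective e.symm.toAlgHom e.symm.injective)

theorem dm_bot {K : Type} [Field K] (n : ℕ) :
    dm K (⊥ : Ideal (MvPolynomial (Fin n) K)) = n := by
  unfold dm
  have e := (AlgEquiv.quotientBot K (MvPolynomial (Fin n) K))
  have h : Algebra.trdeg K (MvPolynomial (Fin n) K ⧸ (⊥ : Ideal (MvPolynomial (Fin n) K))) =
      Algebra.trdeg K (MvPolynomial (Fin n) K) :=
    le_antisymm (trdeg_le_of_injective e.toAlgHom e.injective)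
      (trdeg_le_of_injective e.symm.toAlgHom e.symm.injective)
  rw [h, MvPolynomial.trdeg_of_isDomain]
  simp

/-- Algebraic independence and semilinear isomorphisms. -/
theorem ind_semi {K K' A A' : Type} [Field K] [Field K'] [CommRing A] [CommRing A'] [Algebra K A]
    [Algebra K' A'] (ε : K ≃+* K') (Φ : A ≃+* A')
    (h : ∀ a, Φ (algebraMap K A a) = algebraMap K' A' (ε a)) {ι : Type} (x : ι → A)
    (hx : AlgebraicIndependent K x) : AlgebraicIndependent K' (Φ ∘ x) := by
  rw [algebraicIndependent_iff] at hx ⊢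
  intro p hp
  have h1 := hx (MvPolynomial.map (ε.symm : K' →+* K) p) (by
    apply Φ.injective
    rw [map_zero, ← hp]
    have h2 : ((Φ : A →+* A').comp ((MvPolynomial.aeval x : MvPolynomial ι K →ₐ[K] A) :
        MvPolynomial ι K →+* A)).comp (MvPolynomial.map (ε.symm : K' →+* K)) =
        ((MvPolynomial.aeval (Φ ∘ x) : MvPolynomial ι K' →ₐ[K'] A') :
          MvPolynomial ι K' →+* A') := by
      apply MvPolynomial.ringHom_ext
      · intro a
        simp [h, ← MvPolynomial.algebraMap_eq]
      · intro i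
        simp
    exact congrArg (fun φ : MvPolynomial ι K' →+* A' => φ p) h2)
  apply MvPolynomial.map_injective (ε.symm : K' →+* K) ε.symm.injective
  rw [map_zero]
  exact h1

theorem trdeg_semi {K K' A A' : Type} [Field K] [Field K'] [CommRing A] [CommRing A'] [Algebra K A]
    [Algebra K' A'] (ε : K ≃+* K') (Φ : A ≃+* A')
    (h : ∀ a, Φ (algebraMap K A a) = algebraMap K' A' (ε a)) :
    Algebra.trdeg K A ≤ Algebra.trdeg K' A' := by
  apply ciSup_le'
  intro s
  have h1 := ind_semi ε Φ h _ s.2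
  exact h1.cardinalMk_le_trdeg

theorem dm_semi {K K' R R' : Type} [Field K] [Field K'] [CommRing R] [CommRing R'] [Algebra K R]
    [Algebra K' R'] (ε : K ≃+* K') (Φ : R ≃+* R')
    (h : ∀ a, Φ (algebraMap K R a) = algebraMap K' R' (ε a)) (P' : Ideal R') [P'.IsPrime] :
    dm K (P'.comap (Φ : R →+* R')) = dm K' P' := by
  unfold dm
  congr 1
  have hmap : P' = (P'.comap (Φ : R →+* R')).map (Φ : R →+* R') :=
    (Ideal.map_comap_of_surjective (Φ : R →+* R') Φ.surjective P').symm
  let e : (R ⧸ P'.comap (Φ : R →+* R')) ≃+* (R' ⧸ P') :=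
    Ideal.quotientEquiv _ _ Φ hmap
  have he : ∀ a, e (algebraMap K _ a) = algebraMap K' _ (ε a) := by
    intro a
    change e (Ideal.Quotient.mk _ (algebraMap K R a)) = Ideal.Quotient.mk _ (algebraMap K' R' (ε a))
    rw [Ideal.quotientEquiv_mk, h]
  have he' : ∀ a, e.symm (algebraMap K' _ a) = algebraMap K _ (ε.symm a) := by
    intro a
    rw [RingEquiv.symm_apply_eq, he, RingEquiv.apply_symm_apply]
  exact le_antisymm (trdeg_semi ε e he) (trdeg_semi ε.symm e.symm he')

end Pool.Agent.HCH
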