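import Pool.Agent.HCH.Defs

namespace Pool.Agent.HCH

theorem mlt_eq_zero {R : Type} [CommRing R] (J : Ideal R) (P : PrimeSpectrum R)
    (h : ¬ J ≤ P.asIdeal) : mlt J P = 0 := by
  unfold mlt
  rw [Module.length_eq_zero_iff, Ideal.Quotient.subsingleton_iff]
  obtain ⟨x, hx, hxP⟩ := Set.not_subset.mp h
  apply Ideal.eq_top_of_isUnit_mem _ (Ideal.mem_map_of_mem _ hx)
  exact IsLocalization.map_units (Localization.AtPrime P.asIdeal)
    (⟨x, hxP⟩ : P.asIdeal.primeCompl)

theorem mlt_self {R : Type} [CommRing R] (P : PrimeSpectrum R) : mlt P.asIdeal P = 1 := by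
  unfold mlt
  rw [Localization.AtPrime.map_eq_maximalIdeal, Module.length_eq_one_iff, isSimpleModule_iff_quot_maximal]
  exact ⟨_, IsLocalRing.maximalIdeal.isMaximal _, ⟨LinearEquiv.refl _ _⟩⟩

theorem mlt_surj {R R' : Type} [CommRing R] [CommRing R'] (φ : R →+* R')
    (hφ : Function.Surjective φ) (J : Ideal R) (hJ : RingHom.ker φ ≤ J) (P' : PrimeSpectrum R') :
    mlt (J.map φ) P' = mlt J (PrimeSpectrum.comap φ P') := by
  set P := PrimeSpectrum.comap φ P' with hP
  let S := Localization.AtPrime P.asIdeal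
  let S' := Localization.AtPrime P'.asIdeal
  let ψ : S →+* S' := Localization.localRingHom P.asIdeal P'.asIdeal φ rfl
  have hψmk : ∀ (a : R) (s : P.asIdeal.primeCompl), ψ (IsLocalization.mk' S a s) =
      IsLocalization.mk' S' (φ a) (⟨φ s.1, fun h => s.2 h⟩ : P'.asIdeal.primeCompl) := fun a s =>
    Localization.localRingHom_mk' P.asIdeal P'.asIdeal φ rfl a s
  have hψs : Function.Surjective ψ := by
    intro y
    obtain ⟨a, s, rfl⟩ := IsLocalization.exists_mk'_eq P'.asIdeal.primeCompl y
    obtain ⟨b, rfl⟩ := hφ a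
    obtain ⟨t, ht⟩ := hφ s.1
    have htP : t ∈ P.asIdeal.primeCompl := by
      intro h
      apply s.2
      rw [← ht]
      exact h
    refine ⟨IsLocalization.mk' S b ⟨t, htP⟩, ?_⟩
    rw [hψmk]
    congr 1
    exact Subtype.ext ht
  have hψa : ∀ x : R, ψ (algebraMap R S x) = algebraMap R' S' (φ x) := by
    intro x
    exact Localization.localRingHom_to_map _ _ _ rfl x
  set I : Ideal S := J.map (algebraMap R S) with hI
  set I' : Ideal S' := (J.map φ).map (algebraMap R' S') with hI'
  have hII : I.map ψ = I' := by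
    rw [hI, hI', Ideal.map_map, Ideal.map_map]
    congr 1
    exact RingHom.ext hψa
  have hker : RingHom.ker ψ ≤ I := by
    intro x hx
    obtain ⟨a, s, rfl⟩ := IsLocalization.exists_mk'_eq P.asIdeal.primeCompl x
    rw [RingHom.mem_ker, hψmk, IsLocalization.mk'_eq_zero_iff] at hx
    obtain ⟨t, ht⟩ := hx
    obtain ⟨u, hu⟩ := hφ t.1
    have huP : u ∈ P.asIdeal.primeCompl := by
      intro h
      apply t.2
      rw [← hu]
      exact h
    have h1 : u * a ∈ J := by
      apply hJ
      rw [RingHom.mem_ker, map_mul, hu]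
      exact ht
    have h2 : algebraMap R S a ∈ I := by
      have h3 := Ideal.mem_map_of_mem (algebraMap R S) h1
      rw [map_mul] at h3
      exact (Ideal.unit_mul_mem_iff_mem _ (IsLocalization.map_units S
        (⟨u, huP⟩ : P.asIdeal.primeCompl))).mp h3
    have h4 : IsLocalization.mk' S a s = IsLocalization.mk' S 1 s * algebraMap R S a := by
      rw [mul_comm, ← IsLocalization.mk'_eq_mul_mk'_one]
    rw [h4]
    exact I.mul_mem_left _ h2
  have hcomap : I'.comap ψ = I := by
    rw [← hII, Ideal.comap_map_of_surjective _ hψs]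
    apply sup_eq_left.mpr
    rw [← RingHom.ker_eq_comap_bot]
    exact hker
  -- the quotients
  let _ : Algebra S S' := ψ.toAlgebra
  have hmod : Module.length S (S' ⧸ I') = Module.length S' (S' ⧸ I') :=
    Module.length_eq_of_surjective (R := S') (S := S) hψs
  change Module.length S' (S' ⧸ I') = Module.length S (S ⧸ I)
  rw [← hmod]
  let f : S →ₗ[S] (S' ⧸ I') := (Algebra.linearMap S (S' ⧸ I'))
  have hf : Function.Surjective f := by
    intro y
    obtain ⟨z, rfl⟩ := Ideal.Quotient.mk_surjective y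
    obtain ⟨x, rfl⟩ := hψs z
    exact ⟨x, rfl⟩
  have hk : LinearMap.ker f = I := by
    ext x
    rw [LinearMap.mem_ker, ← hcomap, Ideal.mem_comap]
    change Ideal.Quotient.mk I' (ψ x) = 0 ↔ _
    exact Ideal.Quotient.eq_zero_iff_mem
  have e := LinearMap.quotKerEquivOfSurjective f hf
  rw [hk] at e
  exact e.symm.length_eq

end Pool.Agent.HCH
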