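import Pool.Agent.HCH.Defs

namespace Pool.Agent.HCH

/-- If every prime of the finite support of `z` is torsion-equivalent to a multiple of the cycle
`q` modulo the subgroup `G`, then so is `z`. -/
theorem tors_sum {R : Type} [CommRing R] (G : AddSubgroup (PrimeSpectrum R → ℤ))
    (q : PrimeSpectrum R → ℤ) (z : PrimeSpectrum R → ℤ) (hfin : {P | z P ≠ 0}.Finite)
    (h : ∀ P, z P ≠ 0 → ∃ N : ℕ, 0 < N ∧ ∃ c : ℤ, (N : ℤ) • cls P - c • q ∈ G) :
    ∃ N : ℕ, 0 < N ∧ ∃ c : ℤ, (N : ℤ) • z - c • q ∈ G := by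
  classical
  have key : ∀ s : Finset (PrimeSpectrum R), (∀ P ∈ s, z P ≠ 0) →
      ∃ N : ℕ, 0 < N ∧ ∃ c : ℤ, (N : ℤ) • (∑ P ∈ s, z P • cls P) - c • q ∈ G := by
    intro s
    induction s using Finset.induction_on with
    | empty =>
      intro _
      exact ⟨1, one_pos, 0, by simp⟩
    | insert P s hP ih =>
      intro hs
      obtain ⟨N1, hN1, c1, h1⟩ := ih (fun Q hQ => hs Q (Finset.mem_insert_of_mem hQ))
      obtain ⟨N2, hN2, c2, h2⟩ := h P (hs P (Finset.mem_insert_self _ _))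
      refine ⟨N1 * N2, Nat.mul_pos hN1 hN2, N2 * c1 + N1 * z P * c2, ?_⟩
      rw [Finset.sum_insert hP]
      have e : ((N1 * N2 : ℕ) : ℤ) • (z P • cls P + ∑ x ∈ s, z x • cls x) -
          ((N2 : ℤ) * c1 + N1 * z P * c2) • q =
          ((N2 : ℤ)) • ((N1 : ℤ) • (∑ x ∈ s, z x • cls x) - c1 • q) +
          ((N1 : ℤ) * z P) • ((N2 : ℤ) • cls P - c2 • q) := by
        simp only [smul_add, smul_sub, smul_smul, add_smul, Nat.cast_mul]
        rw [mul_comm (N1 : ℤ) (N2 : ℤ)]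
        have : (N2 : ℤ) * N1 * z P = N1 * z P * N2 := by ring
        rw [this]
        abel
      rw [e]
      exact G.add_mem (G.zsmul_mem h1 _) (G.zsmul_mem h2 _)
  obtain ⟨N, hN, c, hc⟩ := key hfin.toFinset (fun P hP => by simpa using hP)
  refine ⟨N, hN, c, ?_⟩
  have e : (∑ P ∈ hfin.toFinset, z P • cls P) = z := by
    funext Q
    rw [Finset.sum_apply]
    simp only [Pi.smul_apply, cls, smul_eq_mul, mul_ite, mul_one, mul_zero]
    rw [Finset.sum_ite_eq]
    by_cases hQ : z Q = 0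
    · simp [hQ]
    · simp [hQ]
  rw [e] at hc
  exact hc

end Pool.Agent.HCH
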