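import Pool.Agent.HCH.B

namespace Pool.Agent.HCH

open MvPolynomial

/-- An algebraic extension does not change the transcendence degree over a base. -/
theorem trdeg_alg_top (K A B : Type) [Field K] [CommRing A] [CommRing B] [IsDomain B] [Algebra K A]
    [Algebra K B] [Nontrivial A] (f : A →ₐ[K] B) (hf : Function.Injective f)
    (halg : ∀ b : B, ∃ p : Polynomial A, p ≠ 0 ∧ Polynomial.eval₂ (f : A →+* B) b p = 0) :
    Algebra.trdeg K A = Algebra.trdeg K B := by
  let _ : Algebra A B := (f : A →+* B).toAlgebra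
  have hsc : IsScalarTower K A B := IsScalarTower.of_algebraMap_eq (fun x => (f.commutes x).symm)
  have hfs : FaithfulSMul A B := (faithfulSMul_iff_algebraMap_injective _ _).mpr hf
  have hfk : FaithfulSMul K A :=
    (faithfulSMul_iff_algebraMap_injective _ _).mpr (algebraMap K A).injective
  have hal : Algebra.IsAlgebraic A B := ⟨fun b => by
    obtain ⟨p, hp0, hp⟩ := halg b
    exact ⟨p, hp0, hp⟩⟩
  have h := trdeg_add_eq K A (A := B)
  have h0 : Algebra.trdeg A B = 0 := trdeg_eq_zero
  rw [h0, add_zero] at h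
  exact h

theorem ext_integral {k E : Type} [Field k] [Field E] [Algebra k E] [Algebra.IsAlgebraic k E]
    {n : ℕ} : (ext k E n).IsIntegral := by
  let _ : Algebra (MvPolynomial (Fin n) k) (MvPolynomial (Fin n) E) :=
    MvPolynomial.algebraMvPolynomial
  intro b
  have h : IsIntegral (MvPolynomial (Fin n) k) b := by
    rw [MvPolynomial.isIntegral_iff_isIntegral_coeff]
    intro d
    exact (Algebra.IsAlgebraic.isAlgebraic (R := k) (b.coeff d)).isIntegral
  exact h

theorem dm_alg {k E : Type} [Field k] [Field E] [Algebra k E] [Algebra.IsAlgebraic k E] {n : ℕ}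
    (q : Ideal (MvPolynomial (Fin n) E)) [hq : q.IsPrime] :
    dm k (q.comap (ext k E n)) = dm E q := by
  unfold dm
  congr 1
  have hp : (q.comap (ext k E n)).IsPrime := Ideal.comap_isPrime _ _
  let φ : MvPolynomial (Fin n) k →ₐ[k] MvPolynomial (Fin n) E :=
    MvPolynomial.mapAlgHom (Algebra.ofId k E)
  have hφ : (φ : MvPolynomial (Fin n) k →+* MvPolynomial (Fin n) E) = ext k E n := rfl
  let f : (MvPolynomial (Fin n) k ⧸ q.comap (ext k E n)) →ₐ[k] (MvPolynomial (Fin n) E ⧸ q) :=
    Ideal.quotientMapₐ q φ le_rfl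
  have hf : Function.Injective f := Ideal.quotientMap_injective' (H := le_rfl) le_rfl
  have hfmk : ∀ a, f (Ideal.Quotient.mk _ a) = Ideal.Quotient.mk q (ext k E n a) := fun a => rfl
  have h1 : Algebra.trdeg k (MvPolynomial (Fin n) k ⧸ q.comap (ext k E n)) =
      Algebra.trdeg k (MvPolynomial (Fin n) E ⧸ q) := by
    apply trdeg_alg_top k _ _ f hf
    intro b
    obtain ⟨b, rfl⟩ := Ideal.Quotient.mk_surjective b
    obtain ⟨p, hpm, hp0⟩ := ext_integral (k := k) b
    refine ⟨p.map (Ideal.Quotient.mk _), (hpm.map _).ne_zero, ?_⟩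
    rw [Polynomial.eval₂_map]
    have h2 : (f : (MvPolynomial (Fin n) k ⧸ q.comap (ext k E n)) →+*
        (MvPolynomial (Fin n) E ⧸ q)).comp (Ideal.Quotient.mk _) =
        (Ideal.Quotient.mk q).comp (ext k E n) := rfl
    rw [h2, ← Polynomial.hom_eval₂, hp0, map_zero]
  rw [h1]
  have hfk : FaithfulSMul k E :=
    (faithfulSMul_iff_algebraMap_injective _ _).mpr (algebraMap k E).injective
  have hfE := (faithfulSMul_iff_algebraMap_injective E (MvPolynomial (Fin n) E ⧸ q)).mpr
    (algebraMap E (MvPolynomial (Fin n) E ⧸ q)).injective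
  have h := trdeg_add_eq k E (A := MvPolynomial (Fin n) E ⧸ q)
  have h0 : Algebra.trdeg k E = 0 := trdeg_eq_zero
  rw [h0, zero_add] at h
  exact h.symm

theorem lying_over {k E : Type} [Field k] [Field E] [Algebra k E] [Algebra.IsAlgebraic k E] {n : ℕ}
    (p : PrimeSpectrum (MvPolynomial (Fin n) k)) :
    ∃ q : PrimeSpectrum (MvPolynomial (Fin n) E),
      PrimeSpectrum.comap (ext k E n) q = p := by
  let _ : Algebra (MvPolynomial (Fin n) k) (MvPolynomial (Fin n) E) := (ext k E n).toAlgebra
  have hint : Algebra.IsIntegral (MvPolynomial (Fin n) k) (MvPolynomial (Fin n) E) :=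
    ⟨fun x => ext_integral (k := k) x⟩
  have hinj : Function.Injective (ext k E n) :=
    MvPolynomial.map_injective _ (algebraMap k E).injective
  have hk : RingHom.ker (algebraMap (MvPolynomial (Fin n) k) (MvPolynomial (Fin n) E)) ≤
      p.asIdeal := by
    have : RingHom.ker (algebraMap (MvPolynomial (Fin n) k) (MvPolynomial (Fin n) E)) = ⊥ :=
      (RingHom.injective_iff_ker_eq_bot _).mp hinj
    rw [this]
    exact bot_le
  obtain ⟨Q, hQ, hQp⟩ := Ideal.exists_ideal_over_prime_of_isIntegral_of_isDomain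
    (S := MvPolynomial (Fin n) E) p.asIdeal hk
  exact ⟨⟨Q, hQ⟩, PrimeSpectrum.ext hQp⟩

end Pool.Agent.HCH
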