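import Pool.Agent.HCH.A4

namespace Pool.Agent.HCH

open MvPolynomial

/-- The functions with finite support inside a set. -/
def suppSub (R : Type) [CommRing R] (A : Set (PrimeSpectrum R)) :
    AddSubgroup (PrimeSpectrum R → ℤ) where
  carrier := {z | {P | z P ≠ 0}.Finite ∧ ∀ P, z P ≠ 0 → P ∈ A}
  zero_mem' := by
    constructor
    · simp
    · intro P h
      exact absurd rfl h
  add_mem' := by
    rintro a b ⟨ha1, ha2⟩ ⟨hb1, hb2⟩
    have h : ∀ P, (a + b) P ≠ 0 → a P ≠ 0 ∨ b P ≠ 0 := by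
      intro P h
      by_contra hc
      push Not at hc
      exact h (by simp [hc.1, hc.2])
    constructor
    · exact (ha1.union hb1).subset h
    · intro P hP
      rcases h P hP with h1 | h1
      · exact ha2 P h1
      · exact hb2 P h1
  neg_mem' := by
    rintro a ⟨ha1, ha2⟩
    constructor
    · simpa using ha1
    · intro P hP
      exact ha2 P (by simpa using hP)

theorem od_ne_zero {R : Type} [CommRing R] (J : Ideal R) (P : PrimeSpectrum R)
    (h : od J P ≠ 0) : mlt J P ≠ 0 := by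
  intro h1
  apply h
  simp [od, h1]

theorem le_of_od {R : Type} [CommRing R] (J : Ideal R) (P : PrimeSpectrum R)
    (h : od J P ≠ 0) : J ≤ P.asIdeal := by
  by_contra h1
  exact od_ne_zero J P h (mlt_eq_zero J P h1)

theorem ARat_supp {K R : Type} [Field K] [CommRing R] [Algebra K R] [Algebra.FiniteType K R]
    (f : R) (e : ℕ) (z : PrimeSpectrum R → ℤ) (hz : z ∈ ARat K f e) :
    {P | z P ≠ 0}.Finite ∧ ∀ P, z P ≠ 0 → f ∈ P.asIdeal ∧ dm K P.asIdeal = e := by
  have key : ARat K f e ≤ suppSub R {P | f ∈ P.asIdeal ∧ dm K P.asIdeal = e} := by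
    unfold ARat
    rw [AddSubgroup.closure_le]
    rintro z ⟨W, g, hf, hd, hg, rfl⟩
    have h1 : ∀ P, adiv K W.asIdeal g e P ≠ 0 → dm K P.asIdeal = e ∧
        od (W.asIdeal ⊔ Ideal.span {g}) P ≠ 0 := by
      intro P hP
      unfold adiv at hP
      split_ifs at hP with h
      · exact ⟨h, hP⟩
      · exact absurd rfl hP
    constructor
    · apply (finite_div W.asIdeal g hg e hd).subset
      intro P hP
      exact ⟨(h1 P hP).1, od_ne_zero _ _ (h1 P hP).2⟩
    · intro P hP
      exact ⟨le_of_od _ _ (h1 P hP).2 (Submodule.mem_sup_left hf), (h1 P hP).1⟩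
  exact key hz

theorem PRat_supp {K : Type} [Field K] {m : ℕ} (F : MvPolynomial (Fin m) K) (e : ℕ)
    (z : PrimeSpectrum (MvPolynomial (Fin m) K) → ℤ) (hz : z ∈ PRat F e) :
    {P | z P ≠ 0}.Finite ∧ ∀ P, z P ≠ 0 → HgI P.asIdeal ∧ F ∈ P.asIdeal ∧ dm K P.asIdeal = e := by
  have key : PRat F e ≤ suppSub (MvPolynomial (Fin m) K)
      {P | HgI P.asIdeal ∧ F ∈ P.asIdeal ∧ dm K P.asIdeal = e} := by
    unfold PRat
    rw [AddSubgroup.closure_le]
    rintro z ⟨W, G, H, a, hW, hF, hd, hG, hH, hGW, hHW, rfl⟩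
    have h1 : ∀ (G : MvPolynomial (Fin m) K), G ∉ W.asIdeal → pdiv K W.asIdeal G e ∈
        suppSub (MvPolynomial (Fin m) K)
        {P | HgI P.asIdeal ∧ F ∈ P.asIdeal ∧ dm K P.asIdeal = e} := by
      intro G hGW
      have h1 : ∀ P, pdiv K W.asIdeal G e P ≠ 0 → HgI P.asIdeal ∧ dm K P.asIdeal = e ∧
          od (W.asIdeal ⊔ Ideal.span {G}) P ≠ 0 := by
        intro P hP
        unfold pdiv at hP
        split_ifs at hP with h
        · exact ⟨h.1, h.2, hP⟩
        · exact absurd rfl hP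
      constructor
      · apply (finite_div W.asIdeal G hGW e hd).subset
        intro P hP
        exact ⟨(h1 P hP).2.1, od_ne_zero _ _ (h1 P hP).2.2⟩
      · intro P hP
        exact ⟨(h1 P hP).1, le_of_od _ _ (h1 P hP).2.2 (Submodule.mem_sup_left hF),
          (h1 P hP).2.1⟩
    exact AddSubgroup.sub_mem _ (h1 G hGW) (h1 H hHW)
  exact key hz

end Pool.Agent.HCH
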