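import Pool.Agent.HCH.G6

namespace Pool.Agent.HCH

open MvPolynomial

theorem descend_gal {k E : Type} [Field k] [CharZero k] [Field E] [Algebra k E]
    [FiniteDimensional k E] [IsGalois k E] {n : ℕ} (f : MvPolynomial (Fin n) k) (e : ℕ)
    (z : PrimeSpectrum (MvPolynomial (Fin n) E) → ℤ) (hz : z ∈ ARat E (ext k E n f) e) :
    ∃ z' ∈ ARat k f e, ∀ q, z' (PrimeSpectrum.comap (ext k E n) q) =
      ∑ σ : E ≃ₐ[k] E, z (PrimeSpectrum.comap (ga n σ) q) := by
  classical
  unfold ARat at hz
  induction hz using AddSubgroup.closure_induction with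
  | mem z hz =>
    obtain ⟨w, b, hf, hd, hb, rfl⟩ := hz
    obtain ⟨C, D, hC, hD, hform⟩ := norm_formula (k := k) w e hd b hb
    set w0 := PrimeSpectrum.comap (ext k E n) w with hw0
    have hdw0 : dm k w0.asIdeal = e + 1 := by
      rw [← hd]
      exact dm_alg w.asIdeal
    have hC0 : C ∉ w0.asIdeal := hC
    have hD0 : D ∉ w0.asIdeal := hD
    refine ⟨adiv k w0.asIdeal C e - adiv k w0.asIdeal D e, ?_, ?_⟩
    · apply (ARat k f e).sub_mem
      · exact AddSubgroup.subset_closure ⟨w0, C, hf, hdw0, hC0, rfl⟩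
      · exact AddSubgroup.subset_closure ⟨w0, D, hf, hdw0, hD0, rfl⟩
    · intro q
      have hdq : dm k (PrimeSpectrum.comap (ext k E n) q).asIdeal = dm E q.asIdeal :=
        dm_alg q.asIdeal
      rw [Pi.sub_apply]
      unfold adiv
      simp only [ga_dm, hdq]
      by_cases hq : dm E q.asIdeal = e
      · simp only [if_pos hq]
        have h1 := hform q hq
        have h2 := congrArg ENat.toNat h1
        have hfin : ∀ σ : E ≃ₐ[k] E, mlt (w.asIdeal ⊔ Ideal.span {b})
            (PrimeSpectrum.comap (ga n σ) q) ≠ ⊤ := by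
          intro σ
          apply mlt_ne_top (K := E) w.asIdeal b hb
          rw [ga_dm, hq, hd]
        have hfin2 : ∀ D, D ∉ w0.asIdeal → mlt (w0.asIdeal ⊔ Ideal.span {D})
            (PrimeSpectrum.comap (ext k E n) q) ≠ ⊤ := by
          intro D hD
          apply mlt_ne_top (K := k) w0.asIdeal D hD
          rw [hdq, hq, hdw0]
        have hsum : (∑ σ : E ≃ₐ[k] E, mlt (w.asIdeal ⊔ Ideal.span {b})
            (PrimeSpectrum.comap (ga n σ) q)) =
            ((∑ σ : E ≃ₐ[k] E, (mlt (w.asIdeal ⊔ Ideal.span {b})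
            (PrimeSpectrum.comap (ga n σ) q)).toNat : ℕ) : ℕ∞) := by
          push_cast
          apply Finset.sum_congr rfl
          intro σ _
          exact (ENat.natCast_toNat (hfin σ)).symm
        have h3 : ((∑ σ : E ≃ₐ[k] E, (mlt (w.asIdeal ⊔ Ideal.span {b})
            (PrimeSpectrum.comap (ga n σ) q)).toNat : ℕ)) +
            (mlt (w0.asIdeal ⊔ Ideal.span {D}) (PrimeSpectrum.comap (ext k E n) q)).toNat =
            (mlt (w0.asIdeal ⊔ Ideal.span {C}) (PrimeSpectrum.comap (ext k E n) q)).toNat := by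
          have h4 : (mlt (w0.asIdeal ⊔ Ideal.span {D})
              (PrimeSpectrum.comap (ext k E n) q)) =
              ((mlt (w0.asIdeal ⊔ Ideal.span {D})
              (PrimeSpectrum.comap (ext k E n) q)).toNat : ℕ∞) :=
            (ENat.natCast_toNat (hfin2 D hD0)).symm
          have h5 : (mlt (w0.asIdeal ⊔ Ideal.span {C})
              (PrimeSpectrum.comap (ext k E n) q)) =
              ((mlt (w0.asIdeal ⊔ Ideal.span {C})
              (PrimeSpectrum.comap (ext k E n) q)).toNat : ℕ∞) :=
            (ENat.natCast_toNat (hfin2 C hC0)).symm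
          have h6 : (∑ σ : E ≃ₐ[k] E, mlt (w.asIdeal ⊔ Ideal.span {b})
            (PrimeSpectrum.comap (ga n σ) q)) + (mlt (w0.asIdeal ⊔ Ideal.span {D})
              (PrimeSpectrum.comap (ext k E n) q)) = (mlt (w0.asIdeal ⊔ Ideal.span {C})
              (PrimeSpectrum.comap (ext k E n) q)) := h1
          rw [hsum, h4, h5] at h6
          exact_mod_cast h6
        unfold od
        have h7 := congrArg (fun n : ℕ => (n : ℤ)) h3
        push_cast at h7
        linarith
      · simp only [if_neg hq]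
        simp
  | zero => exact ⟨0, (ARat k f e).zero_mem, fun _ => by simp⟩
  | add x y _ _ hx hy =>
    obtain ⟨z1, h1, h2⟩ := hx
    obtain ⟨z2, h3, h4⟩ := hy
    exact ⟨z1 + z2, (ARat k f e).add_mem h1 h3, fun p => by
      rw [Pi.add_apply, h2, h4, ← Finset.sum_add_distrib]
      rfl⟩
  | neg x _ hx =>
    obtain ⟨z1, h1, h2⟩ := hx
    exact ⟨-z1, (ARat k f e).neg_mem h1, fun p => by
      rw [Pi.neg_apply, h2, ← Finset.sum_neg_distrib]
      rfl⟩

end Pool.Agent.HCH
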