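import Pool.Agent.HCH.G3
import Pool.Agent.HCH.G7

namespace Pool.Agent.HCH

open MvPolynomial

theorem descend_AT {k L : Type} [Field k] [CharZero k] [Field L] [Algebra k L]
    [IsAlgClosure k L] {n : ℕ} (f : MvPolynomial (Fin n) k) (e : ℕ)
    (h : AT L (ext k L n f) e) : AT k f e := by
  classical
  have halg : Algebra.IsAlgebraic k L := IsAlgClosure.isAlgebraic
  have hac : IsAlgClosed L := IsAlgClosure.isAlgClosed k
  have hnorm : Normal k L := inferInstance
  have hgalk : IsGalois k L := ⟨⟩
  intro p hp hd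
  obtain ⟨q, rfl⟩ := lying_over (E := L) p
  have hdq : dm L q.asIdeal = e := by
    rw [← hd]
    exact (dm_alg q.asIdeal).symm
  obtain ⟨N, hN, hz⟩ := h q hp hdq
  obtain ⟨s, hs⟩ := descend_fin f e _ hz
  obtain ⟨E, hsE, hfd, hgal⟩ := exists_galois (k := k) s
  obtain ⟨z', hz', hz'v⟩ := hs E hsE
  have halgE : Algebra.IsAlgebraic k E := inferInstance
  have halgL : Algebra.IsAlgebraic E L := Algebra.IsAlgebraic.tower_top (K := k) E
  set qE := PrimeSpectrum.comap (ext E L n) q with hqE
  -- z' is a multiple of the class of qE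
  have hz'1 : z' = (N : ℤ) • cls qE := by
    funext r
    obtain ⟨q', rfl⟩ := lying_over (E := L) r
    rw [hz'v, Pi.smul_apply, Pi.smul_apply]
    by_cases h1 : q' = q
    · subst h1
      simp [cls, hqE]
    · have h2 : (N : ℤ) • cls q q' = 0 := by simp [cls, h1]
      have h3 := hz'v q'
      rw [Pi.smul_apply, h2] at h3
      rw [h2]
      by_cases h4 : PrimeSpectrum.comap (ext E L n) q' = qE
      · exfalso
        have h5 := hz'v q
        rw [Pi.smul_apply] at h5
        rw [h4, hqE, h5] at h3
        simp [cls] at h3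
        omega
      · simp [cls, h4]
  obtain ⟨z'', hz'', hz''v⟩ := descend_gal f e z' hz'
  have hcomp : ∀ r : PrimeSpectrum (MvPolynomial (Fin n) L),
      PrimeSpectrum.comap (ext k E n) (PrimeSpectrum.comap (ext E L n) r) =
        PrimeSpectrum.comap (ext k L n) r := by
    intro r
    apply PrimeSpectrum.ext
    change (r.asIdeal.comap (ext E L n)).comap (ext k E n) = r.asIdeal.comap (ext k L n)
    rw [Ideal.comap_comap, ext_comp]
  set A : Finset (E ≃ₐ[k] E) := Finset.univ.filter
    (fun σ => PrimeSpectrum.comap (ga n σ) qE = qE) with hA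
  have hA1 : 0 < A.card := by
    rw [Finset.card_pos]
    refine ⟨1, ?_⟩
    rw [hA, Finset.mem_filter]
    refine ⟨Finset.mem_univ _, ?_⟩
    apply PrimeSpectrum.ext
    ext a
    change ga n 1 a ∈ qE.asIdeal ↔ _
    rw [ga_one]
  refine ⟨N * A.card, Nat.mul_pos hN hA1, ?_⟩
  have hfin : ((N * A.card : ℕ) : ℤ) • cls (PrimeSpectrum.comap (ext k L n) q) = z'' := by
    funext r
    by_cases hr : r = PrimeSpectrum.comap (ext k L n) q
    · subst hr
      rw [← hcomp q, ← hqE, hz''v, hz'1]
      have h1 : ∀ σ : E ≃ₐ[k] E, ((N : ℤ) • cls qE) (PrimeSpectrum.comap (ga n σ) qE) =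
          if PrimeSpectrum.comap (ga n σ) qE = qE then (N : ℤ) else 0 := by
        intro σ
        by_cases h2 : PrimeSpectrum.comap (ga n σ) qE = qE
        · rw [h2]
          simp [cls]
        · simp [cls, h2]
      rw [Finset.sum_congr rfl (fun σ _ => h1 σ), ← Finset.sum_filter, Finset.sum_const, ← hA]
      simp [cls, mul_comm]
    · obtain ⟨r', rfl⟩ := lying_over (E := E) r
      rw [hz''v, hz'1]
      have h0 : ((N * A.card : ℕ) : ℤ) • cls (PrimeSpectrum.comap (ext k L n) q)
          (PrimeSpectrum.comap (ext k E n) r') = 0 := by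
        simp [cls, hr]
      rw [Pi.smul_apply, h0]
      symm
      apply Finset.sum_eq_zero
      intro σ _
      have h1 : PrimeSpectrum.comap (ga n σ) r' ≠ qE := by
        intro h2
        apply hr
        rw [← hcomp q, ← hqE, ← h2, ga_comap]
      simp [cls, h1]
  rw [hfin]
  exact hz''

end Pool.Agent.HCH
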