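import Pool.Agent.HCH.A1

namespace Pool.Agent.HCH

/-
ROW A1b (0.8 h). mlt_local: φ : A → B with B local, p = φ⁻¹(m_B). A_p → B by IsLocalization.lift (elements outside p go to units);
B is flat over A_p (Module.Flat of A_p: a module over the localisation that is flat over A is flat over A_p:
`Module.flat_of_isLocalized...` / IsLocalization flatness: for A_p-modules the tensor products over A and A_p agree,
`IsLocalizedModule`, `Module.flat_iff_of_isLocalization`); m_{A_p} B = pB = m_B; then A1 with I = J A_p:
I.map (A_p → B) = J.map φ (Ideal.map_map).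
mlt_flat: apply mlt_local to A → B → B_q (flat composition, RingHom.Flat.comp, IsLocalization.flat).
-/
theorem mlt_local {A B : Type} [CommRing A] [CommRing B] [IsLocalRing B] (φ : A →+* B)
    (hφ : φ.Flat) (p : PrimeSpectrum A)
    (hp : p.asIdeal = (IsLocalRing.maximalIdeal B).comap φ)
    (hmax : p.asIdeal.map φ = IsLocalRing.maximalIdeal B) (J : Ideal A) :
    Module.length B (B ⧸ J.map φ) = mlt J p := by
  have hu : ∀ y : p.asIdeal.primeCompl, IsUnit (φ y) := by
    intro y
    by_contra hy
    have h1 : (φ y) ∈ IsLocalRing.maximalIdeal B := (IsLocalRing.mem_maximalIdeal _).mpr hy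
    have h2 : (y : A) ∈ p.asIdeal := by
      have h3 : (y : A) ∈ (IsLocalRing.maximalIdeal B).comap φ := h1
      rwa [← hp] at h3
    exact y.2 h2
  let _ : Algebra A B := φ.toAlgebra
  let ψ : Localization.AtPrime p.asIdeal →+* B :=
    IsLocalization.lift (M := p.asIdeal.primeCompl) hu
  let _ : Algebra (Localization.AtPrime p.asIdeal) B := ψ.toAlgebra
  have hcomp : ψ.comp (algebraMap A (Localization.AtPrime p.asIdeal)) = φ :=
    IsLocalization.lift_comp hu
  have : IsScalarTower A (Localization.AtPrime p.asIdeal) B :=
    IsScalarTower.of_algebraMap_eq' hcomp.symm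
  have : Module.Flat A B := hφ
  have : Module.Flat (Localization.AtPrime p.asIdeal) B :=
    (Module.flat_iff_of_isLocalization (Localization.AtPrime p.asIdeal)
      p.asIdeal.primeCompl B).mpr inferInstance
  have hm : (IsLocalRing.maximalIdeal (Localization.AtPrime p.asIdeal)).map
      (algebraMap (Localization.AtPrime p.asIdeal) B) = IsLocalRing.maximalIdeal B := by
    rw [← Localization.AtPrime.map_eq_maximalIdeal, Ideal.map_map]
    change p.asIdeal.map (ψ.comp (algebraMap A (Localization.AtPrime p.asIdeal))) = _
    rw [hcomp, hmax]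
  have h := length_quot_map hm (J.map (algebraMap A (Localization.AtPrime p.asIdeal)))
  rw [Ideal.map_map] at h
  change Module.length B (B ⧸ J.map (ψ.comp (algebraMap A (Localization.AtPrime p.asIdeal)))) = _
    at h
  rw [hcomp] at h
  exact h

theorem mlt_flat {A B : Type} [CommRing A] [CommRing B] (φ : A →+* B) (hφ : φ.Flat)
    (q : PrimeSpectrum B)
    (hmax : ((q.asIdeal.comap φ).map φ).map (algebraMap B (Localization.AtPrime q.asIdeal)) =
      IsLocalRing.maximalIdeal (Localization.AtPrime q.asIdeal)) (J : Ideal A) :
    mlt (J.map φ) q = mlt J (PrimeSpectrum.comap φ q) := by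
  have hfl : ((algebraMap B (Localization.AtPrime q.asIdeal)).comp φ).Flat := by
    apply RingHom.Flat.comp hφ
    rw [RingHom.flat_algebraMap_iff]
    exact IsLocalization.flat _ q.asIdeal.primeCompl
  have hp : (PrimeSpectrum.comap φ q).asIdeal =
      (IsLocalRing.maximalIdeal (Localization.AtPrime q.asIdeal)).comap
        ((algebraMap B (Localization.AtPrime q.asIdeal)).comp φ) := by
    have h1 : (IsLocalRing.maximalIdeal (Localization.AtPrime q.asIdeal)).comap
        (algebraMap B (Localization.AtPrime q.asIdeal)) = q.asIdeal :=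
      Localization.AtPrime.under_maximalIdeal
    rw [← Ideal.comap_comap, h1]
    rfl
  have hmax' : (PrimeSpectrum.comap φ q).asIdeal.map
      ((algebraMap B (Localization.AtPrime q.asIdeal)).comp φ) =
      IsLocalRing.maximalIdeal (Localization.AtPrime q.asIdeal) := by
    rw [← Ideal.map_map]
    exact hmax
  have h := mlt_local _ hfl (PrimeSpectrum.comap φ q) hp hmax' J
  rw [← h, ← Ideal.map_map]
  rfl

end Pool.Agent.HCH
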