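import Pool.Agent.HCH.B4
import Pool.Agent.HCH.A1b
import Pool.Agent.HCH.B3

namespace Pool.Agent.HCH

open MvPolynomial

theorem trdeg_ratfunc (K : Type) [Field K] : Algebra.trdeg K (RatFunc K) = 1 := by
  have h := trdeg_alg_top K (Polynomial K) (RatFunc K)
    (IsScalarTower.toAlgHom K (Polynomial K) (RatFunc K))
    (IsFractionRing.injective (Polynomial K) (RatFunc K)) (by
      intro b
      obtain ⟨p, q, hq, rfl⟩ := IsFractionRing.div_surjective (A := Polynomial K) b
      have hq0 : q ≠ 0 := nonZeroDivisors.ne_zero hq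
      refine ⟨Polynomial.C q * Polynomial.X - Polynomial.C p, ?_, ?_⟩
      · intro h0
        have h1 := congrArg (fun r => Polynomial.coeff r 1) h0
        simp [Polynomial.coeff_C] at h1
        exact hq0 h1
      · have hq1 : algebraMap (Polynomial K) (RatFunc K) q ≠ 0 := by
          intro h0
          apply hq0
          apply IsFractionRing.injective (Polynomial K) (RatFunc K)
          rw [h0, map_zero]
        simp
        field_simp
        simp)
  rw [← h]
  exact Polynomial.trdeg_of_isDomain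

theorem dm_lam {K : Type} [Field K] {m : ℕ} (q : Ideal (MvPolynomial (Fin m) (RatFunc K)))
    [hq : q.IsPrime] : dm K (q.comap (lamR K m)) = dm (RatFunc K) q + 1 := by
  have hp : (q.comap (lamR K m)).IsPrime := Ideal.comap_isPrime _ _
  let f : (MvPolynomial (Fin (m + 1)) K ⧸ q.comap (lamR K m)) →ₐ[K]
      (MvPolynomial (Fin m) (RatFunc K) ⧸ q) := Ideal.quotientMapₐ q lam le_rfl
  have hf : Function.Injective f := Ideal.quotientMap_injective' (H := le_rfl) le_rfl
  have h1 : Algebra.trdeg K (MvPolynomial (Fin (m + 1)) K ⧸ q.comap (lamR K m)) =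
      Algebra.trdeg K (MvPolynomial (Fin m) (RatFunc K) ⧸ q) := by
    apply trdeg_alg_top K _ _ f hf
    intro b
    obtain ⟨b, rfl⟩ := Ideal.Quotient.mk_surjective b
    obtain ⟨x, s, hs0, hx⟩ : ∃ x s : MvPolynomial (Fin (m + 1)) K, lamR K m s ∉ q ∧
        lamR K m x = b * lamR K m s := by
      let _ := (lamR K m).toAlgebra
      have hl : IsLocalization (b4_M K m) (MvPolynomial (Fin m) (RatFunc K)) := b4_loc K m
      obtain ⟨⟨x, s⟩, hx⟩ := IsLocalization.surj (b4_M K m) b
      obtain ⟨d, hd0, -, hd⟩ := b4_mem s.2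
      refine ⟨x, s.1, ?_, hx.symm⟩
      intro hmem
      apply hq.ne_top
      apply Ideal.eq_top_of_isUnit_mem _ hmem
      rw [hd]
      apply IsUnit.map
      rw [isUnit_iff_ne_zero]
      intro h0
      apply hd0
      apply IsFractionRing.injective (Polynomial K) (RatFunc K)
      rw [h0, map_zero]
    have hs1 : Ideal.Quotient.mk (q.comap (lamR K m)) s ≠ 0 := by
      intro h0
      exact hs0 (Ideal.mem_comap.mp ((Ideal.Quotient.eq_zero_iff_mem (I := q.comap (lamR K m))).mp h0))
    refine ⟨Polynomial.C (Ideal.Quotient.mk _ s) * Polynomial.X -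
      Polynomial.C (Ideal.Quotient.mk _ x), ?_, ?_⟩
    · intro h0
      have h1 := congrArg (fun r => Polynomial.coeff r 1) h0
      simp [Polynomial.coeff_C] at h1
      exact hs1 h1
    · have h2 : ∀ y, f (Ideal.Quotient.mk _ y) = Ideal.Quotient.mk q (lamR K m y) := fun y => rfl
      rw [Polynomial.eval₂_sub, Polynomial.eval₂_mul, Polynomial.eval₂_C, Polynomial.eval₂_X,
        Polynomial.eval₂_C]
      change f (Ideal.Quotient.mk _ s) * _ - f (Ideal.Quotient.mk _ x) = 0
      rw [h2, h2, hx, map_mul]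
      ring
  have hfK : FaithfulSMul K (RatFunc K) :=
    (faithfulSMul_iff_algebraMap_injective _ _).mpr (algebraMap K (RatFunc K)).injective
  have hfE := (faithfulSMul_iff_algebraMap_injective (RatFunc K)
    (MvPolynomial (Fin m) (RatFunc K) ⧸ q)).mpr
    (algebraMap (RatFunc K) (MvPolynomial (Fin m) (RatFunc K) ⧸ q)).injective
  have h := trdeg_add_eq K (RatFunc K) (A := MvPolynomial (Fin m) (RatFunc K) ⧸ q)
  rw [trdeg_ratfunc, ← h1] at h
  unfold dm
  rw [← h]
  have f2 : Algebra.trdeg (RatFunc K) (MvPolynomial (Fin m) (RatFunc K) ⧸ q) < Cardinal.aleph0 :=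
    trdeg_lt_aleph0_of_finiteType
  rw [Cardinal.toNat_add Cardinal.one_lt_aleph0 f2]
  simp [add_comm]

theorem mlt_lam {K : Type} [Field K] {m : ℕ} (J : Ideal (MvPolynomial (Fin (m + 1)) K))
    (q : PrimeSpectrum (MvPolynomial (Fin m) (RatFunc K))) :
    mlt (J.map (lamR K m)) q = mlt J (PrimeSpectrum.comap (lamR K m) q) := by
  apply mlt_flat (lamR K m) lam_flat q
  rw [lam_map, Localization.AtPrime.map_eq_maximalIdeal]

end Pool.Agent.HCH
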