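import Pool.Agent.HCH.E0
import Pool.Agent.HCH.B4b
import Pool.Agent.MP_4aec10_nt.Der

namespace Pool.Agent.HCH

open MvPolynomial

/-- `X 0 ↦ X 0 * X last` -/
noncomputable def e4_sig (K : Type) [Field K] (m : ℕ) :
    MvPolynomial (Fin (m + 2)) K →ₐ[K] MvPolynomial (Fin (m + 2)) K :=
  aeval (Fin.cons (α := fun _ => MvPolynomial (Fin (m + 2)) K)
    (X 0 * X (Fin.last (m + 1))) fun k => X k.succ)

theorem e4_sig_zero (K : Type) [Field K] (m : ℕ) :
    e4_sig K m (X 0) = X 0 * X (Fin.last (m + 1)) := by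
  unfold e4_sig
  rw [aeval_X, Fin.cons_zero]

theorem e4_sig_succ (K : Type) [Field K] (m : ℕ) (k : Fin (m + 1)) :
    e4_sig K m (X k.succ) = X k.succ := by
  unfold e4_sig
  rw [aeval_X, Fin.cons_succ]

theorem e4_alg {K : Type} [Field K] {m : ℕ} (P : Ideal (MvPolynomial (Fin (m + 2)) K)) [P.IsPrime]
    (hl : (X (Fin.last (m + 1)) : MvPolynomial (Fin (m + 2)) K) ∉ P) :
    dm K (P.comap (e4_sig K m)) = dm K P := by
  have hP' : (P.comap (e4_sig K m)).IsPrime := Ideal.comap_isPrime _ _
  let φ : (MvPolynomial (Fin (m + 2)) K ⧸ P.comap (e4_sig K m)) →ₐ[K]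
      (MvPolynomial (Fin (m + 2)) K ⧸ P) := Ideal.quotientMapₐ P (e4_sig K m) le_rfl
  have hφ : ∀ p, φ (Ideal.Quotient.mk _ p) = Ideal.Quotient.mk P (e4_sig K m p) := fun _ => rfl
  have hinj : Function.Injective φ := by
    rw [injective_iff_map_eq_zero]
    intro a
    obtain ⟨p, rfl⟩ := Ideal.Quotient.mk_surjective a
    rw [hφ, Ideal.Quotient.eq_zero_iff_mem, Ideal.Quotient.eq_zero_iff_mem]
    exact id
  let _ : Algebra (MvPolynomial (Fin (m + 2)) K ⧸ P.comap (e4_sig K m))
    (MvPolynomial (Fin (m + 2)) K ⧸ P) := φ.toRingHom.toAlgebra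
  have halg : ∀ a, algebraMap (MvPolynomial (Fin (m + 2)) K ⧸ P.comap (e4_sig K m))
      (MvPolynomial (Fin (m + 2)) K ⧸ P) a = φ a := fun _ => rfl
  have : IsScalarTower K (MvPolynomial (Fin (m + 2)) K ⧸ P.comap (e4_sig K m))
      (MvPolynomial (Fin (m + 2)) K ⧸ P) :=
    IsScalarTower.of_algebraMap_eq fun x => (φ.commutes x).symm
  have : FaithfulSMul (MvPolynomial (Fin (m + 2)) K ⧸ P.comap (e4_sig K m))
      (MvPolynomial (Fin (m + 2)) K ⧸ P) :=
    (faithfulSMul_iff_algebraMap_injective _ _).2 hinj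
  have hfK : @FaithfulSMul K (MvPolynomial (Fin (m + 2)) K ⧸ P.comap (e4_sig K m)) Algebra.toSMul :=
    (faithfulSMul_iff_algebraMap_injective _ _).2 (RingHom.injective _)
  have hX : ∀ k : Fin (m + 1), IsAlgebraic (MvPolynomial (Fin (m + 2)) K ⧸ P.comap (e4_sig K m))
      (Ideal.Quotient.mk P (X k.succ)) := by
    intro k
    have h1 : Ideal.Quotient.mk P (X k.succ) =
        algebraMap (MvPolynomial (Fin (m + 2)) K ⧸ P.comap (e4_sig K m)) _
          (Ideal.Quotient.mk _ (X k.succ)) := by
      rw [halg, hφ, e4_sig_succ]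
    rw [h1]
    exact isAlgebraic_algebraMap _
  have hX0 : IsAlgebraic (MvPolynomial (Fin (m + 2)) K ⧸ P.comap (e4_sig K m))
      (Ideal.Quotient.mk P (X 0)) := by
    have hlast : (Fin.last (m + 1) : Fin (m + 2)) = (Fin.last m).succ := rfl
    refine ⟨Polynomial.C (Ideal.Quotient.mk _ (X (Fin.last (m + 1)))) * Polynomial.X -
      Polynomial.C (Ideal.Quotient.mk _ (X 0)), ?_, ?_⟩
    · intro h0
      have h1 := congrArg (fun q => Polynomial.coeff q 1) h0
      simp only [Polynomial.coeff_sub, Polynomial.coeff_C_mul, Polynomial.coeff_X_one, mul_one,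
        Polynomial.coeff_C_succ, sub_zero, Polynomial.coeff_zero] at h1
      rw [Ideal.Quotient.eq_zero_iff_mem, Ideal.mem_comap, hlast, e4_sig_succ] at h1
      exact hl h1
    · rw [map_sub, map_mul, Polynomial.aeval_C, Polynomial.aeval_C, Polynomial.aeval_X, halg, halg,
        hφ, hφ, e4_sig_zero, hlast, e4_sig_succ, ← map_mul, ← map_sub, mul_comm, sub_self, map_zero]
  have : Algebra.IsAlgebraic (MvPolynomial (Fin (m + 2)) K ⧸ P.comap (e4_sig K m))
      (MvPolynomial (Fin (m + 2)) K ⧸ P) := by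
    constructor
    intro a
    obtain ⟨p, rfl⟩ := Ideal.Quotient.mk_surjective a
    induction p using MvPolynomial.induction_on with
    | C c =>
      have h1 : Ideal.Quotient.mk P (C c) =
          algebraMap (MvPolynomial (Fin (m + 2)) K ⧸ P.comap (e4_sig K m)) _
            (Ideal.Quotient.mk _ (C c)) := by
        rw [halg, hφ]
        congr 1
        exact ((e4_sig K m).commutes c).symm
      rw [h1]
      exact isAlgebraic_algebraMap _
    | add p q hp hq =>
      rw [map_add]
      exact hp.add hq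
    | mul_X p i hp =>
      rw [map_mul]
      refine hp.mul ?_
      refine Fin.cases ?_ ?_ i
      · exact hX0
      · exact hX
  have h1 := _root_.trdeg_add_eq K (MvPolynomial (Fin (m + 2)) K ⧸ P.comap (e4_sig K m))
    (A := MvPolynomial (Fin (m + 2)) K ⧸ P)
  rw [_root_.trdeg_eq_zero (R := MvPolynomial (Fin (m + 2)) K ⧸ P.comap (e4_sig K m)), add_zero] at h1
  unfold dm
  rw [h1]

theorem e4_psi {K : Type} [Field K] {m : ℕ} (G : MvPolynomial (Fin (m + 2)) K) :
    psiR K m G = lamR K (m + 1) (e4_sig K m G) := by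
  have h : (psi : MvPolynomial (Fin (m + 2)) K →ₐ[K] MvPolynomial (Fin (m + 1)) (RatFunc K)) =
      (lam : MvPolynomial (Fin (m + 2)) K →ₐ[K] MvPolynomial (Fin (m + 1)) (RatFunc K)).comp
        (e4_sig K m) := by
    apply MvPolynomial.algHom_ext
    intro i
    rw [AlgHom.comp_apply]
    refine Fin.cases ?_ (fun k => ?_) i
    · rw [e4_sig_zero, map_mul]
      unfold psi lam
      have hlast : (Fin.last (m + 1) : Fin (m + 2)) = (Fin.last m).succ := rfl
      rw [hlast, aeval_X, aeval_X, aeval_X, Fin.cons_zero, Fin.cons_zero, Fin.cons_succ]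
    · rw [e4_sig_succ]
      unfold psi lam
      rw [aeval_X, aeval_X, Fin.cons_succ, Fin.cons_succ]
  exact DFunLike.congr_fun h G

theorem e4_chain {K L : Type} [Field K] [Field L] [Algebra K L] (D : Derivation K L L) {n : ℕ}
    (x : Fin n → L) (G : MvPolynomial (Fin n) K) :
    D (aeval x G) = ∑ k, aeval x (pderiv k G) * D (x k) := by
  induction G using MvPolynomial.induction_on with
  | C c =>
    rw [MvPolynomial.aeval_C, Derivation.map_algebraMap]
    symm
    refine Finset.sum_eq_zero fun k _ => ?_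
    rw [pderiv_C, map_zero, zero_mul]
  | add p q hp hq =>
    rw [map_add, map_add, hp, hq, ← Finset.sum_add_distrib]
    refine Finset.sum_congr rfl fun k _ => ?_
    rw [map_add, map_add, add_mul]
  | mul_X p i hp =>
    rw [map_mul, Derivation.leibniz, hp, aeval_X, smul_eq_mul, smul_eq_mul]
    have h1 : ∀ k, aeval x (pderiv k (p * X i)) * D (x k) =
        x i * (aeval x (pderiv k p) * D (x k)) + if k = i then aeval x p * D (x k) else 0 := by
      intro k
      rw [pderiv_mul, pderiv_X, map_add, map_mul, map_mul, aeval_X]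
      by_cases hk : k = i
      · subst hk
        rw [Pi.single_eq_same, map_one, if_pos rfl]
        ring
      · rw [Pi.single_eq_of_ne (fun h => hk h.symm), map_zero, if_neg hk]
        ring
    rw [Finset.sum_congr rfl fun k _ => h1 k, Finset.sum_add_distrib, ← Finset.mul_sum,
      Finset.sum_ite_eq' Finset.univ i, if_pos (Finset.mem_univ i)]
    ring

theorem e4_deriv {K L : Type} [Field K] [Field L] [Algebra K L] [CharZero K] {t : L}
    (ht : Transcendental K t) : ∃ D : Derivation K L L, D t = 1 := by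
  have h1 : AlgebraicIndepOn K id ({t} : Set L) := by
    rw [AlgebraicIndepOn]
    exact (algebraicIndependent_unique_type_iff).2 ht
  obtain ⟨B, hB, hB2⟩ := exists_isTranscendenceBasis_superset h1
  obtain ⟨D, hD, _⟩ := Pool.Agent.MP_4aec10_nt.exists_derivation B hB2 ⟨t, hB rfl⟩
  exact ⟨D, hD⟩

theorem e4_field {K L : Type} [Field K] [Field L] [Algebra K L] [CharZero K] {m : ℕ} {t : L}
    (ht : Transcendental K t) (y : Fin (m + 1) → L) (hy : y (Fin.last m) ≠ 0)
    (x : Fin (m + 2) → L) (hx0 : x 0 = t * y (Fin.last m)) (hxs : ∀ j, x (Fin.succ j) = y j)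
    (F : MvPolynomial (Fin (m + 2)) K) (hF0 : aeval x F = 0)
    (h : ∀ j : Fin (m + 1), aeval x (pderiv j.succ F) +
      (if j = Fin.last m then t * aeval x (pderiv 0 F) else 0) = 0) :
    ∀ k, aeval x (pderiv k F) = 0 := by
  obtain ⟨D, hD⟩ := e4_deriv ht
  have h1 := e4_chain D x F
  rw [hF0, map_zero, Fin.sum_univ_succ, Fin.sum_univ_castSucc] at h1
  have h2 : ∀ k : Fin m, aeval x (pderiv (Fin.castSucc k).succ F) = 0 := by
    intro k
    have h3 := h (Fin.castSucc k)
    rwa [if_neg (Fin.castSucc_lt_last k).ne, add_zero] at h3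
  have h3 := h (Fin.last m)
  rw [if_pos rfl] at h3
  have h4 : ∑ i : Fin m, aeval x (pderiv (Fin.castSucc i).succ F) * D (x (Fin.castSucc i).succ) = 0 :=
    Finset.sum_eq_zero fun k _ => by rw [h2, zero_mul]
  rw [h4, zero_add, hx0, hxs, Derivation.leibniz, hD, smul_eq_mul, smul_eq_mul, mul_one] at h1
  have h5 : aeval x (pderiv 0 F) * y (Fin.last m) = 0 := by
    linear_combination -h1 - D (y (Fin.last m)) * h3
  have h6 : aeval x (pderiv 0 F) = 0 := (mul_eq_zero.1 h5).resolve_right hy
  rw [h6, mul_zero, add_zero] at h3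
  intro k
  refine Fin.cases h6 (fun j => ?_) k
  by_cases hj : j = Fin.last m
  · rw [hj]
    exact h3
  · have h7 := h j
    rwa [if_neg hj, add_zero] at h7

theorem e4_euler {K : Type} [Field K] [CharZero K] {m d : ℕ}
    (F : MvPolynomial (Fin (m + 2)) K) (hF : F.IsHomogeneous d) (hd : 1 ≤ d)
    (Q : Ideal (MvPolynomial (Fin (m + 1)) (RatFunc K)))
    (h : ∀ k, pderiv k (psi F) ∈ Q) : psi F ∈ Q := by
  have h1 := congrArg (psi : MvPolynomial (Fin (m + 2)) K →ₐ[K] _) hF.sum_X_mul_pderiv
  rw [map_sum, map_nsmul, Fin.sum_univ_succ] at h1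
  have e0 : psi (X 0 : MvPolynomial (Fin (m + 2)) K) =
      C (RatFunc.X : RatFunc K) * X (Fin.last m) := by
    unfold psi
    rw [aeval_X, Fin.cons_zero]
  have es : ∀ j : Fin (m + 1), psi (X j.succ : MvPolynomial (Fin (m + 2)) K) = X j := by
    intro j
    unfold psi
    rw [aeval_X, Fin.cons_succ]
  have h2 : ∑ j : Fin (m + 1), X j * pderiv j (psi F) = d • psi F := by
    rw [← h1, map_mul, e0]
    have h3 : ∀ j : Fin (m + 1), X j * pderiv j (psi F) = psi (X j.succ * pderiv j.succ F) +
        if j = Fin.last m then C (RatFunc.X : RatFunc K) * X (Fin.last m) * psi (pderiv 0 F) else 0 := by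
      intro j
      rw [pderiv_psi, map_mul, es]
      by_cases hj : j = Fin.last m
      · rw [if_pos hj, if_pos hj, hj]
        ring
      · rw [if_neg hj, if_neg hj, add_zero, add_zero]
    rw [Finset.sum_congr rfl fun j _ => h3 j, Finset.sum_add_distrib,
      Finset.sum_ite_eq' Finset.univ (Fin.last m), if_pos (Finset.mem_univ _)]
    exact add_comm _ _
  have h4 : d • psi F ∈ Q := by
    rw [← h2]
    exact Q.sum_mem fun j _ => Q.mul_mem_left _ (h j)
  have h5 : (d : RatFunc K) ≠ 0 := by
    have hd0 : d ≠ 0 := by omega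
    have : CharZero (RatFunc K) := charZero_of_injective_algebraMap (algebraMap K (RatFunc K)).injective
    exact_mod_cast hd0
  have h6 : psi F = C ((d : RatFunc K)⁻¹) * (d • psi F) := by
    rw [nsmul_eq_mul, ← mul_assoc, ← map_natCast (C : RatFunc K →+* MvPolynomial (Fin (m + 1)) (RatFunc K)),
      ← map_mul, inv_mul_cancel₀ h5, map_one, one_mul]
  rw [h6]
  exact Q.mul_mem_left _ h4

theorem e4_main {K L : Type} [Field K] [Field L] [CharZero K] {m : ℕ}
    (ev : MvPolynomial (Fin (m + 1)) (RatFunc K) →+* L) (hy : ev (X (Fin.last m)) ≠ 0)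
    (F : MvPolynomial (Fin (m + 2)) K) (hF0 : ev (psi F) = 0)
    (h : ∀ k, ev (pderiv k (psi F)) = 0) : ∀ k, ev (psi (pderiv k F)) = 0 := by
  let _ : Algebra K L := (ev.comp (algebraMap K (MvPolynomial (Fin (m + 1)) (RatFunc K)))).toAlgebra
  let evK : MvPolynomial (Fin (m + 1)) (RatFunc K) →ₐ[K] L := { ev with commutes' := fun _ => rfl }
  have hev : ∀ G, evK G = ev G := fun _ => rfl
  let g : RatFunc K →ₐ[K] L := { ev.comp (C : RatFunc K →+* MvPolynomial (Fin (m + 1)) (RatFunc K)) with
    commutes' := fun _ => rfl }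
  have hg : ∀ G, g G = ev (C G) := fun _ => rfl
  have ht : Transcendental K (ev (C (RatFunc.X : RatFunc K))) := by
    rw [← hg, Transcendental, isAlgebraic_algHom_iff g g.toRingHom.injective]
    exact RatFunc.transcendental_X
  have hx : ∀ G : MvPolynomial (Fin (m + 2)) K, aeval (fun k => ev (psi (X k))) G = ev (psi G) := by
    intro G
    have h1 := MvPolynomial.aeval_unique (evK.comp psi)
    have h2 := DFunLike.congr_fun h1 G
    exact h2.symm
  have e0 : psi (X 0 : MvPolynomial (Fin (m + 2)) K) =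
      C (RatFunc.X : RatFunc K) * X (Fin.last m) := by
    unfold psi
    rw [aeval_X, Fin.cons_zero]
  have es : ∀ j : Fin (m + 1), psi (X j.succ : MvPolynomial (Fin (m + 2)) K) = X j := by
    intro j
    unfold psi
    rw [aeval_X, Fin.cons_succ]
  have key := e4_field ht (fun j => ev (X j)) hy (fun k => ev (psi (X k))) (by rw [e0, map_mul])
    (fun j => by rw [es]) F (by rw [hx]; exact hF0) (fun j => by
      have h3 := h j
      rw [pderiv_psi, map_add] at h3
      rw [hx, hx]
      by_cases hj : j = Fin.last m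
      · rw [if_pos hj, map_mul] at h3
        rw [if_pos hj]
        exact h3
      · rw [if_neg hj, map_zero] at h3
        rw [if_neg hj]
        exact h3)
  intro k
  rw [← hx]
  exact key k

/-
ROW E4 (1.5 h). Singular points of the generic member outside the axis. A = K[x] ⧸ P ⊆ B = K(t)[y] ⧸ Q', kap = FractionRing B (or Q'.ResidueField). x_k, t in kap;
x_0 = t x_last (psi (X 0) = C t * X last), x_last ≠ 0, y_j = x_(j+1).
dimension: B is algebraic over A (t x_last - x_0 = 0, B is generated over A by t and K(t); every element of kap is a quotient of elements of A), so trdeg_K A = trdeg_K B =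
trdeg_K K(t) + trdeg_K(t) B = 1 + dm Q' (see B4b dm_lam for the same computation; psi factors also as lam after inverting x_last, if you want to use dm_lam).
derivation: t is transcendental over K in kap; extend {t} to a transcendence basis (exists_isTranscendenceBasis_superset or similar) and take D from
Pool.Agent.MP_4aec10_nt.exists_derivation: D t = 1. psi F ∈ Q' by Euler (d • psi F = Σ X j * pderiv j (psi F), d ≠ 0), so F(x) = 0 in kap,
0 = D (F(x)) = Σ_k (pderiv k F)(x) D x_k (induction on F as in `chain`). By pderiv_psi the values (pderiv k F)(x) are 0 for k ≠ 0, last, and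
(pderiv last F)(x) + t (pderiv 0 F)(x) = 0. D x_0 = x_last + t D x_last. So 0 = (pderiv 0 F)(x) x_last + D x_last ((pderiv last F)(x) + t (pderiv 0 F)(x)) = (pderiv 0 F)(x) x_last,
so (pderiv 0 F)(x) = 0 and (pderiv last F)(x) = 0.
-/
theorem sing_off_axis {K : Type} [Field K] [CharZero K] {m d : ℕ}
    (F : MvPolynomial (Fin (m + 2)) K) (hF : F.IsHomogeneous d) (hd : 1 ≤ d)
    (Q : PrimeSpectrum (MvPolynomial (Fin (m + 1)) (RatFunc K)))
    (hl : (X (Fin.last m) : MvPolynomial (Fin (m + 1)) (RatFunc K)) ∉ Q.asIdeal)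
    (h : ∀ k, pderiv k (psi F) ∈ Q.asIdeal) :
    (∀ k, pderiv k F ∈ (PrimeSpectrum.comap (psiR K m) Q).asIdeal) ∧
      dm K (PrimeSpectrum.comap (psiR K m) Q).asIdeal = dm (RatFunc K) Q.asIdeal + 1 := by
  have hQ := Q.isPrime
  constructor
  · have hdom : IsDomain (MvPolynomial (Fin (m + 1)) (RatFunc K) ⧸ Q.asIdeal) :=
      Ideal.Quotient.isDomain _
    obtain ⟨ev, hev⟩ : ∃ ev : MvPolynomial (Fin (m + 1)) (RatFunc K) →+*
        FractionRing (MvPolynomial (Fin (m + 1)) (RatFunc K) ⧸ Q.asIdeal),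
        ∀ G, ev G = 0 ↔ G ∈ Q.asIdeal := by
      refine ⟨(algebraMap _ _).comp (Ideal.Quotient.mk Q.asIdeal), fun G => ?_⟩
      rw [RingHom.comp_apply, IsFractionRing.to_map_eq_zero_iff, Ideal.Quotient.eq_zero_iff_mem]
    have key := e4_main ev (fun h0 => hl ((hev _).1 h0)) F
      ((hev _).2 (e4_euler F hF hd Q.asIdeal h)) (fun k => (hev _).2 (h k))
    intro k
    rw [PrimeSpectrum.comap_asIdeal, Ideal.mem_comap]
    exact (hev _).1 (key k)
  · have hl' : (X (Fin.last (m + 1)) : MvPolynomial (Fin (m + 2)) K) ∉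
        Q.asIdeal.comap (lamR K (m + 1)) := by
      rw [Ideal.mem_comap]
      have e1 : lamR K (m + 1) (X (Fin.last (m + 1))) = X (Fin.last m) := by
        change lam (X (Fin.last (m + 1)) : MvPolynomial (Fin (m + 2)) K) = X (Fin.last m)
        have hlast : (Fin.last (m + 1) : Fin (m + 2)) = (Fin.last m).succ := rfl
        unfold lam
        rw [hlast, aeval_X, Fin.cons_succ]
      rw [e1]
      exact hl
    have : (Q.asIdeal.comap (lamR K (m + 1))).IsPrime := Ideal.comap_isPrime _ _
    have h1 := e4_alg (Q.asIdeal.comap (lamR K (m + 1))) hl'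
    have h2 := dm_lam Q.asIdeal
    have h3 : (PrimeSpectrum.comap (psiR K m) Q).asIdeal =
        (Q.asIdeal.comap (lamR K (m + 1))).comap (e4_sig K m) := by
      ext G
      rw [PrimeSpectrum.comap_asIdeal, Ideal.mem_comap, Ideal.mem_comap, Ideal.mem_comap, e4_psi]
    rw [h3, h1, h2]

end Pool.Agent.HCH
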