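import Pool.Agent.HCH.D0
import Pool.Agent.HCH.A2
import Pool.Agent.HCH.B2

namespace Pool.Agent.HCH

open MvPolynomial

/-- A linear map preserving forms commutes with taking components. -/
theorem comp_homog {K L : Type} [Field K] [Field L] {n m : ℕ}
    (rho : MvPolynomial (Fin n) K →+* MvPolynomial (Fin m) L)
    (h : ∀ (f : MvPolynomial (Fin n) K) (a : ℕ), f.IsHomogeneous a → (rho f).IsHomogeneous a)
    (f : MvPolynomial (Fin n) K) (a : ℕ) :
    homogeneousComponent a (rho f) = rho (homogeneousComponent a f) := by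
  classical
  have h1 : rho f = ∑ i ∈ Finset.range (f.totalDegree + 1), rho (homogeneousComponent i f) := by
    conv_lhs => rw [← sum_homogeneousComponent f]
    rw [map_sum]
  have h2 : ∀ i, homogeneousComponent a (rho (homogeneousComponent i f)) =
      if i = a then rho (homogeneousComponent i f) else 0 := by
    intro i
    have h3 := h _ _ (homogeneousComponent_isHomogeneous i f)
    rw [homogeneousComponent_of_mem ((mem_homogeneousSubmodule _ _).mpr h3)]
    by_cases h4 : a = i
    · simp [h4]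
    · rw [if_neg h4, if_neg (Ne.symm h4)]
  rw [h1, map_sum, Finset.sum_congr rfl (fun i _ => h2 i), Finset.sum_ite_eq']
  split_ifs with h3
  · rfl
  · rw [Finset.mem_range, not_lt] at h3
    rw [homogeneousComponent_eq_zero a f (by omega), map_zero]

theorem lq_homog {K : Type} [Field K] {n : ℕ}
    {rho : MvPolynomial (Fin (n + 1)) K →ₐ[K] MvPolynomial (Fin n) K}
    {tau : MvPolynomial (Fin n) K →ₐ[K] MvPolynomial (Fin (n + 1)) K}
    {l : MvPolynomial (Fin (n + 1)) K} (h : LQ rho tau l)
    (P' : PrimeSpectrum (MvPolynomial (Fin n) K)) :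
    HgI (PrimeSpectrum.comap (rho : MvPolynomial (Fin (n + 1)) K →+* MvPolynomial (Fin n) K)
      P').asIdeal ↔ HgI P'.asIdeal := by
  constructor
  · intro hP f hf a
    have h1 : tau f ∈ (PrimeSpectrum.comap
        (rho : MvPolynomial (Fin (n + 1)) K →+* MvPolynomial (Fin n) K) P').asIdeal := by
      change rho (tau f) ∈ P'.asIdeal
      rw [h.sec]
      exact hf
    have h2 : rho (homogeneousComponent a (tau f)) ∈ P'.asIdeal := hP _ h1 a
    have h3 : homogeneousComponent a (tau f) = tau (homogeneousComponent a f) :=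
      comp_homog (tau : MvPolynomial (Fin n) K →+* MvPolynomial (Fin (n + 1)) K) h.htau f a
    rw [h3, h.sec] at h2
    exact h2
  · intro hP f hf a
    change rho (homogeneousComponent a f) ∈ P'.asIdeal
    have h3 : homogeneousComponent a (rho f) = rho (homogeneousComponent a f) :=
      comp_homog (rho : MvPolynomial (Fin (n + 1)) K →+* MvPolynomial (Fin n) K) h.hrho f a
    rw [← h3]
    exact hP _ hf a

theorem lq_surj {K : Type} [Field K] {n : ℕ}
    {rho : MvPolynomial (Fin (n + 1)) K →ₐ[K] MvPolynomial (Fin n) K}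
    {tau : MvPolynomial (Fin n) K →ₐ[K] MvPolynomial (Fin (n + 1)) K}
    {l : MvPolynomial (Fin (n + 1)) K} (h : LQ rho tau l) : Function.Surjective rho :=
  fun x => ⟨tau x, h.sec x⟩

theorem lq_range {K : Type} [Field K] {n : ℕ}
    {rho : MvPolynomial (Fin (n + 1)) K →ₐ[K] MvPolynomial (Fin n) K}
    {tau : MvPolynomial (Fin n) K →ₐ[K] MvPolynomial (Fin (n + 1)) K}
    {l : MvPolynomial (Fin (n + 1)) K} (h : LQ rho tau l)
    (P : PrimeSpectrum (MvPolynomial (Fin (n + 1)) K)) (hl : l ∈ P.asIdeal) :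
    ∃ P' : PrimeSpectrum (MvPolynomial (Fin n) K),
      PrimeSpectrum.comap (rho : MvPolynomial (Fin (n + 1)) K →+* MvPolynomial (Fin n) K) P' = P := by
  have hs : Function.Surjective (rho : MvPolynomial (Fin (n + 1)) K →+* MvPolynomial (Fin n) K) :=
    lq_surj h
  have hk : RingHom.ker (rho : MvPolynomial (Fin (n + 1)) K →+* MvPolynomial (Fin n) K) ≤
      P.asIdeal := by
    rw [h.ker, Ideal.span_singleton_le_iff_mem]
    exact hl
  refine ⟨⟨P.asIdeal.map (rho : MvPolynomial (Fin (n + 1)) K →+* MvPolynomial (Fin n) K),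
    Ideal.map_isPrime_of_surjective hs hk⟩, ?_⟩
  apply PrimeSpectrum.ext
  change (P.asIdeal.map _).comap _ = _
  rw [Ideal.comap_map_of_surjective _ hs]
  apply sup_eq_left.mpr
  rw [← RingHom.ker_eq_comap_bot]
  exact hk

theorem lq_mlt {K : Type} [Field K] {n : ℕ}
    {rho : MvPolynomial (Fin (n + 1)) K →ₐ[K] MvPolynomial (Fin n) K}
    {tau : MvPolynomial (Fin n) K →ₐ[K] MvPolynomial (Fin (n + 1)) K}
    {l : MvPolynomial (Fin (n + 1)) K} (h : LQ rho tau l)
    (W' P' : PrimeSpectrum (MvPolynomial (Fin n) K)) (G : MvPolynomial (Fin n) K) :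
    mlt ((PrimeSpectrum.comap (rho : MvPolynomial (Fin (n + 1)) K →+* MvPolynomial (Fin n) K)
        W').asIdeal ⊔ Ideal.span {tau G})
      (PrimeSpectrum.comap (rho : MvPolynomial (Fin (n + 1)) K →+* MvPolynomial (Fin n) K) P') =
    mlt (W'.asIdeal ⊔ Ideal.span {G}) P' := by
  have hs : Function.Surjective (rho : MvPolynomial (Fin (n + 1)) K →+* MvPolynomial (Fin n) K) :=
    lq_surj h
  rw [← mlt_surj (rho : MvPolynomial (Fin (n + 1)) K →+* MvPolynomial (Fin n) K) hs _ ?_ P']
  · congr 1
    rw [Ideal.map_sup, Ideal.map_span, Set.image_singleton]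
    have h1 : (rho : MvPolynomial (Fin (n + 1)) K →+* MvPolynomial (Fin n) K) (tau G) = G :=
      h.sec G
    rw [h1]
    congr 1
    exact Ideal.map_comap_of_surjective _ hs _
  · apply le_sup_of_le_left
    intro x hx
    change rho x ∈ W'.asIdeal
    have : rho x = 0 := hx
    rw [this]
    exact W'.asIdeal.zero_mem

end Pool.Agent.HCH
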