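import Pool.Agent.HCH.E1
import Pool.Agent.HCH.B2

namespace Pool.Agent.HCH

open MvPolynomial

/-
ROW E7 (1.3 h). A hypersurface with singular locus of codimension ≥ 2 in it is integral. F ≠ 0 (otherwise ⊥ contains all partials and dm ⊥ = m > r), F is not a unit (form of degree
d ≥ 1: form_span). Let G be a prime factor of F (UniqueFactorizationMonoid; exists_irreducible_factor), F = G * H. If H is a unit then (F) = (G) is prime. Otherwise let G2 be a prime
factor of H. The ideals (G), (G2) are minimal primes of (F) (a prime P0 ≤ (G) with F ∈ P0 contains a prime factor G' of F, (G') ≤ P0 ≤ (G), so G ∣ G', associated, equality), so they are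
homogeneous (min_homog, form_span). exists_min with P = ⊥ and G... in fact dm (G) ≥ m - 1 (dm_le_min with P = ⊥: (G) is minimal over ⊥ ⊔ (G); dm_bot), then exists_min with P = (G) and
G2: Q homogeneous prime with G, G2 ∈ Q, dm Q ≥ m - 2. Q contains H (G2 ∣ H) and G, so all partials of G * H: m - 2 ≤ dm Q ≤ r, against r + 3 ≤ m.
dm (F) = m - 1: ≥ by dm_le_min, < m by dm_lt (⊥ < (F)).
hart_zero: Hart F 0 with l = 0 (any l): flag F l 0 = span {F}; P ∋ F with dm P = m - 1 = dm (F) is (F) (eq_of_dm_le), so N = 1, c = 1, Q = P, cls P - cls P = 0. (l k := X 0 if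
m > 0 or 0: the zero polynomial is homogeneous of degree 1.)
-/
theorem e7_minimal {K : Type} [Field K] {m : ℕ} (F G : MvPolynomial (Fin m) K) (hF0 : F ≠ 0)
    (hG : Prime G) (hGF : G ∣ F) : Ideal.span {G} ∈ (Ideal.span {F}).minimalPrimes := by
  refine ⟨⟨(Ideal.span_singleton_prime hG.ne_zero).mpr hG, ?_⟩, ?_⟩
  · exact (Ideal.span_singleton_le_span_singleton).mpr hGF
  · rintro q ⟨hq, hFq⟩ hqG
    have hFmem : F ∈ q := hFq (Ideal.mem_span_singleton_self F)
    have hqb : q ≠ ⊥ := by
      rintro rfl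
      exact hF0 ((Submodule.mem_bot _).mp hFmem)
    obtain ⟨x, hxq, hx⟩ := Ideal.IsPrime.exists_mem_prime_of_ne_bot hq hqb
    have hGx : G ∣ x := Ideal.mem_span_singleton.mp (hqG hxq)
    have hass : Associated G x :=
      (hG.irreducible.dvd_irreducible_iff_associated hx.irreducible).mp hGx
    rw [Ideal.span_singleton_le_iff_mem]
    exact q.mem_of_dvd hass.dvd' hxq

theorem e7_dm_ge {K : Type} [Field K] {m : ℕ} (G : MvPolynomial (Fin m) K)
    (hG : (Ideal.span {G}).IsPrime) : m ≤ dm K (Ideal.span {G}) + 1 := by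
  have h1 : Ideal.span {G} ∈ ((⊥ : Ideal (MvPolynomial (Fin m) K)) ⊔
      Ideal.span {G}).minimalPrimes := by
    rw [bot_sup_eq]
    exact ⟨⟨hG, le_rfl⟩, fun q hq _ => hq.2⟩
  have h2 := dm_le_min (K := K) ⊥ (Ideal.span {G}) G h1
  rwa [dm_bot] at h2

theorem prime_of_sg {K : Type} [Field K] {m d : ℕ} (F : MvPolynomial (Fin m) K)
    (hF : F.IsHomogeneous d) (hd : 1 ≤ d) (r : ℕ) (h : SgLe F r) (hr : r + 3 ≤ m) :
    (Ideal.span {F}).IsPrime ∧ dm K (Ideal.span {F}) = m - 1 := by
  classical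
  have hbot : (⊥ : Ideal (MvPolynomial (Fin m) K)).IsPrime := Ideal.isPrime_bot
  have hF0 : F ≠ 0 := by
    rintro rfl
    have h1 := h ⟨⊥, hbot⟩ (by
      intro f hf n
      rw [Submodule.mem_bot] at hf
      rw [hf, map_zero]
      exact Submodule.zero_mem _) (by
      intro k
      rw [map_zero]
      exact Submodule.zero_mem _)
    rw [dm_bot] at h1
    omega
  obtain ⟨hFh, hFt⟩ := form_span F hF hd
  have hFu : ¬ IsUnit F := by
    intro hu
    exact hFt (Ideal.span_singleton_eq_top.mpr hu)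
  have hprime : (Ideal.span {F}).IsPrime := by
    obtain ⟨G, hG, hGF⟩ := WfDvdMonoid.exists_irreducible_factor hFu hF0
    have hGp : Prime G := hG.prime
    obtain ⟨H, hH⟩ := hGF
    by_cases hHu : IsUnit H
    · have h1 : Ideal.span {F} = Ideal.span {G} := by
        rw [hH]
        exact Ideal.span_singleton_mul_right_unit hHu G
      rw [h1]
      exact (Ideal.span_singleton_prime hGp.ne_zero).mpr hGp
    · exfalso
      have hH0 : H ≠ 0 := by
        rintro rfl
        exact hF0 (by rw [hH, mul_zero])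
      obtain ⟨G2, hG2, hG2H⟩ := WfDvdMonoid.exists_irreducible_factor hHu hH0
      have hG2p : Prime G2 := hG2.prime
      have hGF : G ∣ F := ⟨H, hH⟩
      have hG2F : G2 ∣ F := hG2H.trans ⟨G, by rw [hH, mul_comm]⟩
      have hGmin := e7_minimal F G hF0 hGp hGF
      have hG2min := e7_minimal F G2 hF0 hG2p hG2F
      have hGh := min_homog _ _ hFh hGmin
      have hG2h := min_homog _ _ hFh hG2min
      have hGpr : (Ideal.span {G}).IsPrime := hGmin.1.1
      have hG2pr : (Ideal.span {G2}).IsPrime := hG2min.1.1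
      obtain ⟨Q, hQh, hGQ, hG2Q, hdmQ⟩ := exists_min ⟨Ideal.span {G}, hGpr⟩ hGh G2 hG2h hG2pr.ne_top
      have hdmG := e7_dm_ge G hGpr
      have hGmem : G ∈ Q.asIdeal := hGQ (Ideal.mem_span_singleton_self G)
      have hHmem : H ∈ Q.asIdeal := Q.asIdeal.mem_of_dvd hG2H hG2Q
      have h1 := h Q hQh (by
        intro k
        rw [hH, Derivation.leibniz]
        refine Submodule.add_mem _ ?_ ?_
        · rw [smul_eq_mul]
          exact Ideal.mul_mem_right _ _ hGmem
        · rw [smul_eq_mul]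
          exact Ideal.mul_mem_right _ _ hHmem)
      have hdmQ' : dm K (Ideal.span {G}) ≤ dm K Q.asIdeal + 1 := hdmQ
      omega
  refine ⟨hprime, ?_⟩
  have h1 := e7_dm_ge F hprime
  have h2 : dm K (Ideal.span {F}) < dm K (⊥ : Ideal (MvPolynomial (Fin m) K)) := by
    refine dm_lt (K := K) ⊥ (Ideal.span {F}) (bot_lt_iff_ne_bot.mpr ?_)
    rw [Ne, Ideal.span_singleton_eq_bot]
    exact hF0
  rw [dm_bot] at h2
  omega

theorem hart_zero {K : Type} [Field K] {m : ℕ} (F : MvPolynomial (Fin m) K)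
    (hprime : (Ideal.span {F}).IsPrime) (hdm : dm K (Ideal.span {F}) = m - 1) : Hart F 0 := by
  have hflag : flag F (fun _ => 0) 0 = Ideal.span {F} := by
    unfold flag
    congr 1
    ext x
    simp
  refine ⟨fun _ => 0, fun k => isHomogeneous_zero _ _ _, ?_, ?_⟩
  · intro i hi
    obtain rfl : i = 0 := Nat.le_zero.mp hi
    rw [hflag]
    exact ⟨hprime, by rw [hdm, Nat.sub_zero]⟩
  · intro P hP hFP hdP
    have hle : Ideal.span {F} ≤ P.asIdeal := (Ideal.span_singleton_le_iff_mem _).mpr hFP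
    have hPp : P.asIdeal.IsPrime := P.isPrime
    have heq : Ideal.span {F} = P.asIdeal := by
      refine eq_of_dm_le (K := K) _ _ hle ?_
      rw [hdm, hdP, Nat.sub_zero]
    refine ⟨1, one_pos, 1, P, ?_, ?_⟩
    · rw [hflag, heq]
    · have h0 : ((1 : ℕ) : ℤ) • cls P - (1 : ℤ) • cls P = 0 := by
        rw [Nat.cast_one, sub_self]
      rw [h0]
      exact AddSubgroup.zero_mem _

end Pool.Agent.HCH
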