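import Pool.Agent.HCH.Defs

namespace Pool.Agent.HCH

open MvPolynomial

/-- The linear change of coordinates `X last ↦ X last - ∑ a k X k`. -/
noncomputable def phi {K : Type} [Field K] {m : ℕ} (a : Fin m → K) :
    MvPolynomial (Fin (m + 1)) K →ₐ[K] MvPolynomial (Fin (m + 1)) K :=
  aeval (Fin.snoc (α := fun _ => MvPolynomial (Fin (m + 1)) K) (fun k => X k.castSucc)
    (X (Fin.last m) - ∑ k : Fin m, C (a k) * X k.castSucc))

/-
ROW E0 (1.2 h). Chain rule. chain: induction on F (MvPolynomial.induction_on): constants: both sides 0; sums: clear; F * X k: Leibniz rule on both sides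
(pderiv_mul, pderiv_X, Finset.sum with Pi.single). The other statements are special cases (values of pderiv on the images of the variables; Fin.sum_univ_succ, Fin.sum_univ_castSucc,
Pi.single_apply).
-/
theorem chain {K L : Type} [Field K] [Field L] {m m' : ℕ}
    (Ψ : MvPolynomial (Fin m) K →+* MvPolynomial (Fin m') L) (ε : K →+* L)
    (h : ∀ a, Ψ (C a) = C (ε a)) (F : MvPolynomial (Fin m) K) (j : Fin m') :
    pderiv j (Ψ F) = ∑ k, Ψ (pderiv k F) * pderiv j (Ψ (X k)) := by
  classical
  induction F using MvPolynomial.induction_on with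
  | C a =>
    rw [h, pderiv_C]
    symm
    apply Finset.sum_eq_zero
    intro k _
    rw [pderiv_C, map_zero, zero_mul]
  | add p q hp hq =>
    rw [map_add, map_add, hp, hq, ← Finset.sum_add_distrib]
    apply Finset.sum_congr rfl
    intro k _
    rw [map_add, map_add, add_mul]
  | mul_X p n hp =>
    rw [map_mul, pderiv_mul, hp]
    have h1 : ∀ k, Ψ (pderiv k (p * X n)) * pderiv j (Ψ (X k)) =
        Ψ (pderiv k p) * pderiv j (Ψ (X k)) * Ψ (X n) +
          if k = n then Ψ p * pderiv j (Ψ (X n)) else 0 := by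
      intro k
      rw [pderiv_mul, map_add, map_mul, map_mul]
      by_cases hk : k = n
      · subst hk
        rw [if_pos rfl, pderiv_X_self, map_one]
        ring
      · rw [if_neg hk, pderiv_X_of_ne (fun h' => hk h'.symm), map_zero]
        ring
    rw [Finset.sum_congr rfl fun k _ => h1 k, Finset.sum_add_distrib, ← Finset.sum_mul,
      Finset.sum_ite_eq' Finset.univ n, if_pos (Finset.mem_univ n)]

/-- evaluation of `rhoT` on the variables -/
theorem e0_rhoT_zero {K : Type} [Field K] {m : ℕ} (t : K) :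
    rhoT t (X (0 : Fin (m + 2))) = C t * X (Fin.last m) := by
  unfold rhoT
  rw [aeval_X, Fin.cons_zero]

theorem e0_rhoT_succ {K : Type} [Field K] {m : ℕ} (t : K) (k : Fin (m + 1)) :
    rhoT t (X k.succ) = X k := by
  unfold rhoT
  rw [aeval_X, Fin.cons_succ]

theorem e0_psi_zero {K : Type} [Field K] {m : ℕ} :
    psi (X (0 : Fin (m + 2))) = C (RatFunc.X : RatFunc K) * X (Fin.last m) := by
  unfold psi
  rw [aeval_X, Fin.cons_zero]

theorem e0_psi_succ {K : Type} [Field K] {m : ℕ} (k : Fin (m + 1)) :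
    psi (X k.succ : MvPolynomial (Fin (m + 2)) K) = X k := by
  unfold psi
  rw [aeval_X, Fin.cons_succ]

theorem e0_sum {R : Type} [CommRing R] {n : ℕ} (a : Fin (n + 1) → R) (j : Fin (n + 1))
    (b : Fin (n + 1) → R) (hb : b j = 1) (hb' : ∀ k, k ≠ j → b k = 0) :
    ∑ k, a k * b k = a j := by
  rw [Finset.sum_eq_single j, hb, mul_one]
  · intro k _ hk
    rw [hb' k hk, mul_zero]
  · intro h
    exact absurd (Finset.mem_univ j) h

theorem pderiv_rhoT {K : Type} [Field K] {m : ℕ} (t : K) (F : MvPolynomial (Fin (m + 2)) K)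
    (j : Fin (m + 1)) : pderiv j (rhoT t F) = rhoT t (pderiv j.succ F) +
      if j = Fin.last m then C t * rhoT t (pderiv 0 F) else 0 := by
  have h := chain (rhoT t : MvPolynomial (Fin (m + 2)) K →ₐ[K] MvPolynomial (Fin (m + 1)) K).toRingHom
    (RingHom.id K) (fun a => (rhoT t).commutes a) F j
  change pderiv j (rhoT t F) = ∑ k, rhoT t (pderiv k F) * pderiv j (rhoT t (X k)) at h
  rw [h, Fin.sum_univ_succ, e0_rhoT_zero]
  have h1 : ∑ i : Fin (m + 1), rhoT t (pderiv i.succ F) * pderiv j (rhoT t (X i.succ)) =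
      rhoT t (pderiv j.succ F) := by
    apply e0_sum (fun i : Fin (m + 1) => rhoT t (pderiv i.succ F)) j
    · rw [e0_rhoT_succ, pderiv_X_self]
    · intro k hk
      rw [e0_rhoT_succ, pderiv_X_of_ne hk]
  rw [h1, add_comm (rhoT t (pderiv 0 F) * _) _]
  congr 1
  rw [pderiv_C_mul]
  split_ifs with hj
  · subst hj
    rw [pderiv_X_self, mul_one, mul_comm]
  · rw [pderiv_X_of_ne (fun h' => hj h'.symm), mul_zero, mul_zero]

theorem pderiv_psi {K : Type} [Field K] {m : ℕ} (F : MvPolynomial (Fin (m + 2)) K)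
    (j : Fin (m + 1)) : pderiv j (psi F) = psi (pderiv j.succ F) +
      if j = Fin.last m then C (RatFunc.X : RatFunc K) * psi (pderiv 0 F) else 0 := by
  have h := chain
    (psi : MvPolynomial (Fin (m + 2)) K →ₐ[K] MvPolynomial (Fin (m + 1)) (RatFunc K)).toRingHom
    (algebraMap K (RatFunc K)) (fun a => psi.commutes a) F j
  change pderiv j (psi F) = ∑ k, psi (pderiv k F) * pderiv j (psi (X k)) at h
  rw [h, Fin.sum_univ_succ, e0_psi_zero]
  have h1 : ∑ i : Fin (m + 1), psi (pderiv i.succ F) * pderiv j (psi (X i.succ)) =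
      psi (pderiv j.succ F) := by
    apply e0_sum (fun i : Fin (m + 1) => psi (pderiv i.succ F)) j
    · rw [e0_psi_succ, pderiv_X_self]
    · intro k hk
      rw [e0_psi_succ, pderiv_X_of_ne hk]
  rw [h1, add_comm (psi (pderiv 0 F) * _) _]
  congr 1
  rw [pderiv_C_mul]
  split_ifs with hj
  · subst hj
    rw [pderiv_X_self, mul_one, mul_comm]
  · rw [pderiv_X_of_ne (fun h' => hj h'.symm), mul_zero, mul_zero]

theorem pderiv_rhoI {K : Type} [Field K] {m : ℕ} (F : MvPolynomial (Fin (m + 1)) K)
    (j : Fin m) : pderiv j (rhoI F) = rhoI (pderiv j.castSucc F) := by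
  have h := chain (rhoI : MvPolynomial (Fin (m + 1)) K →ₐ[K] MvPolynomial (Fin m) K).toRingHom
    (RingHom.id K) (fun a => rhoI.commutes a) F j
  change pderiv j (rhoI F) = ∑ k, rhoI (pderiv k F) * pderiv j (rhoI (X k)) at h
  have e1 : ∀ k : Fin m, rhoI (X k.castSucc : MvPolynomial (Fin (m + 1)) K) = X k := by
    intro k
    unfold rhoI
    rw [aeval_X, Fin.snoc_castSucc]
  have e2 : rhoI (X (Fin.last m) : MvPolynomial (Fin (m + 1)) K) = 0 := by
    unfold rhoI
    rw [aeval_X, Fin.snoc_last]
  rw [h, Fin.sum_univ_castSucc, e2, map_zero, mul_zero, add_zero, Finset.sum_eq_single j]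
  · rw [e1, pderiv_X_self, mul_one]
  · intro k _ hk
    rw [e1, pderiv_X_of_ne hk, mul_zero]
  · intro h'
    exact absurd (Finset.mem_univ j) h'

theorem e0_phi_cast {K : Type} [Field K] {m : ℕ} (a : Fin m → K) (k : Fin m) :
    phi a (X k.castSucc) = X k.castSucc := by
  unfold phi
  rw [aeval_X, Fin.snoc_castSucc]

theorem e0_phi_last {K : Type} [Field K] {m : ℕ} (a : Fin m → K) :
    phi a (X (Fin.last m)) = X (Fin.last m) - ∑ k : Fin m, C (a k) * X k.castSucc := by
  unfold phi
  rw [aeval_X, Fin.snoc_last]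

theorem e0_chain_phi {K : Type} [Field K] {m : ℕ} (a : Fin m → K)
    (F : MvPolynomial (Fin (m + 1)) K) (j : Fin (m + 1)) :
    pderiv j (phi a F) = ∑ k, phi a (pderiv k F) * pderiv j (phi a (X k)) :=
  chain (phi a : MvPolynomial (Fin (m + 1)) K →ₐ[K] MvPolynomial (Fin (m + 1)) K).toRingHom
    (RingHom.id K) (fun b => (phi a).commutes b) F j

theorem pderiv_phi {K : Type} [Field K] {m : ℕ} (a : Fin m → K) (F : MvPolynomial (Fin (m + 1)) K)
    (j : Fin m) : pderiv j.castSucc (phi a F) =
      phi a (pderiv j.castSucc F) - C (a j) * phi a (pderiv (Fin.last m) F) := by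
  rw [e0_chain_phi, Fin.sum_univ_castSucc, e0_phi_last]
  have h1 : ∑ i : Fin m, phi a (pderiv i.castSucc F) * pderiv j.castSucc (phi a (X i.castSucc)) =
      phi a (pderiv j.castSucc F) := by
    rw [Finset.sum_eq_single j]
    · rw [e0_phi_cast, pderiv_X_self, mul_one]
    · intro k _ hk
      rw [e0_phi_cast, pderiv_X_of_ne (fun h' => hk (Fin.castSucc_injective m h')), mul_zero]
    · intro h'
      exact absurd (Finset.mem_univ j) h'
  have h2 : pderiv j.castSucc (X (Fin.last m) - ∑ k : Fin m, C (a k) * X k.castSucc) =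
      (- C (a j) : MvPolynomial (Fin (m + 1)) K) := by
    rw [map_sub, map_sum, pderiv_X_of_ne (Fin.castSucc_lt_last j).ne', zero_sub,
      Finset.sum_eq_single j]
    · rw [pderiv_C_mul, pderiv_X_self, mul_one]
    · intro k _ hk
      rw [pderiv_C_mul, pderiv_X_of_ne (fun h' => hk (Fin.castSucc_injective m h')), mul_zero]
    · intro h'
      exact absurd (Finset.mem_univ j) h'
  rw [h1, h2]
  ring

theorem pderiv_phi_last {K : Type} [Field K] {m : ℕ} (a : Fin m → K)
    (F : MvPolynomial (Fin (m + 1)) K) :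
    pderiv (Fin.last m) (phi a F) = phi a (pderiv (Fin.last m) F) := by
  rw [e0_chain_phi, Fin.sum_univ_castSucc, e0_phi_last]
  have h1 : ∑ i : Fin m, phi a (pderiv i.castSucc F) * pderiv (Fin.last m) (phi a (X i.castSucc)) =
      0 := by
    apply Finset.sum_eq_zero
    intro k _
    rw [e0_phi_cast, pderiv_X_of_ne (Fin.castSucc_lt_last k).ne, mul_zero]
  have h2 : pderiv (Fin.last m) (X (Fin.last m) - ∑ k : Fin m, C (a k) * X k.castSucc) =
      (1 : MvPolynomial (Fin (m + 1)) K) := by
    rw [map_sub, map_sum, pderiv_X_self, Finset.sum_eq_zero, sub_zero]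
    intro k _
    rw [pderiv_C_mul, pderiv_X_of_ne (Fin.castSucc_lt_last k).ne, mul_zero]
  rw [h1, h2, zero_add, mul_one]

theorem pderiv_ext {k E : Type} [Field k] [Field E] [Algebra k E] {n : ℕ}
    (F : MvPolynomial (Fin n) k) (j : Fin n) :
    pderiv j (ext k E n F) = ext k E n (pderiv j F) := by
  unfold ext
  exact pderiv_map

theorem phi_neg {K : Type} [Field K] {m : ℕ} (a : Fin m → K) (F : MvPolynomial (Fin (m + 1)) K) :
    phi (-a) (phi a F) = F := by
  have h : (phi (-a)).comp (phi a) = AlgHom.id K (MvPolynomial (Fin (m + 1)) K) := by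
    apply MvPolynomial.algHom_ext
    intro i
    rw [AlgHom.comp_apply, AlgHom.id_apply]
    refine Fin.lastCases ?_ (fun k => ?_) i
    · rw [e0_phi_last, map_sub, map_sum, e0_phi_last]
      have h1 : ∀ k : Fin m, phi (-a) (C (a k) * X k.castSucc) = C (a k) * X k.castSucc := by
        intro k
        rw [map_mul, e0_phi_cast]
        congr 1
        exact (phi (-a)).commutes (a k)
      rw [Finset.sum_congr rfl fun k _ => h1 k]
      have h2 : ∀ k : Fin m, (C ((-a) k) * X k.castSucc : MvPolynomial (Fin (m + 1)) K) =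
          - (C (a k) * X k.castSucc) := by
        intro k
        rw [Pi.neg_apply, map_neg, neg_mul]
      rw [Finset.sum_congr rfl fun k _ => h2 k, Finset.sum_neg_distrib]
      ring
    · rw [e0_phi_cast, e0_phi_cast]
  have := congrArg (fun g => g F) h
  exact this

theorem phi_homog {K : Type} [Field K] {m d : ℕ} (a : Fin m → K)
    (F : MvPolynomial (Fin (m + 1)) K) (hF : F.IsHomogeneous d) : (phi a F).IsHomogeneous d := by
  unfold phi
  have h := hF.aeval (n := 1) (Fin.snoc (α := fun _ => MvPolynomial (Fin (m + 1)) K)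
    (fun k => X k.castSucc) (X (Fin.last m) - ∑ k : Fin m, C (a k) * X k.castSucc)) (by
    intro i
    refine Fin.lastCases ?_ (fun k => ?_) i
    · rw [Fin.snoc_last]
      apply IsHomogeneous.sub (isHomogeneous_X K _)
      apply IsHomogeneous.sum
      intro k _
      have := (isHomogeneous_C (Fin (m + 1)) (a k)).mul (isHomogeneous_X K k.castSucc)
      simpa using this
    · rw [Fin.snoc_castSucc]
      exact isHomogeneous_X K _)
  rw [one_mul] at h
  exact h

end Pool.Agent.HCH
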