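import Pool.Agent.HCH.H1
import Pool.Agent.HCH.E0

namespace Pool.Agent.HCH

open MvPolynomial

theorem hart_phi {K : Type} [Field K] {m : ℕ} (a : Fin m → K) (F : MvPolynomial (Fin (m + 1)) K)
    (j : ℕ) (h : Hart (phi a F) j) : Hart F j := by
  have h2 : ∀ G : MvPolynomial (Fin (m + 1)) K, phi a (phi (-a) G) = G := by
    intro G
    have := phi_neg (-a) G
    rwa [neg_neg] at this
  let Φ : MvPolynomial (Fin (m + 1)) K ≃+* MvPolynomial (Fin (m + 1)) K :=
    RingEquiv.ofRingHom (phi a).toRingHom (phi (-a)).toRingHom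
      (RingHom.ext h2) (RingHom.ext (phi_neg a))
  refine hart_equiv (RingEquiv.refl K) Φ ?_ ?_ ?_ F j h
  · intro b
    exact (phi a).commutes b
  · intro f b hf
    exact phi_homog a f hf
  · intro f b hf
    exact phi_homog (-a) f hf

theorem hart_field {K K' : Type} [Field K] [Field K'] {m : ℕ} (ε : K ≃+* K')
    (F : MvPolynomial (Fin m) K) (j : ℕ) (h : Hart (MvPolynomial.map (ε : K →+* K') F) j) :
    Hart F j := by
  refine hart_equiv ε (MvPolynomial.mapEquiv (Fin m) ε) ?_ ?_ ?_ F j h
  · intro a
    exact MvPolynomial.map_C (ε : K →+* K') a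
  · intro f b hf
    exact hf.map _
  · intro f b hf
    exact hf.map _

theorem sg_field {K K' : Type} [Field K] [Field K'] {m : ℕ} (ε : K ≃+* K')
    (F : MvPolynomial (Fin m) K) (r : ℕ) (h : SgLe F r) :
    SgLe (MvPolynomial.map (ε : K →+* K') F) r := by
  intro P hP hk
  have hp : (P.asIdeal.comap (MvPolynomial.map (ε : K →+* K'))).IsPrime :=
    Ideal.comap_isPrime _ _
  have h1 := h ⟨P.asIdeal.comap (MvPolynomial.map (ε : K →+* K')), hp⟩ ?_ ?_
  · have h2 := dm_semi ε (MvPolynomial.mapEquiv (Fin m) ε) (fun a =>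
      MvPolynomial.map_C (ε : K →+* K') a) P.asIdeal
    have h3 : P.asIdeal.comap ((MvPolynomial.mapEquiv (Fin m) ε :
        MvPolynomial (Fin m) K ≃+* MvPolynomial (Fin m) K') :
        MvPolynomial (Fin m) K →+* MvPolynomial (Fin m) K') =
        P.asIdeal.comap (MvPolynomial.map (ε : K →+* K')) := rfl
    rw [h3] at h2
    rw [← h2]
    exact h1
  · intro f hf n
    change MvPolynomial.map (ε : K →+* K') (homogeneousComponent n f) ∈ P.asIdeal
    have h4 : MvPolynomial.map (ε : K →+* K') (homogeneousComponent n f) =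
        homogeneousComponent n (MvPolynomial.map (ε : K →+* K') f) := by
      ext d
      rw [coeff_map, coeff_homogeneousComponent, coeff_homogeneousComponent, coeff_map]
      split_ifs
      · rfl
      · exact map_zero _
    rw [h4]
    exact hP _ hf n
  · intro k
    change MvPolynomial.map (ε : K →+* K') (pderiv k F) ∈ P.asIdeal
    rw [← pderiv_map]
    exact hk k

end Pool.Agent.HCH
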