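import Pool.Agent.HCH.B
import Pool.Agent.HCH.E0

namespace Pool.Agent.HCH

open MvPolynomial

/-
ROW J1 (1.3 h). Smoothness over an algebraically closed field.
sg_of_smooth: P homogeneous prime containing the partials. If all zeros x ∈ K^m of P are 0 then by the Nullstellensatz (MvPolynomial.vanishingIdeal_zeroLocus_eq_radical) every X k is in
P (P radical), so S ⧸ P = K and dm P = 0. Otherwise a zero x ≠ 0 of P is a zero of the partials: contradiction.
smooth_of_sg: let x ≠ 0 be a common zero of the partials of F, F a form of degree d. P = the kernel of S → K[T] (Polynomial K), X k ↦ C (x k) * T: a prime; homogeneous (f = Σ f_n maps to Σ f_n(x) T^n, so it is in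
the kernel iff all f_n(x) = 0); contains the partials (forms vanishing at x: g ↦ g(x) T^(d-1)); S ⧸ P ≅ K[T] (surjective since some x k ≠ 0), so dm P = 1 > 0: against SgLe F 0.
(dm ≥ 1: the class of X k with x k ≠ 0 is transcendental over K.)
-/
theorem sg_of_smooth {K : Type} [Field K] [IsAlgClosed K] {m : ℕ} (F : MvPolynomial (Fin m) K)
    (h : ∀ x : Fin m → K, (∀ k, eval x (pderiv k F) = 0) → x = 0) : SgLe F 0 := by
  intro P _ hd
  have hP := P.isPrime
  have hX : ∀ k, (X k : MvPolynomial (Fin m) K) ∈ P.asIdeal := by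
    intro k
    rw [← hP.isRadical.radical, ← vanishingIdeal_zeroLocus_eq_radical (K := K) P.asIdeal,
      mem_vanishingIdeal_iff]
    intro x hx
    have h1 : x = 0 := h x fun j => by
      have := hx _ (hd j)
      rwa [aeval_eq_eval] at this
    rw [h1]
    simp
  have hmem : ∀ f : MvPolynomial (Fin m) K, f - C (constantCoeff f) ∈ P.asIdeal := by
    intro f
    induction f using MvPolynomial.induction_on with
    | C a => simp
    | add p q hp hq =>
      have e : p + q - C (constantCoeff (p + q)) = (p - C (constantCoeff p)) + (q - C (constantCoeff q)) := by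
        rw [map_add, C_add]
        ring
      rw [e]
      exact P.asIdeal.add_mem hp hq
    | mul_X p n hp =>
      have e : p * X n - C (constantCoeff (p * X n)) = p * X n := by
        rw [map_mul, constantCoeff_X, mul_zero, C_0, sub_zero]
      rw [e]
      exact P.asIdeal.mul_mem_left _ (hX n)
  have halg : Algebra.IsAlgebraic K (MvPolynomial (Fin m) K ⧸ P.asIdeal) := by
    refine ⟨fun b => ?_⟩
    obtain ⟨f, rfl⟩ := Ideal.Quotient.mk_surjective b
    have h1 : Ideal.Quotient.mk P.asIdeal f =
        algebraMap K (MvPolynomial (Fin m) K ⧸ P.asIdeal) (constantCoeff f) :=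
      Ideal.Quotient.eq.2 (hmem f)
    rw [h1]
    exact isAlgebraic_algebraMap _
  unfold dm
  rw [trdeg_eq_zero]
  simp

/-- The homomorphism `f ↦ f (x T)`. -/
noncomputable def lineHom {K : Type} [Field K] {m : ℕ} (x : Fin m → K) :
    MvPolynomial (Fin m) K →ₐ[K] Polynomial K :=
  aeval (fun k => Polynomial.C (x k) * Polynomial.X)

theorem lineHom_homog {K : Type} [Field K] {m n : ℕ} (x : Fin m → K) (g : MvPolynomial (Fin m) K)
    (hg : g.IsHomogeneous n) : lineHom x g = Polynomial.C (eval x g) * Polynomial.X ^ n := by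
  unfold lineHom
  rw [aeval_def, eval₂_eq', eval_eq', map_sum, Finset.sum_mul]
  refine Finset.sum_congr rfl fun d hd => ?_
  have h1 : d.degree = n := by
    have := hg (mem_support_iff.1 hd)
    rw [← this, Finsupp.degree_eq_weight_one]
    rfl
  have h2 : ∏ i, (Polynomial.C (x i) * Polynomial.X) ^ d i = Polynomial.C (∏ i, x i ^ d i) * Polynomial.X ^ n := by
    simp only [mul_pow, Finset.prod_mul_distrib, ← h1, Finsupp.degree_eq_sum, Finset.prod_pow_eq_pow_sum, map_prod, map_pow]
  rw [h2, map_mul]
  change Polynomial.C (g.coeff d) * _ = _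
  ring

theorem lineHom_coeff {K : Type} [Field K] {m n : ℕ} (x : Fin m → K) (g : MvPolynomial (Fin m) K) :
    (lineHom x g).coeff n = eval x (homogeneousComponent n g) := by
  have h1 : lineHom x g = ∑ i ∈ Finset.range (g.totalDegree + 1), Polynomial.C (eval x (homogeneousComponent i g)) * Polynomial.X ^ i := by
    conv_lhs => rw [← sum_homogeneousComponent g]
    rw [map_sum]
    exact Finset.sum_congr rfl fun i _ => lineHom_homog x _ (homogeneousComponent_isHomogeneous i g)
  rw [h1, Polynomial.finsetSum_coeff]
  simp only [Polynomial.coeff_C_mul, Polynomial.coeff_X_pow, mul_ite, mul_one, mul_zero]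
  rw [Finset.sum_ite_eq]
  split_ifs with h2
  · rfl
  · rw [homogeneousComponent_eq_zero _ _ (by
      rw [Finset.mem_range] at h2
      omega), map_zero]

theorem smooth_of_sg {K : Type} [Field K] {m d : ℕ} (F : MvPolynomial (Fin m) K)
    (hF : F.IsHomogeneous d) (h : SgLe F 0) (x : Fin m → K)
    (hx : ∀ k, eval x (pderiv k F) = 0) : x = 0 := by
  by_contra hne
  obtain ⟨k, hk⟩ : ∃ k, x k ≠ 0 := by
    by_contra hcon
    push Not at hcon
    exact hne (funext hcon)
  have hprime : (RingHom.ker (lineHom x)).IsPrime := RingHom.ker_isPrime _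
  have hsurj : Function.Surjective (lineHom x) := by
    rw [← AlgHom.range_eq_top, eq_top_iff, ← Polynomial.adjoin_X, Algebra.adjoin_le_iff, Set.singleton_subset_iff]
    refine ⟨C (x k)⁻¹ * X k, ?_⟩
    change lineHom x (C (x k)⁻¹ * X k) = _
    unfold lineHom
    rw [map_mul, aeval_X, ← algebraMap_eq, AlgHom.commutes, Polynomial.algebraMap_eq, ← mul_assoc, ← map_mul,
      inv_mul_cancel₀ hk, map_one, one_mul]
  have h1 := h ⟨RingHom.ker (lineHom x), hprime⟩ ?_ ?_
  · have e := Ideal.quotientKerAlgEquivOfSurjective hsurj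
    have h2 : Algebra.trdeg K (MvPolynomial (Fin m) K ⧸ RingHom.ker (lineHom x)) = 1 := by
      rw [← Polynomial.trdeg_of_isDomain (R := K)]
      exact le_antisymm (trdeg_le_of_injective e.toAlgHom e.injective)
        (trdeg_le_of_injective e.symm.toAlgHom e.symm.injective)
    change Cardinal.toNat (Algebra.trdeg K (MvPolynomial (Fin m) K ⧸ RingHom.ker (lineHom x))) ≤ 0 at h1
    rw [h2] at h1
    simp at h1
  · intro f hf n
    change f ∈ RingHom.ker (lineHom x) at hf
    change homogeneousComponent n f ∈ RingHom.ker (lineHom x)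
    rw [RingHom.mem_ker] at hf ⊢
    rw [lineHom_homog x _ (homogeneousComponent_isHomogeneous n f), ← lineHom_coeff, hf, Polynomial.coeff_zero,
      map_zero, zero_mul]
  · intro j
    change pderiv j F ∈ RingHom.ker (lineHom x)
    rw [RingHom.mem_ker, lineHom_homog x _ hF.pderiv, hx j, map_zero, zero_mul]

end Pool.Agent.HCH
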