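import Pool.Agent.HCH.P1

namespace Pool.Agent.HCH

open MvPolynomial

attribute [local instance] MvPolynomial.gradedAlgebra

theorem flag_homog {K : Type} [Field K] {m : ℕ} (F : MvPolynomial (Fin m) K) (d : ℕ)
    (hF : F.IsHomogeneous d) (l : ℕ → MvPolynomial (Fin m) K) (hl : ∀ k, (l k).IsHomogeneous 1)
    (i : ℕ) : HgI (flag F l i) := by
  rw [hgI_iff]
  unfold flag
  apply Ideal.homogeneous_span
  rintro x (hx | ⟨k, _, rfl⟩)
  · rw [Set.mem_singleton_iff] at hx
    rw [hx]
    exact ⟨d, hF⟩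
  · exact ⟨1, hl k⟩

theorem flag_succ {K : Type} [Field K] {m : ℕ} (F : MvPolynomial (Fin m) K)
    (l : ℕ → MvPolynomial (Fin m) K) (i : ℕ) :
    flag F l (i + 1) = flag F l i ⊔ Ideal.span {l i} := by
  unfold flag
  rw [← Ideal.span_union]
  congr 1
  have : {k | k < i + 1} = {k | k < i} ∪ {i} := by
    ext k
    simp only [Set.mem_ofPred_eq, Set.mem_union, Set.mem_singleton_iff]
    omega
  rw [this, Set.image_union, Set.image_singleton, Set.union_assoc]

theorem hart_affine {K : Type} [Field K] {m d : ℕ} (F : MvPolynomial (Fin (m + 2)) K)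
    (hF : F.IsHomogeneous d) (j : ℕ) (hj : 1 ≤ j) (hjm : j ≤ m) (h : Hart F j) :
    AT K (deh F) (m - j) := by
  obtain ⟨j, rfl⟩ := Nat.exists_eq_add_of_le' hj
  obtain ⟨l, hl, hflag, hP⟩ := h
  intro p hp hd
  have hdP : dm K (hm p).asIdeal = m + 2 - 1 - (j + 1) := by
    rw [dm_hm, hd]
    omega
  have hFP : F ∈ (hm p).asIdeal := (mem_hm p F d hF).mpr hp
  obtain ⟨N, hN, c, Q, hQ, hz⟩ := hP (hm p) (hm_homog p) hFP hdP
  have e1 : m + 2 - 1 - (j + 1) = (m - (j + 1)) + 1 := by omega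
  rw [e1] at hz
  have h1 := res_PRat F (m - (j + 1)) _ hz
  -- the class of Q becomes zero
  obtain ⟨hfp, hfd⟩ := hflag j (Nat.le_succ j)
  have h2 : (fun p => cls Q (hm p)) ∈ ARat K (deh F) (m - (j + 1)) := by
    apply res_cls F (l j) (m - (j + 1)) 1 ⟨flag F l j, hfp⟩ Q
    · exact flag_homog F d hF l hl j
    · rw [hQ]
      exact flag_homog F d hF l hl (j + 1)
    · exact Ideal.subset_span (Or.inl rfl)
    · change dm K (flag F l j) = _
      rw [hfd]
      omega
    · rw [hQ, (hflag (j + 1) le_rfl).2]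
      omega
    · exact hl j
    · rw [hQ]
      exact (flag_succ F l j).symm
  refine ⟨N, hN, ?_⟩
  have h3 := (ARat K (deh F) (m - (j + 1))).add_mem h1
    ((ARat K (deh F) (m - (j + 1))).zsmul_mem h2 c)
  convert! h3 using 1
  funext p'
  simp only [Pi.add_apply, Pi.smul_apply, Pi.sub_apply]
  have h4 : cls (hm p) (hm p') = cls p p' := by
    unfold cls
    by_cases h5 : p' = p
    · simp [h5]
    · rw [if_neg h5, if_neg]
      intro h6
      exact h5 (hm_inj h6)
  rw [h4]
  ring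

end Pool.Agent.HCH
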