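import Pool.Agent.HCH.D2

namespace Pool.Agent.HCH

open MvPolynomial

theorem flag_pull {K : Type} [Field K] {n : ℕ}
    {rho : MvPolynomial (Fin (n + 1)) K →ₐ[K] MvPolynomial (Fin n) K}
    {tau : MvPolynomial (Fin n) K →ₐ[K] MvPolynomial (Fin (n + 1)) K}
    {l : MvPolynomial (Fin (n + 1)) K} (h : LQ rho tau l) (F : MvPolynomial (Fin (n + 1)) K)
    (ls : ℕ → MvPolynomial (Fin (n + 1)) K) (l' : ℕ → MvPolynomial (Fin n) K)
    (h0 : ls 0 = l) (hs : ∀ k, ls (k + 1) = tau (l' k)) (i : ℕ) :
    flag F ls (i + 1) = (flag (rho F) l' i).comap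
      (rho : MvPolynomial (Fin (n + 1)) K →+* MvPolynomial (Fin n) K) := by
  have hsur : Function.Surjective
      (rho : MvPolynomial (Fin (n + 1)) K →+* MvPolynomial (Fin n) K) := lq_surj h
  have hl0 : rho l = 0 := by
    have : l ∈ RingHom.ker (rho : MvPolynomial (Fin (n + 1)) K →+* MvPolynomial (Fin n) K) := by
      rw [h.ker]
      exact Ideal.mem_span_singleton_self l
    exact this
  have hmap : (flag F ls (i + 1)).map
      (rho : MvPolynomial (Fin (n + 1)) K →+* MvPolynomial (Fin n) K) = flag (rho F) l' i := by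
    unfold flag
    rw [Ideal.map_span]
    apply le_antisymm
    · rw [Ideal.span_le]
      rintro x ⟨y, hy, rfl⟩
      rcases hy with hy | ⟨k, hk, rfl⟩
      · rw [Set.mem_singleton_iff] at hy
        subst hy
        exact Ideal.subset_span (Or.inl rfl)
      · cases k with
        | zero =>
          rw [h0]
          have : (rho : MvPolynomial (Fin (n + 1)) K →+* MvPolynomial (Fin n) K) l = 0 := hl0
          rw [this]
          exact Ideal.zero_mem _
        | succ k =>
          rw [hs]
          have : (rho : MvPolynomial (Fin (n + 1)) K →+* MvPolynomial (Fin n) K) (tau (l' k)) =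
            l' k := h.sec _
          rw [this]
          apply Ideal.subset_span
          right
          refine ⟨k, ?_, rfl⟩
          change k + 1 < i + 1 at hk
          change k < i
          omega
    · rw [Ideal.span_le]
      rintro x (hx | ⟨k, hk, rfl⟩)
      · rw [Set.mem_singleton_iff] at hx
        rw [hx]
        exact Ideal.subset_span ⟨F, Or.inl rfl, rfl⟩
      · apply Ideal.subset_span
        refine ⟨ls (k + 1), Or.inr ⟨k + 1, ?_, rfl⟩, ?_⟩
        · change k < i at hk
          change k + 1 < i + 1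
          omega
        · rw [hs]
          exact h.sec _
  rw [← hmap, Ideal.comap_map_of_surjective _ hsur]
  symm
  apply sup_eq_left.mpr
  rw [← RingHom.ker_eq_comap_bot, h.ker, Ideal.span_singleton_le_iff_mem]
  apply Ideal.subset_span
  right
  exact ⟨0, Nat.succ_pos i, h0⟩

theorem hart_push {K : Type} [Field K] {n : ℕ}
    {rho : MvPolynomial (Fin (n + 1)) K →ₐ[K] MvPolynomial (Fin n) K}
    {tau : MvPolynomial (Fin n) K →ₐ[K] MvPolynomial (Fin (n + 1)) K}
    {l : MvPolynomial (Fin (n + 1)) K} (h : LQ rho tau l) (F : MvPolynomial (Fin (n + 1)) K)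
    (j : ℕ) (hH : Hart (rho F) j) :
    ∃ ls : ℕ → MvPolynomial (Fin (n + 1)) K, ls 0 = l ∧ (∀ k, (ls k).IsHomogeneous 1) ∧
      (∀ i ≤ j, (flag F ls (i + 1)).IsPrime ∧ dm K (flag F ls (i + 1)) = n - 1 - i) ∧
      ∀ P : PrimeSpectrum (MvPolynomial (Fin (n + 1)) K), HgI P.asIdeal → F ∈ P.asIdeal →
        l ∈ P.asIdeal → dm K P.asIdeal = n - 1 - j →
        ∃ N : ℕ, 0 < N ∧ ∃ (c : ℤ) (Q : PrimeSpectrum (MvPolynomial (Fin (n + 1)) K)),
          Q.asIdeal = flag F ls (j + 1) ∧ (N : ℤ) • cls P - c • cls Q ∈ PRat F (n - 1 - j) := by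
  classical
  obtain ⟨l', hl', hfl, hP⟩ := hH
  let ls : ℕ → MvPolynomial (Fin (n + 1)) K := fun k => Nat.casesOn k l (fun k => tau (l' k))
  have hpull : ∀ i, flag F ls (i + 1) = (flag (rho F) l' i).comap
      (rho : MvPolynomial (Fin (n + 1)) K →+* MvPolynomial (Fin n) K) :=
    fun i => flag_pull h F ls l' rfl (fun k => rfl) i
  refine ⟨ls, rfl, ?_, ?_, ?_⟩
  · intro k
    cases k with
    | zero => exact h.hl
    | succ k => exact h.htau _ _ (hl' k)
  · intro i hi
    obtain ⟨h1, h2⟩ := hfl i hi
    rw [hpull]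
    exact ⟨Ideal.comap_isPrime _ _, (dm_comap rho (lq_surj h) _).trans h2⟩
  · intro P hPh hPF hPl hPd
    obtain ⟨P', rfl⟩ := lq_range h P hPl
    have hd' : dm K P'.asIdeal = n - 1 - j := by
      rw [← hPd]
      exact (dm_comap rho (lq_surj h) P'.asIdeal).symm
    obtain ⟨N, hN, c, Q', hQ', hz⟩ := hP P' ((lq_homog h P').mp hPh) hPF hd'
    obtain ⟨z, hz1, hz2, hz3⟩ := push_PRat h F (n - 1 - j) _ hz
    refine ⟨N, hN, c, PrimeSpectrum.comap
      (rho : MvPolynomial (Fin (n + 1)) K →+* MvPolynomial (Fin n) K) Q', ?_, ?_⟩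
    · rw [hpull, ← hQ']
      rfl
    · convert hz1 using 1
      funext P1
      have hcl : ∀ A : PrimeSpectrum (MvPolynomial (Fin n) K), l ∉ P1.asIdeal →
          cls (PrimeSpectrum.comap
            (rho : MvPolynomial (Fin (n + 1)) K →+* MvPolynomial (Fin n) K) A) P1 = 0 := by
        intro A hl1
        unfold cls
        rw [if_neg]
        rintro rfl
        apply hl1
        change rho l ∈ A.asIdeal
        have : l ∈ RingHom.ker
            (rho : MvPolynomial (Fin (n + 1)) K →+* MvPolynomial (Fin n) K) := by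
          rw [h.ker]
          exact Ideal.mem_span_singleton_self l
        have h0 : rho l = 0 := this
        rw [h0]
        exact A.asIdeal.zero_mem
      by_cases hl1 : l ∈ P1.asIdeal
      · obtain ⟨P1', rfl⟩ := lq_range h P1 hl1
        rw [hz2]
        have hinj : Function.Injective (PrimeSpectrum.comap
            (rho : MvPolynomial (Fin (n + 1)) K →+* MvPolynomial (Fin n) K)) :=
          PrimeSpectrum.comap_injective_of_surjective _ (lq_surj h)
        have hcls : ∀ A, cls (PrimeSpectrum.comap
            (rho : MvPolynomial (Fin (n + 1)) K →+* MvPolynomial (Fin n) K) A)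
            (PrimeSpectrum.comap
            (rho : MvPolynomial (Fin (n + 1)) K →+* MvPolynomial (Fin n) K) P1') =
            cls A P1' := by
          intro A
          unfold cls
          by_cases hA : P1' = A
          · simp [hA]
          · rw [if_neg hA, if_neg]
            intro hc
            exact hA (hinj hc)
        simp only [Pi.sub_apply, Pi.smul_apply, hcls]
      · rw [hz3 P1 hl1]
        simp only [Pi.sub_apply, Pi.smul_apply, hcl _ hl1, smul_zero, sub_zero]

end Pool.Agent.HCH
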