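import Pool.Agent.HCH.P5
import Pool.Agent.HCH.D3
import Pool.Agent.HCH.S1
import Pool.Agent.HCH.S2

namespace Pool.Agent.HCH

open MvPolynomial

theorem hart_of_affine {K : Type} [Field K] {M d : ℕ} (F : MvPolynomial (Fin (M + 2)) K)
    (hF : F.IsHomogeneous d) (hprime : (Ideal.span {F}).IsPrime)
    (hdm : dm K (Ideal.span {F}) = M + 1) (j : ℕ) (hj : 1 ≤ j) (hjM : j ≤ M)
    (h : Hart (rhoI F) (j - 1)) (ha : AT K (deh F) (M - j)) : Hart F j := by
  classical
  obtain ⟨j, rfl⟩ := Nat.exists_eq_add_of_le' hj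
  simp only [Nat.add_sub_cancel] at h
  obtain ⟨ls, hls0, hls, hfl, hP⟩ := hart_push lq_rhoI F j h
  have hfl' : ∀ i ≤ j + 1, (flag F ls i).IsPrime ∧ dm K (flag F ls i) = M + 2 - 1 - i := by
    intro i hi
    cases i with
    | zero =>
      have : flag F ls 0 = Ideal.span {F} := by
        unfold flag
        simp
      rw [this]
      exact ⟨hprime, hdm⟩
    | succ i =>
      obtain ⟨h2, h3⟩ := hfl i (by omega)
      refine ⟨h2, ?_⟩
      rw [h3]
      omega
  have e0 : M + 2 - 1 - (j + 1) = M + 1 - 1 - j := by omega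
  have e1 : M + 1 - 1 - j = (M - (j + 1)) + 1 := by omega
  refine ⟨ls, hls, hfl', ?_⟩
  intro P hPh hPF hPd
  rw [e0] at hPd ⊢
  by_cases hl : (X (Fin.last (M + 1)) : MvPolynomial (Fin (M + 2)) K) ∈ P.asIdeal
  · exact hP P hPh hPF hl hPd
  · obtain ⟨p, rfl⟩ := hm_surj P hPh hl
    have hdp : dm K p.asIdeal = M - (j + 1) := by
      rw [dm_hm] at hPd
      omega
    have hfp : deh F ∈ p.asIdeal := (mem_hm p F d hF).mp hPF
    obtain ⟨N, hN, hz⟩ := ha p hfp hdp
    obtain ⟨Z, hZ, hZv⟩ := lift_ARat F hF _ _ hz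
    rw [← e1] at hZ
    obtain ⟨hZf, hZs⟩ := PRat_supp F _ Z hZ
    obtain ⟨hQp, hQd⟩ := hfl' (j + 1) le_rfl
    set Q : PrimeSpectrum (MvPolynomial (Fin (M + 2)) K) := ⟨flag F ls (j + 1), hQp⟩ with hQ
    have hz0 : ∀ P', ((N : ℤ) • cls (hm p) - Z) P' ≠ 0 →
        (HgI P'.asIdeal ∧ F ∈ P'.asIdeal ∧ dm K P'.asIdeal = M + 1 - 1 - j) ∧
        (X (Fin.last (M + 1)) : MvPolynomial (Fin (M + 2)) K) ∈ P'.asIdeal := by
      intro P' hP'
      have h1 : HgI P'.asIdeal ∧ F ∈ P'.asIdeal ∧ dm K P'.asIdeal = M + 1 - 1 - j := by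
        by_cases h1 : P' = hm p
        · rw [h1]
          exact ⟨hPh, hPF, hPd⟩
        · apply hZs P'
          intro h0
          apply hP'
          simp [cls, h1, h0]
      refine ⟨h1, ?_⟩
      by_contra hl'
      obtain ⟨p', rfl⟩ := hm_surj P' h1.1 hl'
      apply hP'
      rw [Pi.sub_apply, Pi.smul_apply, hZv, Pi.smul_apply]
      have h4 : cls (hm p) (hm p') = cls p p' := by
        unfold cls
        by_cases h5 : p' = p
        · simp [h5]
        · rw [if_neg h5, if_neg]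
          intro h6
          exact h5 (hm_inj h6)
      rw [h4, sub_self]
    have hfin : {P' | ((N : ℤ) • cls (hm p) - Z) P' ≠ 0}.Finite := by
      apply (hZf.union (Set.finite_singleton (hm p))).subset
      intro p' hp'
      by_cases h1 : p' = hm p
      · exact Or.inr h1
      · left
        intro h0
        apply hp'
        simp [cls, h1, h0]
    obtain ⟨N', hN', c, hc⟩ := tors_sum (PRat F (M + 1 - 1 - j)) (cls Q) _ hfin (by
      intro P' hP'
      obtain ⟨⟨h1, h2, h3⟩, h4⟩ := hz0 P' hP'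
      obtain ⟨N1, hN1, c1, Q1, hQ1, h5⟩ := hP P' h1 h2 h4 h3
      have : Q1 = Q := PrimeSpectrum.ext hQ1
      rw [this] at h5
      exact ⟨N1, hN1, c1, h5⟩)
    refine ⟨N' * N, Nat.mul_pos hN' hN, c, Q, rfl, ?_⟩
    have e2 : ((N' * N : ℕ) : ℤ) • cls (hm p) - c • cls Q =
        ((N' : ℤ) • ((N : ℤ) • cls (hm p) - Z) - c • cls Q) + (N' : ℤ) • Z := by
      rw [smul_sub, smul_smul, Nat.cast_mul]
      abel
    rw [e2]
    exact (PRat F _).add_mem hc ((PRat F _).zsmul_mem hZ _)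

end Pool.Agent.HCH
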