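import Pool.Agent.HCH.E0
import Pool.Agent.HCH.B

namespace Pool.Agent.HCH

open MvPolynomial

attribute [local instance] MvPolynomial.gradedAlgebra

/-- Scaling in a homogeneous polynomial. -/
theorem aeval_scale_aux {K A : Type} [Field K] [CommRing A] [Algebra K A] {m n : ℕ}
    (G : MvPolynomial (Fin m) K) (hG : G.IsHomogeneous n) (b : Fin m → K) (v : A) :
    aeval (fun j => algebraMap K A (b j) * v) G = v ^ n * algebraMap K A (eval b G) := by
  classical
  rw [aeval_def, eval₂_eq', eval_eq', map_sum, Finset.mul_sum]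
  refine Finset.sum_congr rfl fun d hd => ?_
  have hdeg : ∑ i, d i = n := by
    have h1 := hG (mem_support_iff.mp hd)
    rw [Finsupp.weight_apply] at h1
    simpa [Finsupp.sum_fintype] using h1
  have h2 : ∏ i, (algebraMap K A (b i) * v) ^ d i
      = (∏ i, algebraMap K A (b i) ^ d i) * v ^ n := by
    rw [← hdeg, ← Finset.prod_pow_eq_pow_sum, ← Finset.prod_mul_distrib]
    exact Finset.prod_congr rfl fun i _ => mul_pow _ _ _
  rw [h2, map_mul, map_prod]
  simp only [map_pow]
  ring

theorem exists_form_aux {K : Type} [Field K] {m d : ℕ}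
    (F : MvPolynomial (Fin (m + 1)) K) (hF : F.IsHomogeneous d) (hd : 2 ≤ d)
    (_hprime : (Ideal.span {F}).IsPrime) (hdm : dm K (Ideal.span {F}) = m) :
    ∃ (n : ℕ) (G : MvPolynomial (Fin (m + 1)) K), G ≠ 0 ∧ G.IsHomogeneous n ∧
      aeval (fun k => pderiv k F) G ∈ Ideal.span {F} := by
  classical
  set I : Ideal (MvPolynomial (Fin (m + 1)) K) := Ideal.span {F} with hI
  have hu : ∀ k, (pderiv k F).IsHomogeneous (d - 1) := fun k => hF.pderiv
  -- algebraic dependence
  have hdep : ¬ AlgebraicIndependent K (fun k => Ideal.Quotient.mkₐ K I (pderiv k F)) := by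
    intro hind
    have h1 := hind.cardinalMk_le_trdeg
    have h2 : Algebra.trdeg K (MvPolynomial (Fin (m + 1)) K ⧸ I) < Cardinal.aleph0 :=
      trdeg_lt_aleph0_of_finiteType
    have h3 : Algebra.trdeg K (MvPolynomial (Fin (m + 1)) K ⧸ I) = (m : Cardinal) := by
      rw [← Cardinal.cast_toNat_of_lt_aleph0 h2]
      exact congrArg Nat.cast hdm
    rw [h3, Cardinal.mk_fin] at h1
    have h4 : m + 1 ≤ m := by exact_mod_cast h1
    omega
  rw [algebraicIndependent_iff] at hdep
  push Not at hdep
  obtain ⟨G, hG0, hGne⟩ := hdep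
  have hGI : aeval (fun k => pderiv k F) G ∈ I := by
    have h1 : Ideal.Quotient.mkₐ K I (aeval (fun k => pderiv k F) G) = 0 := by
      rw [← hG0, MvPolynomial.comp_aeval_apply]
    exact Ideal.Quotient.eq_zero_iff_mem.mp h1
  -- choose a component
  obtain ⟨n, hn⟩ : ∃ n, homogeneousComponent n G ≠ 0 := by
    by_contra hcon
    push Not at hcon
    apply hGne
    rw [← sum_homogeneousComponent G]
    exact Finset.sum_eq_zero fun i _ => hcon i
  refine ⟨n, homogeneousComponent n G, hn, homogeneousComponent_isHomogeneous n G, ?_⟩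
  have hsum : aeval (fun k => pderiv k F) G = ∑ i ∈ Finset.range (G.totalDegree + 1),
      aeval (fun k => pderiv k F) (homogeneousComponent i G) := by
    rw [← map_sum, sum_homogeneousComponent]
  have hcomp : homogeneousComponent ((d - 1) * n) (aeval (fun k => pderiv k F) G)
      = aeval (fun k => pderiv k F) (homogeneousComponent n G) := by
    rw [hsum, map_sum]
    have hterm : ∀ i, homogeneousComponent ((d - 1) * n)
        (aeval (fun k => pderiv k F) (homogeneousComponent i G)) =
        if i = n then aeval (fun k => pderiv k F) (homogeneousComponent n G) else 0 := by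
      intro i
      have h5 : (aeval (fun k => pderiv k F) (homogeneousComponent i G)).IsHomogeneous
          ((d - 1) * i) := (homogeneousComponent_isHomogeneous i G).aeval _ hu
      rw [homogeneousComponent_of_mem h5]
      by_cases hin : i = n
      · subst hin
        simp
      · have h6 : (d - 1) * n ≠ (d - 1) * i := by
          intro h7
          have h8 : 0 < d - 1 := by omega
          exact hin (Nat.eq_of_mul_eq_mul_left h8 h7).symm
        rw [if_neg h6, if_neg hin]
    rw [Finset.sum_congr rfl fun i _ => hterm i, Finset.sum_ite_eq']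
    by_cases hnr : n ∈ Finset.range (G.totalDegree + 1)
    · rw [if_pos hnr]
    · exact absurd (homogeneousComponent_eq_zero n G (by
        rw [Finset.mem_range] at hnr
        omega)) hn
  rw [← hcomp]
  have hIh : I.IsHomogeneous (homogeneousSubmodule (Fin (m + 1)) K) := by
    rw [hI]
    apply Ideal.homogeneous_span
    intro x hx
    rw [Set.mem_singleton_iff.mp hx]
    exact ⟨d, hF⟩
  exact homogeneousComponent_mem_of_mem hIh hGI _

/-
ROW E2 (1.5 h). A hyperplane which is nowhere tangent. n = m + 1 variables, u_k = pderiv k F, forms of degree d - 1 ≥ 1. trdeg_K (K[x] ⧸ (F)) = m < m + 1, so the images of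
the m + 1 elements u_k in the domain K[x] ⧸ (F) are algebraically dependent (AlgebraicIndependent.cardinalMk_le_trdeg; dm = toNat of trdeg, trdeg < ℵ₀ by
trdeg_lt_aleph0_of_finiteType): a polynomial G ≠ 0 in m + 1 variables with aeval u G ∈ (F). Since aeval u maps the component G_n to a form of degree n (d - 1)
(IsHomogeneous.aeval) and d - 1 ≥ 1, aeval u G_n is the component of degree n (d-1) of aeval u G, so aeval u G_n ∈ (F) (F is a form, (F) is homogeneous). Choose n with G_n ≠ 0; n ≥ 1,
otherwise G_n is a nonzero constant in (F), but (F) is prime.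
For Q ∈ T choose k_Q with X k_Q ∉ Q and a K-linear functional xi on S ⧸ Q with xi (X k_Q) ≠ 0 (exists_dual_forall_apply_ne_zero.. / Module.exists_dual..; Module.forall_dual_apply_eq_zero_iff);
Lam_Q = Σ_k C (xi (mk (X k))) * X k ≠ 0, a polynomial in the coefficients b. The product G_n * X last * ∏_{Q ∈ T} Lam_Q is not 0, K infinite: b with all values ≠ 0
(MvPolynomial.funext / exists eval ≠ 0). a k = b k / b last. If the linear form X last + Σ a_k X_k were in Q ∈ T then Σ_k b_k X_k ∈ Q and Lam_Q(b) = xi (0) = 0, contradiction.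
If P ∋ F prime and u_k - a_k u_last ∈ P for all k < last, then u_k ≡ b_k v mod P for all k with v = u_last / b_last, so 0 ≡ aeval u G_n ≡ v^n G_n(b) (G_n homogeneous of degree n), so
v ∈ P, u_last ∈ P and all u_k ∈ P.
-/
theorem good_hyperplane {K : Type} [Field K] [Infinite K] {m d : ℕ}
    (F : MvPolynomial (Fin (m + 1)) K) (hF : F.IsHomogeneous d) (hd : 2 ≤ d)
    (hprime : (Ideal.span {F}).IsPrime) (hdm : dm K (Ideal.span {F}) = m)
    (T : Finset (PrimeSpectrum (MvPolynomial (Fin (m + 1)) K)))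
    (hT : ∀ Q ∈ T, ∃ k, (X k : MvPolynomial (Fin (m + 1)) K) ∉ Q.asIdeal) :
    ∃ a : Fin m → K, (∀ Q ∈ T, X (Fin.last m) + ∑ k : Fin m, C (a k) * X k.castSucc ∉ Q.asIdeal) ∧
      ∀ P : PrimeSpectrum (MvPolynomial (Fin (m + 1)) K), F ∈ P.asIdeal →
        (∀ k : Fin m, pderiv k.castSucc F - C (a k) * pderiv (Fin.last m) F ∈ P.asIdeal) →
        ∀ k, pderiv k F ∈ P.asIdeal := by
  classical
  obtain ⟨n, G, hG0, hGh, hGI⟩ := exists_form_aux F hF hd hprime hdm
  -- functionals
  have hxi : ∀ Q : PrimeSpectrum (MvPolynomial (Fin (m + 1)) K), Q ∈ T →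
      ∃ ξ : (MvPolynomial (Fin (m + 1)) K ⧸ Q.asIdeal) →ₗ[K] K,
        (∑ k, C (ξ (Ideal.Quotient.mk Q.asIdeal (X k))) * X k :
          MvPolynomial (Fin (m + 1)) K) ≠ 0 := by
    intro Q hQ
    obtain ⟨k, hk⟩ := hT Q hQ
    have hk' : (Ideal.Quotient.mk Q.asIdeal (X k)) ≠ 0 := fun h =>
      hk (Ideal.Quotient.eq_zero_iff_mem.mp h)
    obtain ⟨ξ, hξ⟩ := Module.Projective.exists_dual_ne_zero K hk'
    refine ⟨ξ, fun h => hξ ?_⟩
    have h1 := congrArg (eval (Pi.single k (1 : K))) h
    rw [map_zero, map_sum] at h1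
    simpa [Pi.single_apply] using h1
  choose! ξ hξ using hxi
  -- the product
  have hprod : G * X (Fin.last m) * ∏ Q ∈ T, (∑ k, C (ξ Q (Ideal.Quotient.mk Q.asIdeal (X k))) * X k :
          MvPolynomial (Fin (m + 1)) K) ≠ 0 := by
    refine mul_ne_zero (mul_ne_zero hG0 (X_ne_zero _)) ?_
    exact Finset.prod_ne_zero_iff.mpr fun Q hQ => hξ Q hQ
  obtain ⟨b, hb⟩ : ∃ b : Fin (m + 1) → K, eval b (G * X (Fin.last m) *
      ∏ Q ∈ T, (∑ k, C (ξ Q (Ideal.Quotient.mk Q.asIdeal (X k))) * X k :
          MvPolynomial (Fin (m + 1)) K)) ≠ 0 := by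
    by_contra hcon
    push Not at hcon
    apply hprod
    apply MvPolynomial.funext
    intro x
    rw [hcon x, map_zero]
  rw [map_mul, map_mul, map_prod, eval_X] at hb
  have hbG : eval b G ≠ 0 := fun h => hb (by rw [h, zero_mul, zero_mul])
  have hbl : b (Fin.last m) ≠ 0 := fun h => hb (by rw [h, mul_zero, zero_mul])
  have hbQ : ∀ Q ∈ T, eval b (∑ k, C (ξ Q (Ideal.Quotient.mk Q.asIdeal (X k))) * X k :
          MvPolynomial (Fin (m + 1)) K) ≠ 0 := fun Q hQ h => hb (by
    rw [Finset.prod_eq_zero hQ h, mul_zero])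
  refine ⟨fun k => b k.castSucc / b (Fin.last m), ?_, ?_⟩
  · intro Q hQ hmem
    apply hbQ Q hQ
    have h1 : (C (b (Fin.last m)) : MvPolynomial (Fin (m + 1)) K) *
        (X (Fin.last m) + ∑ k : Fin m, C (b k.castSucc / b (Fin.last m)) * X k.castSucc)
        = ∑ j, b j • X j := by
      rw [Fin.sum_univ_castSucc, mul_add, Finset.mul_sum, smul_eq_C_mul,
        add_comm (C (b (Fin.last m)) * X (Fin.last m))]
      congr 1
      refine Finset.sum_congr rfl fun k _ => ?_
      rw [smul_eq_C_mul, ← mul_assoc, ← C_mul, mul_div_cancel₀ _ hbl]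
    have h2 : (∑ j, b j • X j : MvPolynomial (Fin (m + 1)) K) ∈ Q.asIdeal := by
      rw [← h1]
      exact Q.asIdeal.mul_mem_left _ hmem
    have h3 : ξ Q (Ideal.Quotient.mkₐ K Q.asIdeal (∑ j, b j • X j)) = 0 := by
      have : Ideal.Quotient.mkₐ K Q.asIdeal (∑ j, b j • X j) = 0 :=
        Ideal.Quotient.eq_zero_iff_mem.mpr h2
      rw [this, map_zero]
    rw [map_sum, map_sum] at h3
    rw [map_sum, ← h3]
    refine Finset.sum_congr rfl fun k _ => ?_
    rw [map_smul, map_smul, map_mul, eval_C, eval_X, smul_eq_mul, mul_comm]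
    rfl
  · intro P hFP hk
    have hPp := P.isPrime
    have hle : Ideal.span {F} ≤ P.asIdeal := (Ideal.span_singleton_le_iff_mem _).mpr hFP
    set q : MvPolynomial (Fin (m + 1)) K →ₐ[K] MvPolynomial (Fin (m + 1)) K ⧸ P.asIdeal :=
      Ideal.Quotient.mkₐ K P.asIdeal with hq
    set v : MvPolynomial (Fin (m + 1)) K ⧸ P.asIdeal :=
      algebraMap K _ (b (Fin.last m))⁻¹ * q (pderiv (Fin.last m) F) with hv
    have hqu : ∀ j, q (pderiv j F) = algebraMap K _ (b j) * v := by
      intro j
      refine Fin.lastCases ?_ (fun k => ?_) j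
      · rw [hv, ← mul_assoc, ← map_mul, mul_inv_cancel₀ hbl, map_one, one_mul]
      · have h1 : q (pderiv k.castSucc F - C (b k.castSucc / b (Fin.last m)) *
            pderiv (Fin.last m) F) = 0 := Ideal.Quotient.eq_zero_iff_mem.mpr (hk k)
        rw [map_sub, sub_eq_zero, map_mul] at h1
        have h2 : q (C (b k.castSucc / b (Fin.last m))) =
            algebraMap K _ (b k.castSucc / b (Fin.last m)) := q.commutes _
        rw [h1, h2, hv, ← mul_assoc, ← map_mul, div_eq_mul_inv]
    have h0 : q (aeval (fun k => pderiv k F) G) = 0 :=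
      Ideal.Quotient.eq_zero_iff_mem.mpr (hle hGI)
    rw [MvPolynomial.comp_aeval_apply] at h0
    have hfun : (fun i => q (pderiv i F)) = fun j => algebraMap K _ (b j) * v := funext hqu
    rw [hfun, aeval_scale_aux G hGh b v] at h0
    have hcne : algebraMap K (MvPolynomial (Fin (m + 1)) K ⧸ P.asIdeal) (eval b G) ≠ 0 := by
      rw [Ne, map_eq_zero_iff _ (algebraMap K _).injective]
      exact hbG
    have hv0 : v = 0 := by
      rcases mul_eq_zero.mp h0 with h | h
      · exact eq_zero_of_pow_eq_zero h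
      · exact absurd h hcne
    intro k
    have h5 : q (pderiv k F) = 0 := by rw [hqu k, hv0, mul_zero]
    exact Ideal.Quotient.eq_zero_iff_mem.mp h5

end Pool.Agent.HCH
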