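import Pool.Agent.HCH.E1
import Pool.Agent.HCH.E2

namespace Pool.Agent.HCH

open MvPolynomial

/-
ROW E3 (1.3 h). sg_phi: P homogeneous prime with all partials of phi a F; P1 = comap (phi a) P is homogeneous (phi a preserves forms: homogeneousComponent n (phi a f) =
phi a (homogeneousComponent n f)), contains all partials of F (pderiv_phi_last, then pderiv_phi), dm P1 = dm P (dm_comap, phi a surjective by phi_neg).
good_coord: J = Ideal.span (range of the partials of F), homogeneous; T = the finite set of minimal primes of J which do not contain all the variables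
(Ideal.finite_minimalPrimes_of_isNoetherianRing). a from good_hyperplane. Let P' be a homogeneous prime of K[x_0..x_{m-1}] with all partials of F' = rhoI (phi a F).
Euler (IsHomogeneous.sum_X_mul_pderiv) : d • F' ∈ P', so F' ∈ P' (d ≠ 0 in K: characteristic 0). P = comap (rhoI ∘ phi a) P': homogeneous, F ∈ P, dm P = dm P'
(surjective), contains lin = X last + Σ a_k X_k (phi a lin = X last, rhoI (X last) = 0), and pderiv k F - C (a k) pderiv last F ∈ P for k < last (pderiv_rhoI, pderiv_phi). So all partials of F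
are in P (good_hyperplane) and dm P ≤ r. Suppose dm P' > r - 1. Then r ≥ 1 and dm P = r (r = 0 would give dm P' ≤ 0). A minimal prime P1 ≤ P of J is homogeneous
(min_homog), contains the partials, dm P1 ≤ r = dm P, so P1 = P (eq_of_dm_le). P contains not all variables (otherwise S ⧸ P = K, dm P = 0: dm_comap with constantCoeff or trdeg of a trivial
extension), so P ∈ T, but lin ∈ P: contradiction.
-/
theorem e3_phi_surj {K : Type} [Field K] {m : ℕ} (a : Fin m → K) :
    Function.Surjective (phi a) := by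
  intro x
  refine ⟨phi (-a) x, ?_⟩
  have h := phi_neg (-a) x
  rwa [neg_neg] at h

theorem sg_phi {K : Type} [Field K] {m : ℕ} (a : Fin m → K) (F : MvPolynomial (Fin (m + 1)) K)
    (r : ℕ) (h : SgLe F r) : SgLe (phi a F) r := by
  intro P hP hpar
  let P1 : PrimeSpectrum (MvPolynomial (Fin (m + 1)) K) := PrimeSpectrum.comap
    (phi a : MvPolynomial (Fin (m + 1)) K →+* MvPolynomial (Fin (m + 1)) K) P
  have hdm : dm K P1.asIdeal = dm K P.asIdeal := dm_comap (phi a) (e3_phi_surj a) P.asIdeal
  rw [← hdm]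
  apply h P1
  · intro f hf n
    have h3 : homogeneousComponent n (phi a f) = phi a (homogeneousComponent n f) :=
      comp_homog (phi a : MvPolynomial (Fin (m + 1)) K →+* MvPolynomial (Fin (m + 1)) K)
        (fun f b hf => phi_homog a f hf) f n
    change phi a (homogeneousComponent n f) ∈ P.asIdeal
    rw [← h3]
    exact hP _ hf n
  · have hlast : phi a (pderiv (Fin.last m) F) ∈ P.asIdeal := by
      rw [← pderiv_phi_last]
      exact hpar _
    intro k
    change phi a (pderiv k F) ∈ P.asIdeal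
    induction k using Fin.lastCases with
    | last => exact hlast
    | cast j =>
      have h1 := pderiv_phi a F j
      have h2 : phi a (pderiv j.castSucc F) = pderiv j.castSucc (phi a F) +
          C (a j) * phi a (pderiv (Fin.last m) F) := by
        rw [h1]
        ring
      rw [h2]
      exact P.asIdeal.add_mem (hpar _) (P.asIdeal.mul_mem_left _ hlast)

theorem e3_dm_zero {K : Type} [Field K] {n : ℕ} (P : Ideal (MvPolynomial (Fin n) K))
    (h : ∀ k, (X k : MvPolynomial (Fin n) K) ∈ P) : dm K P = 0 := by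
  have h1 : Ideal.Quotient.mkₐ K P = (Algebra.ofId K (MvPolynomial (Fin n) K ⧸ P)).comp
      (aeval (fun _ => (0 : K)) : MvPolynomial (Fin n) K →ₐ[K] K) := by
    apply MvPolynomial.algHom_ext
    intro k
    rw [AlgHom.comp_apply, aeval_X, map_zero]
    exact Ideal.Quotient.eq_zero_iff_mem.mpr (h k)
  have h2 : Algebra.IsAlgebraic K (MvPolynomial (Fin n) K ⧸ P) := by
    constructor
    intro x
    obtain ⟨f, rfl⟩ := Ideal.Quotient.mk_surjective x
    have h3 : Ideal.Quotient.mk P f = algebraMap K (MvPolynomial (Fin n) K ⧸ P)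
        ((aeval (fun _ => (0 : K)) : MvPolynomial (Fin n) K →ₐ[K] K) f) :=
      congrArg (fun φ : MvPolynomial (Fin n) K →ₐ[K] MvPolynomial (Fin n) K ⧸ P => φ f) h1
    rw [h3]
    exact isAlgebraic_algebraMap _
  unfold dm
  by_cases hP : P = ⊤
  · have : Subsingleton (MvPolynomial (Fin n) K ⧸ P) := Ideal.Quotient.subsingleton_iff.mpr hP
    have h4 : Algebra.trdeg K (MvPolynomial (Fin n) K ⧸ P) = 0 := trdeg_eq_zero
    rw [h4, Cardinal.zero_toNat]
  · have h4 : Algebra.trdeg K (MvPolynomial (Fin n) K ⧸ P) = 0 := trdeg_eq_zero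
    rw [h4, Cardinal.zero_toNat]

attribute [local instance] MvPolynomial.gradedAlgebra in
theorem e3_homog {K : Type} [Field K] {m d : ℕ} (F : MvPolynomial (Fin (m + 1)) K)
    (hF : F.IsHomogeneous d) : HgI (Ideal.span (Set.range fun k => pderiv k F)) := by
  rw [hgI_iff]
  apply Ideal.homogeneous_span
  rintro _ ⟨k, rfl⟩
  exact ⟨d - 1, (mem_homogeneousSubmodule _ _).mpr hF.pderiv⟩

theorem good_coord {K : Type} [Field K] [CharZero K] {m d : ℕ}
    (F : MvPolynomial (Fin (m + 1)) K) (hF : F.IsHomogeneous d) (hd : 2 ≤ d)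
    (hprime : (Ideal.span {F}).IsPrime) (hdm : dm K (Ideal.span {F}) = m) (r : ℕ)
    (h : SgLe F r) : ∃ a : Fin m → K, SgLe (rhoI (phi a F)) (r - 1) := by
  classical
  set J : Ideal (MvPolynomial (Fin (m + 1)) K) := Ideal.span (Set.range fun k => pderiv k F)
    with hJ
  have hJh : HgI J := e3_homog F hF
  have hfin : {Q : PrimeSpectrum (MvPolynomial (Fin (m + 1)) K) | Q.asIdeal ∈ J.minimalPrimes ∧
      ∃ k, (X k : MvPolynomial (Fin (m + 1)) K) ∉ Q.asIdeal}.Finite := by
    apply Set.Finite.subset (s := PrimeSpectrum.asIdeal ⁻¹' J.minimalPrimes)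
    · apply Set.Finite.preimage
      · intro x _ y _ hxy
        exact PrimeSpectrum.ext hxy
      · exact J.finite_minimalPrimes_of_isNoetherianRing _
    · rintro Q ⟨hQ, -⟩
      exact hQ
  obtain ⟨a, ha1, ha2⟩ := good_hyperplane F hF hd hprime hdm hfin.toFinset (by
    intro Q hQ
    exact ((Set.Finite.mem_toFinset hfin).mp hQ).2)
  refine ⟨a, ?_⟩
  intro P' hP' hpar
  let Ψ : MvPolynomial (Fin (m + 1)) K →ₐ[K] MvPolynomial (Fin m) K := rhoI.comp (phi a)
  have hΨs : Function.Surjective Ψ := (lq_surj lq_rhoI).comp (e3_phi_surj a)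
  have hΨh : ∀ (f : MvPolynomial (Fin (m + 1)) K) (b : ℕ), f.IsHomogeneous b →
      (Ψ f).IsHomogeneous b := fun f b hf => lq_rhoI.hrho _ b (phi_homog a f hf)
  let P : PrimeSpectrum (MvPolynomial (Fin (m + 1)) K) := PrimeSpectrum.comap
    (Ψ : MvPolynomial (Fin (m + 1)) K →+* MvPolynomial (Fin m) K) P'
  have hmem : ∀ f, f ∈ P.asIdeal ↔ Ψ f ∈ P'.asIdeal := fun f => Iff.rfl
  have hPh : HgI P.asIdeal := by
    intro f hf n
    have h3 : homogeneousComponent n (Ψ f) = Ψ (homogeneousComponent n f) :=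
      comp_homog (Ψ : MvPolynomial (Fin (m + 1)) K →+* MvPolynomial (Fin m) K) hΨh f n
    rw [hmem, ← h3]
    exact hP' _ hf n
  have hPdm : dm K P.asIdeal = dm K P'.asIdeal := dm_comap Ψ hΨs P'.asIdeal
  -- `F` lies in `P`
  have hFP : F ∈ P.asIdeal := by
    rw [hmem]
    have h1 := (hΨh F d hF).sum_X_mul_pderiv
    have h2 : d • Ψ F ∈ P'.asIdeal := by
      rw [← h1]
      exact Ideal.sum_mem _ fun i _ => P'.asIdeal.mul_mem_left _ (hpar i)
    have hd0 : (d : K) ≠ 0 := by
      exact_mod_cast (by omega : d ≠ 0)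
    have h3 : Ψ F = C ((d : K)⁻¹) * (d • Ψ F) := by
      rw [nsmul_eq_mul, ← mul_assoc]
      have h4 : (C ((d : K)⁻¹) : MvPolynomial (Fin m) K) * (d : MvPolynomial (Fin m) K) = 1 := by
        rw [← map_natCast (C : K →+* MvPolynomial (Fin m) K), ← C_mul, inv_mul_cancel₀ hd0, C_1]
      rw [h4, one_mul]
    rw [h3]
    exact P'.asIdeal.mul_mem_left _ h2
  have hpP : ∀ k, pderiv k F ∈ P.asIdeal := by
    apply ha2 P hFP
    intro k
    rw [hmem]
    have h1 : Ψ (pderiv k.castSucc F - C (a k) * pderiv (Fin.last m) F) =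
        pderiv k (rhoI (phi a F)) := by
      rw [pderiv_rhoI, pderiv_phi]
      change rhoI (phi a _) = _
      rw [map_sub, map_mul]
      have h2 : phi a (C (a k)) = C (a k) := (phi a).commutes (a k)
      rw [h2]
    rw [h1]
    exact hpar k
  have hPr := h P hPh hpP
  by_contra hcon
  have hr : dm K P.asIdeal = r := by omega
  have hr1 : 1 ≤ r := by omega
  have hJP : J ≤ P.asIdeal := by
    rw [hJ, Ideal.span_le]
    rintro _ ⟨k, rfl⟩
    exact hpP k
  obtain ⟨P1, hP1, hP1P⟩ := Ideal.exists_minimalPrimes_le hJP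
  have hP1p : P1.IsPrime := hP1.isPrime
  have hP1h := min_homog J P1 hJh hP1
  have h5 : dm K P1 ≤ r := h ⟨P1, hP1p⟩ hP1h fun k =>
    hP1.1.2 (Ideal.subset_span ⟨k, rfl⟩)
  have h6 : P1 = P.asIdeal := eq_of_dm_le (K := K) P1 P.asIdeal hP1P (by omega)
  have h7 : ∃ k, (X k : MvPolynomial (Fin (m + 1)) K) ∉ P.asIdeal := by
    by_contra h8
    push Not at h8
    have := e3_dm_zero P.asIdeal h8
    omega
  have h9 : P ∈ hfin.toFinset := (Set.Finite.mem_toFinset hfin).mpr ⟨by rw [← h6]; exact hP1, h7⟩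
  apply ha1 P h9
  rw [hmem]
  have h10 : Ψ (X (Fin.last m) + ∑ k : Fin m, C (a k) * X k.castSucc) = 0 := by
    have e1 : phi a (X (Fin.last m) + ∑ k : Fin m, C (a k) * X k.castSucc) =
        X (Fin.last m) := by
      have e2 : phi a (X (Fin.last m)) = X (Fin.last m) - ∑ k : Fin m, C (a k) * X k.castSucc := by
        unfold phi
        rw [aeval_X, Fin.snoc_last]
      have e3 : ∀ k : Fin m, phi a (C (a k) * X k.castSucc) = C (a k) * X k.castSucc := by
        intro k
        rw [map_mul]
        have h2 : phi a (C (a k)) = C (a k) := (phi a).commutes (a k)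
        have h3 : phi a (X k.castSucc) = X k.castSucc := by
          unfold phi
          rw [aeval_X, Fin.snoc_castSucc]
        rw [h2, h3]
      rw [map_add, map_sum, e2, Finset.sum_congr rfl fun k _ => e3 k, sub_add_cancel]
    change rhoI (phi a _) = 0
    rw [e1]
    simp [rhoI]
  rw [h10]
  exact P'.asIdeal.zero_mem

end Pool.Agent.HCH
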