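import Pool.Agent.HCH.B

namespace Pool.Agent.HCH

open MvPolynomial

/-
ROW E5 (1.2 h). Contraction of primes from K(t)[y] to K[y]. P = Q ∩ K[y], A = K[y] ⧸ P ⊆ B = K(t)[y] ⧸ Q. dm_ext_le: B is generated over the field K(t) by the images of the y_i, so a
transcendence basis of B over K(t) can be chosen among them (exists_isTranscendenceBasis_subset or similar for generating sets: every y_i algebraic over a maximal algebraically
independent subfamily, hence B algebraic over it); it is algebraically independent over K too (AlgebraicIndependent restrict scalars) and lies in A: dm Q ≤ dm P.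
dm_ext_rel: if g1 + t g0 = 0 in B and g0, g1 are not both 0 in A then g0 ≠ 0 in A (otherwise g1 = 0), so t is algebraic over A (t g0 + g1 = 0), K(t) and so B are algebraic over A,
trdeg_K A = trdeg_K B = 1 + trdeg_K(t) B.
-/

/-- the inclusion of `A = K[y] ⧸ P` in `B = K(t)[y] ⧸ Q` -/
noncomputable def e5f {K : Type} [Field K] {n : ℕ}
    (Q : Ideal (MvPolynomial (Fin n) (RatFunc K))) :
    (MvPolynomial (Fin n) K ⧸ Q.comap (ext K (RatFunc K) n)) →ₐ[K]
      (MvPolynomial (Fin n) (RatFunc K) ⧸ Q) :=
  Ideal.quotientMapₐ Q (MvPolynomial.mapAlgHom (Algebra.ofId K (RatFunc K))) le_rfl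

theorem e5f_mk {K : Type} [Field K] {n : ℕ} (Q : Ideal (MvPolynomial (Fin n) (RatFunc K)))
    (f : MvPolynomial (Fin n) K) :
    e5f Q (Ideal.Quotient.mk _ f) = Ideal.Quotient.mk Q (ext K (RatFunc K) n f) := rfl

theorem e5f_inj {K : Type} [Field K] {n : ℕ} (Q : Ideal (MvPolynomial (Fin n) (RatFunc K))) :
    Function.Injective (e5f Q) := Ideal.quotientMap_injective' (H := le_rfl) le_rfl

theorem dm_ext_le {K : Type} [Field K] {n : ℕ}
    (Q : PrimeSpectrum (MvPolynomial (Fin n) (RatFunc K))) :
    dm (RatFunc K) Q.asIdeal ≤ dm K (PrimeSpectrum.comap (ext K (RatFunc K) n) Q).asIdeal := by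
  classical
  have hQ : Q.asIdeal.IsPrime := Q.isPrime
  have hfs : FaithfulSMul (RatFunc K) (MvPolynomial (Fin n) (RatFunc K) ⧸ Q.asIdeal) :=
    (faithfulSMul_iff_algebraMap_injective _ _).mpr (algebraMap (RatFunc K) _).injective
  have htop : Algebra.adjoin (RatFunc K) (Set.range fun i : Fin n =>
      Ideal.Quotient.mk Q.asIdeal (X i)) = ⊤ := by
    have h1 : Algebra.adjoin (RatFunc K)
        (Set.range (X : Fin n → MvPolynomial (Fin n) (RatFunc K))) = ⊤ :=
      MvPolynomial.adjoin_range_X
    have h2 := congrArg (Subalgebra.map (Ideal.Quotient.mkₐ (RatFunc K) Q.asIdeal)) h1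
    rw [AlgHom.map_adjoin, Algebra.map_top, ← Set.range_comp] at h2
    have h3 : (Ideal.Quotient.mkₐ (RatFunc K) Q.asIdeal).range = ⊤ :=
      (AlgHom.range_eq_top _).2 (Ideal.Quotient.mkₐ_surjective _ _)
    rw [h3] at h2
    exact h2
  have halg : Algebra.IsAlgebraic (Algebra.adjoin (RatFunc K) (Set.range fun i : Fin n =>
      Ideal.Quotient.mk Q.asIdeal (X i))) (MvPolynomial (Fin n) (RatFunc K) ⧸ Q.asIdeal) := by
    refine ⟨fun b => ?_⟩
    have hb : b ∈ Algebra.adjoin (RatFunc K) (Set.range fun i : Fin n =>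
      Ideal.Quotient.mk Q.asIdeal (X i)) := by rw [htop]; trivial
    exact isAlgebraic_algebraMap (⟨b, hb⟩ : Algebra.adjoin (RatFunc K) (Set.range fun i : Fin n =>
      Ideal.Quotient.mk Q.asIdeal (X i)))
  obtain ⟨t, hts, ht⟩ := exists_isTranscendenceBasis_subset (R := RatFunc K)
    (Set.range fun i : Fin n => Ideal.Quotient.mk Q.asIdeal (X i))
  have h1 : AlgebraicIndependent K ((↑) : t → MvPolynomial (Fin n) (RatFunc K) ⧸ Q.asIdeal) :=
    ht.1.restrictScalars (algebraMap K (RatFunc K)).injective
  have h2 : ∀ b : t, ∃ i : Fin n, Ideal.Quotient.mk Q.asIdeal (X i) = b.1 := fun b => hts b.2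
  choose g hg using h2
  have h3 : AlgebraicIndependent K (fun b : t =>
      (Ideal.Quotient.mk (Q.asIdeal.comap (ext K (RatFunc K) n)) (X (g b)))) := by
    apply AlgebraicIndependent.of_comp (e5f Q.asIdeal)
    have e : (e5f Q.asIdeal) ∘ (fun b : t =>
        (Ideal.Quotient.mk (Q.asIdeal.comap (ext K (RatFunc K) n)) (X (g b)))) =
        ((↑) : t → MvPolynomial (Fin n) (RatFunc K) ⧸ Q.asIdeal) := by
      funext b
      rw [Function.comp_apply, e5f_mk, ← hg b]
      congr 1
      exact MvPolynomial.map_X _ _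
    rw [e]
    exact h1
  have h4 := h3.cardinalMk_le_trdeg
  rw [ht.cardinalMk_eq_trdeg] at h4
  exact Cardinal.toNat_le_toNat h4 trdeg_lt_aleph0_of_finiteType

/-- polynomials in `t` are algebraic -/
theorem e5_alg {K A B : Type} [Field K] [CommRing A] [IsDomain A] [CommRing B] [IsDomain B]
    [Algebra K A] [Algebra K B] [Algebra (RatFunc K) B] [IsScalarTower K (RatFunc K) B]
    [Algebra A B] [IsScalarTower K A B]
    (h : IsAlgebraic A (algebraMap (RatFunc K) B RatFunc.X)) (c : RatFunc K) :
    IsAlgebraic A (algebraMap (RatFunc K) B c) := by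
  have hp : ∀ p : Polynomial K, IsAlgebraic A
      (algebraMap (RatFunc K) B (algebraMap (Polynomial K) (RatFunc K) p)) := by
    intro p
    induction p using Polynomial.induction_on' with
    | add p q hp hq =>
      rw [map_add, map_add]
      exact hp.add hq
    | monomial m a =>
      have e : algebraMap (RatFunc K) B (algebraMap (Polynomial K) (RatFunc K)
          (Polynomial.monomial m a)) =
          algebraMap A B (algebraMap K A a) * (algebraMap (RatFunc K) B RatFunc.X) ^ m := by
        rw [← Polynomial.C_mul_X_pow_eq_monomial, map_mul, map_mul, map_pow, map_pow,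
          RatFunc.algebraMap_X, RatFunc.algebraMap_C, ← RatFunc.algebraMap_eq_C,
          ← IsScalarTower.algebraMap_apply K (RatFunc K) B,
          ← IsScalarTower.algebraMap_apply K A B]
      rw [e]
      exact (isAlgebraic_algebraMap _).mul (h.pow m)
  induction c using RatFunc.induction_on with
  | f p q hq =>
    have hq0 : algebraMap (Polynomial K) (RatFunc K) q ≠ 0 := by
      intro h0
      exact hq (RatFunc.algebraMap_injective K (by rw [h0, map_zero]))
    have hinv : algebraMap (RatFunc K) B (algebraMap (Polynomial K) (RatFunc K) q) *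
        algebraMap (RatFunc K) B (algebraMap (Polynomial K) (RatFunc K) q)⁻¹ = 1 := by
      rw [← map_mul, mul_inv_cancel₀ hq0, map_one]
    let _ : Invertible (algebraMap (RatFunc K) B (algebraMap (Polynomial K) (RatFunc K) q)) :=
      ⟨algebraMap (RatFunc K) B (algebraMap (Polynomial K) (RatFunc K) q)⁻¹,
        by rw [mul_comm]; exact hinv, hinv⟩
    have h1 : IsAlgebraic A
        (algebraMap (RatFunc K) B (algebraMap (Polynomial K) (RatFunc K) q)⁻¹) :=
      (hp q).invOf
    rw [div_eq_mul_inv, map_mul]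
    exact (hp p).mul h1

theorem e5_trdeg (K : Type) [Field K] : Algebra.trdeg K (RatFunc K) = 1 := by
  have h := trdeg_add_eq K (Polynomial K) (A := RatFunc K)
  have hal : Algebra.IsAlgebraic (Polynomial K) (RatFunc K) :=
    IsLocalization.isAlgebraic (RatFunc K) (nonZeroDivisors (Polynomial K))
  have h0 : Algebra.trdeg (Polynomial K) (RatFunc K) = 0 := trdeg_eq_zero
  rw [h0, add_zero, Polynomial.trdeg_of_isDomain] at h
  exact h.symm

theorem dm_ext_rel {K : Type} [Field K] {n : ℕ}
    (Q : PrimeSpectrum (MvPolynomial (Fin n) (RatFunc K))) (g0 g1 : MvPolynomial (Fin n) K)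
    (h : ext K (RatFunc K) n g1 + C (RatFunc.X : RatFunc K) * ext K (RatFunc K) n g0 ∈ Q.asIdeal)
    (hne : ¬ (ext K (RatFunc K) n g0 ∈ Q.asIdeal ∧ ext K (RatFunc K) n g1 ∈ Q.asIdeal)) :
    dm K (PrimeSpectrum.comap (ext K (RatFunc K) n) Q).asIdeal = dm (RatFunc K) Q.asIdeal + 1 := by
  have hQ : Q.asIdeal.IsPrime := Q.isPrime
  have hP : (Q.asIdeal.comap (ext K (RatFunc K) n)).IsPrime := Ideal.comap_isPrime _ _
  have h0 : ext K (RatFunc K) n g0 ∉ Q.asIdeal := by
    intro h0
    refine hne ⟨h0, ?_⟩
    have h1 := Q.asIdeal.mul_mem_left (C (RatFunc.X : RatFunc K)) h0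
    have h2 := Q.asIdeal.sub_mem h h1
    rwa [add_sub_cancel_right] at h2
  let A := MvPolynomial (Fin n) K ⧸ Q.asIdeal.comap (ext K (RatFunc K) n)
  let B := MvPolynomial (Fin n) (RatFunc K) ⧸ Q.asIdeal
  let _ : Algebra A B := (e5f Q.asIdeal : A →+* B).toAlgebra
  have hsc : IsScalarTower K A B :=
    IsScalarTower.of_algebraMap_eq (fun x => ((e5f Q.asIdeal).commutes x).symm)
  have hfs : FaithfulSMul A B :=
    (faithfulSMul_iff_algebraMap_injective _ _).mpr (e5f_inj Q.asIdeal)
  have hfk : FaithfulSMul K A :=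
    (faithfulSMul_iff_algebraMap_injective _ _).mpr (algebraMap K A).injective
  have hfF : FaithfulSMul K (RatFunc K) :=
    (faithfulSMul_iff_algebraMap_injective _ _).mpr (algebraMap K (RatFunc K)).injective
  have hfFB : FaithfulSMul (RatFunc K) B :=
    (faithfulSMul_iff_algebraMap_injective _ _).mpr (algebraMap (RatFunc K) B).injective
  have hX : IsAlgebraic A (algebraMap (RatFunc K) B RatFunc.X) := by
    refine ⟨Polynomial.C (Ideal.Quotient.mk _ g0 : A) * Polynomial.X +
      Polynomial.C (Ideal.Quotient.mk _ g1 : A), ?_, ?_⟩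
    · intro hz
      have h1 := congrArg (fun p : Polynomial A => p.coeff 1) hz
      simp only [Polynomial.coeff_add, Polynomial.coeff_C_mul, Polynomial.coeff_X_one,
        mul_one, Polynomial.coeff_zero] at h1
      rw [Polynomial.coeff_C_of_ne_zero one_ne_zero, add_zero] at h1
      exact h0 (Ideal.mem_comap.1 (Ideal.Quotient.eq_zero_iff_mem.mp h1))
    · rw [map_add, map_mul, Polynomial.aeval_C, Polynomial.aeval_C, Polynomial.aeval_X]
      have e : (algebraMap A B) (Ideal.Quotient.mk _ g0) * (algebraMap (RatFunc K) B) RatFunc.X +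
          (algebraMap A B) (Ideal.Quotient.mk _ g1) =
          Ideal.Quotient.mk Q.asIdeal (ext K (RatFunc K) n g1 +
            C (RatFunc.X : RatFunc K) * ext K (RatFunc K) n g0) := by
        rw [map_add, map_mul, add_comm, mul_comm]
        rfl
      rw [e]
      exact Ideal.Quotient.eq_zero_iff_mem.mpr h
  have hal : Algebra.IsAlgebraic A B := by
    refine ⟨fun b => ?_⟩
    obtain ⟨f, rfl⟩ := Ideal.Quotient.mk_surjective b
    induction f using MvPolynomial.induction_on with
    | C a => exact e5_alg (A := A) (B := B) hX a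
    | add p q hp hq =>
      rw [map_add]
      exact hp.add hq
    | mul_X p i hp =>
      rw [map_mul]
      refine hp.mul ?_
      have e : (Ideal.Quotient.mk Q.asIdeal (X i) : B) =
          algebraMap A B (Ideal.Quotient.mk _ (X i)) := by
        show _ = Ideal.Quotient.mk Q.asIdeal (ext K (RatFunc K) n (X i))
        congr 1
        exact (MvPolynomial.map_X _ _).symm
      rw [e]
      exact isAlgebraic_algebraMap _
  have k1 : Algebra.trdeg K A = Algebra.trdeg K B := by
    have h1 := trdeg_add_eq K A (A := B)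
    have h2 : Algebra.trdeg A B = 0 := trdeg_eq_zero
    rwa [h2, add_zero] at h1
  have k2 : 1 + Algebra.trdeg (RatFunc K) B = Algebra.trdeg K B := by
    have h1 := trdeg_add_eq K (RatFunc K) (A := B)
    rwa [e5_trdeg] at h1
  have k3 : Algebra.trdeg (RatFunc K) B < Cardinal.aleph0 := trdeg_lt_aleph0_of_finiteType
  show Cardinal.toNat (Algebra.trdeg K A) = Cardinal.toNat (Algebra.trdeg (RatFunc K) B) + 1
  rw [k1, ← k2, Cardinal.toNat_add Cardinal.one_lt_aleph0 k3, Cardinal.one_toNat, add_comm]

end Pool.Agent.HCH
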