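import Pool.Agent.HCH.E1
import Pool.Agent.HCH.E4
import Pool.Agent.HCH.E5
import Pool.Agent.HCH.B3

namespace Pool.Agent.HCH

open MvPolynomial

/-- `psi` is the extension of the coefficients followed by `X 0 ↦ t X last`. -/
theorem e6_psi_eq {K : Type} [Field K] {m : ℕ} (F : MvPolynomial (Fin (m + 2)) K) :
    psi F = rhoT (RatFunc.X : RatFunc K) (ext K (RatFunc K) (m + 2) F) := by
  have h : psiR K m = ((rhoT (RatFunc.X : RatFunc K) :
      MvPolynomial (Fin (m + 2)) (RatFunc K) →ₐ[RatFunc K] MvPolynomial (Fin (m + 1)) (RatFunc K)) :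
      MvPolynomial (Fin (m + 2)) (RatFunc K) →+* MvPolynomial (Fin (m + 1)) (RatFunc K)).comp
      (ext K (RatFunc K) (m + 2)) := by
    apply MvPolynomial.ringHom_ext
    · intro a
      have h1 : psiR K m (C a) = C (algebraMap K (RatFunc K) a) :=
        (psi : MvPolynomial (Fin (m + 2)) K →ₐ[K] MvPolynomial (Fin (m + 1)) (RatFunc K)).commutes a
      rw [h1, RingHom.comp_apply]
      unfold ext
      rw [map_C]
      exact ((rhoT (RatFunc.X : RatFunc K) : MvPolynomial (Fin (m + 2)) (RatFunc K) →ₐ[RatFunc K]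
        MvPolynomial (Fin (m + 1)) (RatFunc K)).commutes (algebraMap K (RatFunc K) a)).symm
    · intro k
      rw [RingHom.comp_apply]
      unfold ext
      rw [map_X]
      change psi (X k) = rhoT (RatFunc.X : RatFunc K) (X k)
      unfold psi rhoT
      rw [aeval_X, aeval_X]
  exact congrArg (fun φ : MvPolynomial (Fin (m + 2)) K →+*
    MvPolynomial (Fin (m + 1)) (RatFunc K) => φ F) h

theorem e6_ext_homog {k E : Type} [Field k] [Field E] [Algebra k E] {n : ℕ}
    (f : MvPolynomial (Fin n) k) (a : ℕ) (hf : f.IsHomogeneous a) :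
    (ext k E n f).IsHomogeneous a := by
  unfold ext
  exact hf.map _

theorem e6_psi_homog {K : Type} [Field K] {m : ℕ} (f : MvPolynomial (Fin (m + 2)) K) (a : ℕ)
    (hf : f.IsHomogeneous a) : (psiR K m f).IsHomogeneous a := by
  change (psi f).IsHomogeneous a
  rw [e6_psi_eq]
  exact (lq_rhoT (RatFunc.X : RatFunc K)).hrho _ a (e6_ext_homog f a hf)

/-- contraction of homogeneous ideals under homomorphisms preserving forms -/
theorem e6_comap_homog {K L : Type} [Field K] [Field L] {n m : ℕ}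
    (rho : MvPolynomial (Fin n) K →+* MvPolynomial (Fin m) L)
    (h : ∀ (f : MvPolynomial (Fin n) K) (a : ℕ), f.IsHomogeneous a → (rho f).IsHomogeneous a)
    (P : PrimeSpectrum (MvPolynomial (Fin m) L)) (hP : HgI P.asIdeal) :
    HgI (PrimeSpectrum.comap rho P).asIdeal := by
  intro f hf a
  change rho (homogeneousComponent a f) ∈ P.asIdeal
  rw [← comp_homog rho h f a]
  exact hP _ hf a

theorem e6_rhoI_cast {K : Type} [Field K] {n : ℕ} (k : Fin n) :
    (rhoI : MvPolynomial (Fin (n + 1)) K →ₐ[K] MvPolynomial (Fin n) K) (X k.castSucc) = X k := by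
  simp [rhoI]

theorem e6_rhoT_succ {K : Type} [Field K] {n : ℕ} (t : K) (k : Fin (n + 1)) :
    (rhoT t : MvPolynomial (Fin (n + 2)) K →ₐ[K] MvPolynomial (Fin (n + 1)) K) (X k.succ) =
      X k := by
  simp [rhoT]

theorem e6_psi_succ {K : Type} [Field K] {n : ℕ} (k : Fin (n + 1)) :
    (psi : MvPolynomial (Fin (n + 2)) K →ₐ[K] MvPolynomial (Fin (n + 1)) (RatFunc K)) (X k.succ) =
      X k := by
  simp [psi]

/-- on the axis -/
theorem e6_axis {K : Type} [Field K] {m : ℕ} (G : MvPolynomial (Fin (m + 3)) K) :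
    rhoI (psi G) = ext K (RatFunc K) (m + 1) (rhoT (0 : K) (rhoI G)) := by
  have h : ((rhoI : MvPolynomial (Fin (m + 2)) (RatFunc K) →ₐ[RatFunc K]
      MvPolynomial (Fin (m + 1)) (RatFunc K)) :
      MvPolynomial (Fin (m + 2)) (RatFunc K) →+* MvPolynomial (Fin (m + 1)) (RatFunc K)).comp
      (psiR K (m + 1)) =
      ((ext K (RatFunc K) (m + 1)).comp
      ((rhoT (0 : K) : MvPolynomial (Fin (m + 2)) K →ₐ[K] MvPolynomial (Fin (m + 1)) K) :
        MvPolynomial (Fin (m + 2)) K →+* MvPolynomial (Fin (m + 1)) K)).comp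
      ((rhoI : MvPolynomial (Fin (m + 3)) K →ₐ[K] MvPolynomial (Fin (m + 2)) K) :
        MvPolynomial (Fin (m + 3)) K →+* MvPolynomial (Fin (m + 2)) K) := by
    apply MvPolynomial.ringHom_ext
    · intro a
      rw [RingHom.comp_apply, RingHom.comp_apply, RingHom.comp_apply]
      have h1 : psiR K (m + 1) (C a) = C (algebraMap K (RatFunc K) a) :=
        (psi : MvPolynomial (Fin (m + 3)) K →ₐ[K]
          MvPolynomial (Fin (m + 2)) (RatFunc K)).commutes a
      have h2 : ((rhoI : MvPolynomial (Fin (m + 2)) (RatFunc K) →ₐ[RatFunc K]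
          MvPolynomial (Fin (m + 1)) (RatFunc K)) :
          MvPolynomial (Fin (m + 2)) (RatFunc K) →+* MvPolynomial (Fin (m + 1)) (RatFunc K))
          (C (algebraMap K (RatFunc K) a)) = C (algebraMap K (RatFunc K) a) :=
        (rhoI : MvPolynomial (Fin (m + 2)) (RatFunc K) →ₐ[RatFunc K]
          MvPolynomial (Fin (m + 1)) (RatFunc K)).commutes _
      have h3 : ((rhoI : MvPolynomial (Fin (m + 3)) K →ₐ[K] MvPolynomial (Fin (m + 2)) K) :
          MvPolynomial (Fin (m + 3)) K →+* MvPolynomial (Fin (m + 2)) K) (C a) = C a :=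
        (rhoI : MvPolynomial (Fin (m + 3)) K →ₐ[K] MvPolynomial (Fin (m + 2)) K).commutes a
      have h4 : ((rhoT (0 : K) : MvPolynomial (Fin (m + 2)) K →ₐ[K]
          MvPolynomial (Fin (m + 1)) K) :
          MvPolynomial (Fin (m + 2)) K →+* MvPolynomial (Fin (m + 1)) K) (C a) = C a :=
        (rhoT (0 : K) : MvPolynomial (Fin (m + 2)) K →ₐ[K]
          MvPolynomial (Fin (m + 1)) K).commutes a
      rw [h1, h2, h3, h4]
      unfold ext
      rw [map_C]
    · intro k
      rw [RingHom.comp_apply, RingHom.comp_apply, RingHom.comp_apply]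
      change rhoI (psi (X k)) = ext K (RatFunc K) (m + 1) (rhoT (0 : K) (rhoI (X k)))
      unfold ext
      induction k using Fin.lastCases with
      | last =>
        rw [← Fin.succ_last]
        simp [psi, rhoT, rhoI]
      | cast k =>
        induction k using Fin.cases with
        | zero => simp [psi, rhoT, rhoI]
        | succ k =>
          have h1 : (rhoI : MvPolynomial (Fin (m + 3)) K →ₐ[K] MvPolynomial (Fin (m + 2)) K)
              (X k.succ.castSucc) = X k.succ := e6_rhoI_cast k.succ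
          have h2 : (psi : MvPolynomial (Fin (m + 3)) K →ₐ[K]
              MvPolynomial (Fin (m + 2)) (RatFunc K)) (X k.succ.castSucc) = X k.castSucc := by
            rw [← Fin.succ_castSucc]
            exact e6_psi_succ k.castSucc
          rw [h1, h2, e6_rhoT_succ, e6_rhoI_cast, map_X]
  exact congrArg (fun φ : MvPolynomial (Fin (m + 3)) K →+*
    MvPolynomial (Fin (m + 1)) (RatFunc K) => φ G) h

/-
ROW E6 (1.5 h). Singular locus of the generic member. s = r - 1. Q homogeneous prime of K(t)[Fin (m+2)] with all partials of psi F.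
Case X last ∉ Q: sing_off_axis: P = comap psiR Q contains all partials of F, is homogeneous (psi maps forms to forms; components: f ∈ P iff psi f ∈ Q), dm P = dm Q + 1 ≤ r, so dm Q ≤ r - 1.
Case X last ∈ Q: Q = comap rhoI Q2 for a prime Q2 of K(t)[Fin (m+1)] (lq_range lq_rhoI over the field RatFunc K), dm Q2 = dm Q (dm_comap). P2 = comap (ext K (RatFunc K) (m+1)) Q2: homogeneous
(lq_homog for Q2; ext preserves components: MvPolynomial.map and homogeneousComponent), and let bet = rhoT 0 ∘ rhoI : K[Fin (m+3)] → K[Fin (m+1)]. Identity: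
rhoI (psi G) = ext (bet G) for all G (compare on variables: X 0 ↦ 0, X last ↦ 0, the others to the variables). By pderiv_psi, ext (bet (pderiv k F)) ∈ Q2 for k ≠ 0, last, i.e.
bet (pderiv k F) ∈ P2, and ext (bet (pderiv last F)) + C t * ext (bet (pderiv 0 F)) ∈ Q2.
FB = rhoT 0 (rhoI F): pderiv j FB = bet (pderiv (j.succ.castSucc) F) (pderiv_rhoT with t = 0, pderiv_rhoI), so P2 contains all partials of FB; sg_rhoT for rhoI F with t = 0 (rhoI F is a form of
degree d): SgLe FB (s + 1), dm P2 ≤ s + 1. If ext (bet (pderiv 0 F)), ext (bet (pderiv last F)) are not both in Q2: dm_ext_rel: dm P2 = dm Q2 + 1, so dm Q = dm Q2 ≤ s.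
If both are: P3 = comap (rhoT 0) P2 is a homogeneous prime of K[Fin (m+2)] containing all partials rhoI (pderiv k.castSucc F) of rhoI F, so dm P3 = dm P2 ≤ s by hI, and
dm Q2 ≤ dm P2 (dm_ext_le).
sg_ext: Q prime over E, P = comap ext Q: homogeneous, contains the partials of F (pderiv_ext), dm k P = dm E Q (dm_alg).
-/
theorem sg_psi {K : Type} [Field K] [CharZero K] {m d : ℕ}
    (F : MvPolynomial (Fin (m + 3)) K) (hF : F.IsHomogeneous d) (hd : 2 ≤ d) (r : ℕ)
    (h : SgLe F r) (hI : SgLe (rhoI F) (r - 1)) : SgLe (psi F) (r - 1) := by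
  intro Q hQ hQd
  by_cases hl : (X (Fin.last (m + 1)) : MvPolynomial (Fin (m + 2)) (RatFunc K)) ∈ Q.asIdeal
  · -- on the axis
    obtain ⟨Q2, hQ2⟩ := lq_range (lq_rhoI (K := RatFunc K) (n := m + 1)) Q hl
    have hQ2h : HgI Q2.asIdeal := by
      refine (lq_homog (lq_rhoI (K := RatFunc K) (n := m + 1)) Q2).1 ?_
      rw [hQ2]
      exact hQ
    have hmem : ∀ x, x ∈ Q.asIdeal → rhoI x ∈ Q2.asIdeal := by
      intro x hx
      rw [← hQ2] at hx
      exact hx
    have hdQ : dm (RatFunc K) Q.asIdeal = dm (RatFunc K) Q2.asIdeal := by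
      rw [← hQ2]
      exact dm_comap rhoI (lq_surj (lq_rhoI (K := RatFunc K) (n := m + 1))) Q2.asIdeal
    rw [hdQ]
    set P2 := PrimeSpectrum.comap (ext K (RatFunc K) (m + 1)) Q2 with hP2
    have hP2h : HgI P2.asIdeal :=
      e6_comap_homog (ext K (RatFunc K) (m + 1)) (fun f a hf => e6_ext_homog f a hf) Q2 hQ2h
    have hP2m : ∀ x, x ∈ P2.asIdeal ↔ ext K (RatFunc K) (m + 1) x ∈ Q2.asIdeal := fun x => Iff.rfl
    -- the middle partial derivatives
    have hmid : ∀ j : Fin (m + 1), rhoT (0 : K) (rhoI (pderiv j.succ.castSucc F)) ∈ P2.asIdeal := by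
      intro j
      rw [hP2m, ← e6_axis]
      have h1 := hmem _ (hQd j.castSucc)
      rw [pderiv_psi, if_neg (Fin.castSucc_lt_last j).ne, add_zero, Fin.succ_castSucc] at h1
      exact h1
    have hend : ext K (RatFunc K) (m + 1) (rhoT (0 : K) (rhoI (pderiv (Fin.last (m + 2)) F))) +
        C (RatFunc.X : RatFunc K) *
          ext K (RatFunc K) (m + 1) (rhoT (0 : K) (rhoI (pderiv 0 F))) ∈ Q2.asIdeal := by
      rw [← e6_axis, ← e6_axis]
      have h1 := hmem _ (hQd (Fin.last (m + 1)))
      rw [pderiv_psi, if_pos rfl, Fin.succ_last, map_add, map_mul] at h1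
      have h2 : (rhoI : MvPolynomial (Fin (m + 2)) (RatFunc K) →ₐ[RatFunc K]
          MvPolynomial (Fin (m + 1)) (RatFunc K)) (C (RatFunc.X : RatFunc K)) =
          C (RatFunc.X : RatFunc K) :=
        (rhoI : MvPolynomial (Fin (m + 2)) (RatFunc K) →ₐ[RatFunc K]
          MvPolynomial (Fin (m + 1)) (RatFunc K)).commutes _
      rw [h2] at h1
      exact h1
    have hFB : SgLe (rhoT (0 : K) (rhoI F)) (r - 1 + 1) :=
      sg_rhoT (0 : K) (rhoI F) ((lq_rhoI (K := K) (n := m + 2)).hrho F d hF) hd (r - 1) hI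
    have hdP2 : dm K P2.asIdeal ≤ r - 1 + 1 := by
      apply hFB P2 hP2h
      intro j
      rw [pderiv_rhoT, pderiv_rhoI, C_0, zero_mul, ite_self, add_zero]
      exact hmid j
    by_cases hboth : ext K (RatFunc K) (m + 1) (rhoT (0 : K) (rhoI (pderiv 0 F))) ∈ Q2.asIdeal ∧
        ext K (RatFunc K) (m + 1) (rhoT (0 : K) (rhoI (pderiv (Fin.last (m + 2)) F))) ∈ Q2.asIdeal
    · have hP3h : HgI (PrimeSpectrum.comap ((rhoT (0 : K) : MvPolynomial (Fin (m + 2)) K →ₐ[K]
          MvPolynomial (Fin (m + 1)) K) :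
          MvPolynomial (Fin (m + 2)) K →+* MvPolynomial (Fin (m + 1)) K) P2).asIdeal :=
        (lq_homog (lq_rhoT (0 : K)) P2).2 hP2h
      have h3 := hI _ hP3h (by
        intro k
        change rhoT (0 : K) (pderiv k (rhoI F)) ∈ P2.asIdeal
        rw [pderiv_rhoI]
        induction k using Fin.cases with
        | zero => exact hboth.1
        | succ k => exact hmid k)
      have h4 := dm_comap (rhoT (0 : K) : MvPolynomial (Fin (m + 2)) K →ₐ[K]
          MvPolynomial (Fin (m + 1)) K) (lq_surj (lq_rhoT (0 : K))) P2.asIdeal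
      have h5 : dm K P2.asIdeal ≤ r - 1 := by
        rw [← h4]
        exact h3
      exact (dm_ext_le Q2).trans h5
    · have h3 := dm_ext_rel Q2 _ _ hend hboth
      rw [← hP2] at h3
      omega
  · obtain ⟨h1, h2⟩ := sing_off_axis F hF (by omega) Q hl hQd
    have h3 := h (PrimeSpectrum.comap (psiR K (m + 1)) Q)
      (e6_comap_homog (psiR K (m + 1)) (fun f a hf => e6_psi_homog f a hf) Q hQ) h1
    omega

theorem sg_ext {k E : Type} [Field k] [Field E] [Algebra k E] [Algebra.IsAlgebraic k E] {n : ℕ}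
    (F : MvPolynomial (Fin n) k) (r : ℕ) (h : SgLe F r) : SgLe (ext k E n F) r := by
  intro Q hQ hQd
  have h1 := h (PrimeSpectrum.comap (ext k E n) Q)
    (e6_comap_homog (ext k E n) (fun f a hf => e6_ext_homog f a hf) Q hQ) (by
      intro j
      change ext k E n (pderiv j F) ∈ Q.asIdeal
      rw [← pderiv_ext]
      exact hQd j)
  have h2 := dm_alg (k := k) Q.asIdeal
  rw [← h2]
  exact h1

end Pool.Agent.HCH
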