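import Pool.Agent.HCH.Defs

namespace Pool.Agent.HCH

open MvPolynomial

/-
ROW C1 (1 h). Homogenisation. deh (X (Fin.last m)) = 1, deh (X i.castSucc) = X i. deh_lift: for a monomial of degree k ≤ b take the renamed monomial times
X last ^ (b - k) (rename Fin.castSucc); extend linearly (sum over the support, b = totalDegree; then multiply by X last for larger b).
deh_inj: the coefficient of deh g at s is the coefficient of g at the exponent vector (s, b - |s|) when g is homogeneous of degree b
(all exponents of g have degree b, so s determines the exponent). Possible tools: `MvPolynomial.finSuccEquiv`-like for the last variable, or coeff computations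
with `MvPolynomial.aeval_def, eval₂_eq'`; alternatively induct.
deh_eq: from deh_inj applied to g * X last ^ c - h * X last ^ b.
-/
theorem deh_last {K : Type} [Field K] {m : ℕ} :
    deh (X (Fin.last m) : MvPolynomial (Fin (m + 1)) K) = 1 := by
  simp [deh]

theorem deh_castSucc {K : Type} [Field K] {m : ℕ} (i : Fin m) :
    deh (X i.castSucc : MvPolynomial (Fin (m + 1)) K) = X i := by
  simp [deh]

theorem c1_deh_rename {K : Type} [Field K] {m : ℕ} (f : MvPolynomial (Fin m) K) :
    deh (rename Fin.castSucc f : MvPolynomial (Fin (m + 1)) K) = f := by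
  unfold deh
  rw [aeval_rename]
  have h : (Fin.snoc (α := fun _ => MvPolynomial (Fin m) K) X 1) ∘ Fin.castSucc =
      (X : Fin m → MvPolynomial (Fin m) K) := by
    funext i
    simp
  rw [h, aeval_X_left]
  rfl

/-- homogenisation in degree `b` -/
noncomputable def c1_hom (K : Type) [Field K] (m b : ℕ) :
    MvPolynomial (Fin m) K →ₗ[K] MvPolynomial (Fin (m + 1)) K :=
  ∑ k ∈ Finset.range (b + 1), (LinearMap.mulRight K (X (Fin.last m) ^ (b - k) :
    MvPolynomial (Fin (m + 1)) K)) ∘ₗ ((rename Fin.castSucc :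
      MvPolynomial (Fin m) K →ₐ[K] MvPolynomial (Fin (m + 1)) K).toLinearMap) ∘ₗ
        (homogeneousComponent k)

theorem c1_hom_apply {K : Type} [Field K] {m : ℕ} (b : ℕ) (f : MvPolynomial (Fin m) K) :
    c1_hom K m b f = ∑ k ∈ Finset.range (b + 1),
      rename Fin.castSucc (homogeneousComponent k f) * X (Fin.last m) ^ (b - k) := by
  unfold c1_hom
  rw [LinearMap.sum_apply]
  rfl

theorem c1_hom_isHomogeneous {K : Type} [Field K] {m : ℕ} (b : ℕ) (f : MvPolynomial (Fin m) K) :
    (c1_hom K m b f).IsHomogeneous b := by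
  rw [c1_hom_apply]
  apply IsHomogeneous.sum
  intro k hk
  have hk' : k ≤ b := by
    have := Finset.mem_range.1 hk
    omega
  have h1 : (rename Fin.castSucc (homogeneousComponent k f) :
      MvPolynomial (Fin (m + 1)) K).IsHomogeneous k :=
    (homogeneousComponent_isHomogeneous k f).rename_isHomogeneous
  have h2 : (X (Fin.last m) ^ (b - k) : MvPolynomial (Fin (m + 1)) K).IsHomogeneous (b - k) :=
    isHomogeneous_X_pow _ _
  have h3 := h1.mul h2
  rwa [Nat.add_sub_cancel' hk'] at h3

theorem deh_lift {K : Type} [Field K] {m : ℕ} (a : MvPolynomial (Fin m) K) :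
    ∃ (b : ℕ) (g : MvPolynomial (Fin (m + 1)) K), g.IsHomogeneous b ∧ deh g = a := by
  refine ⟨a.totalDegree, c1_hom K m a.totalDegree a, c1_hom_isHomogeneous _ _, ?_⟩
  rw [c1_hom_apply, map_sum]
  conv_rhs => rw [← sum_homogeneousComponent a]
  apply Finset.sum_congr rfl
  intro k _
  rw [map_mul, map_pow, deh_last, one_pow, mul_one, c1_deh_rename]

theorem c1_monomial {K : Type} [Field K] {m : ℕ} (b : ℕ) (s : Fin (m + 1) →₀ ℕ) (c : K)
    (hs : ∑ i, s i = b) : c1_hom K m b (deh (monomial s c)) = monomial s c := by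
  have h1 : (monomial s c : MvPolynomial (Fin (m + 1)) K) =
      C c * ((∏ i : Fin m, X i.castSucc ^ s i.castSucc) * X (Fin.last m) ^ s (Fin.last m)) := by
    rw [monomial_eq, Finsupp.prod_fintype _ _ (fun i => pow_zero _), Fin.prod_univ_castSucc]
  have h2 : deh (monomial s c : MvPolynomial (Fin (m + 1)) K) =
      C c * ∏ i : Fin m, X i ^ s i.castSucc := by
    rw [h1, map_mul, map_mul, map_prod, map_pow, deh_last, one_pow, mul_one]
    congr 1
    · exact AlgHom.commutes deh c
    · apply Finset.prod_congr rfl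
      intro i _
      rw [map_pow, deh_castSucc]
  set k0 := ∑ i : Fin m, s i.castSucc with hk0
  have hb : k0 + s (Fin.last m) = b := by
    rw [← hs, Fin.sum_univ_castSucc]
  have h3 : (C c * ∏ i : Fin m, X i ^ s i.castSucc : MvPolynomial (Fin m) K).IsHomogeneous k0 := by
    have h4 : (∏ i : Fin m, X i ^ s i.castSucc : MvPolynomial (Fin m) K).IsHomogeneous k0 :=
      IsHomogeneous.prod _ _ _ (fun i _ => isHomogeneous_X_pow _ _)
    have h5 := (isHomogeneous_C (Fin m) c).mul h4
    rwa [zero_add] at h5
  rw [h2, c1_hom_apply]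
  have h6 : ∀ k, homogeneousComponent k (C c * ∏ i : Fin m, X i ^ s i.castSucc :
      MvPolynomial (Fin m) K) = if k = k0 then C c * ∏ i : Fin m, X i ^ s i.castSucc else 0 :=
    fun k => homogeneousComponent_of_mem h3
  rw [Finset.sum_eq_single k0]
  · rw [h6, if_pos rfl, h1, map_mul, rename_C, map_prod, mul_assoc]
    congr 2
    · apply Finset.prod_congr rfl
      intro i _
      rw [map_pow, rename_X]
    · congr 1
      omega
  · intro k _ hk
    rw [h6, if_neg hk, map_zero, zero_mul]
  · intro hk
    exfalso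
    apply hk
    rw [Finset.mem_range]
    omega

theorem c1_hom_deh {K : Type} [Field K] {m : ℕ} (g : MvPolynomial (Fin (m + 1)) K) (b : ℕ)
    (hg : g.IsHomogeneous b) : c1_hom K m b (deh g) = g := by
  conv_lhs => rw [g.as_sum]
  conv_rhs => rw [g.as_sum]
  rw [map_sum, map_sum]
  apply Finset.sum_congr rfl
  intro s hs
  apply c1_monomial
  have h1 := hg (mem_support_iff.1 hs)
  rw [Finsupp.weight_apply] at h1
  rw [← h1, Finsupp.sum_fintype _ _ (fun i => by simp)]
  apply Finset.sum_congr rfl
  intro i _
  simp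

theorem deh_inj {K : Type} [Field K] {m : ℕ} (g : MvPolynomial (Fin (m + 1)) K) (b : ℕ)
    (hg : g.IsHomogeneous b) (h : deh g = 0) : g = 0 := by
  rw [← c1_hom_deh g b hg, h, map_zero]

theorem deh_eq {K : Type} [Field K] {m : ℕ} (g h : MvPolynomial (Fin (m + 1)) K) (b c : ℕ)
    (hg : g.IsHomogeneous b) (hh : h.IsHomogeneous c) (e : deh g = deh h) :
    g * X (Fin.last m) ^ c = h * X (Fin.last m) ^ b := by
  have h1 : (g * X (Fin.last m) ^ c).IsHomogeneous (b + c) := hg.mul (isHomogeneous_X_pow _ _)
  have h2 : (h * X (Fin.last m) ^ b).IsHomogeneous (b + c) := by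
    have := hh.mul (isHomogeneous_X_pow (R := K) (Fin.last m) b)
    rwa [add_comm c b] at this
  have h3 := deh_inj _ _ (h1.sub h2) (by
    rw [map_sub, map_mul, map_mul, map_pow, map_pow, deh_last, one_pow, one_pow, e, sub_self])
  exact sub_eq_zero.1 h3

end Pool.Agent.HCH
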