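import Pool.Agent.HCH.Defs

namespace Pool.Agent.HCH

open MvPolynomial

/-- A hyperplane section: `rho` is the restriction to the hyperplane `l = 0`, with a section `tau`. -/
structure LQ {K : Type} [Field K] {n : ℕ}
    (rho : MvPolynomial (Fin (n + 1)) K →ₐ[K] MvPolynomial (Fin n) K)
    (tau : MvPolynomial (Fin n) K →ₐ[K] MvPolynomial (Fin (n + 1)) K)
    (l : MvPolynomial (Fin (n + 1)) K) : Prop where
  sec : ∀ x, rho (tau x) = x
  ker : RingHom.ker (rho : MvPolynomial (Fin (n + 1)) K →+* MvPolynomial (Fin n) K) =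
    Ideal.span {l}
  hrho : ∀ (f : MvPolynomial (Fin (n + 1)) K) (a : ℕ), f.IsHomogeneous a → (rho f).IsHomogeneous a
  htau : ∀ (f : MvPolynomial (Fin n) K) (a : ℕ), f.IsHomogeneous a → (tau f).IsHomogeneous a
  hl : l.IsHomogeneous 1

/-- The kernel from the values on the variables. -/
theorem ker_of_vars {K : Type} [Field K] {n : ℕ}
    (rho : MvPolynomial (Fin (n + 1)) K →ₐ[K] MvPolynomial (Fin n) K)
    (tau : MvPolynomial (Fin n) K →ₐ[K] MvPolynomial (Fin (n + 1)) K)
    (l : MvPolynomial (Fin (n + 1)) K) (h1 : rho l = 0)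
    (h2 : ∀ k, X k - tau (rho (X k)) ∈ Ideal.span {l}) :
    RingHom.ker (rho : MvPolynomial (Fin (n + 1)) K →+* MvPolynomial (Fin n) K) =
      Ideal.span {l} := by
  apply le_antisymm
  · intro f hf
    rw [RingHom.mem_ker] at hf
    have e : (Ideal.Quotient.mkₐ K (Ideal.span {l})) =
        ((Ideal.Quotient.mkₐ K (Ideal.span {l})).comp tau).comp rho := by
      apply MvPolynomial.algHom_ext
      intro k
      rw [AlgHom.comp_apply, AlgHom.comp_apply]
      exact (Ideal.Quotient.eq).mpr (h2 k)
    have e2 : Ideal.Quotient.mkₐ K (Ideal.span {l}) f = 0 := by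
      rw [e]
      have : rho f = 0 := hf
      rw [AlgHom.comp_apply, this, map_zero]
    exact Ideal.Quotient.eq_zero_iff_mem.mp e2
  · rw [Ideal.span_singleton_le_iff_mem, RingHom.mem_ker]
    exact h1

theorem aeval_homog {K : Type} [Field K] {n m : ℕ} (g : Fin n → MvPolynomial (Fin m) K)
    (hg : ∀ k, (g k).IsHomogeneous 1) (f : MvPolynomial (Fin n) K) (a : ℕ)
    (hf : f.IsHomogeneous a) : (aeval g f).IsHomogeneous a := by
  have := hf.aeval g hg
  rwa [one_mul] at this

theorem lq_rhoI {K : Type} [Field K] {n : ℕ} :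
    LQ (rhoI : MvPolynomial (Fin (n + 1)) K →ₐ[K] MvPolynomial (Fin n) K)
      (rename Fin.castSucc) (X (Fin.last n)) := by
  have hv : ∀ k : Fin n, (rhoI : MvPolynomial (Fin (n + 1)) K →ₐ[K] MvPolynomial (Fin n) K)
      (X k.castSucc) = X k := by
    intro k
    simp [rhoI]
  have hl : (rhoI : MvPolynomial (Fin (n + 1)) K →ₐ[K] MvPolynomial (Fin n) K)
      (X (Fin.last n)) = 0 := by
    simp [rhoI]
  refine ⟨?_, ?_, ?_, ?_, ?_⟩
  · intro x
    have : (rhoI : MvPolynomial (Fin (n + 1)) K →ₐ[K] MvPolynomial (Fin n) K).comp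
        (rename Fin.castSucc) = AlgHom.id K _ := by
      apply MvPolynomial.algHom_ext
      intro k
      rw [AlgHom.comp_apply, rename_X, hv]
      rfl
    exact congrArg (fun φ : MvPolynomial (Fin n) K →ₐ[K] MvPolynomial (Fin n) K => φ x) this
  · apply ker_of_vars _ (rename Fin.castSucc) _ hl
    intro k
    induction k using Fin.lastCases with
    | last =>
      rw [hl, map_zero, sub_zero]
      exact Ideal.mem_span_singleton_self _
    | cast k =>
      rw [hv, rename_X, sub_self]
      exact Ideal.zero_mem _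
  · intro f a hf
    apply aeval_homog _ _ f a hf
    intro k
    induction k using Fin.lastCases with
    | last => simpa using isHomogeneous_zero (Fin n) K 1
    | cast k => simpa using isHomogeneous_X K k
  · intro f a hf
    exact hf.rename_isHomogeneous
  · exact isHomogeneous_X K _

theorem lq_rhoT {K : Type} [Field K] {n : ℕ} (t : K) :
    LQ (rhoT t : MvPolynomial (Fin (n + 2)) K →ₐ[K] MvPolynomial (Fin (n + 1)) K)
      (rename Fin.succ) (X 0 - C t * X (Fin.last (n + 1))) := by
  have hv : ∀ k : Fin (n + 1), (rhoT t : MvPolynomial (Fin (n + 2)) K →ₐ[K]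
      MvPolynomial (Fin (n + 1)) K) (X k.succ) = X k := by
    intro k
    simp [rhoT]
  have h0 : (rhoT t : MvPolynomial (Fin (n + 2)) K →ₐ[K]
      MvPolynomial (Fin (n + 1)) K) (X 0) = C t * X (Fin.last n) := by
    simp [rhoT]
  have hC : ∀ a : K, (rhoT t : MvPolynomial (Fin (n + 2)) K →ₐ[K]
      MvPolynomial (Fin (n + 1)) K) (C a) = C a := by
    intro a
    exact (rhoT t : MvPolynomial (Fin (n + 2)) K →ₐ[K]
      MvPolynomial (Fin (n + 1)) K).commutes a
  have hl : (rhoT t : MvPolynomial (Fin (n + 2)) K →ₐ[K]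
      MvPolynomial (Fin (n + 1)) K) (X (Fin.last (n + 1))) = X (Fin.last n) := by
    rw [← Fin.succ_last, hv]
  refine ⟨?_, ?_, ?_, ?_, ?_⟩
  · intro x
    have : (rhoT t : MvPolynomial (Fin (n + 2)) K →ₐ[K] MvPolynomial (Fin (n + 1)) K).comp
        (rename Fin.succ) = AlgHom.id K _ := by
      apply MvPolynomial.algHom_ext
      intro k
      rw [AlgHom.comp_apply, rename_X, hv]
      rfl
    exact congrArg (fun φ : MvPolynomial (Fin (n + 1)) K →ₐ[K] MvPolynomial (Fin (n + 1)) K =>
      φ x) this
  · apply ker_of_vars _ (rename Fin.succ)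
    · rw [map_sub, map_mul, h0, hC, hl, sub_self]
    · intro k
      induction k using Fin.cases with
      | zero =>
        rw [h0, map_mul, rename_C, rename_X, Fin.succ_last]
        exact Ideal.mem_span_singleton_self _
      | succ k =>
        rw [hv, rename_X, sub_self]
        exact Ideal.zero_mem _
  · intro f a hf
    apply aeval_homog _ _ f a hf
    intro k
    induction k using Fin.cases with
    | zero => simpa using isHomogeneous_C_mul_X t (Fin.last n)
    | succ k => simpa using isHomogeneous_X K k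
  · intro f a hf
    exact hf.rename_isHomogeneous
  · exact (isHomogeneous_X K _).sub (isHomogeneous_C_mul_X t _)

end Pool.Agent.HCH
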