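import Pool.Agent.HCH.F1
import Pool.Agent.HCH.S1
import Pool.Agent.HCH.S2
import Pool.Agent.HCH.C1
import Pool.Agent.HCH.D0

namespace Pool.Agent.HCH

open MvPolynomial

/-- Localisation: if the cycles in the special fibres and those of the generic fibre are torsion,
all are. -/
theorem generic_tors {K : Type} [Field K] [IsAlgClosed K] {m : ℕ}
    (f : MvPolynomial (Fin (m + 1)) K) (e : ℕ) (he : 1 ≤ e)
    (hs : ∀ (t : K) (p : PrimeSpectrum (MvPolynomial (Fin (m + 1)) K)), f ∈ p.asIdeal →
      X 0 - C t ∈ p.asIdeal → dm K p.asIdeal = e →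
      ∃ N : ℕ, 0 < N ∧ (N : ℤ) • cls p ∈ ARat K f e)
    (hg : AT (RatFunc K) (lamR K m f) (e - 1)) : AT K f e := by
  classical
  obtain ⟨e, rfl⟩ := Nat.exists_eq_add_of_le' he
  simp only [Nat.add_sub_cancel] at hg
  intro p hp hd
  rcases comap_lam_or p with ⟨t, ht⟩ | ⟨q, rfl⟩
  · exact hs t p hp ht hd
  · have hq : lamR K m f ∈ q.asIdeal := hp
    have hdq : dm (RatFunc K) q.asIdeal = e := by
      have h1 := dm_lam q.asIdeal
      have h2 : dm K (q.asIdeal.comap (lamR K m)) = e + 1 := hd
      omega
    obtain ⟨N, hN, hz⟩ := hg q hq hdq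
    obtain ⟨Z, hZ, hZv⟩ := lift_lam f e _ hz
    set P := PrimeSpectrum.comap (lamR K m) q with hP
    obtain ⟨hZf, hZs⟩ := ARat_supp f (e + 1) Z hZ
    have hz0 : ∀ p', ((N : ℤ) • cls P - Z) p' ≠ 0 → (f ∈ p'.asIdeal ∧ dm K p'.asIdeal = e + 1) ∧
        ∃ t : K, X 0 - C t ∈ p'.asIdeal := by
      intro p' hp'
      constructor
      · by_cases h1 : p' = P
        · rw [h1]
          exact ⟨hp, hd⟩
        · have : Z p' ≠ 0 := by
            intro h0
            apply hp'
            simp [cls, h1, h0]
          exact hZs p' this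
      · rcases comap_lam_or p' with h1 | ⟨q', rfl⟩
        · exact h1
        · exfalso
          apply hp'
          have h1 := hZv q'
          rw [Pi.sub_apply, Pi.smul_apply, h1, Pi.smul_apply]
          have h2 : cls P (PrimeSpectrum.comap (lamR K m) q') = cls q q' := by
            unfold cls
            by_cases h3 : q' = q
            · simp [h3, hP]
            · rw [if_neg h3, if_neg]
              intro h4
              exact h3 (comap_lam_inj h4)
          rw [h2, sub_self]
    have hfin : {p' | ((N : ℤ) • cls P - Z) p' ≠ 0}.Finite := by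
      apply (hZf.union (Set.finite_singleton P)).subset
      intro p' hp'
      by_cases h1 : p' = P
      · exact Or.inr h1
      · left
        intro h0
        apply hp'
        simp [cls, h1, h0]
    obtain ⟨N', hN', c, hc⟩ := tors_sum (ARat K f (e + 1)) 0 _ hfin (by
      intro p' hp'
      obtain ⟨⟨h1, h2⟩, t, ht⟩ := hz0 p' hp'
      obtain ⟨N1, hN1, h3⟩ := hs t p' h1 ht h2
      exact ⟨N1, hN1, 0, by simpa using h3⟩)
    rw [smul_zero, sub_zero] at hc
    refine ⟨N' * N, Nat.mul_pos hN' hN, ?_⟩
    have e1 : ((N' * N : ℕ) : ℤ) • cls P = (N' : ℤ) • ((N : ℤ) • cls P - Z) + (N' : ℤ) • Z := by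
      rw [smul_sub, smul_smul, sub_add_cancel, Nat.cast_mul]
    rw [e1]
    exact (ARat K f (e + 1)).add_mem hc ((ARat K f (e + 1)).zsmul_mem hZ _)

theorem psi_homog {K : Type} [Field K] {m d : ℕ} (F : MvPolynomial (Fin (m + 2)) K)
    (hF : F.IsHomogeneous d) : (psi F).IsHomogeneous d := by
  have := hF.aeval (Fin.cons (α := fun _ => MvPolynomial (Fin (m + 1)) (RatFunc K))
    (C (RatFunc.X : RatFunc K) * X (Fin.last m)) X) (n := 1) (by
    intro k
    induction k using Fin.cases with
    | zero => simpa using isHomogeneous_C_mul_X (RatFunc.X : RatFunc K) (Fin.last m)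
    | succ k => simpa using isHomogeneous_X (RatFunc K) k)
  rwa [one_mul] at this

theorem rhoT_homog {K : Type} [Field K] {m d : ℕ} (t : K) (F : MvPolynomial (Fin (m + 2)) K)
    (hF : F.IsHomogeneous d) : (rhoT t F).IsHomogeneous d :=
  (lq_rhoT t).hrho F d hF

theorem rhoI_homog {K : Type} [Field K] {m d : ℕ} (F : MvPolynomial (Fin (m + 1)) K)
    (hF : F.IsHomogeneous d) : (rhoI F).IsHomogeneous d :=
  lq_rhoI.hrho F d hF

theorem deh_psi {K : Type} [Field K] {m : ℕ} (F : MvPolynomial (Fin (m + 2)) K) :
    deh (psi F) = lamR K m (deh F) := by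
  have h : ((deh : MvPolynomial (Fin (m + 1)) (RatFunc K) →ₐ[RatFunc K]
      MvPolynomial (Fin m) (RatFunc K)).restrictScalars K).comp psi =
      (lam : MvPolynomial (Fin (m + 1)) K →ₐ[K] MvPolynomial (Fin m) (RatFunc K)).comp deh := by
    apply MvPolynomial.algHom_ext
    intro k
    rw [AlgHom.comp_apply, AlgHom.comp_apply, AlgHom.restrictScalars_apply]
    induction k using Fin.cases with
    | zero =>
      have h1 : deh (X 0 : MvPolynomial (Fin (m + 2)) K) = X 0 := by
        rw [← Fin.castSucc_zero, deh_castSucc]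
      rw [h1]
      simp only [psi, aeval_X, Fin.cons_zero, map_mul, deh_last, mul_one, lam]
      simp [deh]
    | succ k =>
      induction k using Fin.lastCases with
      | last =>
        rw [Fin.succ_last, deh_last, map_one, ← Fin.succ_last]
        simp only [psi, aeval_X, Fin.cons_succ, deh_last]
      | cast k =>
        have h1 : deh (X k.castSucc.succ : MvPolynomial (Fin (m + 2)) K) = X k.succ := by
          rw [Fin.succ_castSucc, deh_castSucc]
        rw [h1]
        simp only [psi, aeval_X, Fin.cons_succ, deh_castSucc, lam]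
  exact congrArg (fun φ : MvPolynomial (Fin (m + 2)) K →ₐ[K] MvPolynomial (Fin m) (RatFunc K) =>
    φ F) h

theorem deh_ext {k E : Type} [Field k] [Field E] [Algebra k E] {m : ℕ}
    (F : MvPolynomial (Fin (m + 1)) k) : deh (ext k E (m + 1) F) = ext k E m (deh F) := by
  have h : ((deh : MvPolynomial (Fin (m + 1)) E →ₐ[E] MvPolynomial (Fin m) E) :
      MvPolynomial (Fin (m + 1)) E →+* MvPolynomial (Fin m) E).comp (ext k E (m + 1)) =
      (ext k E m).comp ((deh : MvPolynomial (Fin (m + 1)) k →ₐ[k] MvPolynomial (Fin m) k) :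
      MvPolynomial (Fin (m + 1)) k →+* MvPolynomial (Fin m) k) := by
    apply MvPolynomial.ringHom_ext
    · intro a
      simp [ext, deh]
    · intro i
      induction i using Fin.lastCases with
      | last => simp [ext, deh]
      | cast i => simp [ext, deh]
  exact congrArg (fun φ : MvPolynomial (Fin (m + 1)) k →+* MvPolynomial (Fin m) E => φ F) h

end Pool.Agent.HCH
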