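import Mathlib

namespace Pool.Agent.HCH

open Cardinal

theorem closure_equiv {K : Type} [Field K] (ε : Nonempty (K ≃+* ℂ)) :
    Nonempty (AlgebraicClosure (RatFunc K) ≃+* ℂ) := by
  obtain ⟨e⟩ := ε
  have c0 : CharZero K := charZero_of_injective_ringHom (f := (e.symm : ℂ →+* K)) e.symm.injective
  have cR : CharZero (RatFunc K) := charZero_of_injective_algebraMap (algebraMap K _).injective
  have cA : CharZero (AlgebraicClosure (RatFunc K)) :=
    charZero_of_injective_algebraMap (algebraMap (RatFunc K) _).injective
  have hK : #K = continuum := by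
    rw [Cardinal.mk_congr e.toEquiv, Cardinal.mk_complex]
  have h0 : ℵ₀ ≤ continuum := Cardinal.aleph0_le_continuum
  have hP : #(Polynomial K) ≤ continuum := by
    have := Polynomial.cardinalMk_le_max (R := K)
    rwa [hK, max_eq_left h0] at this
  have hR : #(RatFunc K) ≤ continuum :=
    (IsLocalization.cardinalMk_le (nonZeroDivisors (Polynomial K))).trans hP
  have hA : #(AlgebraicClosure (RatFunc K)) ≤ continuum := by
    have := Algebra.IsAlgebraic.cardinalMk_le_max (RatFunc K) (AlgebraicClosure (RatFunc K))
    exact this.trans (max_le hR h0)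
  have hA' : continuum ≤ #(AlgebraicClosure (RatFunc K)) := by
    rw [← hK]
    exact Cardinal.mk_le_of_injective
      (f := ((algebraMap (RatFunc K) (AlgebraicClosure (RatFunc K))).comp
        (algebraMap K (RatFunc K)))) (RingHom.injective _)
  have hA2 : #(AlgebraicClosure (RatFunc K)) = continuum := le_antisymm hA hA'
  apply IsAlgClosed.ringEquiv_of_equiv_of_charZero
  · rw [hA2]
    exact Cardinal.aleph0_lt_continuum
  · apply Cardinal.eq.mp
    rw [hA2, Cardinal.mk_complex]

end Pool.Agent.HCH
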