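import Pool.Agent.HCH.P4
import Pool.Agent.HCH.P6
import Pool.Agent.HCH.F2
import Pool.Agent.HCH.G8
import Pool.Agent.HCH.E3
import Pool.Agent.HCH.E6
import Pool.Agent.HCH.E7
import Pool.Agent.HCH.H2
import Pool.Agent.HCH.J2

namespace Pool.Agent.HCH

open MvPolynomial

/-- A class of polynomials closed under linear substitutions and extensions of the field. -/
def Closed (Cl : ∀ (K : Type) [Field K] (m : ℕ), MvPolynomial (Fin m) K → Prop) : Prop :=
  ∀ (K L : Type) [Field K] [Field L], Nonempty (L ≃+* ℂ) → ∀ (m m' : ℕ) (ε : K →+* L)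
    (Ψ : MvPolynomial (Fin m) K →+* MvPolynomial (Fin m') L), (∀ a, Ψ (C a) = C (ε a)) →
    (∀ k, (Ψ (X k)).IsHomogeneous 1) → ∀ F, Cl K m F → Cl L m' (Ψ F)

section

variable {Cl : ∀ (K : Type) [Field K] (m : ℕ), MvPolynomial (Fin m) K → Prop} (hCl : Closed Cl)
include hCl

theorem cl_phi {K : Type} [Field K] (e : Nonempty (K ≃+* ℂ)) {m : ℕ} (a : Fin m → K) (F : MvPolynomial (Fin (m + 1)) K)
    (h : Cl K _ F) : Cl K _ (phi a F) := by
  refine hCl K K e (m + 1) (m + 1) (RingHom.id K)
    (phi a : MvPolynomial (Fin (m + 1)) K →+* MvPolynomial (Fin (m + 1)) K) ?_ ?_ F h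
  · intro b
    exact (phi a).commutes b
  · intro k
    exact phi_homog a _ (isHomogeneous_X K k)

theorem cl_rhoI {K : Type} [Field K] (e : Nonempty (K ≃+* ℂ)) {m : ℕ} (F : MvPolynomial (Fin (m + 1)) K)
    (h : Cl K _ F) : Cl K _ (rhoI F) := by
  refine hCl K K e (m + 1) m (RingHom.id K)
    (rhoI : MvPolynomial (Fin (m + 1)) K →ₐ[K] MvPolynomial (Fin m) K).toRingHom ?_ ?_ F h
  · intro b
    exact (rhoI : MvPolynomial (Fin (m + 1)) K →ₐ[K] MvPolynomial (Fin m) K).commutes b
  · intro k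
    exact rhoI_homog _ (isHomogeneous_X K k)

theorem cl_rhoT {K : Type} [Field K] (e : Nonempty (K ≃+* ℂ)) {m : ℕ} (t : K) (F : MvPolynomial (Fin (m + 2)) K)
    (h : Cl K _ F) : Cl K _ (rhoT t F) := by
  refine hCl K K e (m + 2) (m + 1) (RingHom.id K)
    (rhoT t : MvPolynomial (Fin (m + 2)) K →ₐ[K] MvPolynomial (Fin (m + 1)) K).toRingHom
    ?_ ?_ F h
  · intro b
    exact (rhoT t : MvPolynomial (Fin (m + 2)) K →ₐ[K] MvPolynomial (Fin (m + 1)) K).commutes b
  · intro k
    exact rhoT_homog t _ (isHomogeneous_X K k)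

theorem cl_gen {K : Type} [Field K] (e : Nonempty (K ≃+* ℂ)) {m : ℕ} (F : MvPolynomial (Fin (m + 2)) K)
    (h : Cl K _ F) :
    Cl (AlgebraicClosure (RatFunc K)) _
      (ext (RatFunc K) (AlgebraicClosure (RatFunc K)) (m + 1) (psi F)) := by
  refine hCl K (AlgebraicClosure (RatFunc K)) (closure_equiv e) (m + 2) (m + 1)
    ((algebraMap (RatFunc K) (AlgebraicClosure (RatFunc K))).comp (algebraMap K (RatFunc K)))
    ((ext (RatFunc K) (AlgebraicClosure (RatFunc K)) (m + 1)).comp (psiR K m)) ?_ ?_ F h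
  · intro b
    have h1 : psiR K m (C b) = C (algebraMap K (RatFunc K) b) :=
      (psi : MvPolynomial (Fin (m + 2)) K →ₐ[K] MvPolynomial (Fin (m + 1)) (RatFunc K)).commutes b
    simp only [RingHom.comp_apply, h1]
    simp [ext]
  · intro k
    exact (psi_homog _ (isHomogeneous_X K k)).map _

end

theorem charZero_of_equiv {K : Type} [Field K] (ε : Nonempty (K ≃+* ℂ)) : CharZero K := by
  obtain ⟨e⟩ := ε
  exact charZero_of_injective_ringHom (f := (e.symm : ℂ →+* K)) e.symm.injective

theorem algClosed_of_equiv {K : Type} [Field K] (ε : Nonempty (K ≃+* ℂ)) : IsAlgClosed K := by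
  obtain ⟨e⟩ := ε
  exact IsAlgClosed.of_ringEquiv ℂ K e.symm

/-- The inductive step. -/
theorem step {K : Type} [Field K] (ε : Nonempty (K ≃+* ℂ)) {M d : ℕ} (hd : 2 ≤ d)
    (F : MvPolynomial (Fin (M + 3)) K) (hF : F.IsHomogeneous d) (j r : ℕ) (hj : 1 ≤ j)
    (hM : 2 * j + r + 1 ≤ M + 1) (h : SgLe F r) (hI : SgLe (rhoI F) (r - 1))
    (h1 : Hart (rhoI F) (j - 1)) (h2 : ∀ t : K, Hart (rhoT t F) (j - 1))
    (h3 : SgLe (ext (RatFunc K) (AlgebraicClosure (RatFunc K)) (M + 2) (psi F)) (r - 1) →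
      Hart (ext (RatFunc K) (AlgebraicClosure (RatFunc K)) (M + 2) (psi F)) j) : Hart F j := by
  have c0 := charZero_of_equiv ε
  have ac := algClosed_of_equiv ε
  have cR : CharZero (RatFunc K) := charZero_of_injective_algebraMap (algebraMap K _).injective
  obtain ⟨hp, hdm⟩ := prime_of_sg F hF (by omega) r h (by omega)
  have hdm' : dm K (Ideal.span {F}) = (M + 1) + 1 := by rw [hdm]; rfl
  -- the generic member
  have e1 := sg_psi F hF hd r h hI
  have e2 := sg_ext (E := AlgebraicClosure (RatFunc K)) (psi F) (r - 1) e1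
  have e3 := h3 e2
  have e4 := hart_affine _ ((psi_homog F hF).map _) j hj (by omega) e3
  have e5 : AT (AlgebraicClosure (RatFunc K))
      (ext (RatFunc K) (AlgebraicClosure (RatFunc K)) (M + 1) (lamR K (M + 1) (deh F)))
      (M - j) := by
    have := deh_ext (E := AlgebraicClosure (RatFunc K)) (psi F)
    rw [deh_psi] at this
    rw [← this]
    exact e4
  have e6 := descend_AT _ _ e5
  have e7 : AT K (deh F) (M + 1 - j) := by
    apply generic_tors (deh F) (M + 1 - j) (by omega)
    · intro t p hp' ht hd'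
      exact special_tors F hF hp hdm' t j hj (by omega) (h2 t) p hp' ht hd'
    · have : M + 1 - j - 1 = M - j := by omega
      rw [this]
      exact e6
  exact hart_of_affine F hF hp hdm' j hj (by omega) h1 e7

theorem main {Cl : ∀ (K : Type) [Field K] (m : ℕ), MvPolynomial (Fin m) K → Prop}
    (hCl : Closed Cl) (d i : ℕ) (hd : 2 ≤ d)
    (crit : ∀ j, 1 ≤ j → j ≤ i → ∀ F : MvPolynomial (Fin (2 * j + 3)) ℂ, Cl ℂ _ F →
      F.IsHomogeneous d → SgLe F 0 → Hart F j) :
    ∀ j ≤ i, ∀ M r, 2 * j + r + 1 ≤ M → ∀ (K : Type) [Field K], Nonempty (K ≃+* ℂ) →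
      ∀ F : MvPolynomial (Fin (M + 2)) K, Cl K _ F → F.IsHomogeneous d → SgLe F r →
      Hart F j := by
  intro j
  induction j with
  | zero =>
    intro _ M r hM K _ ε F _ hF h
    obtain ⟨hp, hdm⟩ := prime_of_sg F hF (by omega) r h (by omega)
    exact hart_zero F hp hdm
  | succ j ihj =>
    intro hji M
    induction M with
    | zero => intro r hM; omega
    | succ M ihM =>
      intro r hM K _ ε F hc hF h
      by_cases hcase : r = 0 ∧ M + 1 = 2 * (j + 1) + 1
      · obtain ⟨rfl, hM1⟩ := hcase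
        obtain ⟨e⟩ := ε
        have hM2 : M = 2 * (j + 1) := by omega
        subst hM2
        apply hart_field e
        apply crit (j + 1) (by omega) hji
        · exact hCl K ℂ ⟨RingEquiv.refl ℂ⟩ _ _ (e : K →+* ℂ) (MvPolynomial.map (e : K →+* ℂ))
            (fun a => by simp) (fun k => (isHomogeneous_X K k).map _) F hc
        · exact hF.map _
        · exact sg_field e F 0 h
      · have c0 := charZero_of_equiv ε
        obtain ⟨hp, hdm⟩ := prime_of_sg F hF (by omega) r h (by omega)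
        obtain ⟨a, ha⟩ := good_coord F hF hd hp hdm r h
        apply hart_phi a
        have hc' := cl_phi hCl ε a F hc
        have hF' := phi_homog a F hF
        have h' := sg_phi a F r h
        apply step ε hd (phi a F) hF' (j + 1) r (by omega) hM h' ha
        · exact ihj (by omega) M (r - 1) (by omega) K ε _ (cl_rhoI hCl ε _ hc')
            (rhoI_homog _ hF') ha
        · intro t
          exact ihj (by omega) M (r + 1) (by omega) K ε _ (cl_rhoT hCl ε t _ hc')
            (rhoT_homog t _ hF') (sg_rhoT t _ hF' hd r h')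
        · intro hs
          exact ihM (r - 1) (by omega) _ (closure_equiv ε) _ (cl_gen hCl ε _ hc')
            ((psi_homog _ hF').map _) hs

end Pool.Agent.HCH
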