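import Pool.Agent.HCH.I2
import Pool.Agent.HCH.J1
import Pool.Agent.HCH.Main

namespace Pool.Agent.HCH

open MvPolynomial

/-- The class over all fields isomorphic to `ℂ`. -/
def ClK (Cl : ∀ m : ℕ, MvPolynomial (Fin m) ℂ → Prop) (K : Type) [Field K] (m : ℕ)
    (F : MvPolynomial (Fin m) K) : Prop :=
  ∃ e : K ≃+* ℂ, Cl m (MvPolynomial.map (e : K →+* ℂ) F)

theorem closed_ClK (Cl : ∀ m : ℕ, MvPolynomial (Fin m) ℂ → Prop) (hCl : SecClosed Cl) :
    Closed (fun K inst m F => @ClK Cl K inst m F) := by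
  intro K L _ _ hL m m' ε Ψ h h1 F hF
  obtain ⟨eL⟩ := hL
  obtain ⟨e, hF⟩ := hF
  refine ⟨eL, ?_⟩
  have h2 := hCl m m' ((eL : L →+* ℂ).comp (ε.comp (e.symm : ℂ →+* K)))
    (fun k => MvPolynomial.map (eL : L →+* ℂ) (Ψ (X k))) (fun k => (h1 k).map _) _ hF
  have h3 : lsec ((eL : L →+* ℂ).comp (ε.comp (e.symm : ℂ →+* K)))
      (fun k => MvPolynomial.map (eL : L →+* ℂ) (Ψ (X k))) (MvPolynomial.map (e : K →+* ℂ) F) =
      MvPolynomial.map (eL : L →+* ℂ) (Ψ F) := by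
    have e2 : Ψ = eval₂Hom ((C : L →+* MvPolynomial (Fin m') L).comp ε) (fun k => Ψ (X k)) := by
      apply MvPolynomial.ringHom_ext
      · intro a
        rw [h]
        simp
      · intro k
        simp
    have e1 : Ψ F = eval₂ ((C : L →+* MvPolynomial (Fin m') L).comp ε) (fun k => Ψ (X k)) F :=
      congrArg (fun φ : MvPolynomial (Fin m) K →+* MvPolynomial (Fin m') L => φ F) e2
    rw [e1]
    unfold lsec
    rw [hom_eval₂, eval₂_map]
    congr 1
    ext x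
    simp
  rwa [h3] at h2

/-- The reduction of Hartshorne's conjecture to the critical dimension. -/
theorem final (d i : ℕ) (hd : 2 ≤ d) (Cl : ∀ m : ℕ, MvPolynomial (Fin m) ℂ → Prop)
    (hCl : SecClosed Cl) (hdeg : ∀ m F, Cl m F → F.IsHomogeneous d) :
    (∀ j, 1 ≤ j → j ≤ i → ∀ F : MvPolynomial (Fin (2 * j + 1 + 2)) ℂ, Cl _ F → Smooth F →
      ChowTriv F j) ↔
    ∀ j, 1 ≤ j → j ≤ i → ∀ n r, 2 * j + r + 1 ≤ n → ∀ F : MvPolynomial (Fin (n + 2)) ℂ,
      Cl _ F → SgLe F r → ChowTriv F j := by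
  constructor
  · intro crit j _ hji n r hn F hc hr
    apply ct_of_hart F (hdeg _ F hc)
    apply main (closed_ClK Cl hCl) d i hd ?_ j hji n r hn ℂ ⟨RingEquiv.refl ℂ⟩ F ?_
      (hdeg _ F hc) hr
    · intro j hj hji F' hc hF' hs
      obtain ⟨e, hc⟩ := hc
      apply hart_field e
      exact hart_of_ct _ _ (crit j hj hji _ hc (smooth_of_sg _ (hdeg _ _ hc) (sg_field e F' 0 hs)))
    · refine ⟨RingEquiv.refl ℂ, ?_⟩
      have : ((RingEquiv.refl ℂ : ℂ ≃+* ℂ) : ℂ →+* ℂ) = RingHom.id ℂ := rfl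
      rw [this, MvPolynomial.map_id]
      exact hc
  · intro all j hj hji F hc hs
    exact all j hj hji (2 * j + 1) 0 (by omega) F hc (sg_of_smooth F hs)

end Pool.Agent.HCH
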