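import Pool.Agent.HCH.Defs

namespace Pool.Agent.HCH

/-- Invariance of the length of `N / xN` under changing `N` by a module of finite length. -/
theorem length_smul_quot_eq {O N : Type} [CommRing O] [AddCommGroup N] [Module O N]
    (M : Submodule O N) (x : O) (hx : ∀ n : N, x • n = 0 → n = 0)
    (hfin : Module.length O (N ⧸ M) ≠ ⊤) :
    Module.length O (M ⧸ LinearMap.range (LinearMap.lsmul O M x)) =
      Module.length O (N ⧸ LinearMap.range (LinearMap.lsmul O N x)) := by
  -- the submodules of `N`
  set xM : Submodule O N := M.map (LinearMap.lsmul O N x) with hxM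
  set xN : Submodule O N := LinearMap.range (LinearMap.lsmul O N x) with hxN
  have hxMM : xM ≤ M := by
    rw [hxM, Submodule.map_le_iff_le_comap]
    intro m hm
    exact M.smul_mem x hm
  have hxMN : xM ≤ xN := by
    rw [hxM, hxN]
    exact LinearMap.map_le_range
  -- length (A / C) = length (A / B) + length (B / C) for C ≤ B ≤ N = A
  have hlen : ∀ B C : Submodule O N, C ≤ B →
      Module.length O (N ⧸ C) = Module.length O (B ⧸ C.submoduleOf B) + Module.length O (N ⧸ B) := by
    intro B C h
    have hle : C.submoduleOf B ≤ Submodule.comap B.subtype C := le_of_eq rfl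
    apply Module.length_eq_add_of_exact (Submodule.mapQ (C.submoduleOf B) C B.subtype hle)
      (Submodule.factor h)
    · rw [injective_iff_map_eq_zero]
      intro y hy
      obtain ⟨n, rfl⟩ := Submodule.Quotient.mk_surjective _ y
      have hy' : (n : N) ∈ C := (Submodule.Quotient.mk_eq_zero C).mp hy
      exact (Submodule.Quotient.mk_eq_zero _).mpr hy'
    · exact Submodule.factor_surjective h
    · intro y
      constructor
      · intro hy
        obtain ⟨n, rfl⟩ := Submodule.Quotient.mk_surjective _ y
        have hn : n ∈ B := by
          have : Submodule.factor h (Submodule.Quotient.mk n) = Submodule.Quotient.mk n := rfl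
          rw [this] at hy
          exact (Submodule.Quotient.mk_eq_zero _).mp hy
        exact ⟨Submodule.Quotient.mk ⟨n, hn⟩, rfl⟩
      · rintro ⟨z, rfl⟩
        obtain ⟨n, rfl⟩ := Submodule.Quotient.mk_surjective _ z
        change Submodule.Quotient.mk (n : N) = 0
        exact (Submodule.Quotient.mk_eq_zero _).mpr n.2
  have h1 := hlen M xM hxMM
  have h2 := hlen xN xM hxMN
  -- xN / xM ≅ N / M
  have h3 : Module.length O (xN ⧸ xM.submoduleOf xN) = Module.length O (N ⧸ M) := by
    let f : N →ₗ[O] xN ⧸ xM.submoduleOf xN :=
      (xM.submoduleOf xN).mkQ ∘ₗ (LinearMap.lsmul O N x).rangeRestrict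
    have hf : Function.Surjective f :=
      (Submodule.mkQ_surjective _).comp (LinearMap.surjective_rangeRestrict _)
    have hk : LinearMap.ker f = M := by
      ext n
      rw [LinearMap.mem_ker]
      change (xM.submoduleOf xN).mkQ ((LinearMap.lsmul O N x).rangeRestrict n) = 0 ↔ _
      rw [Submodule.mkQ_apply, Submodule.Quotient.mk_eq_zero]
      change x • n ∈ xM ↔ _
      constructor
      · rintro ⟨m, hm, he⟩
        have : x • (m - n) = 0 := by
          rw [smul_sub, sub_eq_zero]
          exact he
        have := hx _ this
        rw [sub_eq_zero] at this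
        rw [← this]
        exact hm
      · intro hn
        exact ⟨n, hn, rfl⟩
    have e := (LinearMap.quotKerEquivOfSurjective f hf)
    rw [hk] at e
    exact e.length_eq.symm
  -- M / xM
  have h4 : Module.length O (M ⧸ xM.submoduleOf M) =
      Module.length O (M ⧸ LinearMap.range (LinearMap.lsmul O M x)) := by
    have : xM.submoduleOf M = LinearMap.range (LinearMap.lsmul O M x) := by
      ext m
      constructor
      · rintro ⟨n, hn, he⟩
        exact ⟨⟨n, hn⟩, Subtype.ext he⟩
      · rintro ⟨n, he⟩
        exact ⟨n, n.2, congrArg Subtype.val he⟩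
    rw [this]
  rw [h3] at h2
  rw [← h4]
  rw [h1, add_comm (Module.length O (N ⧸ M))] at h2
  exact (ENat.add_left_injective_of_ne_top hfin) h2

end Pool.Agent.HCH
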