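import Pool.Agent.HCH.A2
import Pool.Agent.HCH.B

namespace Pool.Agent.HCH

/-- A prime containing `W + (g)` of dimension at least `dm W - 1` is minimal over `W + (g)`. -/
theorem min_of_dm {K R : Type} [Field K] [CommRing R] [Algebra K R] [Algebra.FiniteType K R]
    (W : Ideal R) [W.IsPrime] (g : R) (hg : g ∉ W) (P : Ideal R) [P.IsPrime]
    (hd : dm K W ≤ dm K P + 1) (hP : W ⊔ Ideal.span {g} ≤ P) :
    P ∈ (W ⊔ Ideal.span {g}).minimalPrimes := by
  refine ⟨⟨inferInstance, hP⟩, ?_⟩
  rintro Q ⟨hQ, hWQ⟩ hQP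
  by_contra hne
  have h1 : Q < P := lt_of_le_not_ge hQP hne
  have h2 : W < Q := by
    refine lt_of_le_of_ne (le_sup_left.trans hWQ) ?_
    rintro rfl
    exact hg (hWQ (Submodule.mem_sup_right (Ideal.mem_span_singleton_self g)))
  have h3 := dm_lt (K := K) Q P h1
  have h4 := dm_lt (K := K) W Q h2
  omega

theorem length_of_min {R : Type} [CommRing R] [IsNoetherianRing R] (I : Ideal R) (P : Ideal R)
    [hP : P.IsPrime] (h : P ∈ I.minimalPrimes) :
    Module.length (Localization.AtPrime P) (Localization.AtPrime P ⧸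
      I.map (algebraMap R (Localization.AtPrime P))) ≠ ⊤ := by
  set O := Localization.AtPrime P
  set I' : Ideal O := I.map (algebraMap R O)
  have hN : IsNoetherianRing O := IsLocalization.isNoetherianRing P.primeCompl _ inferInstance
  have hk : Ring.KrullDimLE 0 (O ⧸ I') := by
    rw [Ring.krullDimLE_zero_iff]
    intro J hJ
    have hJ' : (J.comap (Ideal.Quotient.mk I')).IsPrime := Ideal.comap_isPrime _ _
    have hle : I' ≤ J.comap (Ideal.Quotient.mk I') := by
      intro x hx
      rw [Ideal.mem_comap, Ideal.Quotient.eq_zero_iff_mem.mpr hx]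
      exact J.zero_mem
    have hmax : J.comap (Ideal.Quotient.mk I') = IsLocalRing.maximalIdeal O := by
      have h1 : (J.comap (Ideal.Quotient.mk I')).comap (algebraMap R O) ≤ P := by
        have h2 := IsLocalRing.le_maximalIdeal hJ'.ne_top
        have h3 := Ideal.comap_mono (f := algebraMap R O) h2
        have h3' : (IsLocalRing.maximalIdeal O).comap (algebraMap R O) = P :=
          Localization.AtPrime.under_maximalIdeal
        rwa [h3'] at h3
      have h4 : I ≤ (J.comap (Ideal.Quotient.mk I')).comap (algebraMap R O) :=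
        Ideal.le_comap_of_map_le hle
      have h5 : P ≤ (J.comap (Ideal.Quotient.mk I')).comap (algebraMap R O) :=
        h.2 ⟨Ideal.comap_isPrime _ _, h4⟩ h1
      apply le_antisymm (IsLocalRing.le_maximalIdeal hJ'.ne_top)
      rw [← Localization.AtPrime.map_eq_maximalIdeal]
      exact Ideal.map_le_of_le_comap h5
    have h6 : (J.comap (Ideal.Quotient.mk I')).IsMaximal := by
      rw [hmax]
      exact IsLocalRing.maximalIdeal.isMaximal O
    have h7 : J = (J.comap (Ideal.Quotient.mk I')).map (Ideal.Quotient.mk I') :=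
      (Ideal.map_comap_of_surjective _ Ideal.Quotient.mk_surjective J).symm
    rw [h7]
    apply Ideal.IsMaximal.map_of_surjective_of_ker_le Ideal.Quotient.mk_surjective
    rw [Ideal.mk_ker]
    exact hle
  have hA : IsArtinianRing (O ⧸ I') := IsNoetherianRing.isArtinianRing_of_krullDimLE_zero
  have hs : Function.Surjective (algebraMap O (O ⧸ I')) := Ideal.Quotient.mk_surjective
  rw [Module.length_eq_of_surjective (R := O ⧸ I') hs]
  exact Module.length_ne_top

theorem mlt_ne_top {K R : Type} [Field K] [CommRing R] [Algebra K R] [Algebra.FiniteType K R]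
    (W : Ideal R) [W.IsPrime] (g : R) (hg : g ∉ W) (P : PrimeSpectrum R)
    (hd : dm K W ≤ dm K P.asIdeal + 1) : mlt (W ⊔ Ideal.span {g}) P ≠ ⊤ := by
  have : IsNoetherianRing R := Algebra.FiniteType.isNoetherianRing K R
  by_cases h : W ⊔ Ideal.span {g} ≤ P.asIdeal
  · exact length_of_min _ _ (min_of_dm W g hg P.asIdeal hd h)
  · rw [mlt_eq_zero _ _ h]
    exact ENat.zero_ne_top

theorem finite_div {K R : Type} [Field K] [CommRing R] [Algebra K R] [Algebra.FiniteType K R]
    (W : Ideal R) [W.IsPrime] (g : R) (hg : g ∉ W) (e : ℕ) (hd : dm K W = e + 1) :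
    {P : PrimeSpectrum R | dm K P.asIdeal = e ∧ mlt (W ⊔ Ideal.span {g}) P ≠ 0}.Finite := by
  have : IsNoetherianRing R := Algebra.FiniteType.isNoetherianRing K R
  have hf := Ideal.finite_minimalPrimes_of_isNoetherianRing R (W ⊔ Ideal.span {g})
  apply Set.Finite.subset (hf.preimage (f := PrimeSpectrum.asIdeal)
    (fun x _ y _ h => PrimeSpectrum.ext h))
  rintro P ⟨h1, h2⟩
  have h3 : W ⊔ Ideal.span {g} ≤ P.asIdeal := by
    by_contra h
    exact h2 (mlt_eq_zero _ _ h)
  exact min_of_dm (K := K) W g hg P.asIdeal (by rw [h1, hd]) h3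

end Pool.Agent.HCH
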