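import Pool.Agent.HCH.A2
import Pool.Agent.HCH.A3
import Pool.Agent.HCH.A4

namespace Pool.Agent.HCH

/-- Additivity of the length modulo `C` on a reduced union, over a ring `O`. -/
theorem length_inf_sum {O ι : Type} [CommRing O] [Fintype ι] [DecidableEq ι] (I : ι → Ideal O)
    (C : O) (hC : ∀ i x, C * x ∈ I i → x ∈ I i) (e : ι → O) (he : ∀ i j, i ≠ j → e i ∈ I j)
    (hfin : ∀ i, Module.length O (O ⧸ (I i ⊔ Ideal.span {e i})) ≠ ⊤) :
    Module.length O (O ⧸ ((⨅ i, I i) ⊔ Ideal.span {C})) =
      ∑ i, Module.length O (O ⧸ (I i ⊔ Ideal.span {C})) := by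
  let N := ∀ i, O ⧸ I i
  let φ : O →ₗ[O] N := LinearMap.pi (fun i => (I i).mkQ)
  let M : Submodule O N := LinearMap.range φ
  have hφ : ∀ x i, φ x i = Ideal.Quotient.mk (I i) x := fun _ _ => rfl
  have hx : ∀ n : N, C • n = 0 → n = 0 := by
    intro n hn
    funext i
    have h1 : C • n i = 0 := congrFun hn i
    obtain ⟨x, hx⟩ := Ideal.Quotient.mk_surjective (n i)
    rw [← hx] at h1 ⊢
    have h2 : Ideal.Quotient.mk (I i) (C * x) = 0 := h1
    rw [Ideal.Quotient.eq_zero_iff_mem] at h2
    exact Ideal.Quotient.eq_zero_iff_mem.mpr (hC i x h2)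
  -- the quotient `N / M` has finite length
  have hNM : Module.length O (N ⧸ M) ≠ ⊤ := by
    let g : (i : ι) → (O ⧸ (I i ⊔ Ideal.span {e i})) →ₗ[O] (N ⧸ M) := fun i =>
      Submodule.liftQ _ (M.mkQ ∘ₗ (LinearMap.single O (fun i => O ⧸ I i) i) ∘ₗ (I i).mkQ) (by
        intro x hx
        rw [LinearMap.mem_ker]
        obtain ⟨a, ha, b, hb, rfl⟩ := Submodule.mem_sup.mp hx
        obtain ⟨c, rfl⟩ := Ideal.mem_span_singleton'.mp hb
        change M.mkQ (Pi.single i (Ideal.Quotient.mk (I i) (a + c * e i))) = 0
        rw [Submodule.mkQ_apply, Submodule.Quotient.mk_eq_zero]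
        refine ⟨c * e i, ?_⟩
        funext j
        rw [hφ]
        by_cases hij : j = i
        · subst hij
          rw [Pi.single_eq_same]
          apply Eq.symm
          rw [Ideal.Quotient.eq]
          simpa using ha
        · rw [Pi.single_eq_of_ne hij, Ideal.Quotient.eq_zero_iff_mem]
          exact (I j).mul_mem_left _ (he i j (fun h => hij h.symm)))
    let G : (∀ i, O ⧸ (I i ⊔ Ideal.span {e i})) →ₗ[O] (N ⧸ M) :=
      ∑ i, g i ∘ₗ LinearMap.proj i
    have hG : Function.Surjective G := by
      intro y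
      obtain ⟨n, rfl⟩ := Submodule.Quotient.mk_surjective _ y
      choose x hx using fun i => Ideal.Quotient.mk_surjective (n i)
      let v : ∀ i, O ⧸ (I i ⊔ Ideal.span {e i}) := fun i => Ideal.Quotient.mk _ (x i)
      refine ⟨v, ?_⟩
      change (∑ i, g i ∘ₗ LinearMap.proj i) v = _
      rw [LinearMap.sum_apply]
      have h1 : ∀ i, (g i ∘ₗ LinearMap.proj i) v = M.mkQ (Pi.single i (n i)) := by
        intro i
        change M.mkQ (Pi.single i (Ideal.Quotient.mk (I i) (x i))) = _
        rw [hx i]
      rw [Finset.sum_congr rfl (fun i _ => h1 i), ← map_sum]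
      have h2 : ∑ i, Pi.single i (n i) = n := Finset.univ_sum_single n
      rw [h2]
      rfl
    have h3 := Module.length_le_of_surjective G hG
    rw [Module.length_pi_of_fintype] at h3
    intro h4
    rw [h4, top_le_iff] at h3
    obtain ⟨i, _, hi⟩ := WithTop.sum_eq_top.mp h3
    exact hfin i hi
  have key := length_smul_quot_eq M C hx hNM
  -- the left side
  have hL : Module.length O (M ⧸ LinearMap.range (LinearMap.lsmul O M C)) =
      Module.length O (O ⧸ ((⨅ i, I i) ⊔ Ideal.span {C})) := by
    let f : O →ₗ[O] (M ⧸ LinearMap.range (LinearMap.lsmul O M C)) :=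
      (LinearMap.range (LinearMap.lsmul O M C)).mkQ ∘ₗ φ.rangeRestrict
    have hf : Function.Surjective f :=
      (Submodule.mkQ_surjective _).comp (LinearMap.surjective_rangeRestrict _)
    have hk : LinearMap.ker f = (⨅ i, I i) ⊔ Ideal.span {C} := by
      ext x
      rw [LinearMap.mem_ker]
      change (LinearMap.range (LinearMap.lsmul O M C)).mkQ (φ.rangeRestrict x) = 0 ↔ _
      rw [Submodule.mkQ_apply, Submodule.Quotient.mk_eq_zero]
      constructor
      · rintro ⟨m, hm⟩
        obtain ⟨_, ⟨y, rfl⟩⟩ := m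
        have h1 : C • φ y = φ x := congrArg Subtype.val hm
        have h2 : x - C * y ∈ ⨅ i, I i := by
          rw [Submodule.mem_iInf]
          intro i
          have h3 := congrFun h1 i
          rw [← Ideal.Quotient.eq]
          exact h3.symm
        have h4 : x = (x - C * y) + y * C := by ring
        rw [h4]
        exact Submodule.add_mem_sup h2 (Ideal.mem_span_singleton'.mpr ⟨y, rfl⟩)
      · intro hx
        obtain ⟨a, ha, b, hb, rfl⟩ := Submodule.mem_sup.mp hx
        obtain ⟨c, rfl⟩ := Ideal.mem_span_singleton'.mp hb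
        refine ⟨⟨φ c, ⟨c, rfl⟩⟩, ?_⟩
        apply Subtype.ext
        change C • φ c = φ (a + c * C)
        funext i
        change Ideal.Quotient.mk (I i) (C * c) = Ideal.Quotient.mk (I i) (a + c * C)
        apply Eq.symm
        rw [Ideal.Quotient.eq]
        have h5 : a + c * C - C * c = a := by ring
        rw [h5]
        exact (Submodule.mem_iInf _).mp ha i
    have e := LinearMap.quotKerEquivOfSurjective f hf
    rw [hk] at e
    exact e.length_eq.symm
  -- the right side
  have hR : Module.length O (N ⧸ LinearMap.range (LinearMap.lsmul O N C)) =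
      ∑ i, Module.length O (O ⧸ (I i ⊔ Ideal.span {C})) := by
    let f : N →ₗ[O] (∀ i, O ⧸ (I i ⊔ Ideal.span {C})) :=
      LinearMap.pi (fun i => (Submodule.factor (le_sup_left : I i ≤ I i ⊔ Ideal.span {C})) ∘ₗ
        LinearMap.proj i)
    have hf : Function.Surjective f := by
      intro y
      choose x hx using fun i => Ideal.Quotient.mk_surjective (y i)
      refine ⟨fun i => Ideal.Quotient.mk _ (x i), ?_⟩
      funext i
      exact hx i
    have hk : LinearMap.ker f = LinearMap.range (LinearMap.lsmul O N C) := by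
      ext n
      rw [LinearMap.mem_ker]
      constructor
      · intro hn
        choose x hx using fun i => Ideal.Quotient.mk_surjective (n i)
        have h1 : ∀ i, x i ∈ I i ⊔ Ideal.span {C} := by
          intro i
          have h2 := congrFun hn i
          change Submodule.factor (le_sup_left : I i ≤ I i ⊔ Ideal.span {C}) (n i) = 0 at h2
          rw [← hx i] at h2
          exact Ideal.Quotient.eq_zero_iff_mem.mp h2
        have h3 : ∀ i, ∃ c, x i - C * c ∈ I i := by
          intro i
          obtain ⟨a, ha, b, hb, hab⟩ := Submodule.mem_sup.mp (h1 i)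
          obtain ⟨c, rfl⟩ := Ideal.mem_span_singleton'.mp hb
          refine ⟨c, ?_⟩
          rw [← hab]
          have h5 : a + c * C - C * c = a := by ring
          rw [h5]
          exact ha
        choose c hc using h3
        refine ⟨fun i => Ideal.Quotient.mk _ (c i), ?_⟩
        funext i
        change Ideal.Quotient.mk (I i) (C * c i) = n i
        rw [← hx i]
        exact (Ideal.Quotient.eq.mpr (hc i)).symm
      · rintro ⟨m, rfl⟩
        funext i
        obtain ⟨x, hx⟩ := Ideal.Quotient.mk_surjective (m i)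
        change Submodule.factor (le_sup_left : I i ≤ I i ⊔ Ideal.span {C}) (C • m i) = 0
        rw [← hx]
        change Ideal.Quotient.mk (I i ⊔ Ideal.span {C}) (C * x) = 0
        rw [Ideal.Quotient.eq_zero_iff_mem]
        exact Ideal.mul_mem_right _ _ (Submodule.mem_sup_right (Ideal.mem_span_singleton_self C))
    have e := LinearMap.quotKerEquivOfSurjective f hf
    rw [hk] at e
    rw [e.length_eq, Module.length_pi_of_fintype]
  rw [← hL, key, hR]

/-
ROW A3b. Additivity of the order on a reduced union.
-/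
theorem mlt_inf {K R : Type} [Field K] [CommRing R] [Algebra K R] [Algebra.FiniteType K R]
    (s : Finset (PrimeSpectrum R)) (e : ℕ) (hs : ∀ w ∈ s, dm K w.asIdeal = e + 1) (C : R)
    (hC : ∀ w ∈ s, C ∉ w.asIdeal) (q : PrimeSpectrum R) (hq : dm K q.asIdeal = e) :
    mlt ((⨅ w ∈ s, w.asIdeal) ⊔ Ideal.span {C}) q =
      ∑ w ∈ s, mlt (w.asIdeal ⊔ Ideal.span {C}) q := by
  classical
  let O := Localization.AtPrime q.asIdeal
  -- the elements that isolate one of the primes
  have hex : ∀ w : s, ∃ x : R, x ∉ w.1.asIdeal ∧ ∀ w' : s, w ≠ w' → x ∈ w'.1.asIdeal := by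
    intro w
    by_contra hcon
    push Not at hcon
    have h1 : ((s.erase w.1).inf fun w' => w'.asIdeal) ≤ w.1.asIdeal := by
      intro x hx
      by_contra hxw
      obtain ⟨w', hne, hw'⟩ := hcon x hxw
      apply hw'
      have h2 : ((s.erase w.1).inf fun w' => w'.asIdeal) ≤ w'.1.asIdeal :=
        Finset.inf_le (Finset.mem_erase.mpr ⟨fun h => hne (Subtype.ext h.symm), w'.2⟩)
      exact h2 hx
    rw [Ideal.IsPrime.inf_le' w.1.isPrime] at h1
    obtain ⟨w', hw', hle⟩ := h1
    have hw's := Finset.mem_of_mem_erase hw'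
    have h3 := eq_of_dm_le (K := K) w'.asIdeal w.1.asIdeal hle (by rw [hs _ hw's, hs _ w.2])
    exact (Finset.ne_of_mem_erase hw') (PrimeSpectrum.ext h3)
  choose x hxw hxo using hex
  have hmain := length_inf_sum (O := O) (ι := s)
    (fun w => w.1.asIdeal.map (algebraMap R O)) (algebraMap R O C) ?_
    (fun w => algebraMap R O (x w)) ?_ ?_
  · have hinf : (⨅ w : s, w.1.asIdeal.map (algebraMap R O)) =
        (⨅ w ∈ s, w.asIdeal).map (algebraMap R O) := by
      apply le_antisymm
      · intro y hy
        rw [Submodule.mem_iInf] at hy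
        obtain ⟨a, t, rfl⟩ := IsLocalization.exists_mk'_eq q.asIdeal.primeCompl y
        have h1 : ∀ w : s, ∃ m ∈ q.asIdeal.primeCompl, m * a ∈ w.1.asIdeal := by
          intro w
          have h2 := hy w
          rw [IsLocalization.mk'_mem_map_algebraMap_iff] at h2
          exact h2
        choose m hm hma using h1
        rw [IsLocalization.mk'_mem_map_algebraMap_iff]
        refine ⟨∏ w : s, m w, Submonoid.prod_mem _ (fun w _ => hm w), ?_⟩
        rw [Submodule.mem_iInf]
        intro w
        rw [Submodule.mem_iInf]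
        intro hw
        rw [← Finset.mul_prod_erase Finset.univ m (Finset.mem_univ (⟨w, hw⟩ : s))]
        have h3 : m ⟨w, hw⟩ * (∏ x ∈ Finset.univ.erase (⟨w, hw⟩ : s), m x) * a =
            (∏ x ∈ Finset.univ.erase (⟨w, hw⟩ : s), m x) * (m ⟨w, hw⟩ * a) := by ring
        rw [h3]
        exact w.asIdeal.mul_mem_left _ (hma ⟨w, hw⟩)
      · apply le_iInf
        intro w
        exact Ideal.map_mono (iInf₂_le w.1 w.2)
    have h5 : ∀ J : Ideal R, J.map (algebraMap R O) ⊔ Ideal.span {algebraMap R O C} =
        (J ⊔ Ideal.span {C}).map (algebraMap R O) := by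
      intro J
      rw [Ideal.map_sup, Ideal.map_span, Set.image_singleton]
    rw [hinf, h5] at hmain
    unfold mlt
    rw [hmain]
    rw [← Finset.sum_coe_sort s (fun w => Module.length O (O ⧸
      (w.asIdeal ⊔ Ideal.span {C}).map (algebraMap R O)))]
    apply Finset.sum_congr rfl
    intro w _
    rw [h5]
  · intro w y hy
    obtain ⟨a, t, rfl⟩ := IsLocalization.exists_mk'_eq q.asIdeal.primeCompl y
    have h1 : algebraMap R O C * IsLocalization.mk' O a t = IsLocalization.mk' O (C * a) t :=
      IsLocalization.mul_mk'_eq_mk'_of_mul C a t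
    change algebraMap R O C * IsLocalization.mk' O a t ∈ _ at hy
    rw [h1, IsLocalization.mk'_mem_map_algebraMap_iff] at hy
    obtain ⟨m, hm, hma⟩ := hy
    change IsLocalization.mk' O a t ∈ _
    rw [IsLocalization.mk'_mem_map_algebraMap_iff]
    refine ⟨m, hm, ?_⟩
    have h2 : m * (C * a) = C * (m * a) := by ring
    rw [h2] at hma
    exact (w.1.isPrime.mem_or_mem hma).resolve_left (hC w.1 w.2)
  · intro w w' hne
    exact Ideal.mem_map_of_mem _ (hxo w w' hne)
  · intro w
    have h := mlt_ne_top (K := K) w.1.asIdeal (x w) (hxw w) q (by rw [hs _ w.2, hq])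
    unfold mlt at h
    rw [Ideal.map_sup, Ideal.map_span, Set.image_singleton] at h
    exact h

end Pool.Agent.HCH
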