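import Pool.Agent.HCH.G1
import Pool.Agent.HCH.A2

namespace Pool.Agent.HCH

open MvPolynomial

theorem ext_min {k E : Type} [Field k] [Field E] [Algebra k E]
    [Algebra.IsAlgebraic k E] {n : ℕ} (q q' : PrimeSpectrum (MvPolynomial (Fin n) E))
    (h : (q.asIdeal.comap (ext k E n)).map (ext k E n) ≤ q'.asIdeal) (hle : q' ≤ q) : q' = q := by
  let _ : Algebra (MvPolynomial (Fin n) k) (MvPolynomial (Fin n) E) := (ext k E n).toAlgebra
  by_contra hne
  have hle' : q'.asIdeal ≤ q.asIdeal := hle
  have hnle : ¬ q.asIdeal ≤ q'.asIdeal := fun h1 => hne (PrimeSpectrum.ext (le_antisymm hle' h1))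
  obtain ⟨x, hx, hx'⟩ := Set.not_subset.mp hnle
  have h1 := Ideal.comap_lt_comap_of_integral_mem_sdiff (R := MvPolynomial (Fin n) k) hle'
    ⟨hx, hx'⟩ (ext_integral (k := k) x)
  have h2 : q.asIdeal.comap (ext k E n) ≤ q'.asIdeal.comap (ext k E n) :=
    Ideal.le_comap_of_map_le h
  exact absurd h2 (not_le_of_gt h1)

theorem ext_max {k E : Type} [Field k] [Field E] [Algebra k E]
    [IsGalois k E] {n : ℕ} (q : PrimeSpectrum (MvPolynomial (Fin n) E)) :
    ((q.asIdeal.comap (ext k E n)).map (ext k E n)).map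
      (algebraMap _ (Localization.AtPrime q.asIdeal)) =
      IsLocalRing.maximalIdeal (Localization.AtPrime q.asIdeal) := by
  set O := Localization.AtPrime q.asIdeal
  set I := (q.asIdeal.comap (ext k E n)).map (ext k E n) with hI
  have hp : (q.asIdeal.comap (ext k E n)).IsPrime := Ideal.comap_isPrime _ _
  have hIrad : I.IsRadical := ext_radical _
  have hIq : I ≤ q.asIdeal := Ideal.map_comap_le
  apply le_antisymm
  · rw [← Localization.AtPrime.map_eq_maximalIdeal]
    exact Ideal.map_mono hIq
  · -- the extension is radical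
    have hrad : (I.map (algebraMap (MvPolynomial (Fin n) E) O)).IsRadical := by
      intro x hx
      obtain ⟨N, hN⟩ := hx
      obtain ⟨a, s, rfl⟩ := IsLocalization.exists_mk'_eq q.asIdeal.primeCompl x
      rw [← IsLocalization.mk'_pow, IsLocalization.mk'_mem_map_algebraMap_iff] at hN
      obtain ⟨t, ht, hta⟩ := hN
      rw [IsLocalization.mk'_mem_map_algebraMap_iff]
      refine ⟨t, ht, ?_⟩
      apply hIrad
      refine ⟨N + 1, ?_⟩
      have : (t * a) ^ (N + 1) = (t ^ N * a) * (t * a ^ N) := by ring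
      rw [this]
      exact I.mul_mem_left _ hta
    -- every prime above is maximal
    rw [← hrad.radical, Ideal.radical_eq_sInf]
    apply le_sInf
    rintro J ⟨hJ, hJp⟩
    have h1 : (J.comap (algebraMap (MvPolynomial (Fin n) E) O)).IsPrime := Ideal.comap_isPrime _ _
    have h2 : J.comap (algebraMap (MvPolynomial (Fin n) E) O) ≤ q.asIdeal := by
      have h3 := Ideal.comap_mono (f := algebraMap (MvPolynomial (Fin n) E) O)
        (IsLocalRing.le_maximalIdeal hJp.ne_top)
      have h4 : (IsLocalRing.maximalIdeal O).comap (algebraMap (MvPolynomial (Fin n) E) O) = q.asIdeal :=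
        Localization.AtPrime.under_maximalIdeal
      rwa [h4] at h3
    have h5 : I ≤ J.comap (algebraMap (MvPolynomial (Fin n) E) O) := Ideal.le_comap_of_map_le hJ
    have h6 := ext_min (k := k) q ⟨J.comap (algebraMap (MvPolynomial (Fin n) E) O), h1⟩ h5 h2
    have h7 : J.comap (algebraMap (MvPolynomial (Fin n) E) O) = q.asIdeal := congrArg PrimeSpectrum.asIdeal h6
    rw [← Localization.AtPrime.map_eq_maximalIdeal, Ideal.map_le_iff_le_comap, h7]

theorem mlt_ext {k E : Type} [Field k] [Field E] [Algebra k E]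
    [IsGalois k E] {n : ℕ} (J : Ideal (MvPolynomial (Fin n) k))
    (q : PrimeSpectrum (MvPolynomial (Fin n) E)) :
    mlt (J.map (ext k E n)) q = mlt J (PrimeSpectrum.comap (ext k E n) q) :=
  mlt_flat (ext k E n) ext_flat q (ext_max q) J

end Pool.Agent.HCH
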