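import Pool.Agent.HCH.G0
import Pool.Agent.HCH.G2

namespace Pool.Agent.HCH

open MvPolynomial

theorem conj {k E : Type} [Field k] [Field E] [Algebra k E] [FiniteDimensional k E] [IsGalois k E]
    {n : ℕ} (q q' : PrimeSpectrum (MvPolynomial (Fin n) E))
    (h : PrimeSpectrum.comap (ext k E n) q = PrimeSpectrum.comap (ext k E n) q') :
    ∃ σ : E ≃ₐ[k] E, PrimeSpectrum.comap (ga n σ) q = q' := by
  classical
  by_contra hcon
  push Not at hcon
  have hdq : dm E q.asIdeal = dm E q'.asIdeal := by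
    have h1 := dm_alg (k := k) q.asIdeal
    have h2 := dm_alg (k := k) q'.asIdeal
    have h3 := congrArg (fun p : PrimeSpectrum (MvPolynomial (Fin n) k) => dm k p.asIdeal) h
    have h4 : dm k (q.asIdeal.comap (ext k E n)) = dm k (q'.asIdeal.comap (ext k E n)) := h3
    rw [← h1, h4, h2]
  -- q' is not contained in the conjugates of q
  have hnot : ∀ σ : E ≃ₐ[k] E, ¬ q'.asIdeal ≤ (PrimeSpectrum.comap (ga n σ) q).asIdeal := by
    intro σ hle
    apply hcon σ
    apply PrimeSpectrum.ext
    exact (eq_of_dm_le (K := E) _ _ hle (by rw [ga_dm, hdq])).symm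
  -- prime avoidance
  have hav : ∃ a ∈ q'.asIdeal, ∀ σ : E ≃ₐ[k] E, a ∉ (PrimeSpectrum.comap (ga n σ) q).asIdeal := by
    by_contra hc
    push Not at hc
    have hsub : (q'.asIdeal : Set (MvPolynomial (Fin n) E)) ⊆
        ⋃ σ ∈ ((Finset.univ : Finset (E ≃ₐ[k] E)) : Set (E ≃ₐ[k] E)),
          ((PrimeSpectrum.comap (ga n σ) q).asIdeal : Set (MvPolynomial (Fin n) E)) := by
      intro a ha
      obtain ⟨σ, hσ⟩ := hc a ha
      rw [Set.mem_iUnion₂]
      exact ⟨σ, by simp, hσ⟩
    obtain ⟨σ, _, hσ⟩ := (Ideal.subset_union_prime (1 : E ≃ₐ[k] E) 1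
      (fun σ _ _ _ => (PrimeSpectrum.comap (ga n σ) q).isPrime)).mp hsub
    exact hnot σ hσ
  obtain ⟨a, ha, haσ⟩ := hav
  -- the norm
  obtain ⟨c, hc⟩ : ∃ c : MvPolynomial (Fin n) k, ext k E n c = ∏ σ : E ≃ₐ[k] E, ga n σ a := by
    apply ga_fixed
    intro τ
    rw [map_prod]
    apply Finset.prod_bij (fun σ _ => τ * σ)
    · intro σ _
      exact Finset.mem_univ _
    · intro σ _ σ' _ h
      exact mul_left_cancel h
    · intro σ _
      exact ⟨τ⁻¹ * σ, Finset.mem_univ _, by simp⟩
    · intro σ _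
      rw [ga_mul]
  have h1 : ext k E n c ∈ q'.asIdeal := by
    rw [hc]
    have h2 := Finset.dvd_prod_of_mem (fun σ : E ≃ₐ[k] E => ga n σ a) (Finset.mem_univ 1)
    refine q'.asIdeal.mem_of_dvd h2 ?_
    rw [ga_one]
    exact ha
  have h2 : ext k E n c ∈ q.asIdeal := by
    have h3 : c ∈ (PrimeSpectrum.comap (ext k E n) q').asIdeal := h1
    rw [← h] at h3
    exact h3
  rw [hc] at h2
  obtain ⟨σ, _, hσ⟩ := q.isPrime.prod_mem_iff.mp h2
  exact haσ σ hσ

open Classical in
theorem inf_orbit {k E : Type} [Field k] [CharZero k] [Field E] [Algebra k E]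
    [FiniteDimensional k E] [IsGalois k E] {n : ℕ} (w : PrimeSpectrum (MvPolynomial (Fin n) E)) :
    (⨅ v ∈ Finset.univ.image (fun σ : E ≃ₐ[k] E => PrimeSpectrum.comap (ga n σ⁻¹) w), v.asIdeal) =
      (w.asIdeal.comap (ext k E n)).map (ext k E n) := by
  apply le_antisymm
  · intro a ha
    have ha' : ∀ σ : E ≃ₐ[k] E, ga n σ⁻¹ a ∈ w.asIdeal := by
      intro σ
      have h1 := (Submodule.mem_iInf _).mp ha (PrimeSpectrum.comap (ga n σ⁻¹) w)
      have h2 := (Submodule.mem_iInf _).mp h1 (Finset.mem_image_of_mem _ (Finset.mem_univ σ))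
      exact h2
    have ha'' : ∀ σ : E ≃ₐ[k] E, ga n σ a ∈ w.asIdeal := by
      intro σ
      have := ha' σ⁻¹
      rwa [inv_inv] at this
    -- the characteristic polynomial
    set P : Polynomial (MvPolynomial (Fin n) E) :=
      ∏ σ : E ≃ₐ[k] E, (Polynomial.X - Polynomial.C (ga n σ a)) with hP
    have hPa : P.eval a = 0 := by
      rw [hP, Polynomial.eval_prod]
      apply Finset.prod_eq_zero (Finset.mem_univ 1)
      rw [Polynomial.eval_sub, Polynomial.eval_X, Polynomial.eval_C, ga_one, sub_self]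
    have hPdeg : P.natDegree = Fintype.card (E ≃ₐ[k] E) := by
      rw [hP, Polynomial.natDegree_prod_of_monic _ _ (fun σ _ => Polynomial.monic_X_sub_C _)]
      simp
    have hPm : P.Monic := Polynomial.monic_prod_of_monic _ _
      (fun σ _ => Polynomial.monic_X_sub_C _)
    have hfix : ∀ τ : E ≃ₐ[k] E, P.map (ga n τ) = P := by
      intro τ
      rw [hP, Polynomial.map_prod]
      apply Finset.prod_bij (fun σ _ => τ * σ)
      · intro σ _
        exact Finset.mem_univ _
      · intro σ _ σ' _ h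
        exact mul_left_cancel h
      · intro σ _
        exact ⟨τ⁻¹ * σ, Finset.mem_univ _, by simp⟩
      · intro σ _
        rw [Polynomial.map_sub, Polynomial.map_X, Polynomial.map_C, ga_mul]
    have hcoef : ∀ i, ∃ c : MvPolynomial (Fin n) k, ext k E n c = P.coeff i := by
      intro i
      apply ga_fixed
      intro τ
      have h1 := congrArg (fun Q => Polynomial.coeff Q i) (hfix τ)
      simp only [Polynomial.coeff_map] at h1
      exact h1
    have hcw : ∀ i, i < P.natDegree → P.coeff i ∈ w.asIdeal := by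
      intro i hi
      have h1 : P.map (Ideal.Quotient.mk w.asIdeal) = Polynomial.X ^ Fintype.card (E ≃ₐ[k] E) := by
        rw [hP, Polynomial.map_prod]
        have h2 : ∀ σ ∈ (Finset.univ : Finset (E ≃ₐ[k] E)),
            (Polynomial.X - Polynomial.C (ga n σ a)).map (Ideal.Quotient.mk w.asIdeal) =
            Polynomial.X := by
          intro σ _
          rw [Polynomial.map_sub, Polynomial.map_X, Polynomial.map_C,
            Ideal.Quotient.eq_zero_iff_mem.mpr (ha'' σ), Polynomial.C_0, sub_zero]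
        rw [Finset.prod_congr rfl h2, Finset.prod_const, Finset.card_univ]
      have h3 := congrArg (fun Q => Polynomial.coeff Q i) h1
      simp only [Polynomial.coeff_map, Polynomial.coeff_X_pow] at h3
      rw [hPdeg] at hi
      rw [if_neg (by omega)] at h3
      exact Ideal.Quotient.eq_zero_iff_mem.mp h3
    apply ext_radical (w.asIdeal.comap (ext k E n))
    refine ⟨P.natDegree, ?_⟩
    have h1 : a ^ P.natDegree = -∑ i ∈ Finset.range P.natDegree, P.coeff i * a ^ i := by
      rw [Polynomial.eval_eq_sum_range, Finset.sum_range_succ, Polynomial.coeff_natDegree,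
        hPm.leadingCoeff, one_mul] at hPa
      exact eq_neg_of_add_eq_zero_right hPa
    rw [h1]
    apply Submodule.neg_mem
    apply Ideal.sum_mem
    intro i hi
    rw [Finset.mem_range] at hi
    apply Ideal.mul_mem_right
    obtain ⟨c, hc⟩ := hcoef i
    rw [← hc]
    apply Ideal.mem_map_of_mem
    rw [Ideal.mem_comap, hc]
    exact hcw i hi
  · rw [Ideal.map_le_iff_le_comap]
    intro c hc
    rw [Ideal.mem_comap]
    rw [Submodule.mem_iInf]
    intro v
    rw [Submodule.mem_iInf]
    intro hv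
    rw [Finset.mem_image] at hv
    obtain ⟨σ, _, rfl⟩ := hv
    change ga n σ⁻¹ (ext k E n c) ∈ w.asIdeal
    rw [ga_ext]
    exact hc

end Pool.Agent.HCH
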