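import Pool.Agent.HCH.G4
import Pool.Agent.HCH.G5
import Pool.Agent.HCH.A2m
import Pool.Agent.HCH.A3b
import Pool.Agent.HCH.A4

namespace Pool.Agent.HCH

open MvPolynomial

/-- Additivity of the order over finite products. -/
theorem mlt_prod {R : Type} [CommRing R] (W : Ideal R) [hW : W.IsPrime] {ι : Type}
    (s : Finset ι) (g : ι → R) (hg : ∀ i ∈ s, g i ∉ W) (P : PrimeSpectrum R) :
    mlt (W ⊔ Ideal.span {∏ i ∈ s, g i}) P = ∑ i ∈ s, mlt (W ⊔ Ideal.span {g i}) P := by
  classical
  induction s using Finset.induction_on with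
  | empty =>
    rw [Finset.prod_empty, Finset.sum_empty, mlt_eq_zero]
    intro hle
    apply P.isPrime.ne_top
    rw [Ideal.eq_top_iff_one]
    exact hle (Submodule.mem_sup_right (Ideal.mem_span_singleton_self _))
  | insert i s hi ih =>
    rw [Finset.prod_insert hi, Finset.sum_insert hi, mlt_mul W _ _ (hg i (Finset.mem_insert_self _ _)),
      ih (fun j hj => hg j (Finset.mem_insert_of_mem hj))]
    intro hc
    obtain ⟨j, hj, hc'⟩ := hW.prod_mem_iff.mp hc
    exact hg j (Finset.mem_insert_of_mem hj) hc'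

theorem sup_congr {R : Type} [CommRing R] (W : Ideal R) (a b : R) (h : a - b ∈ W) :
    W ⊔ Ideal.span {a} = W ⊔ Ideal.span {b} := by
  apply le_antisymm
  · apply sup_le le_sup_left
    rw [Ideal.span_singleton_le_iff_mem]
    have : a = (a - b) + b := by ring
    rw [this]
    exact Submodule.add_mem_sup h (Ideal.mem_span_singleton_self b)
  · apply sup_le le_sup_left
    rw [Ideal.span_singleton_le_iff_mem]
    have : b = -(a - b) + a := by ring
    rw [this]
    exact Submodule.add_mem_sup (W.neg_mem h) (Ideal.mem_span_singleton_self a)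

theorem norm_formula {k E : Type} [Field k] [CharZero k] [Field E] [Algebra k E]
    [FiniteDimensional k E] [IsGalois k E] {n : ℕ} (w : PrimeSpectrum (MvPolynomial (Fin n) E))
    (e : ℕ) (hw : dm E w.asIdeal = e + 1) (b : MvPolynomial (Fin n) E) (hb : b ∉ w.asIdeal) :
    ∃ C D : MvPolynomial (Fin n) k, ext k E n C ∉ w.asIdeal ∧ ext k E n D ∉ w.asIdeal ∧
      ∀ q : PrimeSpectrum (MvPolynomial (Fin n) E), dm E q.asIdeal = e →
        (∑ σ : E ≃ₐ[k] E, mlt (w.asIdeal ⊔ Ideal.span {b}) (PrimeSpectrum.comap (ga n σ) q)) +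
          mlt (w.asIdeal.comap (ext k E n) ⊔ Ideal.span {D}) (PrimeSpectrum.comap (ext k E n) q) =
          mlt (w.asIdeal.comap (ext k E n) ⊔ Ideal.span {C})
            (PrimeSpectrum.comap (ext k E n) q) := by
  classical
  obtain ⟨C, D, hC, hD, hrel⟩ := norm_pair (k := k) w b hb
  refine ⟨C, D, hC, hD, ?_⟩
  intro q hq
  set cw : (E ≃ₐ[k] E) → PrimeSpectrum (MvPolynomial (Fin n) E) :=
    fun σ => PrimeSpectrum.comap (ga n σ⁻¹) w with hcw
  set S : Finset (PrimeSpectrum (MvPolynomial (Fin n) E)) := Finset.univ.image cw with hS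
  -- membership under translation
  have hmem : ∀ (τ : E ≃ₐ[k] E) (a : MvPolynomial (Fin n) E),
      ga n τ a ∈ (cw τ).asIdeal ↔ a ∈ w.asIdeal := by
    intro τ a
    change ga n τ⁻¹ (ga n τ a) ∈ w.asIdeal ↔ _
    rw [← ga_mul, inv_mul_cancel, ga_one]
  have hext : ∀ (τ : E ≃ₐ[k] E) (c : MvPolynomial (Fin n) k),
      ext k E n c ∉ w.asIdeal → ext k E n c ∉ (cw τ).asIdeal := by
    intro τ c hc h
    rw [← ga_ext τ c, hmem] at h
    exact hc h
  -- the sum over the group
  have h1 : (∑ σ : E ≃ₐ[k] E, mlt (w.asIdeal ⊔ Ideal.span {b})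
      (PrimeSpectrum.comap (ga n σ) q)) =
      ∑ v ∈ S, ∑ σ ∈ Finset.univ.filter (fun σ : E ≃ₐ[k] E => cw σ = v),
        mlt (v.asIdeal ⊔ Ideal.span {ga n σ b}) q := by
    rw [← Finset.sum_fiberwise_of_maps_to (s := Finset.univ) (t := S) (g := cw)
      (fun σ _ => Finset.mem_image_of_mem cw (Finset.mem_univ σ))]
    apply Finset.sum_congr rfl
    intro v _
    apply Finset.sum_congr rfl
    intro σ hσ
    rw [Finset.mem_filter] at hσ
    rw [ga_mlt, ← hσ.2]
  -- each fibre
  have h2 : ∀ v ∈ S, (∑ σ ∈ Finset.univ.filter (fun σ : E ≃ₐ[k] E => cw σ = v),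
      mlt (v.asIdeal ⊔ Ideal.span {ga n σ b}) q) + mlt (v.asIdeal ⊔ Ideal.span {ext k E n D}) q =
      mlt (v.asIdeal ⊔ Ideal.span {ext k E n C}) q := by
    intro v hv
    rw [hS, Finset.mem_image] at hv
    obtain ⟨τ, _, rfl⟩ := hv
    have hprod : (∏ σ ∈ Finset.univ.filter (fun σ : E ≃ₐ[k] E => cw σ = cw τ), ga n σ b) =
        ga n τ (∏ σ ∈ Finset.univ.filter (fun σ : E ≃ₐ[k] E =>
          PrimeSpectrum.comap (ga n σ) w = w), ga n σ b) := by
      rw [map_prod]
      symm
      apply Finset.prod_bij (fun σ _ => τ * σ)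
      · intro σ hσ
        rw [Finset.mem_filter] at hσ ⊢
        refine ⟨Finset.mem_univ _, ?_⟩
        apply PrimeSpectrum.ext
        ext a
        change ga n (τ * σ)⁻¹ a ∈ w.asIdeal ↔ ga n τ⁻¹ a ∈ w.asIdeal
        rw [mul_inv_rev, ga_mul]
        have h3 : ∀ x, ga n σ x ∈ w.asIdeal ↔ x ∈ w.asIdeal := by
          intro x
          have h4 : x ∈ (PrimeSpectrum.comap (ga n σ) w).asIdeal ↔ x ∈ w.asIdeal := by
            rw [hσ.2]
          exact h4
        rw [← h3, ← ga_mul, mul_inv_cancel, ga_one]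
      · intro σ _ σ' _ h
        exact mul_left_cancel h
      · intro σ hσ
        rw [Finset.mem_filter] at hσ
        refine ⟨τ⁻¹ * σ, ?_, by simp⟩
        rw [Finset.mem_filter]
        refine ⟨Finset.mem_univ _, ?_⟩
        apply PrimeSpectrum.ext
        ext a
        change ga n (τ⁻¹ * σ) a ∈ w.asIdeal ↔ a ∈ w.asIdeal
        have h3 : ∀ x, ga n σ⁻¹ x ∈ w.asIdeal ↔ ga n τ⁻¹ x ∈ w.asIdeal := by
          intro x
          have h4 : x ∈ (cw σ).asIdeal ↔ x ∈ (cw τ).asIdeal := by rw [hσ.2]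
          exact h4
        rw [ga_mul, ← h3, ← ga_mul, inv_mul_cancel, ga_one]
      · intro σ _
        rw [ga_mul]
    have hτ := (cw τ).isPrime
    rw [← mlt_prod (cw τ).asIdeal _ (fun σ => ga n σ b), hprod]
    · have hB : ga n τ (∏ σ ∈ Finset.univ.filter (fun σ : E ≃ₐ[k] E =>
          PrimeSpectrum.comap (ga n σ) w = w), ga n σ b) ∉ (cw τ).asIdeal := by
        rw [hmem]
        intro hc
        obtain ⟨σ, hσ, hc'⟩ := w.isPrime.prod_mem_iff.mp hc
        rw [Finset.mem_filter] at hσ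
        apply hb
        rw [← hσ.2]
        exact hc'
      rw [add_comm, ← mlt_mul (cw τ).asIdeal _ _ (hext τ D hD) hB]
      congr 1
      apply sup_congr
      have h5 := (hmem τ _).mpr hrel
      rwa [map_sub, map_mul, ga_ext, ga_ext] at h5
    · intro σ hσ hc
      rw [Finset.mem_filter] at hσ
      rw [← hσ.2, hmem] at hc
      exact hb hc
  -- sum over the orbit
  have h3 : ∀ c : MvPolynomial (Fin n) k, ext k E n c ∉ w.asIdeal →
      ∑ v ∈ S, mlt (v.asIdeal ⊔ Ideal.span {ext k E n c}) q =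
        mlt (w.asIdeal.comap (ext k E n) ⊔ Ideal.span {c})
          (PrimeSpectrum.comap (ext k E n) q) := by
    intro c hc
    rw [← mlt_inf (K := E) S e _ (ext k E n c) _ q hq]
    · rw [← mlt_ext]
      congr 1
      rw [Ideal.map_sup, Ideal.map_span, Set.image_singleton, ← inf_orbit]
    · intro v hv
      rw [hS, Finset.mem_image] at hv
      obtain ⟨τ, _, rfl⟩ := hv
      rw [hcw]
      simp only
      rw [ga_dm, hw]
    · intro v hv
      rw [hS, Finset.mem_image] at hv
      obtain ⟨τ, _, rfl⟩ := hv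
      exact hext τ c hc
  rw [h1, ← h3 C hC, ← h3 D hD, ← Finset.sum_add_distrib]
  exact Finset.sum_congr rfl h2

end Pool.Agent.HCH
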