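import Pool.Agent.HCH.Stmt
import Pool.Agent.HCH.S1
import Pool.Agent.HCH.P3

namespace Pool.Agent.HCH

open MvPolynomial

/-- The divisor vanishes outside of the subvarieties of `V(F)`. -/
theorem pdiv_off {K : Type} [Field K] {m : ℕ} (F : MvPolynomial (Fin m) K) (e : ℕ)
    (W P : PrimeSpectrum (MvPolynomial (Fin m) K)) (hW : F ∈ W.asIdeal)
    (G : MvPolynomial (Fin m) K)
    (hP : ¬ (HgI P.asIdeal ∧ F ∈ P.asIdeal ∧ dm K P.asIdeal = e)) :
    pdiv K W.asIdeal G e P = 0 := by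
  unfold pdiv
  split_ifs with h
  · have hF : F ∉ P.asIdeal := fun hF => hP ⟨h.1, hF, h.2⟩
    unfold od
    rw [mlt_eq_zero]
    · rfl
    · intro hle
      exact hF (hle (Submodule.mem_sup_left hW))
  · rfl

theorem pdiv_on {K : Type} [Field K] {m : ℕ} (F : MvPolynomial (Fin m) K) (e : ℕ)
    (W : PrimeSpectrum (MvPolynomial (Fin m) K)) (P : Sub F e)
    (G : MvPolynomial (Fin m) K) :
    pdiv K W.asIdeal G e P.1 = od (W.asIdeal ⊔ Ideal.span {G}) P.1 := by
  unfold pdiv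
  rw [if_pos ⟨P.2.1, P.2.2.2⟩]

theorem rat_int {K : Type} [Field K] {m : ℕ} (F : MvPolynomial (Fin m) K) (e : ℕ)
    (v : Sub F e →₀ ℚ) (hv : v ∈ RatEq F e) :
    ∃ N : ℕ, 0 < N ∧ ∃ Z ∈ PRat F e, (∀ P : Sub F e, (Z P.1 : ℚ) = N * v P) ∧
      ∀ P, ¬ (HgI P.asIdeal ∧ F ∈ P.asIdeal ∧ dm K P.asIdeal = e) → Z P = 0 := by
  unfold RatEq at hv
  induction hv using Submodule.span_induction with
  | mem v hv =>
    obtain ⟨W, G, H, a, hG, hH, hGW, hHW, hv⟩ := hv
    refine ⟨1, one_pos, pdiv K W.1.asIdeal G e - pdiv K W.1.asIdeal H e, ?_, ?_, ?_⟩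
    · apply AddSubgroup.subset_closure
      exact ⟨W.1, G, H, a, W.2.1, W.2.2.1, W.2.2.2, hG, hH, hGW, hHW, rfl⟩
    · intro P
      rw [Pi.sub_apply, pdiv_on, pdiv_on, hv P]
      simp
    · intro P hP
      rw [Pi.sub_apply, pdiv_off F e W.1 P W.2.2.1 G hP, pdiv_off F e W.1 P W.2.2.1 H hP, sub_zero]
  | zero =>
    exact ⟨1, one_pos, 0, (PRat F e).zero_mem, fun P => by simp, fun _ _ => rfl⟩
  | add x y _ _ hx hy =>
    obtain ⟨N1, hN1, Z1, hZ1, h1, h1'⟩ := hx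
    obtain ⟨N2, hN2, Z2, hZ2, h2, h2'⟩ := hy
    refine ⟨N1 * N2, Nat.mul_pos hN1 hN2, (N2 : ℤ) • Z1 + (N1 : ℤ) • Z2,
      (PRat F e).add_mem ((PRat F e).zsmul_mem hZ1 _) ((PRat F e).zsmul_mem hZ2 _), ?_, ?_⟩
    · intro P
      rw [Pi.add_apply, Pi.smul_apply, Pi.smul_apply, Finsupp.add_apply]
      simp only [smul_eq_mul]
      push_cast
      rw [h1, h2]
      ring
    · intro P hP
      rw [Pi.add_apply, Pi.smul_apply, Pi.smul_apply, h1' P hP, h2' P hP]
      simp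
  | smul a x _ hx =>
    obtain ⟨N1, hN1, Z1, hZ1, h1, h1'⟩ := hx
    refine ⟨N1 * a.den, Nat.mul_pos hN1 a.den_pos, a.num • Z1, (PRat F e).zsmul_mem hZ1 _, ?_, ?_⟩
    · intro P
      rw [Pi.smul_apply, Finsupp.smul_apply]
      simp only [smul_eq_mul]
      push_cast
      rw [h1]
      have h3 : (a.num : ℚ) = a * a.den := by
        exact_mod_cast (Rat.mul_den_eq_num a).symm
      rw [h3]
      ring
    · intro P hP
      rw [Pi.smul_apply, h1' P hP, smul_zero]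

/-- The restriction of a rationally trivial cycle to the subvarieties of `V(F)`. -/
theorem exists_restr {K : Type} [Field K] {m : ℕ} (F : MvPolynomial (Fin m) K) (e : ℕ)
    (Z : PrimeSpectrum (MvPolynomial (Fin m) K) → ℤ) (hZ : Z ∈ PRat F e) :
    ∃ v : Sub F e →₀ ℚ, ∀ P : Sub F e, v P = (Z P.1 : ℚ) := by
  have hf := (PRat_supp F e Z hZ).1
  have hf2 : (Function.support (fun P : Sub F e => (Z P.1 : ℚ))).Finite := by
    apply (hf.preimage (f := fun P : Sub F e => P.1) (fun x _ y _ h => Subtype.ext h)).subset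
    intro P hP
    change Z P.1 ≠ 0
    intro h0
    apply hP
    simp [h0]
  exact ⟨Finsupp.ofSupportFinite _ hf2, fun P => rfl⟩

theorem int_rat {K : Type} [Field K] {m : ℕ} (F : MvPolynomial (Fin m) K) (e : ℕ)
    (Z : PrimeSpectrum (MvPolynomial (Fin m) K) → ℤ) (hZ : Z ∈ PRat F e)
    (v : Sub F e →₀ ℚ) (hv : ∀ P : Sub F e, v P = (Z P.1 : ℚ)) : v ∈ RatEq F e := by
  unfold PRat at hZ
  induction hZ using AddSubgroup.closure_induction generalizing v with
  | mem Z hZ =>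
    obtain ⟨W, G, H, a, hW, hF, hd, hG, hH, hGW, hHW, rfl⟩ := hZ
    apply Submodule.subset_span
    refine ⟨⟨W, hW, hF, hd⟩, G, H, a, hG, hH, hGW, hHW, ?_⟩
    intro P
    rw [hv P, Pi.sub_apply, pdiv_on, pdiv_on]
  | zero =>
    have : v = 0 := by
      ext P
      rw [hv P]
      simp
    rw [this]
    exact (RatEq F e).zero_mem
  | add x y hx' hy' hx hy =>
    obtain ⟨v1, h1⟩ := exists_restr F e x hx'
    obtain ⟨v2, h2⟩ := exists_restr F e y hy'
    have : v = v1 + v2 := by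
      ext P
      rw [hv P, Finsupp.add_apply, h1, h2, Pi.add_apply]
      push_cast
      rfl
    rw [this]
    exact (RatEq F e).add_mem (hx v1 h1) (hy v2 h2)
  | neg x hx' hx =>
    obtain ⟨v1, h1⟩ := exists_restr F e x hx'
    have : v = -v1 := by
      ext P
      rw [hv P, Finsupp.neg_apply, h1, Pi.neg_apply]
      push_cast
      rfl
    rw [this]
    exact (RatEq F e).neg_mem (hx v1 h1)

end Pool.Agent.HCH
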