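import Pool.Agent.HCH.Defs

/-!
The rational Chow groups of projective hypersurfaces and the statement `A^i(X) = ℚ h^i`.
-/

namespace Pool.Agent.HCH

open MvPolynomial

variable {K : Type} [Field K] {m : ℕ}

/-- The integral closed subschemes of dimension `e - 1` of the projective scheme `V(F)`: the
homogeneous primes `P` containing `F` such that `K[x] / P` has transcendence degree `e`. -/
abbrev Sub (F : MvPolynomial (Fin m) K) (e : ℕ) : Type :=
  {P : PrimeSpectrum (MvPolynomial (Fin m) K) //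
    HgI P.asIdeal ∧ F ∈ P.asIdeal ∧ dm K P.asIdeal = e}

/-- The rational cycles of dimension `e - 1` on `V(F)` rationally equivalent to zero: the span of the
divisors of the rational functions `G / H` on the subvarieties `W` of dimension `e`. -/
noncomputable def RatEq (F : MvPolynomial (Fin m) K) (e : ℕ) : Submodule ℚ (Sub F e →₀ ℚ) :=
  Submodule.span ℚ {z | ∃ (W : Sub F (e + 1)) (G H : MvPolynomial (Fin m) K) (a : ℕ),
    G.IsHomogeneous a ∧ H.IsHomogeneous a ∧ G ∉ W.1.asIdeal ∧ H ∉ W.1.asIdeal ∧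
    ∀ P : Sub F e, z P = ((od (W.1.asIdeal ⊔ Ideal.span {G}) P.1 -
      od (W.1.asIdeal ⊔ Ideal.span {H}) P.1 : ℤ) : ℚ)}

/-- The Chow group of `V(F)` of cycles of dimension `e - 1`, with rational coefficients. -/
abbrev Chow (F : MvPolynomial (Fin m) K) (e : ℕ) : Type := (Sub F e →₀ ℚ) ⧸ RatEq F e

/-- `A^i(V(F)) = ℚ h^i`, where `V(F)` is a hypersurface in projective space of dimension `n + 1` and `h^i` is
the class of a linear section of `V(F)` of codimension `i`, cut out by an integral flag. -/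
def ChowTriv {n : ℕ} (F : MvPolynomial (Fin (n + 2)) K) (i : ℕ) : Prop :=
  ∃ l : ℕ → MvPolynomial (Fin (n + 2)) K, (∀ k, (l k).IsHomogeneous 1) ∧
    (∀ k ≤ i, (flag F l k).IsPrime ∧ dm K (flag F l k) = n + 1 - k) ∧
    ∃ S : Sub F (n + 1 - i), S.1.asIdeal = flag F l i ∧
      ∀ x : Chow F (n + 1 - i), ∃ c : ℚ, x = c • (RatEq F (n + 1 - i)).mkQ (Finsupp.single S 1)

/-- `V(F)` is smooth. -/
def Smooth (F : MvPolynomial (Fin m) ℂ) : Prop :=
  ∀ x : Fin m → ℂ, (∀ k, eval x (pderiv k F) = 0) → x = 0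

/-- The linear section of the conjugate of `V(F)` under `σ` given by the linear forms `L`. -/
noncomputable def lsec {m' : ℕ} (σ : ℂ →+* ℂ) (L : Fin m → MvPolynomial (Fin m') ℂ)
    (F : MvPolynomial (Fin m) ℂ) : MvPolynomial (Fin m') ℂ :=
  eval₂ (C.comp σ) L F

/-- A class of forms over `ℂ` closed under linear substitutions and under the action of the
field endomorphisms of `ℂ` on the coefficients. -/
def SecClosed (Cl : ∀ m : ℕ, MvPolynomial (Fin m) ℂ → Prop) : Prop :=
  ∀ (m m' : ℕ) (σ : ℂ →+* ℂ) (L : Fin m → MvPolynomial (Fin m') ℂ),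
    (∀ k, (L k).IsHomogeneous 1) → ∀ F, Cl m F → Cl m' (lsec σ L F)

end Pool.Agent.HCH
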