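import Pool.Agent.HCH.Defs

namespace Pool.Agent.HCH

/-
ROW A1 (1 h). Length is preserved under a flat local base change A → B with m_A B = m_B. M = A ⧸ I.
If the length of A ⧸ I is finite: induction on IsFiniteLength (or show for every module M of finite length:
length_B (B ⊗[A] M) = length_A M): simple modules are A ⧸ m_A (B ⊗ A/m_A ≅ B ⧸ m_A B = B ⧸ m_B, length 1), short exact sequences stay
exact (Module.Flat) and Module.length_eq_add_of_exact is additive on both sides; finally B ⊗ (A ⧸ I) ≅ B ⧸ I B
(TensorProduct.quotTensorEquivQuotSMul / Algebra.TensorProduct... ). If it is infinite: B is faithfully flat over A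
(Module.FaithfullyFlat of a flat local homomorphism), so strict inclusions of submodules (ideals containing I) stay strict after
extension to B: J ↦ J.map is strictly monotone (Ideal.comap_map_eq_self_of_faithfullyFlat), hence Order.krullDim / length of
B ⧸ I B ≥ length of A ⧸ I = ⊤. (It may be simplest to use the strictly monotone map for ≥ in all cases and the finite case only for ≤.)
-/
theorem length_quot_map {A B : Type} [CommRing A] [CommRing B] [Algebra A B] [IsLocalRing A]
    [IsLocalRing B] [Module.Flat A B]
    (h : (IsLocalRing.maximalIdeal A).map (algebraMap A B) = IsLocalRing.maximalIdeal B)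
    (I : Ideal A) :
    Module.length B (B ⧸ I.map (algebraMap A B)) = Module.length A (A ⧸ I) := by
  have hloc : IsLocalHom (algebraMap A B) :=
    ((IsLocalRing.local_hom_TFAE (algebraMap A B)).out 0 2).mpr h.le
  rw [(Algebra.TensorProduct.quotIdealMapEquivTensorQuot B I).toLinearEquiv.length_eq,
    IsLocalRing.length_baseChange A B (A ⧸ I), h]
  have h1 : Module.length B (B ⧸ IsLocalRing.maximalIdeal B) = 1 := by
    rw [Module.length_eq_one_iff, isSimpleModule_iff_quot_maximal]
    exact ⟨_, IsLocalRing.maximalIdeal.isMaximal _, ⟨LinearEquiv.refl _ _⟩⟩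
  rw [h1, mul_one]

end Pool.Agent.HCH
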