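import Pool.Agent.HCH.B

namespace Pool.Agent.HCH

open MvPolynomial

/-
ROW B4 (1.2 h). lam : K[x_0, …, x_m] → K(t)[y_1, …, y_m] is the localisation at the nonzero polynomials in x_0 alone. Prove first
`lam_loc : letI := lam.toAlgebra; IsLocalization (Submonoid.map (aeval (X 0)) (nonZeroDivisors K[X])) _` from
finSuccEquiv-type equivalence MvPolynomial (Fin (m+1)) K ≃ MvPolynomial (Fin m) K[X] (e.g. the composition of `finSuccEquiv`, or build the map
MvPolynomial (Fin m) K[X] → MvPolynomial (Fin (m+1)) K, C p ↦ aeval (X 0) p, X i ↦ X i.succ and its inverse) and `MvPolynomial.isLocalization`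
for K[X] → RatFunc K (IsFractionRing). Consequences:
lam_lift: every a is u · lam a' with u = a unit constant (clear denominators); comap_lam_inj: primes of a localisation are determined by their restriction
(IsLocalization.comap_map...); comap_lam_range: a prime that contains no nonzero polynomial in x_0 comes from a prime of the localisation
(IsLocalization.orderIsoOfPrime / isPrime_of_isPrime_disjoint); if p contains a nonzero polynomial in x_0, then (K algebraically closed) it contains a linear factor X 0 - C t.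
lam_map: (q.comap lam).map lam = q.
-/
/-- The equivalence with polynomials over `K[X]`. -/
noncomputable def b4_e (K : Type) [Field K] (m : ℕ) :
    MvPolynomial (Fin (m + 1)) K ≃ₐ[K] MvPolynomial (Fin m) (Polynomial K) :=
  (renameEquiv K (_root_.finSuccEquiv m)).trans (optionEquivRight K (Fin m))

theorem b4_e_zero {K : Type} [Field K] {m : ℕ} : b4_e K m (X 0) = C Polynomial.X := by
  unfold b4_e
  rw [AlgEquiv.trans_apply, renameEquiv_apply, rename_X, _root_.finSuccEquiv_zero,
    optionEquivRight_X_none]

theorem b4_e_succ {K : Type} [Field K] {m : ℕ} (i : Fin m) : b4_e K m (X i.succ) = X i := by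
  unfold b4_e
  rw [AlgEquiv.trans_apply, renameEquiv_apply, rename_X, _root_.finSuccEquiv_succ,
    optionEquivRight_X_some]

theorem b4_e_C {K : Type} [Field K] {m : ℕ} (a : K) : b4_e K m (C a) = C (Polynomial.C a) := by
  unfold b4_e
  rw [AlgEquiv.trans_apply, renameEquiv_apply, rename_C, optionEquivRight_C]

theorem b4_lamR {K : Type} [Field K] {m : ℕ} : lamR K m =
    (MvPolynomial.map (algebraMap (Polynomial K) (RatFunc K))).comp
      ((b4_e K m).toRingEquiv.toRingHom) := by
  apply MvPolynomial.ringHom_ext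
  · intro a
    have h1 : (lamR K m) (C a) = C (algebraMap K (RatFunc K) a) := by
      have h2 : (lam : MvPolynomial (Fin (m + 1)) K →ₐ[K] MvPolynomial (Fin m) (RatFunc K)) (C a) =
          algebraMap K (MvPolynomial (Fin m) (RatFunc K)) a := by
        rw [← MvPolynomial.algebraMap_eq]
        exact AlgHom.commutes _ a
      exact h2
    have h3 : ((b4_e K m).toRingEquiv.toRingHom) (C a) = C (Polynomial.C a) := b4_e_C a
    rw [h1, RingHom.comp_apply, h3, map_C]
    rfl
  · intro i
    refine Fin.cases ?_ (fun j => ?_) i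
    · have h3 : ((b4_e K m).toRingEquiv.toRingHom) (X 0) = C Polynomial.X := b4_e_zero
      have h1 : (lamR K m) (X 0) = C (RatFunc.X : RatFunc K) := by
        have h2 : (lam : MvPolynomial (Fin (m + 1)) K →ₐ[K] MvPolynomial (Fin m) (RatFunc K))
            (X 0) = C (RatFunc.X : RatFunc K) := by
          unfold lam
          rw [aeval_X, Fin.cons_zero]
        exact h2
      rw [h1, RingHom.comp_apply, h3, map_C, RatFunc.algebraMap_X]
    · have h3 : ((b4_e K m).toRingEquiv.toRingHom) (X j.succ) = X j := b4_e_succ j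
      have h1 : (lamR K m) (X j.succ) = X j := by
        have h2 : (lam : MvPolynomial (Fin (m + 1)) K →ₐ[K] MvPolynomial (Fin m) (RatFunc K))
            (X j.succ) = X j := by
          unfold lam
          rw [aeval_X, Fin.cons_succ]
        exact h2
      rw [h1, RingHom.comp_apply, h3, map_X]

/-- The nonzero polynomials in `x_0`. -/
noncomputable def b4_M (K : Type) [Field K] (m : ℕ) : Submonoid (MvPolynomial (Fin (m + 1)) K) :=
  Submonoid.map (b4_e K m).toRingEquiv.symm
    ((nonZeroDivisors (Polynomial K)).map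
      (C : Polynomial K →+* MvPolynomial (Fin m) (Polynomial K)))

theorem b4_loc (K : Type) [Field K] (m : ℕ) :
    letI := (lamR K m).toAlgebra
    IsLocalization (b4_M K m) (MvPolynomial (Fin m) (RatFunc K)) := by
  let _ : Algebra (MvPolynomial (Fin m) (Polynomial K)) (MvPolynomial (Fin m) (RatFunc K)) :=
    algebraMvPolynomial
  have h1 : IsLocalization ((nonZeroDivisors (Polynomial K)).map
      (C : Polynomial K →+* MvPolynomial (Fin m) (Polynomial K)))
      (MvPolynomial (Fin m) (RatFunc K)) := MvPolynomial.isLocalization _ _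
  have h2 := IsLocalization.isLocalization_of_base_ringEquiv
    ((nonZeroDivisors (Polynomial K)).map
      (C : Polynomial K →+* MvPolynomial (Fin m) (Polynomial K)))
    (MvPolynomial (Fin m) (RatFunc K)) (b4_e K m).toRingEquiv.symm
  have h3 : ((algebraMap (MvPolynomial (Fin m) (Polynomial K))
      (MvPolynomial (Fin m) (RatFunc K))).comp
      (b4_e K m).toRingEquiv.symm.symm.toRingHom) = lamR K m := b4_lamR.symm
  rw [h3] at h2
  exact h2

/-- elements of `b4_M` are nonzero polynomials in `X 0`. -/
theorem b4_mem {K : Type} [Field K] {m : ℕ} {s : MvPolynomial (Fin (m + 1)) K}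
    (hs : s ∈ b4_M K m) : ∃ d : Polynomial K, d ≠ 0 ∧ s = Polynomial.aeval (X 0) d ∧
      lamR K m s = C (algebraMap (Polynomial K) (RatFunc K) d) := by
  unfold b4_M at hs
  rw [Submonoid.mem_map] at hs
  obtain ⟨t, ht, rfl⟩ := hs
  rw [Submonoid.mem_map] at ht
  obtain ⟨d, hd, rfl⟩ := ht
  refine ⟨d, nonZeroDivisors.ne_zero hd, ?_, ?_⟩
  · have h1 : (b4_e K m) (Polynomial.aeval (X 0) d) = C d := by
      have h2 : ((b4_e K m).toAlgHom.comp (Polynomial.aeval (X 0))) =
          ((Algebra.algHom K (Polynomial K) (MvPolynomial (Fin m) (Polynomial K)))) := by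
        apply Polynomial.algHom_ext
        rw [AlgHom.comp_apply, Polynomial.aeval_X]
        exact b4_e_zero
      exact DFunLike.congr_fun h2 d
    change (b4_e K m).symm (C d) = _
    rw [← h1, AlgEquiv.symm_apply_apply]
  · rw [b4_lamR, RingHom.comp_apply]
    change MvPolynomial.map _ ((b4_e K m) ((b4_e K m).symm (C d))) = _
    rw [AlgEquiv.apply_symm_apply, map_C]

theorem lam_lift {K : Type} [Field K] {m : ℕ} (a : MvPolynomial (Fin m) (RatFunc K)) :
    ∃ (a' : MvPolynomial (Fin (m + 1)) K) (u : RatFunc K), u ≠ 0 ∧ lamR K m a' = C u * a := by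
  let _ := (lamR K m).toAlgebra
  have hl : IsLocalization (b4_M K m) (MvPolynomial (Fin m) (RatFunc K)) := b4_loc K m
  obtain ⟨⟨x, s⟩, hx⟩ := IsLocalization.surj (b4_M K m) a
  obtain ⟨d, hd0, -, hd⟩ := b4_mem s.2
  refine ⟨x, algebraMap (Polynomial K) (RatFunc K) d, ?_, ?_⟩
  · intro h
    apply hd0
    exact (IsFractionRing.injective (Polynomial K) (RatFunc K)) (by rw [h, map_zero])
  · have h1 : (algebraMap (MvPolynomial (Fin (m + 1)) K) (MvPolynomial (Fin m) (RatFunc K))) x =
        lamR K m x := rfl
    have h2 : (algebraMap (MvPolynomial (Fin (m + 1)) K) (MvPolynomial (Fin m) (RatFunc K)))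
        (s : MvPolynomial (Fin (m + 1)) K) = lamR K m s := rfl
    rw [← h1, ← hx, h2, hd, mul_comm]

theorem comap_lam_inj {K : Type} [Field K] {m : ℕ} :
    Function.Injective (PrimeSpectrum.comap (lamR K m)) := by
  let _ := (lamR K m).toAlgebra
  have hl : IsLocalization (b4_M K m) (MvPolynomial (Fin m) (RatFunc K)) := b4_loc K m
  exact PrimeSpectrum.localization_comap_injective (MvPolynomial (Fin m) (RatFunc K)) (b4_M K m)

theorem lam_map {K : Type} [Field K] {m : ℕ} (q : Ideal (MvPolynomial (Fin m) (RatFunc K)))  :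
    (q.comap (lamR K m)).map (lamR K m) = q := by
  let _ := (lamR K m).toAlgebra
  have hl : IsLocalization (b4_M K m) (MvPolynomial (Fin m) (RatFunc K)) := b4_loc K m
  exact IsLocalization.map_under (b4_M K m) (MvPolynomial (Fin m) (RatFunc K)) q

theorem comap_lam_or {K : Type} [Field K] [IsAlgClosed K] {m : ℕ}
    (p : PrimeSpectrum (MvPolynomial (Fin (m + 1)) K)) :
    (∃ t : K, X 0 - C t ∈ p.asIdeal) ∨ ∃ q : PrimeSpectrum (MvPolynomial (Fin m) (RatFunc K)),
      PrimeSpectrum.comap (lamR K m) q = p := by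
  let _ := (lamR K m).toAlgebra
  have hl : IsLocalization (b4_M K m) (MvPolynomial (Fin m) (RatFunc K)) := b4_loc K m
  by_cases hdis : Disjoint ((b4_M K m : Submonoid _) : Set (MvPolynomial (Fin (m + 1)) K))
      (p.asIdeal : Set (MvPolynomial (Fin (m + 1)) K))
  · right
    refine ⟨⟨p.asIdeal.map (algebraMap _ (MvPolynomial (Fin m) (RatFunc K))),
      IsLocalization.isPrime_of_isPrime_disjoint (b4_M K m) _ p.asIdeal p.isPrime hdis⟩, ?_⟩
    apply PrimeSpectrum.ext
    exact IsLocalization.under_map_of_isPrime_disjoint (b4_M K m)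
      (MvPolynomial (Fin m) (RatFunc K)) p.isPrime hdis
  · left
    rw [Set.not_disjoint_iff] at hdis
    obtain ⟨s, hs, hsp⟩ := hdis
    obtain ⟨d, hd0, hd, -⟩ := b4_mem hs
    have h1 : Polynomial.aeval (X 0 : MvPolynomial (Fin (m + 1)) K) d ∈ p.asIdeal := by
      rw [← hd]
      exact hsp
    have h2 := (IsAlgClosed.splits d).eq_prod_roots
    rw [h2, map_mul, Polynomial.aeval_C] at h1
    have h3 : Polynomial.aeval (X 0 : MvPolynomial (Fin (m + 1)) K)
        (d.roots.map fun a => Polynomial.X - Polynomial.C a).prod ∈ p.asIdeal := by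
      rcases p.isPrime.mem_or_mem h1 with h4 | h4
      · exfalso
        apply p.isPrime.ne_top
        rw [Ideal.eq_top_iff_one]
        have h5 := p.asIdeal.mul_mem_left (algebraMap K _ d.leadingCoeff⁻¹) h4
        rw [← map_mul, inv_mul_cancel₀ (Polynomial.leadingCoeff_ne_zero.mpr hd0), map_one] at h5
        exact h5
      · exact h4
    rw [map_multiset_prod, Multiset.map_map] at h3
    obtain ⟨x, hx, hxp⟩ := (p.isPrime.multiset_prod_mem_iff_exists_mem _).mp h3
    rw [Multiset.mem_map] at hx
    obtain ⟨t, -, rfl⟩ := hx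
    refine ⟨t, ?_⟩
    rw [Function.comp_apply, map_sub, Polynomial.aeval_X, Polynomial.aeval_C] at hxp
    exact hxp

theorem lam_flat {K : Type} [Field K] {m : ℕ} : (lamR K m).Flat := by
  let _ := (lamR K m).toAlgebra
  have hl : IsLocalization (b4_M K m) (MvPolynomial (Fin m) (RatFunc K)) := b4_loc K m
  exact IsLocalization.flat (MvPolynomial (Fin m) (RatFunc K)) (b4_M K m)

end Pool.Agent.HCH
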