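import Pool.Agent.HCH.C1

namespace Pool.Agent.HCH

open MvPolynomial

attribute [local instance] MvPolynomial.gradedAlgebra

theorem hm_homog {K : Type} [Field K] {m : ℕ} (p : PrimeSpectrum (MvPolynomial (Fin m) K)) :
    HgI (hm p).asIdeal := by
  rw [hgI_iff]
  exact (Ideal.homogeneousCore _ _).isHomogeneous

theorem mem_hm {K : Type} [Field K] {m : ℕ} (p : PrimeSpectrum (MvPolynomial (Fin m) K))
    (g : MvPolynomial (Fin (m + 1)) K) (b : ℕ) (hg : g.IsHomogeneous b) :
    g ∈ (hm p).asIdeal ↔ deh g ∈ p.asIdeal := by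
  constructor
  · intro h
    exact Ideal.mem_comap.mp (Ideal.toIdeal_homogeneousCore_le _ _ h)
  · intro h
    exact Ideal.mem_homogeneousCore_of_homogeneous_of_mem
      ⟨b, (mem_homogeneousSubmodule _ _).mpr hg⟩ (Ideal.mem_comap.mpr h)

theorem last_notMem {K : Type} [Field K] {m : ℕ} (p : PrimeSpectrum (MvPolynomial (Fin m) K)) :
    (X (Fin.last m) : MvPolynomial (Fin (m + 1)) K) ∉ (hm p).asIdeal := by
  rw [mem_hm p _ 1 (isHomogeneous_X _ _), deh_last]
  intro h
  exact p.isPrime.ne_top ((Ideal.eq_top_iff_one _).mpr h)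

theorem map_hm {K : Type} [Field K] {m : ℕ} (p : PrimeSpectrum (MvPolynomial (Fin m) K)) :
    (hm p).asIdeal.map (deh : MvPolynomial (Fin (m + 1)) K →ₐ[K] MvPolynomial (Fin m) K) =
      p.asIdeal := by
  apply le_antisymm
  · rw [Ideal.map_le_iff_le_comap]
    exact Ideal.toIdeal_homogeneousCore_le _ _
  · intro a ha
    obtain ⟨b, g, hg, rfl⟩ := deh_lift a
    exact Ideal.mem_map_of_mem _ ((mem_hm p g b hg).mpr ha)

theorem hm_inj {K : Type} [Field K] {m : ℕ} :
    Function.Injective (hm : PrimeSpectrum (MvPolynomial (Fin m) K) → _) := by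
  intro p q h
  ext1
  rw [← map_hm p, ← map_hm q, h]

theorem hm_surj {K : Type} [Field K] {m : ℕ} (P : PrimeSpectrum (MvPolynomial (Fin (m + 1)) K))
    (hP : HgI P.asIdeal) (hl : (X (Fin.last m) : MvPolynomial (Fin (m + 1)) K) ∉ P.asIdeal) :
    ∃ p, hm p = P := by
  have hsurj : Function.Surjective
      (deh : MvPolynomial (Fin (m + 1)) K →ₐ[K] MvPolynomial (Fin m) K) := fun a => by
    obtain ⟨b, g, hg, rfl⟩ := deh_lift a
    exact ⟨g, rfl⟩
  have hX : ∀ (g : MvPolynomial (Fin (m + 1)) K) (c : ℕ),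
      g * X (Fin.last m) ^ c ∈ P.asIdeal → g ∈ P.asIdeal := by
    intro g c h
    rcases P.isPrime.mem_or_mem h with h | h
    · exact h
    · exact absurd (P.isPrime.mem_of_pow_mem _ h) hl
  have key : ∀ (g : MvPolynomial (Fin (m + 1)) K) (b : ℕ), g.IsHomogeneous b →
      deh g ∈ P.asIdeal.map (deh : MvPolynomial (Fin (m + 1)) K →ₐ[K] MvPolynomial (Fin m) K) →
        g ∈ P.asIdeal := by
    intro g b hg h
    obtain ⟨f, hf, hfg⟩ := (Ideal.mem_map_iff_of_surjective _ hsurj).mp h
    have hf' : (∑ i ∈ Finset.range (f.totalDegree + 1), homogeneousComponent i f *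
        X (Fin.last m) ^ (f.totalDegree - i)).IsHomogeneous f.totalDegree := by
      apply IsHomogeneous.sum
      intro k hk
      have hk' : k ≤ f.totalDegree := by
        have := Finset.mem_range.1 hk
        omega
      have h3 := (homogeneousComponent_isHomogeneous k f).mul
        (isHomogeneous_X_pow (R := K) (Fin.last m) (f.totalDegree - k))
      rwa [Nat.add_sub_cancel' hk'] at h3
    have hfP : (∑ i ∈ Finset.range (f.totalDegree + 1), homogeneousComponent i f *
        X (Fin.last m) ^ (f.totalDegree - i)) ∈ P.asIdeal :=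
      Ideal.sum_mem _ (fun i _ => Ideal.mul_mem_right _ _ (hP f hf i))
    have e : deh g = deh (∑ i ∈ Finset.range (f.totalDegree + 1), homogeneousComponent i f *
        X (Fin.last m) ^ (f.totalDegree - i)) := by
      rw [← hfg]
      conv_lhs => rw [← sum_homogeneousComponent f]
      rw [map_sum, map_sum]
      apply Finset.sum_congr rfl
      intro i _
      rw [map_mul, map_pow, deh_last, one_pow, mul_one]
    have h2 := deh_eq g _ b _ hg hf' e
    apply hX g f.totalDegree
    rw [h2]
    exact Ideal.mul_mem_right _ _ hfP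
  have hq : (P.asIdeal.map
      (deh : MvPolynomial (Fin (m + 1)) K →ₐ[K] MvPolynomial (Fin m) K)).IsPrime := by
    refine ⟨?_, ?_⟩
    · intro htop
      apply P.isPrime.ne_top
      rw [Ideal.eq_top_iff_one]
      apply key 1 0 (isHomogeneous_one _ _)
      rw [htop]
      trivial
    · intro a b hab
      obtain ⟨c, g, hg, rfl⟩ := deh_lift a
      obtain ⟨d, h, hh, rfl⟩ := deh_lift b
      rw [← map_mul] at hab
      rcases P.isPrime.mem_or_mem (key _ _ (hg.mul hh) hab) with h1 | h1
      · left
        exact Ideal.mem_map_of_mem _ h1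
      · right
        exact Ideal.mem_map_of_mem _ h1
  refine ⟨⟨_, hq⟩, ?_⟩
  ext1
  apply le_antisymm
  · intro f hf
    rw [← sum_homogeneousComponent f]
    apply Ideal.sum_mem
    intro i _
    have h1 := hm_homog _ f hf i
    rw [mem_hm _ _ i (homogeneousComponent_isHomogeneous i f)] at h1
    exact key _ i (homogeneousComponent_isHomogeneous i f) h1
  · intro f hf
    rw [← sum_homogeneousComponent f]
    apply Ideal.sum_mem
    intro i _
    rw [mem_hm _ _ i (homogeneousComponent_isHomogeneous i f)]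
    exact Ideal.mem_map_of_mem _ (hP f hf i)

end Pool.Agent.HCH
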