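import Pool.Agent.HCH.C2
import Pool.Agent.HCH.A1b

namespace Pool.Agent.HCH

open MvPolynomial

/-- Flatness criterion: `L` is a localisation of the domain `S`, and `R` maps to `L` such that
`S → L` factors through `γ : S → R`, and `γ` is surjective up to powers of `T`. -/
theorem c3_flat {S R L : Type} [CommRing S] [IsDomain S] [CommRing R] [IsDomain R] [CommRing L]
    [Algebra S L] (M : Submonoid S) (hM : M ≤ nonZeroDivisors S) [IsLocalization M L]
    (γ : S →+* R) (β : R →+* L) (hβγ : ∀ s, β (γ s) = algebraMap S L s) (T : R) (hT : T ≠ 0)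
    (hsurj : ∀ a : R, ∃ (n : ℕ) (s : S), T ^ n * a = γ s) : β.Flat := by
  let _ : Algebra R L := β.toAlgebra
  have hinj : Function.Injective (algebraMap S L) := IsLocalization.injective L hM
  have hβ : ∀ a : R, β a = 0 → a = 0 := by
    intro a ha
    obtain ⟨n, s, hs⟩ := hsurj a
    have h1 : algebraMap S L s = 0 := by
      rw [← hβγ, ← hs, map_mul, ha, mul_zero]
    have h2 : s = 0 := by
      apply hinj
      rw [h1, map_zero]
    rw [h2, map_zero] at hs
    rcases mul_eq_zero.mp hs with h | h
    · exact absurd h (pow_ne_zero n hT)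
    · exact h
  have hloc : IsLocalization ((IsUnit.submonoid L).comap (β : R →* L)) L := by
    refine ⟨?_, ?_, ?_⟩
    · rintro ⟨y, hy⟩
      exact hy
    · intro z
      obtain ⟨⟨x, t⟩, hx⟩ := IsLocalization.surj M z
      refine ⟨⟨γ x, ⟨γ t, ?_⟩⟩, ?_⟩
      · show IsUnit (β (γ t))
        rw [hβγ]
        exact IsLocalization.map_units L t
      · show z * β (γ t) = β (γ x)
        rw [hβγ, hβγ]
        exact hx
    · intro a b hab
      refine ⟨1, ?_⟩
      have h1 : a - b = 0 := by
        apply hβ
        rw [map_sub]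
        exact sub_eq_zero.mpr hab
      rw [sub_eq_zero.mp h1]
  have hfl : Module.Flat R L :=
    IsLocalization.flat L ((IsUnit.submonoid L).comap (β : R →* L))
  exact hfl

theorem c3_C_flat (A : Type) [CommRing A] : (Polynomial.C : A →+* Polynomial A).Flat := by
  have h : Module.Flat A (Polynomial A) := inferInstance
  rw [← RingHom.flat_algebraMap_iff] at h
  exact h

section

variable {K : Type} [Field K] {m : ℕ}

/-- `x_i ↦ y_i T`, `x_last ↦ T`. -/
noncomputable def c3_gam (K : Type) [Field K] (m : ℕ) :
    MvPolynomial (Fin (m + 1)) K →ₐ[K] Polynomial (MvPolynomial (Fin m) K) :=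
  aeval (Fin.snoc (α := fun _ => Polynomial (MvPolynomial (Fin m) K))
    (fun i => Polynomial.C (X i) * Polynomial.X) Polynomial.X)

theorem c3_gam_last : c3_gam K m (X (Fin.last m)) = Polynomial.X := by
  simp [c3_gam]

theorem c3_gam_castSucc (i : Fin m) :
    c3_gam K m (X i.castSucc) = Polynomial.C (X i) * Polynomial.X := by
  simp [c3_gam]

theorem c3_gam_C (c : K) : c3_gam K m (C c) = Polynomial.C (C c) := by
  rw [c3_gam, aeval_C]
  rfl

theorem c3_surj (a : Polynomial (MvPolynomial (Fin m) K)) :
    ∃ (n : ℕ) (s : MvPolynomial (Fin (m + 1)) K), Polynomial.X ^ n * a = c3_gam K m s := by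
  have hmul : ∀ a b : Polynomial (MvPolynomial (Fin m) K),
      (∃ (n : ℕ) (s : MvPolynomial (Fin (m + 1)) K), Polynomial.X ^ n * a = c3_gam K m s) →
      (∃ (n : ℕ) (s : MvPolynomial (Fin (m + 1)) K), Polynomial.X ^ n * b = c3_gam K m s) →
      ∃ (n : ℕ) (s : MvPolynomial (Fin (m + 1)) K), Polynomial.X ^ n * (a * b) =
        c3_gam K m s := by
    rintro a b ⟨n, s, hs⟩ ⟨n', s', hs'⟩
    refine ⟨n + n', s * s', ?_⟩
    rw [map_mul, ← hs, ← hs', pow_add]
    ring
  have hadd : ∀ a b : Polynomial (MvPolynomial (Fin m) K),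
      (∃ (n : ℕ) (s : MvPolynomial (Fin (m + 1)) K), Polynomial.X ^ n * a = c3_gam K m s) →
      (∃ (n : ℕ) (s : MvPolynomial (Fin (m + 1)) K), Polynomial.X ^ n * b = c3_gam K m s) →
      ∃ (n : ℕ) (s : MvPolynomial (Fin (m + 1)) K), Polynomial.X ^ n * (a + b) =
        c3_gam K m s := by
    rintro a b ⟨n, s, hs⟩ ⟨n', s', hs'⟩
    refine ⟨n + n', X (Fin.last m) ^ n' * s + X (Fin.last m) ^ n * s', ?_⟩
    rw [map_add, map_mul, map_mul, map_pow, map_pow, c3_gam_last, ← hs, ← hs', pow_add]
    ring
  have hC : ∀ a : MvPolynomial (Fin m) K, ∃ (n : ℕ) (s : MvPolynomial (Fin (m + 1)) K),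
      Polynomial.X ^ n * (Polynomial.C a) = c3_gam K m s := by
    intro a
    induction a using MvPolynomial.induction_on with
    | C c => exact ⟨0, C c, by rw [c3_gam_C, pow_zero, one_mul]⟩
    | add p q hp hq => rw [Polynomial.C_add]; exact hadd _ _ hp hq
    | mul_X p i hp =>
      rw [Polynomial.C_mul]
      refine hmul _ _ hp ⟨1, X i.castSucc, ?_⟩
      rw [c3_gam_castSucc, pow_one]
      ring
  have hX : ∃ (n : ℕ) (s : MvPolynomial (Fin (m + 1)) K),
      Polynomial.X ^ n * (Polynomial.X : Polynomial (MvPolynomial (Fin m) K)) =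
        c3_gam K m s :=
    ⟨0, X (Fin.last m), by rw [c3_gam_last, pow_zero, one_mul]⟩
  induction a using Polynomial.induction_on with
  | C a => exact hC a
  | add p q hp hq => exact hadd _ _ hp hq
  | monomial n a hn =>
    rw [pow_succ, ← mul_assoc]
    exact hmul _ _ hn hX

/-- Degree formula for two homomorphisms. -/
theorem c3_form {L : Type} [CommRing L] (H1 H2 : MvPolynomial (Fin (m + 1)) K →+* L) (t : L)
    (hC : ∀ c, H1 (C c) = H2 (C c)) (hX : ∀ i, H1 (X i) = t * H2 (X i))
    (g : MvPolynomial (Fin (m + 1)) K) (b : ℕ) (hg : g.IsHomogeneous b) :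
    H1 g = t ^ b * H2 g := by
  have hmon : ∀ s : Fin (m + 1) →₀ ℕ, ∀ c : K, s.degree = b →
      H1 (monomial s c) = t ^ b * H2 (monomial s c) := by
    intro s c hs
    rw [monomial_eq, map_mul, map_mul, hC, Finsupp.prod, map_prod, map_prod]
    have h1 : ∏ x ∈ s.support, H1 (X x ^ s x) = t ^ b * ∏ x ∈ s.support, H2 (X x ^ s x) := by
      have h2 : ∏ x ∈ s.support, H1 (X x ^ s x) =
          ∏ x ∈ s.support, (t ^ s x * H2 (X x ^ s x)) := by
        refine Finset.prod_congr rfl fun x _ => ?_
        rw [map_pow, map_pow, hX, mul_pow]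
      rw [h2, Finset.prod_mul_distrib, Finset.prod_pow_eq_pow_sum, ← hs]
      rfl
    rw [h1]
    ring
  rw [g.as_sum, map_sum, map_sum, Finset.mul_sum]
  refine Finset.sum_congr rfl fun s hs => ?_
  apply hmon
  have h := hg (mem_support_iff.mp hs)
  rw [← h, Finsupp.degree_eq_weight_one]
  rfl

end

/-
ROW C3 (1.5 h). S = K[x_0..x_m], A = K[y_0..y_{m-1}], P = hm p, S_P = Localization.AtPrime P. alp : A → S_P, y_i ↦ x_i / x_last (x_last ∉ P).
KEY FACT: the homomorphism bet : A[T] (Polynomial A) → S_P extending alp with T ↦ x_last makes S_P the localisation of A[T] at the prime p A[T]: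
 * a form g of degree b satisfies g = x_last^b alp (deh g) in S_P; hence g = bet (Σ_i deh (g_i) T^i) for every g ∈ S with components g_i;
 * for a ∈ A[T], a = Σ a_i T^i, choose b with forms M_i of degree b - i, deh M_i = a_i (after multiplication by a power: deh_lift; common degree by multiplying with
   x_last): x_last^b bet a = Σ x_last^(2i) ... in any case bet a = x_last^(-b) Σ_i x_last^i · x_last^(b - b_i) M_i up to the normalisation of degrees: an element of S whose
   homogeneous components are x-power multiples of M_i, it is not in P iff some M_i ∉ P iff some a_i ∉ p: so bet maps the complement of pA[T] to units, and bet is injective;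
 * surjectivity up to units from the first point. So IsLocalization.AtPrime S_P (p A[T]) and alp is flat (A → A[T] free, localisation flat).
alp_max: p S_P = P S_P: P is generated by its forms g = x_last^b alp (deh g) with deh g ∈ p. Conversely similarly. alp_comap: alp⁻¹(max) = p.
(Other possible proof of flatness: S[1/x_last] is free over A via y_i ↦ x_i/x_last.)
alp_sup: (w ⊔ (deh G)) S_P = (hm w ⊔ (G)) S_P, because forms of hm w and G are x_last^b times alp of their deh.
-/
theorem exists_alp {K : Type} [Field K] {m : ℕ} (p : PrimeSpectrum (MvPolynomial (Fin m) K)) :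
    ∃ alp : MvPolynomial (Fin m) K →+* Localization.AtPrime (hm p).asIdeal, alp.Flat ∧
      (∀ (g : MvPolynomial (Fin (m + 1)) K) (b : ℕ), g.IsHomogeneous b →
        algebraMap (MvPolynomial (Fin (m + 1)) K) (Localization.AtPrime (hm p).asIdeal) g =
          algebraMap (MvPolynomial (Fin (m + 1)) K) (Localization.AtPrime (hm p).asIdeal)
            (X (Fin.last m)) ^ b * alp (deh g)) := by
  set L := Localization.AtPrime (hm p).asIdeal with hL
  set am := algebraMap (MvPolynomial (Fin (m + 1)) K) L with ham
  have hu : IsUnit (am (X (Fin.last m))) :=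
    IsLocalization.map_units L (⟨X (Fin.last m), last_notMem p⟩ : (hm p).asIdeal.primeCompl)
  obtain ⟨u, hu'⟩ := hu
  have huv : (u : L) * ((u⁻¹ : Lˣ) : L) = 1 := Units.mul_inv u
  -- the map `A → L`
  set al : MvPolynomial (Fin m) K →+* L :=
    MvPolynomial.eval₂Hom (am.comp C) (fun i => am (X i.castSucc) * ((u⁻¹ : Lˣ) : L)) with hal
  have halC : ∀ c, al (C c) = am (C c) := by
    intro c
    rw [hal, MvPolynomial.eval₂Hom_C]
    rfl
  have halX : ∀ i, al (X i) = am (X i.castSucc) * ((u⁻¹ : Lˣ) : L) := by
    intro i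
    rw [hal, MvPolynomial.eval₂Hom_X']
  set β : Polynomial (MvPolynomial (Fin m) K) →+* L :=
    Polynomial.eval₂RingHom al (am (X (Fin.last m))) with hβ
  have hβC : ∀ a, β (Polynomial.C a) = al a := by
    intro a
    rw [hβ, Polynomial.coe_eval₂RingHom, Polynomial.eval₂_C]
  have hβX : β Polynomial.X = am (X (Fin.last m)) := by
    rw [hβ, Polynomial.coe_eval₂RingHom, Polynomial.eval₂_X]
  have hβγ : ∀ s, β ((c3_gam K m).toRingHom s) = am s := by
    intro s
    have h : (β.comp (c3_gam K m).toRingHom) = am := by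
      refine MvPolynomial.ringHom_ext ?_ ?_
      · intro c
        show β (c3_gam K m (C c)) = am (C c)
        rw [c3_gam_C, hβC, halC]
      · intro i
        show β (c3_gam K m (X i)) = am (X i)
        induction i using Fin.lastCases with
        | last => rw [c3_gam_last, hβX]
        | cast i =>
          rw [c3_gam_castSucc, map_mul, hβC, hβX, halX, ← hu', mul_assoc,
            mul_comm ((u⁻¹ : Lˣ) : L), huv, mul_one]
    exact RingHom.congr_fun h s
  refine ⟨β.comp Polynomial.C, ?_, ?_⟩
  · refine RingHom.Flat.comp (c3_C_flat _) ?_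
    exact c3_flat (hm p).asIdeal.primeCompl (hm p).asIdeal.primeCompl_le_nonZeroDivisors
      (c3_gam K m).toRingHom β hβγ Polynomial.X Polynomial.X_ne_zero c3_surj
  · intro g b hg
    refine c3_form am ((β.comp Polynomial.C).comp
      (deh : MvPolynomial (Fin (m + 1)) K →ₐ[K] MvPolynomial (Fin m) K).toRingHom) _ ?_ ?_ g b hg
    · intro c
      show am (C c) = β (Polynomial.C (deh (C c)))
      have : deh (C c : MvPolynomial (Fin (m + 1)) K) = C c := by
        rw [deh, aeval_C]
        rfl
      rw [this, hβC, halC]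
    · intro i
      show am (X i) = am (X (Fin.last m)) * β (Polynomial.C (deh (X i)))
      induction i using Fin.lastCases with
      | last => rw [deh_last, Polynomial.C_1, map_one, mul_one]
      | cast i =>
        rw [deh_castSucc, hβC, halX, ← hu', mul_comm (u : L), mul_assoc,
            mul_comm ((u⁻¹ : Lˣ) : L), huv, mul_one]

end Pool.Agent.HCH
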