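import Pool.Agent.HCH.C3

namespace Pool.Agent.HCH

open MvPolynomial

theorem mlt_hm {K : Type} [Field K] {m : ℕ} (w p : PrimeSpectrum (MvPolynomial (Fin m) K))
    (G : MvPolynomial (Fin (m + 1)) K) (b : ℕ) (hG : G.IsHomogeneous b) :
    mlt ((hm w).asIdeal ⊔ Ideal.span {G}) (hm p) = mlt (w.asIdeal ⊔ Ideal.span {deh G}) p := by
  obtain ⟨alp, hflat, halp⟩ := exists_alp p
  let O := Localization.AtPrime (hm p).asIdeal
  set u : O := algebraMap (MvPolynomial (Fin (m + 1)) K) O (X (Fin.last m)) with hu
  have hunit : IsUnit u := IsLocalization.map_units O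
    (⟨X (Fin.last m), last_notMem p⟩ : (hm p).asIdeal.primeCompl)
  -- ideals generated by forms
  have hforms : ∀ (w : PrimeSpectrum (MvPolynomial (Fin m) K)),
      (hm w).asIdeal.map (algebraMap (MvPolynomial (Fin (m + 1)) K) O) = w.asIdeal.map alp := by
    intro w
    apply le_antisymm
    · rw [Ideal.map_le_iff_le_comap]
      intro g hg
      rw [Ideal.mem_comap, ← sum_homogeneousComponent g, map_sum]
      apply Ideal.sum_mem
      intro i _
      rw [halp _ i (homogeneousComponent_isHomogeneous i g)]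
      apply Ideal.mul_mem_left
      apply Ideal.mem_map_of_mem
      exact (mem_hm w _ i (homogeneousComponent_isHomogeneous i g)).mp (hm_homog w g hg i)
    · rw [Ideal.map_le_iff_le_comap]
      intro a ha
      obtain ⟨c, g, hg, rfl⟩ := deh_lift a
      rw [Ideal.mem_comap]
      have h1 : algebraMap (MvPolynomial (Fin (m + 1)) K) O g ∈ (hm w).asIdeal.map (algebraMap (MvPolynomial (Fin (m + 1)) K) O) :=
        Ideal.mem_map_of_mem _ ((mem_hm w g c hg).mpr ha)
      rw [halp g c hg] at h1
      exact (Ideal.unit_mul_mem_iff_mem _ (hunit.pow c)).mp h1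
  have hp : p.asIdeal = (IsLocalRing.maximalIdeal O).comap alp := by
    have h1 : (IsLocalRing.maximalIdeal O).comap (algebraMap (MvPolynomial (Fin (m + 1)) K) O) = (hm p).asIdeal :=
      Localization.AtPrime.under_maximalIdeal
    ext a
    obtain ⟨c, g, hg, rfl⟩ := deh_lift a
    have h2 : g ∈ (IsLocalRing.maximalIdeal O).comap
        (algebraMap (MvPolynomial (Fin (m + 1)) K) O) ↔ g ∈ (hm p).asIdeal := by rw [h1]
    rw [← mem_hm p g c hg, ← h2, Ideal.mem_comap, Ideal.mem_comap, halp g c hg]
    exact Ideal.unit_mul_mem_iff_mem _ (hunit.pow c)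
  have hmax : p.asIdeal.map alp = IsLocalRing.maximalIdeal O := by
    rw [← hforms p, Localization.AtPrime.map_eq_maximalIdeal]
  rw [← mlt_local alp hflat p hp hmax]
  unfold mlt
  have hI : ((hm w).asIdeal ⊔ Ideal.span {G}).map (algebraMap (MvPolynomial (Fin (m + 1)) K) O) =
      (w.asIdeal ⊔ Ideal.span {deh G}).map alp := by
    rw [Ideal.map_sup, Ideal.map_sup, hforms w, Ideal.map_span, Ideal.map_span,
      Set.image_singleton, Set.image_singleton, halp G b hG]
    congr 1
    exact Ideal.span_singleton_mul_left_unit (hunit.pow b) _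
  rw [hI]

end Pool.Agent.HCH
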