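import Pool.Agent.HCH.C2
import Pool.Agent.HCH.B

namespace Pool.Agent.HCH

open MvPolynomial

section C4general

variable {K B D : Type} [Field K] {m : ℕ} [CommRing B] [Algebra K B] [CommRing D] [Algebra K D]

/-- The homomorphism `x_i ↦ y_i T`, `x_last ↦ T` into the polynomials over the quotient. -/
private noncomputable def c4Phi (q : MvPolynomial (Fin m) K →ₐ[K] B) :
    MvPolynomial (Fin (m + 1)) K →ₐ[K] Polynomial B :=
  aeval (fun i => Polynomial.C (q (deh (X i))) * Polynomial.X)

private theorem c4_phi_last (q : MvPolynomial (Fin m) K →ₐ[K] B) :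
    c4Phi q (X (Fin.last m)) = Polynomial.X := by
  rw [c4Phi, aeval_X, deh_last, map_one, map_one, one_mul]

private theorem c4_phi_castSucc (q : MvPolynomial (Fin m) K →ₐ[K] B) (i : Fin m) :
    c4Phi q (X i.castSucc) = Polynomial.C (q (X i)) * Polynomial.X := by
  rw [c4Phi, aeval_X, deh_castSucc]

private theorem c4_phi_monomial (q : MvPolynomial (Fin m) K →ₐ[K] B)
    (s : Fin (m + 1) →₀ ℕ) (a : K) :
    c4Phi q (monomial s a) =
      Polynomial.C (q (deh (monomial s a))) * Polynomial.X ^ s.degree := by
  have h1 : (deh (monomial s a) : MvPolynomial (Fin m) K) =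
      algebraMap K _ a * s.prod fun i k => (deh (X i)) ^ k := by
    rw [deh, aeval_monomial]
    simp only [aeval_X]
  rw [h1, c4Phi, aeval_monomial, map_mul, map_mul]
  have h2 : (s.prod fun i k => (Polynomial.C (q (deh (X i))) *
      (Polynomial.X : Polynomial B)) ^ k) =
      Polynomial.C (q (s.prod fun i k => (deh (X i)) ^ k)) *
        Polynomial.X ^ s.degree := by
    simp only [Finsupp.prod, map_prod, map_pow, mul_pow, Finset.prod_mul_distrib]
    rw [Finset.prod_pow_eq_pow_sum]
    rfl
  rw [h2, mul_assoc, AlgHom.commutes]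
  rfl

private theorem c4_phi_homog (q : MvPolynomial (Fin m) K →ₐ[K] B)
    (g : MvPolynomial (Fin (m + 1)) K) (b : ℕ) (hg : g.IsHomogeneous b) :
    c4Phi q g = Polynomial.C (q (deh g)) * Polynomial.X ^ b := by
  rw [MvPolynomial.as_sum g]
  simp only [map_sum, Finset.sum_mul]
  apply Finset.sum_congr rfl
  intro s hs
  rw [c4_phi_monomial]
  have h1 : s.degree = b := by
    have := hg (mem_support_iff.mp hs)
    rw [Finsupp.degree_eq_weight_one]
    exact this
  rw [h1]

private theorem c4_key (q : MvPolynomial (Fin m) K →ₐ[K] B) (g : MvPolynomial (Fin (m + 1)) K) :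
    c4Phi q g = 0 ↔ ∀ i, q (deh (homogeneousComponent i g)) = 0 := by
  have key : c4Phi q g = ∑ i ∈ Finset.range (g.totalDegree + 1),
      Polynomial.C (q (deh (homogeneousComponent i g))) * Polynomial.X ^ i := by
    conv_lhs => rw [← sum_homogeneousComponent g]
    rw [map_sum]
    apply Finset.sum_congr rfl
    intro i _
    exact c4_phi_homog _ _ _ (homogeneousComponent_isHomogeneous i g)
  constructor
  · intro h i
    by_cases hi : i ∈ Finset.range (g.totalDegree + 1)
    · rw [key] at h
      have h2 := congrArg (fun q => Polynomial.coeff q i) h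
      simp only [Polynomial.finsetSum_coeff, Polynomial.coeff_C_mul_X_pow,
        Polynomial.coeff_zero] at h2
      rw [Finset.sum_eq_single i] at h2
      · rw [if_pos rfl] at h2
        exact h2
      · intro j _ hj
        rw [if_neg (fun e => hj e.symm)]
      · intro h3
        exact absurd hi h3
    · rw [homogeneousComponent_eq_zero]
      · rw [map_zero, map_zero]
      · rw [Finset.mem_range] at hi
        omega
  · intro h
    rw [key]
    apply Finset.sum_eq_zero
    intro i _
    rw [h i, map_zero, zero_mul]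

private theorem c4_general [IsDomain B] [IsDomain D] (q : MvPolynomial (Fin m) K →ₐ[K] B)
    (hq : Function.Surjective q) (r : MvPolynomial (Fin (m + 1)) K →ₐ[K] D)
    (f : D →ₐ[K] Polynomial B) (hf : ∀ a, f (r a) = c4Phi q a) (finj : Function.Injective f)
    (hl : r (X (Fin.last m)) ≠ 0) :
    Algebra.trdeg K D = Algebra.trdeg K B + 1 := by
  let _ : Algebra D (Polynomial B) := f.toRingHom.toAlgebra
  have hsc : IsScalarTower K D (Polynomial B) := by
    apply IsScalarTower.of_algebraMap_eq
    intro x
    exact (f.commutes x).symm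
  have hfs : FaithfulSMul D (Polynomial B) :=
    (faithfulSMul_iff_algebraMap_injective _ _).mpr finj
  have hfK : FaithfulSMul K D :=
    (faithfulSMul_iff_algebraMap_injective _ _).mpr (algebraMap K _).injective
  have hfK' : FaithfulSMul K B :=
    (faithfulSMul_iff_algebraMap_injective _ _).mpr (algebraMap K _).injective
  have hfr : ∀ a, algebraMap D (Polynomial B) (r a) = c4Phi q a := hf
  have halg : Algebra.IsAlgebraic D (Polynomial B) := by
    have hT : (Polynomial.X : Polynomial B) ∈ Subalgebra.algebraicClosure D (Polynomial B) := by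
      rw [← c4_phi_last q, ← hfr]
      exact Subalgebra.algebraMap_mem _ _
    have hy : ∀ i : Fin m, Polynomial.C (q (X i)) ∈
        Subalgebra.algebraicClosure D (Polynomial B) := by
      intro i
      rw [Subalgebra.mem_algebraicClosure]
      refine ⟨Polynomial.C (r (X (Fin.last m))) * Polynomial.X -
        Polynomial.C (r (X i.castSucc)), ?_, ?_⟩
      · intro h0
        have h1 := congrArg (fun q => Polynomial.coeff q 1) h0
        simp only [Polynomial.coeff_sub, Polynomial.coeff_C_mul, Polynomial.coeff_X_one,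
          mul_one, Polynomial.coeff_zero] at h1
        rw [Polynomial.coeff_C_of_ne_zero one_ne_zero, sub_zero] at h1
        exact hl h1
      · rw [map_sub, map_mul, Polynomial.aeval_C, Polynomial.aeval_C, Polynomial.aeval_X,
          hfr, hfr, c4_phi_last, c4_phi_castSucc]
        ring
    have hC : ∀ a : MvPolynomial (Fin m) K, Polynomial.C (q a) ∈
        Subalgebra.algebraicClosure D (Polynomial B) := by
      intro a
      induction a using MvPolynomial.induction_on with
      | C c =>
        have : Polynomial.C (q (C c)) = algebraMap D (Polynomial B) (algebraMap K _ c) := by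
          rw [← IsScalarTower.algebraMap_apply]
          have h3 : q (C c) = algebraMap K B c := q.commutes c
          rw [h3]
          rfl
        rw [this]
        exact Subalgebra.algebraMap_mem _ _
      | add a b ha hb =>
        rw [map_add, map_add]
        exact add_mem ha hb
      | mul_X a i ha =>
        rw [map_mul, map_mul]
        exact mul_mem ha (hy i)
    constructor
    intro u
    rw [← Subalgebra.mem_algebraicClosure]
    rw [Polynomial.as_sum_range_C_mul_X_pow u]
    apply sum_mem
    intro i _
    apply mul_mem _ (pow_mem hT i)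
    obtain ⟨a, ha⟩ := hq (u.coeff i)
    rw [← ha]
    exact hC a
  have e1 := trdeg_add_eq K D (A := Polynomial B)
  have e2 := trdeg_add_eq K B (A := Polynomial B)
  rw [trdeg_eq_zero (R := D) (A := Polynomial B), add_zero] at e1
  rw [Polynomial.trdeg_of_isDomain] at e2
  rw [e1, ← e2]

end C4general

/-
ROW C4 (1 h). Let D = S ⧸ hm p, D' = A ⧸ p. The homomorphism S → D'[T] (or D'[T,T⁻¹]), x_i ↦ y_i T, x_last ↦ T has kernel exactly hm p (a polynomial g = Σ g_b goes to
Σ deh(g_b) T^b; in the kernel iff all deh g_b ∈ p iff all g_b ∈ hm p iff g ∈ hm p). So D embeds into D'[T] and T ∈ D, y_i = (y_i T)/T is in the fraction field of D: D'[T] is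
algebraic over D, so trdeg_K D = trdeg_K D'[T] = trdeg_K D' + 1 (trdeg_add_eq, Polynomial/MvPolynomial.trdeg_of_isDomain). All finite (trdeg_lt_aleph0_of_finiteType).
-/
theorem dm_hm {K : Type} [Field K] {m : ℕ} (p : PrimeSpectrum (MvPolynomial (Fin m) K)) :
    dm K (hm p).asIdeal = dm K p.asIdeal + 1 := by
  have hpp : p.asIdeal.IsPrime := p.2
  have hhp : (hm p).asIdeal.IsPrime := (hm p).2
  have hker : ∀ g : MvPolynomial (Fin (m + 1)) K,
      c4Phi (Ideal.Quotient.mkₐ K p.asIdeal) g = 0 ↔ g ∈ (hm p).asIdeal := by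
    intro g
    rw [c4_key]
    constructor
    · intro h
      rw [← sum_homogeneousComponent g]
      apply Ideal.sum_mem
      intro i hi
      rw [mem_hm p _ i (homogeneousComponent_isHomogeneous i g)]
      exact Ideal.Quotient.eq_zero_iff_mem.mp (h i)
    · intro h i
      have h1 : homogeneousComponent i g ∈ (hm p).asIdeal := hm_homog p g h i
      rw [mem_hm p _ i (homogeneousComponent_isHomogeneous i g)] at h1
      exact Ideal.Quotient.eq_zero_iff_mem.mpr h1
  let f : (MvPolynomial (Fin (m + 1)) K ⧸ (hm p).asIdeal) →ₐ[K]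
      Polynomial (MvPolynomial (Fin m) K ⧸ p.asIdeal) :=
    Ideal.Quotient.liftₐ (hm p).asIdeal (c4Phi (Ideal.Quotient.mkₐ K p.asIdeal))
      (fun a ha => (hker a).mpr ha)
  have hf : ∀ a, f (Ideal.Quotient.mkₐ K _ a) = c4Phi (Ideal.Quotient.mkₐ K p.asIdeal) a :=
    fun a => rfl
  have finj : Function.Injective f := by
    rw [injective_iff_map_eq_zero]
    intro a
    obtain ⟨a, rfl⟩ := Ideal.Quotient.mk_surjective a
    intro ha
    have h1 : c4Phi (Ideal.Quotient.mkₐ K p.asIdeal) a = 0 := ha
    rw [hker] at h1
    exact Ideal.Quotient.eq_zero_iff_mem.mpr h1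
  have hl : Ideal.Quotient.mkₐ K (hm p).asIdeal (X (Fin.last m)) ≠ 0 := fun h0 =>
    last_notMem p (Ideal.Quotient.eq_zero_iff_mem.mp h0)
  have e := c4_general (Ideal.Quotient.mkₐ K p.asIdeal) (Ideal.Quotient.mkₐ_surjective K _)
    (Ideal.Quotient.mkₐ K (hm p).asIdeal) f hf finj hl
  unfold dm
  rw [e]
  have f2 : Algebra.trdeg K (MvPolynomial (Fin m) K ⧸ p.asIdeal) < Cardinal.aleph0 :=
    trdeg_lt_aleph0_of_finiteType
  rw [Cardinal.toNat_add f2 Cardinal.one_lt_aleph0, Cardinal.one_toNat]

end Pool.Agent.HCH
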