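import Pool.Agent.HCH.D1

namespace Pool.Agent.HCH

open MvPolynomial

theorem push_pdiv {K : Type} [Field K] {n : ℕ}
    {rho : MvPolynomial (Fin (n + 1)) K →ₐ[K] MvPolynomial (Fin n) K}
    {tau : MvPolynomial (Fin n) K →ₐ[K] MvPolynomial (Fin (n + 1)) K}
    {l : MvPolynomial (Fin (n + 1)) K} (h : LQ rho tau l)
    (W' : PrimeSpectrum (MvPolynomial (Fin n) K)) (G : MvPolynomial (Fin n) K) (e : ℕ)
    (P' : PrimeSpectrum (MvPolynomial (Fin n) K)) :
    pdiv K (PrimeSpectrum.comap (rho : MvPolynomial (Fin (n + 1)) K →+* MvPolynomial (Fin n) K)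
        W').asIdeal (tau G) e
      (PrimeSpectrum.comap (rho : MvPolynomial (Fin (n + 1)) K →+* MvPolynomial (Fin n) K) P') =
    pdiv K W'.asIdeal G e P' := by
  classical
  unfold pdiv
  have h1 := lq_homog h P'
  have h2 : dm K (PrimeSpectrum.comap
      (rho : MvPolynomial (Fin (n + 1)) K →+* MvPolynomial (Fin n) K) P').asIdeal =
      dm K P'.asIdeal := dm_comap rho (lq_surj h) P'.asIdeal
  have h3 := lq_mlt h W' P' G
  unfold od
  simp only [h1, h2, h3]

theorem push_PRat {K : Type} [Field K] {n : ℕ}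
    {rho : MvPolynomial (Fin (n + 1)) K →ₐ[K] MvPolynomial (Fin n) K}
    {tau : MvPolynomial (Fin n) K →ₐ[K] MvPolynomial (Fin (n + 1)) K}
    {l : MvPolynomial (Fin (n + 1)) K} (h : LQ rho tau l) (F : MvPolynomial (Fin (n + 1)) K)
    (e : ℕ) (z' : PrimeSpectrum (MvPolynomial (Fin n) K) → ℤ) (hz : z' ∈ PRat (rho F) e) :
    ∃ z ∈ PRat F e, (∀ P', z (PrimeSpectrum.comap
      (rho : MvPolynomial (Fin (n + 1)) K →+* MvPolynomial (Fin n) K) P') = z' P') ∧
      ∀ P, l ∉ P.asIdeal → z P = 0 := by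
  classical
  unfold PRat at hz
  induction hz using AddSubgroup.closure_induction with
  | mem z' hz' =>
    obtain ⟨W', G, H, a, hW, hF, hd, hG, hH, hGW, hHW, rfl⟩ := hz'
    set W := PrimeSpectrum.comap
      (rho : MvPolynomial (Fin (n + 1)) K →+* MvPolynomial (Fin n) K) W' with hWdef
    have hlW : l ∈ W.asIdeal := by
      change rho l ∈ W'.asIdeal
      have : l ∈ RingHom.ker (rho : MvPolynomial (Fin (n + 1)) K →+* MvPolynomial (Fin n) K) := by
        rw [h.ker]
        exact Ideal.mem_span_singleton_self l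
      have h0 : rho l = 0 := this
      rw [h0]
      exact W'.asIdeal.zero_mem
    refine ⟨pdiv K W.asIdeal (tau G) e - pdiv K W.asIdeal (tau H) e, ?_, ?_, ?_⟩
    · apply AddSubgroup.subset_closure
      refine ⟨W, tau G, tau H, a, (lq_homog h W').mpr hW, hF, ?_, h.htau G a hG, h.htau H a hH,
        ?_, ?_, rfl⟩
      · exact (dm_comap rho (lq_surj h) W'.asIdeal).trans hd
      · intro hc
        apply hGW
        have : rho (tau G) ∈ W'.asIdeal := hc
        rwa [h.sec] at this
      · intro hc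
        apply hHW
        have : rho (tau H) ∈ W'.asIdeal := hc
        rwa [h.sec] at this
    · intro P'
      rw [Pi.sub_apply, Pi.sub_apply, push_pdiv h, push_pdiv h]
    · intro P hP
      have h0 : ∀ G : MvPolynomial (Fin (n + 1)) K, pdiv K W.asIdeal G e P = 0 := by
        intro G
        unfold pdiv
        have : od (W.asIdeal ⊔ Ideal.span {G}) P = 0 := by
          unfold od
          rw [mlt_eq_zero]
          · simp
          · intro hle
            exact hP (hle (Submodule.mem_sup_left hlW))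
        rw [this]
        split_ifs <;> rfl
      rw [Pi.sub_apply, h0, h0, sub_zero]
  | zero =>
    exact ⟨0, (PRat F e).zero_mem, fun _ => rfl, fun _ _ => rfl⟩
  | add x y _ _ hx hy =>
    obtain ⟨z1, h1, h2, h3⟩ := hx
    obtain ⟨z2, h4, h5, h6⟩ := hy
    refine ⟨z1 + z2, (PRat F e).add_mem h1 h4, ?_, ?_⟩
    · intro P'
      rw [Pi.add_apply, Pi.add_apply, h2, h5]
    · intro P hP
      rw [Pi.add_apply, h3 P hP, h6 P hP, add_zero]
  | neg x _ hx =>
    obtain ⟨z1, h1, h2, h3⟩ := hx
    refine ⟨-z1, (PRat F e).neg_mem h1, ?_, ?_⟩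
    · intro P'
      rw [Pi.neg_apply, Pi.neg_apply, h2]
    · intro P hP
      rw [Pi.neg_apply, h3 P hP, neg_zero]

end Pool.Agent.HCH
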