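import Mathlib

/-!
Definitions for the reduction of Hartshorne's conjecture on Chow groups of hypersurfaces to the
critical dimension. Subvarieties are homogeneous prime ideals of polynomial rings, cycles are
functions on the prime spectrum with finite support.
-/

namespace Pool.Agent.HCH

open MvPolynomial

section General

variable {R : Type} [CommRing R]

/-- The transcendence degree of `R / P` over `K`: the dimension of the variety of `P`. -/
noncomputable def dm (K : Type) {R : Type} [Field K] [CommRing R] [Algebra K R] (P : Ideal R) : ℕ :=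
  Cardinal.toNat (Algebra.trdeg K (R ⧸ P))

/-- The length of the local ring of `R / J` at the prime `P`. -/
noncomputable def mlt (J : Ideal R) (P : PrimeSpectrum R) : ℕ∞ :=
  Module.length (Localization.AtPrime P.asIdeal)
    (Localization.AtPrime P.asIdeal ⧸ J.map (algebraMap R (Localization.AtPrime P.asIdeal)))

/-- The multiplicity `mlt` as an integer. -/
noncomputable def od (J : Ideal R) (P : PrimeSpectrum R) : ℤ := ((mlt J P).toNat : ℤ)

open Classical in
/-- The cycle of a prime. -/
noncomputable def cls (P : PrimeSpectrum R) : PrimeSpectrum R → ℤ := fun Q => if Q = P then 1 else 0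

open Classical in
/-- The divisor of `g` on the subvariety `W`, at the primes of dimension `e`. -/
noncomputable def adiv (K : Type) [Field K] [Algebra K R] (W : Ideal R) (g : R) (e : ℕ) :
    PrimeSpectrum R → ℤ :=
  fun P => if dm K P.asIdeal = e then od (W ⊔ Ideal.span {g}) P else 0

/-- Cycles of dimension `e` on `V(f)` rationally equivalent to zero. -/
noncomputable def ARat (K : Type) [Field K] [Algebra K R] (f : R) (e : ℕ) :
    AddSubgroup (PrimeSpectrum R → ℤ) :=
  AddSubgroup.closure {z | ∃ (W : PrimeSpectrum R) (g : R), f ∈ W.asIdeal ∧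
    dm K W.asIdeal = e + 1 ∧ g ∉ W.asIdeal ∧ z = adiv K W.asIdeal g e}

/-- All cycles of dimension `e` on `V(f)` are torsion modulo rational equivalence. -/
def AT (K : Type) [Field K] [Algebra K R] (f : R) (e : ℕ) : Prop :=
  ∀ p : PrimeSpectrum R, f ∈ p.asIdeal → dm K p.asIdeal = e →
    ∃ N : ℕ, 0 < N ∧ (N : ℤ) • cls p ∈ ARat K f e

end General

section Projective

attribute [local instance] MvPolynomial.gradedAlgebra

variable {K : Type} [Field K] {m : ℕ}

/-- Homogeneous ideals of the polynomial ring. -/
def HgI (P : Ideal (MvPolynomial (Fin m) K)) : Prop :=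
  ∀ f ∈ P, ∀ n, homogeneousComponent n f ∈ P

open Classical in
/-- The divisor of the form `G` on the projective subvariety `W`, at the homogeneous primes `P`
with `dm P = e` (projective subvarieties of dimension `e - 1`). -/
noncomputable def pdiv (K : Type) [Field K] {m : ℕ} (W : Ideal (MvPolynomial (Fin m) K))
    (G : MvPolynomial (Fin m) K) (e : ℕ) : PrimeSpectrum (MvPolynomial (Fin m) K) → ℤ :=
  fun P => if HgI P.asIdeal ∧ dm K P.asIdeal = e then od (W ⊔ Ideal.span {G}) P else 0

/-- Cycles on the projective variety `V(F)`, of dimension `e - 1`, rationally equivalent to zero. -/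
noncomputable def PRat (F : MvPolynomial (Fin m) K) (e : ℕ) :
    AddSubgroup (PrimeSpectrum (MvPolynomial (Fin m) K) → ℤ) :=
  AddSubgroup.closure {z | ∃ (W : PrimeSpectrum (MvPolynomial (Fin m) K))
    (G H : MvPolynomial (Fin m) K) (a : ℕ), HgI W.asIdeal ∧ F ∈ W.asIdeal ∧
    dm K W.asIdeal = e + 1 ∧ G.IsHomogeneous a ∧ H.IsHomogeneous a ∧ G ∉ W.asIdeal ∧
    H ∉ W.asIdeal ∧ z = pdiv K W.asIdeal G e - pdiv K W.asIdeal H e}

/-- The ideal of the linear section of `V(F)` by the first `i` linear forms. -/
noncomputable def flag (F : MvPolynomial (Fin m) K) (l : ℕ → MvPolynomial (Fin m) K) (i : ℕ) :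
    Ideal (MvPolynomial (Fin m) K) := Ideal.span ({F} ∪ l '' {k | k < i})

/-- `A^j(V(F)) = Q h^j`, where `h^j` is the class of an integral linear section. -/
def Hart (F : MvPolynomial (Fin m) K) (j : ℕ) : Prop :=
  ∃ l : ℕ → MvPolynomial (Fin m) K, (∀ k, (l k).IsHomogeneous 1) ∧
    (∀ i ≤ j, (flag F l i).IsPrime ∧ dm K (flag F l i) = m - 1 - i) ∧
    ∀ P : PrimeSpectrum (MvPolynomial (Fin m) K), HgI P.asIdeal → F ∈ P.asIdeal →
      dm K P.asIdeal = m - 1 - j →
      ∃ N : ℕ, 0 < N ∧ ∃ (c : ℤ) (Q : PrimeSpectrum (MvPolynomial (Fin m) K)),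
        Q.asIdeal = flag F l j ∧ (N : ℤ) • cls P - c • cls Q ∈ PRat F (m - 1 - j)

/-- The cone over the singular locus of `V(F)` has dimension at most `r`. -/
def SgLe (F : MvPolynomial (Fin m) K) (r : ℕ) : Prop :=
  ∀ P : PrimeSpectrum (MvPolynomial (Fin m) K), HgI P.asIdeal → (∀ k, pderiv k F ∈ P.asIdeal) →
    dm K P.asIdeal ≤ r

/-- Dehomogenisation: the last variable becomes `1`. -/
noncomputable def deh : MvPolynomial (Fin (m + 1)) K →ₐ[K] MvPolynomial (Fin m) K :=
  aeval (Fin.snoc (α := fun _ => MvPolynomial (Fin m) K) X 1)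

/-- The last variable becomes `0`. -/
noncomputable def rhoI : MvPolynomial (Fin (m + 1)) K →ₐ[K] MvPolynomial (Fin m) K :=
  aeval (Fin.snoc (α := fun _ => MvPolynomial (Fin m) K) X 0)

/-- The first variable becomes `t` times the last one. -/
noncomputable def rhoT (t : K) : MvPolynomial (Fin (m + 2)) K →ₐ[K] MvPolynomial (Fin (m + 1)) K :=
  aeval (Fin.cons (α := fun _ => MvPolynomial (Fin (m + 1)) K) (C t * X (Fin.last m)) X)

/-- The generic hyperplane of the pencil: `X 0 ↦ t X last` with `t` the variable of `K(t)`. -/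
noncomputable def psi : MvPolynomial (Fin (m + 2)) K →ₐ[K]
    MvPolynomial (Fin (m + 1)) (RatFunc K) :=
  aeval (Fin.cons (α := fun _ => MvPolynomial (Fin (m + 1)) (RatFunc K))
    (C (RatFunc.X : RatFunc K) * X (Fin.last m)) X)

/-- The affine version: `X 0 ↦ t`. -/
noncomputable def lam : MvPolynomial (Fin (m + 1)) K →ₐ[K] MvPolynomial (Fin m) (RatFunc K) :=
  aeval (Fin.cons (α := fun _ => MvPolynomial (Fin m) (RatFunc K)) (C (RatFunc.X : RatFunc K)) X)

/-- `lam` as a homomorphism of rings. -/
noncomputable def lamR (K : Type) [Field K] (m : ℕ) :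
    MvPolynomial (Fin (m + 1)) K →+* MvPolynomial (Fin m) (RatFunc K) :=
  (lam : MvPolynomial (Fin (m + 1)) K →ₐ[K] MvPolynomial (Fin m) (RatFunc K)).toRingHom

/-- `psi` as a homomorphism of rings. -/
noncomputable def psiR (K : Type) [Field K] (m : ℕ) :
    MvPolynomial (Fin (m + 2)) K →+* MvPolynomial (Fin (m + 1)) (RatFunc K) :=
  (psi : MvPolynomial (Fin (m + 2)) K →ₐ[K] MvPolynomial (Fin (m + 1)) (RatFunc K)).toRingHom

/-- Extension of the coefficients. -/
noncomputable def ext (k E : Type) [Field k] [Field E] [Algebra k E] (n : ℕ) :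
    MvPolynomial (Fin n) k →+* MvPolynomial (Fin n) E := MvPolynomial.map (algebraMap k E)

/-- The closure in projective space of an affine subvariety. -/
noncomputable def hmI (p : Ideal (MvPolynomial (Fin m) K)) :
    Ideal (MvPolynomial (Fin (m + 1)) K) :=
  (Ideal.homogeneousCore (homogeneousSubmodule (Fin (m + 1)) K)
    (p.comap (deh : MvPolynomial (Fin (m + 1)) K →ₐ[K] MvPolynomial (Fin m) K))).toIdeal

theorem hmI_isPrime (p : PrimeSpectrum (MvPolynomial (Fin m) K)) : (hmI p.asIdeal).IsPrime := by
  have := p.isPrime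
  unfold hmI
  exact Ideal.IsPrime.homogeneousCore (Ideal.comap_isPrime _ _)

theorem hgI_iff (P : Ideal (MvPolynomial (Fin m) K)) :
    HgI P ↔ P.IsHomogeneous (homogeneousSubmodule (Fin m) K) := by
  constructor
  · intro h i r hr
    have : ((DirectSum.decompose (homogeneousSubmodule (Fin m) K) r) i :
        MvPolynomial (Fin m) K) = homogeneousComponent i r :=
      decomposition.decompose'_apply r i
    rw [this]
    exact h r hr i
  · intro h f hf n
    exact homogeneousComponent_mem_of_mem h hf n

/-- The closure of an affine subvariety, as a point of the prime spectrum. -/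
noncomputable def hm (p : PrimeSpectrum (MvPolynomial (Fin m) K)) :
    PrimeSpectrum (MvPolynomial (Fin (m + 1)) K) := ⟨hmI p.asIdeal, hmI_isPrime p⟩

end Projective

end Pool.Agent.HCH
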