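import Pool.Agent.HCH.E0
import Pool.Agent.HCH.B
import Pool.Agent.HCH.B2
import Pool.Agent.HCH.D1

namespace Pool.Agent.HCH

open MvPolynomial

attribute [local instance] MvPolynomial.gradedAlgebra

/-
ROW E1 (1.3 h). min_homog: the homogeneous core of Q is prime (Ideal.IsPrime.homogeneousCore), contains I (I homogeneous) and is ≤ Q, so it is Q by minimality; hgI_iff.
irr: a proper homogeneous ideal contains no polynomial with nonzero constant coefficient (the component of degree 0 is a constant, a unit).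
form_span: Ideal.homogeneous_span; a form of degree ≥ 1 has constant coefficient 0, so is not a unit.
exists_min: P ⊔ (G) is homogeneous, and proper: P and (G) consist of polynomials with constant coefficient 0 (irr), hence so does the sum, and 1 is not in it.
Ideal.exists_minimalPrimes_le gives a minimal prime Q; min_homog; dm_le_min.
sg_rhoT: P' homogeneous prime with all partials of rhoT t F; P = comap (rhoT t) P' (homogeneous lq_homog (lq_rhoT t), dm_comap: dm P = dm P'). pderiv_rhoT: pderiv k F ∈ P for k ≠ 0,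
k ≠ last, and pderiv last F + C t * pderiv 0 F ∈ P (rhoT t of it is a partial of rhoT t F; case j = last, j.succ = last). pderiv 0 F is a form of degree d - 1 ≥ 1
(IsHomogeneous.pderiv); exists_min with G = pderiv 0 F gives Q ∋ all partials of F, dm Q ≤ r, dm P ≤ dm Q + 1.
-/
theorem min_homog {K : Type} [Field K] {m : ℕ} (I Q : Ideal (MvPolynomial (Fin m) K))
    (hI : HgI I) (hQ : Q ∈ I.minimalPrimes) : HgI Q := by
  have hQp : Q.IsPrime := hQ.1.1
  have hI' := (hgI_iff I).mp hI
  have hcp := Ideal.IsPrime.homogeneousCore (𝒜 := homogeneousSubmodule (Fin m) K) hQp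
  have hcQ := Ideal.toIdeal_homogeneousCore_le (homogeneousSubmodule (Fin m) K) Q
  have hIc : I ≤ (Ideal.homogeneousCore (homogeneousSubmodule (Fin m) K) Q).toIdeal := by
    have h1 := Ideal.homogeneousCore_mono (homogeneousSubmodule (Fin m) K) hQ.1.2
    have h2 : (Ideal.homogeneousCore (homogeneousSubmodule (Fin m) K) I).toIdeal = I :=
      Ideal.IsHomogeneous.toIdeal_homogeneousCore_eq_self hI'
    have h3 : (Ideal.homogeneousCore (homogeneousSubmodule (Fin m) K) I).toIdeal ≤
        (Ideal.homogeneousCore (homogeneousSubmodule (Fin m) K) Q).toIdeal := h1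
    rwa [h2] at h3
  have hQc := hQ.2 ⟨hcp, hIc⟩ hcQ
  have heq : Q = (Ideal.homogeneousCore (homogeneousSubmodule (Fin m) K) Q).toIdeal :=
    le_antisymm hQc hcQ
  rw [hgI_iff, heq]
  exact HomogeneousIdeal.isHomogeneous _

theorem irr {K : Type} [Field K] {m : ℕ} (I : Ideal (MvPolynomial (Fin m) K))
    (hI : HgI I) (h1 : I ≠ ⊤) (f : MvPolynomial (Fin m) K) (hf : f ∈ I) :
    constantCoeff f = 0 := by
  by_contra hne
  apply h1
  have h2 := hI f hf 0
  rw [homogeneousComponent_zero] at h2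
  rw [Ideal.eq_top_iff_one]
  have hne' : coeff 0 f ≠ 0 := hne
  have h3 := I.mul_mem_left (C (coeff 0 f)⁻¹) h2
  rw [← C_mul, inv_mul_cancel₀ hne', C_1] at h3
  exact h3

theorem form_span {K : Type} [Field K] {m a : ℕ} (G : MvPolynomial (Fin m) K)
    (hG : G.IsHomogeneous a) (ha : 1 ≤ a) : HgI (Ideal.span {G}) ∧ Ideal.span {G} ≠ ⊤ := by
  constructor
  · rw [hgI_iff]
    apply Ideal.homogeneous_span
    intro x hx
    rw [Set.mem_singleton_iff] at hx
    subst hx
    exact ⟨a, (mem_homogeneousSubmodule _ _).mpr hG⟩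
  · intro htop
    rw [Ideal.eq_top_iff_one, Ideal.mem_span_singleton] at htop
    obtain ⟨c, hc⟩ := htop
    have h0 : constantCoeff G = 0 := by
      apply hG.coeff_eq_zero
      simp
      omega
    have h1 := congrArg (constantCoeff : MvPolynomial (Fin m) K → K) hc
    rw [map_mul, h0, zero_mul, map_one] at h1
    exact one_ne_zero h1

theorem exists_min {K : Type} [Field K] {m : ℕ} (P : PrimeSpectrum (MvPolynomial (Fin m) K))
    (hP : HgI P.asIdeal) (G : MvPolynomial (Fin m) K) (hG : HgI (Ideal.span {G}))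
    (hG1 : Ideal.span {G} ≠ ⊤) :
    ∃ Q : PrimeSpectrum (MvPolynomial (Fin m) K), HgI Q.asIdeal ∧ P.asIdeal ≤ Q.asIdeal ∧
      G ∈ Q.asIdeal ∧ dm K P.asIdeal ≤ dm K Q.asIdeal + 1 := by
  have hPp := P.isPrime
  have hJh : HgI (P.asIdeal ⊔ Ideal.span {G}) := by
    intro f hf n
    obtain ⟨p, hp, g, hg, rfl⟩ := Submodule.mem_sup.mp hf
    rw [map_add]
    exact Submodule.add_mem_sup (hP p hp n) (hG g hg n)
  have hJt : P.asIdeal ⊔ Ideal.span {G} ≠ ⊤ := by
    intro htop
    rw [Ideal.eq_top_iff_one] at htop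
    obtain ⟨p, hp, g, hg, h1⟩ := Submodule.mem_sup.mp htop
    have h2 := irr P.asIdeal hP hPp.ne_top p hp
    have h3 := irr _ hG hG1 g hg
    have h4 := congrArg (constantCoeff : MvPolynomial (Fin m) K → K) h1
    rw [map_add, h2, h3, add_zero, map_one] at h4
    exact zero_ne_one h4
  obtain ⟨M, hM, hJM⟩ := Ideal.exists_le_maximal _ hJt
  have hMp : M.IsPrime := hM.isPrime
  obtain ⟨Q, hQ, -⟩ := Ideal.exists_minimalPrimes_le hJM
  have hQp : Q.IsPrime := hQ.1.1
  refine ⟨⟨Q, hQp⟩, min_homog _ Q hJh hQ, le_sup_left.trans hQ.1.2, ?_, ?_⟩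
  · exact hQ.1.2 (Ideal.mem_sup_right (Ideal.mem_span_singleton_self G))
  · exact dm_le_min P.asIdeal Q G hQ

theorem sg_rhoT {K : Type} [Field K] {m d : ℕ} (t : K) (F : MvPolynomial (Fin (m + 2)) K)
    (hF : F.IsHomogeneous d) (hd : 2 ≤ d) (r : ℕ) (h : SgLe F r) : SgLe (rhoT t F) (r + 1) := by
  intro P' hP' hpd
  have hrd : ∀ f, (rhoT t : MvPolynomial (Fin (m + 2)) K →ₐ[K] MvPolynomial (Fin (m + 1)) K) f ∈
      P'.asIdeal ↔ f ∈ (PrimeSpectrum.comap ((rhoT t :
        MvPolynomial (Fin (m + 2)) K →ₐ[K] MvPolynomial (Fin (m + 1)) K) :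
        MvPolynomial (Fin (m + 2)) K →+* MvPolynomial (Fin (m + 1)) K) P').asIdeal := by
    intro f
    exact Iff.rfl
  obtain ⟨P, hPdef⟩ : ∃ P, P = PrimeSpectrum.comap ((rhoT t :
        MvPolynomial (Fin (m + 2)) K →ₐ[K] MvPolynomial (Fin (m + 1)) K) :
        MvPolynomial (Fin (m + 2)) K →+* MvPolynomial (Fin (m + 1)) K) P' := ⟨_, rfl⟩
  have hPh : HgI P.asIdeal := by
    rw [hPdef]
    exact (lq_homog (lq_rhoT t) P').mpr hP'
  have hdm : dm K P.asIdeal = dm K P'.asIdeal := by
    rw [hPdef]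
    exact dm_comap (rhoT t : MvPolynomial (Fin (m + 2)) K →ₐ[K] MvPolynomial (Fin (m + 1)) K)
      (lq_surj (lq_rhoT t)) P'.asIdeal
  simp only [← hPdef] at hrd
  have hGh : (pderiv 0 F).IsHomogeneous (d - 1) := hF.pderiv
  obtain ⟨hs1, hs2⟩ := form_span (pderiv 0 F) hGh (by omega)
  obtain ⟨Q, hQh, hPQ, hGQ, hdQ⟩ := exists_min P hPh (pderiv 0 F) hs1 hs2
  have hall : ∀ k, pderiv k F ∈ Q.asIdeal := by
    intro k
    refine Fin.cases hGQ (fun j => ?_) k
    have h1 := hpd j
    rw [pderiv_rhoT] at h1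
    by_cases hj : j = Fin.last m
    · rw [if_pos hj] at h1
      have hCt : (rhoT t : MvPolynomial (Fin (m + 2)) K →ₐ[K] MvPolynomial (Fin (m + 1)) K) (C t)
          = C t := by
        rw [← algebraMap_eq, AlgHom.commutes]
        rfl
      have h2 : (rhoT t : MvPolynomial (Fin (m + 2)) K →ₐ[K] MvPolynomial (Fin (m + 1)) K)
          (pderiv j.succ F + C t * pderiv 0 F) ∈ P'.asIdeal := by
        rw [map_add, map_mul, hCt]
        exact h1
      have h3 := hPQ ((hrd _).mp h2)
      have h4 : C t * pderiv 0 F ∈ Q.asIdeal := Q.asIdeal.mul_mem_left _ hGQ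
      have h5 := Q.asIdeal.sub_mem h3 h4
      rwa [add_sub_cancel_right] at h5
    · rw [if_neg hj, add_zero] at h1
      exact hPQ ((hrd _).mp h1)
  have hfin := h Q hQh hall
  rw [← hdm]
  omega

end Pool.Agent.HCH
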