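import Pool.Agent.HCH.B4b
import Pool.Agent.HCH.A2

namespace Pool.Agent.HCH

open MvPolynomial

theorem lift_lam {K : Type} [Field K] {m : ℕ} (f : MvPolynomial (Fin (m + 1)) K) (e : ℕ)
    (z : PrimeSpectrum (MvPolynomial (Fin m) (RatFunc K)) → ℤ)
    (hz : z ∈ ARat (RatFunc K) (lamR K m f) e) :
    ∃ Z ∈ ARat K f (e + 1), ∀ q, Z (PrimeSpectrum.comap (lamR K m) q) = z q := by
  classical
  unfold ARat at hz
  induction hz using AddSubgroup.closure_induction with
  | mem z hz =>
    obtain ⟨w, g, hf, hd, hg, rfl⟩ := hz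
    obtain ⟨g', u, hu, hg'⟩ := lam_lift g
    have hunit : IsUnit (C u : MvPolynomial (Fin m) (RatFunc K)) :=
      (isUnit_iff_ne_zero.mpr hu).map C
    have hspan : (Ideal.span {C u * g} : Ideal (MvPolynomial (Fin m) (RatFunc K))) =
        Ideal.span {g} := Ideal.span_singleton_mul_left_unit hunit g
    set W := PrimeSpectrum.comap (lamR K m) w with hW
    refine ⟨adiv K W.asIdeal g' (e + 1), ?_, ?_⟩
    · apply AddSubgroup.subset_closure
      refine ⟨W, g', hf, ?_, ?_, rfl⟩
      · have := dm_lam w.asIdeal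
        rw [hd] at this
        exact this
      · intro hc
        have h1 : lamR K m g' ∈ w.asIdeal := hc
        rw [hg'] at h1
        exact hg ((Ideal.unit_mul_mem_iff_mem _ hunit).mp h1)
    · intro q
      unfold adiv
      have h1 : dm K (PrimeSpectrum.comap (lamR K m) q).asIdeal = dm (RatFunc K) q.asIdeal + 1 :=
        dm_lam q.asIdeal
      have h2 : od (W.asIdeal ⊔ Ideal.span {g'}) (PrimeSpectrum.comap (lamR K m) q) =
          od (w.asIdeal ⊔ Ideal.span {g}) q := by
        unfold od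
        rw [← mlt_lam]
        congr 3
        rw [Ideal.map_sup, Ideal.map_span, Set.image_singleton, hg', hspan]
        congr 1
        exact lam_map w.asIdeal
      rw [h1, h2]
      by_cases h3 : dm (RatFunc K) q.asIdeal = e
      · rw [if_pos h3, if_pos (by rw [h3])]
      · rw [if_neg h3, if_neg (by omega)]
  | zero => exact ⟨0, (ARat K f (e + 1)).zero_mem, fun _ => rfl⟩
  | add x y _ _ hx hy =>
    obtain ⟨z1, h1, h2⟩ := hx
    obtain ⟨z2, h3, h4⟩ := hy
    exact ⟨z1 + z2, (ARat K f (e + 1)).add_mem h1 h3, fun p => by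
      rw [Pi.add_apply, Pi.add_apply, h2, h4]⟩
  | neg x _ hx =>
    obtain ⟨z1, h1, h2⟩ := hx
    exact ⟨-z1, (ARat K f (e + 1)).neg_mem h1, fun p => by
      rw [Pi.neg_apply, Pi.neg_apply, h2]⟩

end Pool.Agent.HCH
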