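import Pool.Agent.HCH.A2
import Pool.Agent.HCH.B2
import Pool.Agent.HCH.B3

namespace Pool.Agent.HCH

open MvPolynomial

/-- The action of the Galois group on polynomials. -/
noncomputable def ga {k E : Type} [Field k] [Field E] [Algebra k E] (n : ℕ) (σ : E ≃ₐ[k] E) :
    MvPolynomial (Fin n) E →+* MvPolynomial (Fin n) E :=
  MvPolynomial.map ((σ : E ≃+* E) : E →+* E)

theorem ga_mul {k E : Type} [Field k] [Field E] [Algebra k E] {n : ℕ} (σ τ : E ≃ₐ[k] E)
    (a : MvPolynomial (Fin n) E) : ga n (σ * τ) a = ga n σ (ga n τ a) := by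
  unfold ga
  rw [MvPolynomial.map_map]
  rfl

theorem ga_one {k E : Type} [Field k] [Field E] [Algebra k E] {n : ℕ}
    (a : MvPolynomial (Fin n) E) : ga n (1 : E ≃ₐ[k] E) a = a := by
  unfold ga
  exact MvPolynomial.map_id a

theorem ga_ext {k E : Type} [Field k] [Field E] [Algebra k E] {n : ℕ} (σ : E ≃ₐ[k] E)
    (a : MvPolynomial (Fin n) k) : ga n σ (ext k E n a) = ext k E n a := by
  unfold ga ext
  rw [MvPolynomial.map_map]
  congr 2
  ext x
  exact σ.commutes x

theorem ga_surj {k E : Type} [Field k] [Field E] [Algebra k E] {n : ℕ} (σ : E ≃ₐ[k] E) :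
    Function.Bijective (ga n σ) := by
  constructor
  · exact MvPolynomial.map_injective _ σ.injective
  · intro a
    refine ⟨ga n σ⁻¹ a, ?_⟩
    rw [← ga_mul, mul_inv_cancel, ga_one]

theorem ga_fixed {k E : Type} [Field k] [Field E] [Algebra k E] [FiniteDimensional k E]
    [IsGalois k E] {n : ℕ} (a : MvPolynomial (Fin n) E) (h : ∀ σ : E ≃ₐ[k] E, ga n σ a = a) :
    ∃ a0 : MvPolynomial (Fin n) k, ext k E n a0 = a := by
  classical
  have h1 : ∀ d, ∃ c : k, algebraMap k E c = a.coeff d := by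
    intro d
    have h2 : ∀ σ : E ≃ₐ[k] E, σ (a.coeff d) = a.coeff d := by
      intro σ
      have h3 := congrArg (MvPolynomial.coeff d) (h σ)
      unfold ga at h3
      rw [coeff_map] at h3
      exact h3
    have h4 := (IsGalois.mem_range_algebraMap_iff_fixed (F := k) (a.coeff d)).mpr h2
    exact h4
  choose c hc using h1
  refine ⟨∑ d ∈ a.support, monomial d (c d), ?_⟩
  unfold ext
  rw [map_sum]
  conv_rhs => rw [a.as_sum]
  apply Finset.sum_congr rfl
  intro d _
  rw [map_monomial, hc]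

theorem ga_dm {k E : Type} [Field k] [Field E] [Algebra k E] {n : ℕ} (σ : E ≃ₐ[k] E)
    (q : PrimeSpectrum (MvPolynomial (Fin n) E)) :
    dm E (PrimeSpectrum.comap (ga n σ) q).asIdeal = dm E q.asIdeal :=
  dm_semi (σ : E ≃+* E) (MvPolynomial.mapEquiv (Fin n) (σ : E ≃+* E))
    (fun a => MvPolynomial.map_C ((σ : E ≃+* E) : E →+* E) a) q.asIdeal

theorem ga_map {k E : Type} [Field k] [Field E] [Algebra k E] {n : ℕ} (σ : E ≃ₐ[k] E)
    (w : Ideal (MvPolynomial (Fin n) E)) :
    w.map (ga n σ) = w.comap (ga n σ⁻¹) := by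
  apply le_antisymm
  · rw [Ideal.map_le_iff_le_comap]
    intro a ha
    rw [Ideal.mem_comap, Ideal.mem_comap, ← ga_mul, inv_mul_cancel, ga_one]
    exact ha
  · intro a ha
    have : a = ga n σ (ga n σ⁻¹ a) := by rw [← ga_mul, mul_inv_cancel, ga_one]
    rw [this]
    exact Ideal.mem_map_of_mem _ ha

theorem ga_mlt {k E : Type} [Field k] [Field E] [Algebra k E] {n : ℕ} (σ : E ≃ₐ[k] E)
    (w : PrimeSpectrum (MvPolynomial (Fin n) E)) (b : MvPolynomial (Fin n) E)
    (q : PrimeSpectrum (MvPolynomial (Fin n) E)) :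
    mlt (w.asIdeal ⊔ Ideal.span {b}) (PrimeSpectrum.comap (ga n σ) q) =
      mlt ((PrimeSpectrum.comap (ga n σ⁻¹) w).asIdeal ⊔ Ideal.span {ga n σ b}) q := by
  rw [← mlt_surj (ga n σ) (ga_surj σ).2]
  · congr 1
    rw [Ideal.map_sup, Ideal.map_span, Set.image_singleton, ga_map]
    rfl
  · rw [(RingHom.injective_iff_ker_eq_bot _).mp (ga_surj σ).1]
    exact bot_le

theorem ga_comap {k E : Type} [Field k] [Field E] [Algebra k E] {n : ℕ} (σ : E ≃ₐ[k] E)
    (q : PrimeSpectrum (MvPolynomial (Fin n) E)) :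
    PrimeSpectrum.comap (ext k E n) (PrimeSpectrum.comap (ga n σ) q) =
      PrimeSpectrum.comap (ext k E n) q := by
  apply PrimeSpectrum.ext
  ext a
  change ga n σ (ext k E n a) ∈ q.asIdeal ↔ ext k E n a ∈ q.asIdeal
  rw [ga_ext]

end Pool.Agent.HCH
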