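import Pool.Agent.HCH.A1b
import Pool.Agent.HCH.B3
import Pool.Agent.HCH.G0

namespace Pool.Agent.HCH

open MvPolynomial

open Classical in
/-- The finite set of the coefficients. -/
noncomputable def cf {L : Type} [Field L] {n : ℕ} (a : MvPolynomial (Fin n) L) : Finset L :=
  a.support.image (fun d => a.coeff d)

theorem descend_poly {k L : Type} [Field k] [Field L] [Algebra k L] {n : ℕ}
    (a : MvPolynomial (Fin n) L) (E : IntermediateField k L) (h : ∀ x ∈ cf a, x ∈ E) :
    ∃ a' : MvPolynomial (Fin n) E, ext E L n a' = a := by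
  classical
  have h1 : ∀ d, ∃ c : E, (c : L) = a.coeff d := by
    intro d
    by_cases hd : d ∈ a.support
    · exact ⟨⟨a.coeff d, h _ (Finset.mem_image_of_mem _ hd)⟩, rfl⟩
    · rw [notMem_support_iff] at hd
      exact ⟨0, by rw [hd]; rfl⟩
  choose c hc using h1
  refine ⟨∑ d ∈ a.support, monomial d (c d), ?_⟩
  unfold ext
  rw [map_sum]
  conv_rhs => rw [a.as_sum]
  apply Finset.sum_congr rfl
  intro d _
  rw [map_monomial]
  congr 1
  exact hc d

theorem ext_comp {k E L : Type} [Field k] [Field E] [Field L] [Algebra k E] [Algebra k L]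
    [Algebra E L] [IsScalarTower k E L] (n : ℕ) :
    (ext E L n).comp (ext k E n) = ext k L n := by
  unfold ext
  apply MvPolynomial.ringHom_ext
  · intro a
    simp [← IsScalarTower.algebraMap_apply]
  · intro i
    simp

theorem ext_inj {k E : Type} [Field k] [Field E] [Algebra k E] {n : ℕ} :
    Function.Injective (ext k E n) :=
  MvPolynomial.map_injective _ (algebraMap k E).injective

/-- A finite set in a Galois extension is contained in a finite Galois extension. -/
theorem exists_galois {k L : Type} [Field k] [Field L] [Algebra k L]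
    [IsGalois k L] (s : Finset L) :
    ∃ E : IntermediateField k L, (∀ x ∈ s, x ∈ E) ∧ FiniteDimensional k E ∧ IsGalois k E := by
  have halg : Algebra.IsAlgebraic k L := inferInstance
  have hnorm : Normal k L := inferInstance
  let E0 : IntermediateField k L := IntermediateField.adjoin k (s : Set L)
  have hfd : FiniteDimensional k E0 := by
    apply IntermediateField.finiteDimensional_adjoin
    intro x _
    exact (halg.isAlgebraic x).isIntegral
  let E : IntermediateField k L := IntermediateField.normalClosure k E0 L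
  have h1 : FiniteDimensional k E := inferInstance
  have h2 : Normal k E := inferInstance
  refine ⟨E, ?_, h1, ?_⟩
  · intro x hx
    have h3 : E0 ≤ E := E0.le_normalClosure
    exact h3 (IntermediateField.subset_adjoin k _ hx)
  · exact ⟨⟩

theorem ext_flat {k E : Type} [Field k] [Field E] [Algebra k E] {n : ℕ} : (ext k E n).Flat := by
  let _ : Algebra (MvPolynomial (Fin n) k) (MvPolynomial (Fin n) E) :=
    MvPolynomial.algebraMvPolynomial
  have hp : Algebra.IsPushout k (MvPolynomial (Fin n) k) E (MvPolynomial (Fin n) E) :=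
    inferInstance
  have h : Module.Flat (MvPolynomial (Fin n) k) (MvPolynomial (Fin n) E) :=
    Module.Flat.isBaseChange k (MvPolynomial (Fin n) k) E (MvPolynomial (Fin n) E) hp.out
  exact h

/-- The finite Galois case: trace argument. -/
theorem ext_radical_fin {k E : Type} [Field k] [Field E] [Algebra k E]
    [FiniteDimensional k E] [IsGalois k E] {n : ℕ} (p : Ideal (MvPolynomial (Fin n) k))
    [hp : p.IsPrime] : (p.map (ext k E n)).IsRadical := by
  classical
  intro a ha
  obtain ⟨N, hN⟩ := ha
  obtain ⟨q, hq⟩ := lying_over (E := E) ⟨p, hp⟩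
  have hq' : q.asIdeal.comap (ext k E n) = p := congrArg PrimeSpectrum.asIdeal hq
  have hpq : p.map (ext k E n) ≤ q.asIdeal := by
    rw [Ideal.map_le_iff_le_comap, hq']
  -- all conjugates of a are in q
  have hconj : ∀ σ : E ≃ₐ[k] E, ga n σ a ∈ q.asIdeal := by
    intro σ
    apply q.isPrime.mem_of_pow_mem N
    rw [← map_pow]
    have h1 : ga n σ (a ^ N) ∈ (p.map (ext k E n)).map (ga n σ) := Ideal.mem_map_of_mem _ hN
    rw [Ideal.map_map] at h1
    have h2 : (ga n σ).comp (ext k E n) = ext k E n := RingHom.ext (ga_ext σ)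
    rw [h2] at h1
    exact hpq h1
  let ι := Module.Free.ChooseBasisIndex k E
  let b : Module.Basis ι k E := Module.Free.chooseBasis k E
  have htr : ∀ (x : E), x = ∑ i, (∑ σ : E ≃ₐ[k] E, σ (x * b i)) * b.traceDual i := by
    intro x
    conv_lhs => rw [← b.traceDual.sum_repr x]
    apply Finset.sum_congr rfl
    intro i _
    rw [Module.Basis.traceDual_repr_apply, Algebra.traceForm_apply, Algebra.smul_def,
      trace_eq_sum_automorphisms]
  have hpoly : a = ∑ i, (∑ σ : E ≃ₐ[k] E, ga n σ (a * C (b i))) * C (b.traceDual i) := by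
    ext d
    rw [coeff_sum]
    conv_lhs => rw [htr (a.coeff d)]
    apply Finset.sum_congr rfl
    intro i _
    rw [mul_comm (∑ σ : E ≃ₐ[k] E, ga n σ (a * C (b i))) (C (b.traceDual i)), coeff_C_mul,
      coeff_sum, mul_comm]
    congr 1
    apply Finset.sum_congr rfl
    intro σ _
    unfold ga
    rw [coeff_map, mul_comm a (C (b i)), coeff_C_mul, mul_comm]
    rfl
  rw [hpoly]
  apply Ideal.sum_mem
  intro i _
  apply Ideal.mul_mem_right
  obtain ⟨c, hc⟩ : ∃ c : MvPolynomial (Fin n) k, ext k E n c =
      ∑ σ : E ≃ₐ[k] E, ga n σ (a * C (b i)) := by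
    apply ga_fixed
    intro τ
    rw [map_sum]
    apply Finset.sum_bij (fun σ _ => τ * σ)
    · intro σ _
      exact Finset.mem_univ _
    · intro σ _ σ' _ h
      exact mul_left_cancel h
    · intro σ _
      exact ⟨τ⁻¹ * σ, Finset.mem_univ _, by simp⟩
    · intro σ _
      rw [ga_mul]
  rw [← hc]
  apply Ideal.mem_map_of_mem
  rw [← hq', Ideal.mem_comap, hc]
  apply Ideal.sum_mem
  intro σ _
  rw [map_mul]
  exact Ideal.mul_mem_right _ _ (hconj σ)

theorem ext_radical {k E : Type} [Field k] [Field E] [Algebra k E]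
    [IsGalois k E] {n : ℕ} (p : Ideal (MvPolynomial (Fin n) k)) [hp : p.IsPrime] :
    (p.map (ext k E n)).IsRadical := by
  classical
  intro a ha
  obtain ⟨N, hN⟩ := ha
  obtain ⟨T, hT⟩ := (isNoetherianRing_iff_ideal_fg (MvPolynomial (Fin n) k)).mp inferInstance p
  have hN' : a ^ N ∈ Ideal.span ((T.image (ext k E n) : Finset _) : Set (MvPolynomial (Fin n) E)) := by
    rw [← hT, Ideal.map_span] at hN
    rwa [Finset.coe_image]
  obtain ⟨g, _, hg⟩ := Submodule.mem_span_finset.mp hN'
  obtain ⟨E0, hE0, hfd, hgal⟩ := exists_galois (k := k)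
    (cf a ∪ (T.image (ext k E n)).biUnion (fun t => cf (g t)))
  obtain ⟨a', ha'⟩ := descend_poly a E0 (fun x hx => hE0 x (Finset.mem_union_left _ hx))
  have hgd : ∀ t ∈ T.image (ext k E n), ∃ g' : MvPolynomial (Fin n) E0, ext E0 E n g' = g t := by
    intro t ht
    exact descend_poly (g t) E0 (fun x hx => hE0 x (Finset.mem_union_right _
      (Finset.mem_biUnion.mpr ⟨t, ht, hx⟩)))
  choose! g' hg' using hgd
  have hmem : a' ^ N ∈ p.map (ext k E0 n) := by
    have h1 : a' ^ N = ∑ t ∈ T, g' (ext k E n t) * ext k E0 n t := by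
      apply ext_inj (k := E0) (E := E)
      rw [map_pow, ha', map_sum, ← hg]
      rw [Finset.sum_image (fun x _ y _ h => ext_inj h)]
      apply Finset.sum_congr rfl
      intro t ht
      rw [map_mul, hg' _ (Finset.mem_image_of_mem _ ht), smul_eq_mul]
      congr 1
      have := congrArg (fun φ : MvPolynomial (Fin n) k →+* MvPolynomial (Fin n) E => φ t)
        (ext_comp (k := k) (E := E0) (L := E) n)
      exact this.symm
    rw [h1]
    apply Ideal.sum_mem
    intro t ht
    apply Ideal.mul_mem_left
    apply Ideal.mem_map_of_mem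
    rw [← hT]
    exact Ideal.subset_span ht
  have h2 : a' ∈ p.map (ext k E0 n) := ext_radical_fin p ⟨N, hmem⟩
  have h3 := Ideal.mem_map_of_mem (ext E0 E n) h2
  rw [ha', Ideal.map_map, ext_comp] at h3
  exact h3

end Pool.Agent.HCH
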