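import Pool.Agent.HCH.G2
import Pool.Agent.HCH.B3
import Pool.Agent.HCH.B

namespace Pool.Agent.HCH

open MvPolynomial

theorem descend_fin {k L : Type} [Field k] [Field L] [Algebra k L]
    [IsGalois k L] {n : ℕ} (f : MvPolynomial (Fin n) k) (e : ℕ)
    (z : PrimeSpectrum (MvPolynomial (Fin n) L) → ℤ) (hz : z ∈ ARat L (ext k L n f) e) :
    ∃ s : Finset L, ∀ E : IntermediateField k L, (∀ x ∈ s, x ∈ E) →
      ∃ z' ∈ ARat E (ext k E n f) e, ∀ q, z' (PrimeSpectrum.comap (ext E L n) q) = z q := by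
  classical
  unfold ARat at hz
  induction hz using AddSubgroup.closure_induction with
  | mem z hz =>
    obtain ⟨w, g, hf, hd, hg, rfl⟩ := hz
    obtain ⟨T, hT⟩ := (isNoetherianRing_iff_ideal_fg (MvPolynomial (Fin n) L)).mp inferInstance
      w.asIdeal
    refine ⟨cf g ∪ T.biUnion cf, ?_⟩
    intro E hE
    have hgalL : IsGalois E L := inferInstance
    have halgL : Algebra.IsAlgebraic E L := inferInstance
    obtain ⟨g', hg'⟩ := descend_poly g E (fun x hx => hE x (Finset.mem_union_left _ hx))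
    set w' := PrimeSpectrum.comap (ext E L n) w with hw'
    have hmap : w'.asIdeal.map (ext E L n) = w.asIdeal := by
      apply le_antisymm
      · rw [Ideal.map_le_iff_le_comap]
        exact le_rfl
      · rw [← hT, Ideal.span_le]
        intro t ht
        obtain ⟨t', ht'⟩ := descend_poly t E (fun x hx => hE x (Finset.mem_union_right _
          (Finset.mem_biUnion.mpr ⟨t, ht, hx⟩)))
        rw [← ht']
        apply Ideal.mem_map_of_mem
        change ext E L n t' ∈ w.asIdeal
        rw [ht', ← hT]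
        exact Ideal.subset_span ht
    have hfw : ext k E n f ∈ w'.asIdeal := by
      change ext E L n (ext k E n f) ∈ w.asIdeal
      have : ext E L n (ext k E n f) = ext k L n f := by
        unfold ext
        rw [MvPolynomial.map_map]
        rfl
      rw [this]
      exact hf
    have hdw : dm E w'.asIdeal = e + 1 := by
      rw [← hd]
      exact dm_alg w.asIdeal
    have hgw : g' ∉ w'.asIdeal := by
      intro hc
      apply hg
      rw [← hg']
      exact hc
    refine ⟨adiv E w'.asIdeal g' e, AddSubgroup.subset_closure ⟨w', g', hfw, hdw, hgw, rfl⟩, ?_⟩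
    intro q
    unfold adiv od
    have h1 : dm E (PrimeSpectrum.comap (ext E L n) q).asIdeal = dm L q.asIdeal :=
      dm_alg q.asIdeal
    have h2 : mlt (w'.asIdeal ⊔ Ideal.span {g'}) (PrimeSpectrum.comap (ext E L n) q) =
        mlt (w.asIdeal ⊔ Ideal.span {g}) q := by
      rw [← mlt_ext]
      congr 1
      rw [Ideal.map_sup, Ideal.map_span, Set.image_singleton, hmap, hg']
    rw [h1, h2]
  | zero =>
    refine ⟨∅, ?_⟩
    intro E _
    exact ⟨0, (ARat E (ext k E n f) e).zero_mem, fun _ => rfl⟩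
  | add x y _ _ hx hy =>
    obtain ⟨s1, hs1⟩ := hx
    obtain ⟨s2, hs2⟩ := hy
    refine ⟨s1 ∪ s2, ?_⟩
    intro E hE
    obtain ⟨z1, h1, h2⟩ := hs1 E (fun x hx => hE x (Finset.mem_union_left _ hx))
    obtain ⟨z2, h3, h4⟩ := hs2 E (fun x hx => hE x (Finset.mem_union_right _ hx))
    exact ⟨z1 + z2, (ARat E (ext k E n f) e).add_mem h1 h3, fun p => by
      rw [Pi.add_apply, Pi.add_apply, h2, h4]⟩
  | neg x _ hx =>
    obtain ⟨s1, hs1⟩ := hx
    refine ⟨s1, ?_⟩
    intro E hE
    obtain ⟨z1, h1, h2⟩ := hs1 E hE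
    exact ⟨-z1, (ARat E (ext k E n f) e).neg_mem h1, fun p => by
      rw [Pi.neg_apply, Pi.neg_apply, h2]⟩

end Pool.Agent.HCH
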