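import Pool.Agent.HCH.G0

namespace Pool.Agent.HCH

open MvPolynomial

open Classical in
theorem norm_pair {k E : Type} [Field k] [CharZero k] [Field E] [Algebra k E]
    [FiniteDimensional k E] [IsGalois k E] {n : ℕ} (w : PrimeSpectrum (MvPolynomial (Fin n) E))
    (b : MvPolynomial (Fin n) E) (hb : b ∉ w.asIdeal) :
    ∃ C D : MvPolynomial (Fin n) k, ext k E n C ∉ w.asIdeal ∧ ext k E n D ∉ w.asIdeal ∧
      ext k E n D * (∏ σ ∈ Finset.univ.filter (fun σ : E ≃ₐ[k] E =>
        PrimeSpectrum.comap (ga n σ) w = w), ga n σ b) - ext k E n C ∈ w.asIdeal := by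
  set H : Finset (E ≃ₐ[k] E) := Finset.univ.filter (fun σ : E ≃ₐ[k] E =>
        PrimeSpectrum.comap (ga n σ) w = w) with hH
  have hHmem : ∀ σ, σ ∈ H ↔ ∀ x, ga n σ x ∈ w.asIdeal ↔ x ∈ w.asIdeal := by
    intro σ
    rw [hH, Finset.mem_filter]
    constructor
    · rintro ⟨_, h⟩ x
      have h4 : x ∈ (PrimeSpectrum.comap (ga n σ) w).asIdeal ↔ x ∈ w.asIdeal := by rw [h]
      exact h4
    · intro h
      exact ⟨Finset.mem_univ _, PrimeSpectrum.ext (Ideal.ext h)⟩
  have hH1 : (1 : E ≃ₐ[k] E) ∈ H := by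
    rw [hHmem]
    intro x
    rw [ga_one]
  have hHmul : ∀ σ ∈ H, ∀ τ, σ * τ ∈ H ↔ τ ∈ H := by
    intro σ hσ τ
    rw [hHmem, hHmem]
    rw [hHmem] at hσ
    constructor
    · intro h x
      rw [← hσ, ← ga_mul, h]
    · intro h x
      rw [ga_mul, hσ, h]
  -- the product over H
  have hinv : ∀ (c : MvPolynomial (Fin n) E), ∀ σ ∈ H, ga n σ (∏ τ ∈ H, ga n τ c) =
      ∏ τ ∈ H, ga n τ c := by
    intro c σ hσ
    rw [map_prod]
    apply Finset.prod_bij (fun τ _ => σ * τ)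
    · intro τ hτ
      exact (hHmul σ hσ τ).mpr hτ
    · intro τ _ τ' _ h
      exact mul_left_cancel h
    · intro τ hτ
      refine ⟨σ⁻¹ * τ, ?_, by simp⟩
      rw [← hHmul σ hσ]
      simpa using hτ
    · intro τ _
      rw [ga_mul]
  have hnot : ∀ (c : MvPolynomial (Fin n) E), c ∉ w.asIdeal →
      (∏ τ ∈ H, ga n τ c) ∉ w.asIdeal := by
    intro c hc h
    obtain ⟨σ, hσ, h1⟩ := w.isPrime.prod_mem_iff.mp h
    rw [hHmem] at hσ
    exact hc ((hσ c).mp h1)
  set B := ∏ τ ∈ H, ga n τ b with hB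
  have hBnot : B ∉ w.asIdeal := hnot b hb
  -- an element of all the other conjugates
  have hsep : ∀ σ : E ≃ₐ[k] E, σ ∉ H → ∃ a : MvPolynomial (Fin n) E, ga n σ a ∈ w.asIdeal ∧
      a ∉ w.asIdeal := by
    intro σ hσ
    by_contra hcon
    push Not at hcon
    apply hσ
    rw [hH, Finset.mem_filter]
    refine ⟨Finset.mem_univ _, ?_⟩
    have hle : (PrimeSpectrum.comap (ga n σ) w).asIdeal ≤ w.asIdeal := fun a ha => hcon a ha
    apply PrimeSpectrum.ext
    exact eq_of_dm_le (K := E) _ _ hle (by rw [ga_dm])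
  choose! a0 ha0 ha0' using hsep
  set a := ∏ σ ∈ Finset.univ.filter (fun σ => σ ∉ H), a0 σ with ha
  have hanot : a ∉ w.asIdeal := by
    intro h
    obtain ⟨σ, hσ, h1⟩ := w.isPrime.prod_mem_iff.mp h
    rw [Finset.mem_filter] at hσ
    exact ha0' σ hσ.2 h1
  have hain : ∀ σ, σ ∉ H → ga n σ a ∈ w.asIdeal := by
    intro σ hσ
    rw [ha, map_prod]
    have hs : σ ∈ Finset.univ.filter (fun σ => σ ∉ H) := by
      rw [Finset.mem_filter]
      exact ⟨Finset.mem_univ _, hσ⟩
    exact w.asIdeal.mem_of_dvd (Finset.dvd_prod_of_mem (fun τ => ga n σ (a0 τ)) hs) (ha0 σ hσ)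
  set A := ∏ τ ∈ H, ga n τ a with hA
  have hAnot : A ∉ w.asIdeal := hnot a hanot
  have hAin : ∀ σ, σ ∉ H → ga n σ A ∈ w.asIdeal := by
    intro σ hσ
    rw [hA, map_prod]
    have h1 := Finset.dvd_prod_of_mem (fun τ => ga n σ (ga n τ a)) hH1
    refine w.asIdeal.mem_of_dvd h1 ?_
    rw [ga_one]
    exact hain σ hσ
  -- sums over the group
  have hfix : ∀ c : MvPolynomial (Fin n) E, ∃ c0 : MvPolynomial (Fin n) k,
      ext k E n c0 = ∑ σ : E ≃ₐ[k] E, ga n σ c := by
    intro c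
    apply ga_fixed
    intro τ
    rw [map_sum]
    apply Finset.sum_bij (fun σ _ => τ * σ)
    · intro σ _
      exact Finset.mem_univ _
    · intro σ _ σ' _ h
      exact mul_left_cancel h
    · intro σ _
      exact ⟨τ⁻¹ * σ, Finset.mem_univ _, by simp⟩
    · intro σ _
      rw [ga_mul]
  have hcong : ∀ c : MvPolynomial (Fin n) E, (∀ σ ∈ H, ga n σ c = c) →
      (∀ σ, σ ∉ H → ga n σ c ∈ w.asIdeal) →
      (∑ σ : E ≃ₐ[k] E, ga n σ c) - (H.card : MvPolynomial (Fin n) E) * c ∈ w.asIdeal := by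
    intro c h1 h2
    have h3 : (∑ σ : E ≃ₐ[k] E, ga n σ c) = (∑ σ ∈ H, ga n σ c) +
        ∑ σ ∈ Finset.univ.filter (fun σ => σ ∉ H), ga n σ c := by
      rw [← Finset.sum_filter_add_sum_filter_not Finset.univ (fun σ => σ ∈ H)]
      congr 1
      apply Finset.sum_congr _ (fun _ _ => rfl)
      ext σ
      simp
    have h4 : (∑ σ ∈ H, ga n σ c) = (H.card : MvPolynomial (Fin n) E) * c := by
      rw [Finset.sum_congr rfl h1, Finset.sum_const, nsmul_eq_mul]
    rw [h3, h4, add_sub_cancel_left]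
    apply w.asIdeal.sum_mem
    intro σ hσ
    rw [Finset.mem_filter] at hσ
    exact h2 σ hσ.2
  obtain ⟨D, hD⟩ := hfix A
  obtain ⟨C, hC⟩ := hfix (A * B)
  have hDc := hcong A (hinv a) hAin
  have hCc := hcong (A * B) (by
    intro σ hσ
    rw [map_mul, hinv a σ hσ, hinv b σ hσ]) (by
    intro σ hσ
    rw [map_mul]
    exact w.asIdeal.mul_mem_right _ (hAin σ hσ))
  rw [← hD] at hDc
  rw [← hC] at hCc
  have hcard : (H.card : MvPolynomial (Fin n) E) ∉ w.asIdeal := by
    intro h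
    have cE : CharZero E := charZero_of_injective_algebraMap (algebraMap k E).injective
    have h1 : (H.card : E) ≠ 0 := by
      rw [Nat.cast_ne_zero]
      exact (Finset.card_pos.mpr ⟨1, hH1⟩).ne'
    apply w.isPrime.ne_top
    apply Ideal.eq_top_of_isUnit_mem _ h
    have h2 : (H.card : MvPolynomial (Fin n) E) = MvPolynomial.C (H.card : E) := by simp
    rw [h2]
    exact (isUnit_iff_ne_zero.mpr h1).map _
  refine ⟨C, D, ?_, ?_, ?_⟩
  · intro h
    have h1 := w.asIdeal.sub_mem h hCc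
    rw [sub_sub_cancel] at h1
    rcases w.isPrime.mem_or_mem h1 with h2 | h2
    · exact hcard h2
    · rcases w.isPrime.mem_or_mem h2 with h3 | h3
      · exact hAnot h3
      · exact hBnot h3
  · intro h
    have h1 := w.asIdeal.sub_mem h hDc
    rw [sub_sub_cancel] at h1
    rcases w.isPrime.mem_or_mem h1 with h2 | h2
    · exact hcard h2
    · exact hAnot h2
  · have h1 := w.asIdeal.sub_mem (w.asIdeal.mul_mem_right B hDc) hCc
    have h2 : (ext k E n D - (H.card : MvPolynomial (Fin n) E) * A) * B -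
        (ext k E n C - (H.card : MvPolynomial (Fin n) E) * (A * B)) =
        ext k E n D * B - ext k E n C := by ring
    rw [h2] at h1
    exact h1

end Pool.Agent.HCH
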