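import Pool.Agent.HCH.A2
import Pool.Agent.HCH.B2

namespace Pool.Agent.HCH

open MvPolynomial

/-
ROW H1 (1.2 h). Invariance of Hart under isomorphisms of polynomial rings which preserve forms. c = PrimeSpectrum.comap Φ (a bijection PrimeSpectrum K'[x] → PrimeSpectrum K[x], inverse
comap Φ.symm). HgI (c P') ↔ HgI P' (components commute with Φ, since Φ maps forms to forms of the same degree), F ∈ c P' ↔ Φ F ∈ P', dm K (c P') = dm K' P' (dm_semi),
mlt (c W' ⊔ (Φ⁻¹ G')) (c P') = mlt (W' ⊔ (G')) P' (mlt_surj with φ = Φ, kernel ⊥; (c W').map Φ = W'). So z' ∈ PRat (Φ F) e implies z' ∘ (comap Φ.symm) ∈ PRat F e (closure_induction).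
l = Φ.symm ∘ l' as flag: flag F l i = comap Φ (flag (Φ F) l' i). Given P ∋ F apply the hypothesis to P' = comap Φ.symm P.
-/
section H1

variable {K K' : Type} [Field K] [Field K'] {m : ℕ}

theorem h1_comp (Φ : MvPolynomial (Fin m) K ≃+* MvPolynomial (Fin m) K')
    (h1 : ∀ (f : MvPolynomial (Fin m) K) (a : ℕ), f.IsHomogeneous a → (Φ f).IsHomogeneous a)
    (f : MvPolynomial (Fin m) K) (n : ℕ) :
    homogeneousComponent n (Φ f) = Φ (homogeneousComponent n f) := by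
  have h3 : Φ f = ∑ k ∈ Finset.range (f.totalDegree + 1), Φ (homogeneousComponent k f) := by
    conv_lhs => rw [← sum_homogeneousComponent f]
    rw [map_sum]
  rw [h3, map_sum]
  have h4 : ∀ k, homogeneousComponent n (Φ (homogeneousComponent k f)) =
      if n = k then Φ (homogeneousComponent k f) else 0 := by
    intro k
    exact homogeneousComponent_of_mem (h1 _ _ (homogeneousComponent_isHomogeneous k f))
  rw [Finset.sum_congr rfl (fun k _ => h4 k), Finset.sum_ite_eq]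
  by_cases hn : n ∈ Finset.range (f.totalDegree + 1)
  · rw [if_pos hn]
  · rw [if_neg hn, homogeneousComponent_eq_zero, map_zero]
    rw [Finset.mem_range] at hn
    omega

theorem h1_hg (Φ : MvPolynomial (Fin m) K ≃+* MvPolynomial (Fin m) K')
    (h1 : ∀ (f : MvPolynomial (Fin m) K) (a : ℕ), f.IsHomogeneous a → (Φ f).IsHomogeneous a)
    (P' : Ideal (MvPolynomial (Fin m) K')) (h : HgI P') :
    HgI (P'.comap (Φ : MvPolynomial (Fin m) K →+* MvPolynomial (Fin m) K')) := by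
  intro f hf n
  rw [Ideal.mem_comap] at hf ⊢
  have h3 := h _ hf n
  have h4 := h1_comp Φ h1 f n
  change homogeneousComponent n (Φ f) ∈ P' at h3
  change Φ (homogeneousComponent n f) ∈ P'
  rwa [h4] at h3

/-- transport of primes -/
noncomputable def h1_c (Φ : MvPolynomial (Fin m) K ≃+* MvPolynomial (Fin m) K') :
    PrimeSpectrum (MvPolynomial (Fin m) K') → PrimeSpectrum (MvPolynomial (Fin m) K) :=
  PrimeSpectrum.comap (Φ : MvPolynomial (Fin m) K →+* MvPolynomial (Fin m) K')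

theorem h1_cs (Φ : MvPolynomial (Fin m) K ≃+* MvPolynomial (Fin m) K')
    (P : PrimeSpectrum (MvPolynomial (Fin m) K)) : h1_c Φ (h1_c Φ.symm P) = P := by
  apply PrimeSpectrum.ext
  ext x
  change Φ.symm (Φ x) ∈ P.asIdeal ↔ x ∈ P.asIdeal
  rw [RingEquiv.symm_apply_apply]

theorem h1_sc (Φ : MvPolynomial (Fin m) K ≃+* MvPolynomial (Fin m) K')
    (P : PrimeSpectrum (MvPolynomial (Fin m) K')) : h1_c Φ.symm (h1_c Φ P) = P := by
  apply PrimeSpectrum.ext
  ext x
  change Φ (Φ.symm x) ∈ P.asIdeal ↔ x ∈ P.asIdeal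
  rw [RingEquiv.apply_symm_apply]

theorem h1_dm (ε : K ≃+* K') (Φ : MvPolynomial (Fin m) K ≃+* MvPolynomial (Fin m) K')
    (hΦ : ∀ a, Φ (C a) = C (ε a)) (P : PrimeSpectrum (MvPolynomial (Fin m) K')) :
    dm K (h1_c Φ P).asIdeal = dm K' P.asIdeal := by
  have := P.isPrime
  exact dm_semi ε Φ hΦ P.asIdeal

theorem h1_dms (ε : K ≃+* K') (Φ : MvPolynomial (Fin m) K ≃+* MvPolynomial (Fin m) K')
    (hΦ : ∀ a, Φ (C a) = C (ε a)) (P : PrimeSpectrum (MvPolynomial (Fin m) K)) :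
    dm K' (h1_c Φ.symm P).asIdeal = dm K P.asIdeal := by
  rw [← h1_dm ε Φ hΦ, h1_cs]

theorem h1_map (Φ : MvPolynomial (Fin m) K ≃+* MvPolynomial (Fin m) K')
    (W' : PrimeSpectrum (MvPolynomial (Fin m) K')) (G' : MvPolynomial (Fin m) K') :
    ((h1_c Φ W').asIdeal ⊔ Ideal.span {Φ.symm G'}).map
      (Φ : MvPolynomial (Fin m) K →+* MvPolynomial (Fin m) K') =
      W'.asIdeal ⊔ Ideal.span {G'} := by
  rw [Ideal.map_sup, Ideal.map_span, Set.image_singleton]
  have h1 : ((h1_c Φ W').asIdeal).map (Φ : MvPolynomial (Fin m) K →+* MvPolynomial (Fin m) K') =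
      W'.asIdeal :=
    Ideal.map_comap_of_surjective (Φ : MvPolynomial (Fin m) K →+* MvPolynomial (Fin m) K')
      Φ.surjective W'.asIdeal
  have h2 : (Φ : MvPolynomial (Fin m) K →+* MvPolynomial (Fin m) K') (Φ.symm G') = G' :=
    Φ.apply_symm_apply G'
  rw [h1, h2]

theorem h1_od (Φ : MvPolynomial (Fin m) K ≃+* MvPolynomial (Fin m) K')
    (W' : PrimeSpectrum (MvPolynomial (Fin m) K')) (G' : MvPolynomial (Fin m) K')
    (P : PrimeSpectrum (MvPolynomial (Fin m) K)) :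
    od (W'.asIdeal ⊔ Ideal.span {G'}) (h1_c Φ.symm P) =
      od ((h1_c Φ W').asIdeal ⊔ Ideal.span {Φ.symm G'}) P := by
  unfold od
  rw [← h1_map Φ W' G']
  have h3 := mlt_surj (Φ : MvPolynomial (Fin m) K →+* MvPolynomial (Fin m) K') Φ.surjective
    ((h1_c Φ W').asIdeal ⊔ Ideal.span {Φ.symm G'}) (by
      intro x hx
      rw [RingHom.mem_ker] at hx
      have h4 : x = 0 := by
        apply Φ.injective
        rw [map_zero]
        exact hx
      rw [h4]
      exact Submodule.zero_mem _) (h1_c Φ.symm P)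
  rw [h3]
  have h5 : PrimeSpectrum.comap (Φ : MvPolynomial (Fin m) K →+* MvPolynomial (Fin m) K')
      (h1_c Φ.symm P) = P := h1_cs Φ P
  rw [h5]

theorem h1_pdiv (ε : K ≃+* K') (Φ : MvPolynomial (Fin m) K ≃+* MvPolynomial (Fin m) K')
    (hΦ : ∀ a, Φ (C a) = C (ε a))
    (h1 : ∀ (f : MvPolynomial (Fin m) K) (a : ℕ), f.IsHomogeneous a → (Φ f).IsHomogeneous a)
    (h2 : ∀ (f : MvPolynomial (Fin m) K') (a : ℕ), f.IsHomogeneous a →
      (Φ.symm f).IsHomogeneous a)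
    (W' : PrimeSpectrum (MvPolynomial (Fin m) K')) (G' : MvPolynomial (Fin m) K') (e : ℕ)
    (P : PrimeSpectrum (MvPolynomial (Fin m) K)) :
    pdiv K' W'.asIdeal G' e (h1_c Φ.symm P) =
      pdiv K (h1_c Φ W').asIdeal (Φ.symm G') e P := by
  unfold pdiv
  have hiff : (HgI (h1_c Φ.symm P).asIdeal ∧ dm K' (h1_c Φ.symm P).asIdeal = e) ↔
      (HgI P.asIdeal ∧ dm K P.asIdeal = e) := by
    rw [h1_dms ε Φ hΦ]
    constructor
    · rintro ⟨h3, h4⟩
      refine ⟨?_, h4⟩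
      have h5 := h1_hg Φ h1 _ h3
      have h6 : (h1_c Φ.symm P).asIdeal.comap
          (Φ : MvPolynomial (Fin m) K →+* MvPolynomial (Fin m) K') = P.asIdeal :=
        congrArg PrimeSpectrum.asIdeal (h1_cs Φ P)
      rwa [h6] at h5
    · rintro ⟨h3, h4⟩
      exact ⟨h1_hg Φ.symm h2 _ h3, h4⟩
  by_cases hc : HgI P.asIdeal ∧ dm K P.asIdeal = e
  · rw [if_pos hc, if_pos (hiff.2 hc), h1_od]
  · rw [if_neg hc, if_neg (fun h => hc (hiff.1 h))]

theorem h1_prat (ε : K ≃+* K') (Φ : MvPolynomial (Fin m) K ≃+* MvPolynomial (Fin m) K')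
    (hΦ : ∀ a, Φ (C a) = C (ε a))
    (h1 : ∀ (f : MvPolynomial (Fin m) K) (a : ℕ), f.IsHomogeneous a → (Φ f).IsHomogeneous a)
    (h2 : ∀ (f : MvPolynomial (Fin m) K') (a : ℕ), f.IsHomogeneous a →
      (Φ.symm f).IsHomogeneous a) (F : MvPolynomial (Fin m) K) (e : ℕ)
    (z' : PrimeSpectrum (MvPolynomial (Fin m) K') → ℤ) (hz : z' ∈ PRat (Φ F) e) :
    (fun P => z' (h1_c Φ.symm P)) ∈ PRat F e := by
  unfold PRat at hz
  induction hz using AddSubgroup.closure_induction with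
  | mem x hx =>
    obtain ⟨W', G', H', a, hW1, hW2, hW3, hG, hH, hGW, hHW, rfl⟩ := hx
    apply AddSubgroup.subset_closure
    refine ⟨h1_c Φ W', Φ.symm G', Φ.symm H', a, h1_hg Φ h1 _ hW1, hW2, ?_, h2 _ _ hG, h2 _ _ hH,
      ?_, ?_, ?_⟩
    · rw [h1_dm ε Φ hΦ]
      exact hW3
    · intro h
      apply hGW
      have h3 : Φ (Φ.symm G') ∈ W'.asIdeal := h
      rwa [RingEquiv.apply_symm_apply] at h3
    · intro h
      apply hHW
      have h3 : Φ (Φ.symm H') ∈ W'.asIdeal := h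
      rwa [RingEquiv.apply_symm_apply] at h3
    · funext P
      simp only [Pi.sub_apply]
      rw [h1_pdiv ε Φ hΦ h1 h2, h1_pdiv ε Φ hΦ h1 h2]
  | zero => exact AddSubgroup.zero_mem _
  | add x y _ _ hx hy => exact AddSubgroup.add_mem _ hx hy
  | neg x _ hx => exact AddSubgroup.neg_mem _ hx

theorem h1_flag (Φ : MvPolynomial (Fin m) K ≃+* MvPolynomial (Fin m) K')
    (F : MvPolynomial (Fin m) K) (l' : ℕ → MvPolynomial (Fin m) K') (i : ℕ) :
    flag F (fun k => Φ.symm (l' k)) i = (flag (Φ F) l' i).comap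
      (Φ : MvPolynomial (Fin m) K →+* MvPolynomial (Fin m) K') := by
  have h1 : (flag F (fun k => Φ.symm (l' k)) i).map
      (Φ : MvPolynomial (Fin m) K →+* MvPolynomial (Fin m) K') = flag (Φ F) l' i := by
    unfold flag
    rw [Ideal.map_span, Set.image_union, Set.image_singleton, Set.image_image]
    congr 2
    apply Set.image_congr
    intro k _
    exact Φ.apply_symm_apply (l' k)
  rw [← h1]
  exact (Ideal.comap_map_of_bijective (Φ : MvPolynomial (Fin m) K →+* MvPolynomial (Fin m) K')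
    Φ.bijective).symm

theorem h1_cls (Φ : MvPolynomial (Fin m) K ≃+* MvPolynomial (Fin m) K')
    (P' : PrimeSpectrum (MvPolynomial (Fin m) K')) (Q : PrimeSpectrum (MvPolynomial (Fin m) K)) :
    cls P' (h1_c Φ.symm Q) = cls (h1_c Φ P') Q := by
  unfold cls
  by_cases h : Q = h1_c Φ P'
  · rw [if_pos h, if_pos]
    rw [h, h1_sc]
  · rw [if_neg h, if_neg]
    intro h3
    apply h
    rw [← h3, h1_cs]

end H1

theorem hart_equiv {K K' : Type} [Field K] [Field K'] {m : ℕ} (ε : K ≃+* K')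
    (Φ : MvPolynomial (Fin m) K ≃+* MvPolynomial (Fin m) K') (hΦ : ∀ a, Φ (C a) = C (ε a))
    (h1 : ∀ (f : MvPolynomial (Fin m) K) (a : ℕ), f.IsHomogeneous a → (Φ f).IsHomogeneous a)
    (h2 : ∀ (f : MvPolynomial (Fin m) K') (a : ℕ), f.IsHomogeneous a →
      (Φ.symm f).IsHomogeneous a) (F : MvPolynomial (Fin m) K) (j : ℕ) (h : Hart (Φ F) j) :
    Hart F j := by
  obtain ⟨l', hl1, hl2, hl3⟩ := h
  refine ⟨fun k => Φ.symm (l' k), fun k => h2 _ _ (hl1 k), ?_, ?_⟩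
  · intro i hi
    obtain ⟨h3, h4⟩ := hl2 i hi
    rw [h1_flag]
    refine ⟨Ideal.comap_isPrime _ _, ?_⟩
    rw [← h4]
    exact dm_semi ε Φ hΦ _
  · intro P hP1 hP2 hP3
    obtain ⟨N, hN, c, Q', hQ', hz⟩ := hl3 (h1_c Φ.symm P) (h1_hg Φ.symm h2 _ hP1) (by
      change Φ.symm (Φ F) ∈ P.asIdeal
      rwa [RingEquiv.symm_apply_apply]) (by
      rw [h1_dms ε Φ hΦ]
      exact hP3)
    refine ⟨N, hN, c, h1_c Φ Q', ?_, ?_⟩
    · rw [h1_flag, ← hQ']
      rfl
    · have h3 := h1_prat ε Φ hΦ h1 h2 F _ _ hz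
      have h4 : (fun Q => ((N : ℤ) • cls (h1_c Φ.symm P) - c • cls Q') (h1_c Φ.symm Q)) =
          (N : ℤ) • cls P - c • cls (h1_c Φ Q') := by
        funext Q
        simp only [Pi.sub_apply, Pi.smul_apply]
        rw [h1_cls, h1_cls, h1_cs]
      rwa [h4] at h3

end Pool.Agent.HCH
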