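import Pool.Agent.HCH.I1

namespace Pool.Agent.HCH

open MvPolynomial

theorem hart_of_ct {K : Type} [Field K] {n : ℕ} (F : MvPolynomial (Fin (n + 2)) K) (i : ℕ)
    (h : ChowTriv F i) : Hart F i := by
  classical
  obtain ⟨l, hl, hfl, S, hS, hx⟩ := h
  refine ⟨l, hl, hfl, ?_⟩
  intro P hPh hPF hPd
  have hPd' : dm K P.asIdeal = n + 1 - i := hPd
  have e0 : n + 2 - 1 - i = n + 1 - i := rfl
  rw [e0]
  let P0 : Sub F (n + 1 - i) := ⟨P, hPh, hPF, hPd'⟩
  obtain ⟨c, hc⟩ := hx ((RatEq F (n + 1 - i)).mkQ (Finsupp.single P0 1))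
  have hv : Finsupp.single P0 (1 : ℚ) - c • Finsupp.single S 1 ∈ RatEq F (n + 1 - i) := by
    rw [← map_smul, Submodule.mkQ_apply, Submodule.mkQ_apply, Submodule.Quotient.eq] at hc
    exact hc
  obtain ⟨N, hN, Z, hZ, hZv, hZo⟩ := rat_int F _ _ hv
  refine ⟨N * c.den, Nat.mul_pos hN c.den_pos, N * c.num, S.1, hS, ?_⟩
  have hkey : ((N * c.den : ℕ) : ℤ) • cls P - (N * c.num : ℤ) • cls S.1 = (c.den : ℤ) • Z := by
    funext P1
    rw [Pi.sub_apply, Pi.smul_apply, Pi.smul_apply, Pi.smul_apply]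
    by_cases h1 : HgI P1.asIdeal ∧ F ∈ P1.asIdeal ∧ dm K P1.asIdeal = n + 1 - i
    · have h2 := hZv ⟨P1, h1⟩
      have h3 : ∀ (A : Sub F (n + 1 - i)), (Finsupp.single A (1 : ℚ)) ⟨P1, h1⟩ =
          ((cls A.1 P1 : ℤ) : ℚ) := by
        intro A
        rw [Finsupp.single_apply]
        unfold cls
        by_cases h4 : P1 = A.1
        · rw [if_pos (Subtype.ext h4.symm), if_pos h4]
          simp
        · rw [if_neg (fun h5 => h4 (congrArg Subtype.val h5).symm), if_neg h4]
          simp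
      rw [Finsupp.sub_apply, Finsupp.smul_apply, h3, h3] at h2
      have h5 : (c.num : ℚ) = c * c.den := by
        exact_mod_cast (Rat.mul_den_eq_num c).symm
      have h6 : (((N * c.den : ℕ) : ℤ) • cls P P1 - (N * c.num : ℤ) • cls S.1 P1 : ℤ) =
          (((c.den : ℤ) • Z P1 : ℤ) : ℚ) := by
        simp only [smul_eq_mul] at h2 ⊢
        push_cast
        rw [h2, h5]
        ring
      exact_mod_cast h6
    · rw [hZo P1 h1, smul_zero]
      have h2 : ∀ A : Sub F (n + 1 - i), cls A.1 P1 = 0 := by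
        intro A
        unfold cls
        rw [if_neg]
        rintro rfl
        exact h1 A.2
      have h3 := h2 P0
      have h4 := h2 S
      change cls P P1 = 0 at h3
      rw [h3, h4]
      simp
  rw [hkey]
  exact (PRat F _).zsmul_mem hZ _

theorem ct_of_hart {K : Type} [Field K] {n d : ℕ} (F : MvPolynomial (Fin (n + 2)) K)
    (hF : F.IsHomogeneous d) (i : ℕ) (h : Hart F i) : ChowTriv F i := by
  classical
  obtain ⟨l, hl, hfl, hP⟩ := h
  obtain ⟨hSp, hSd⟩ := hfl i le_rfl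
  have hSd' : dm K (flag F l i) = n + 1 - i := hSd
  let S : Sub F (n + 1 - i) := ⟨⟨flag F l i, hSp⟩, flag_homog F d hF l hl i,
    Ideal.subset_span (Or.inl rfl), hSd'⟩
  refine ⟨l, hl, hfl, S, rfl, ?_⟩
  have hsingle : ∀ P : Sub F (n + 1 - i), ∃ c : ℚ,
      (RatEq F (n + 1 - i)).mkQ (Finsupp.single P 1) =
        c • (RatEq F (n + 1 - i)).mkQ (Finsupp.single S 1) := by
    intro P
    obtain ⟨N, hN, c, Q, hQ, hz⟩ := hP P.1 P.2.1 P.2.2.1 P.2.2.2
    have hQS : Q = S.1 := PrimeSpectrum.ext hQ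
    subst hQS
    have hv := int_rat F (n + 1 - i) _ hz
      ((N : ℚ) • Finsupp.single P 1 - (c : ℚ) • Finsupp.single S 1) (by
      intro P1
      have h3 : ∀ (A : Sub F (n + 1 - i)), (Finsupp.single A (1 : ℚ)) P1 =
          ((cls A.1 P1.1 : ℤ) : ℚ) := by
        intro A
        rw [Finsupp.single_apply]
        unfold cls
        by_cases h4 : P1.1 = A.1
        · rw [if_pos (Subtype.ext h4.symm), if_pos h4]
          simp
        · rw [if_neg (fun h5 => h4 (congrArg Subtype.val h5).symm), if_neg h4]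
          simp
      rw [Finsupp.sub_apply, Finsupp.smul_apply, Finsupp.smul_apply, h3, h3, Pi.sub_apply,
        Pi.smul_apply, Pi.smul_apply]
      simp only [smul_eq_mul]
      push_cast
      rfl)
    have h1 : (RatEq F (n + 1 - i)).mkQ
        ((N : ℚ) • Finsupp.single P 1 - (c : ℚ) • Finsupp.single S 1) = 0 :=
      (Submodule.Quotient.mk_eq_zero _).mpr hv
    rw [map_sub, map_smul, map_smul, sub_eq_zero] at h1
    have hN' : (N : ℚ) ≠ 0 := by exact_mod_cast hN.ne'
    refine ⟨c / N, ?_⟩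
    have h2 : (RatEq F (n + 1 - i)).mkQ (Finsupp.single P 1) = (N : ℚ)⁻¹ •
        ((N : ℚ) • (RatEq F (n + 1 - i)).mkQ (Finsupp.single P 1)) := by
      rw [smul_smul, inv_mul_cancel₀ hN', one_smul]
    rw [h2, h1, smul_smul]
    congr 1
    field_simp
  intro x
  obtain ⟨w, rfl⟩ := Submodule.mkQ_surjective _ x
  induction w using Finsupp.induction_linear with
  | zero => exact ⟨0, by simp⟩
  | add a b ha hb =>
    obtain ⟨c1, h1⟩ := ha
    obtain ⟨c2, h2⟩ := hb
    exact ⟨c1 + c2, by rw [map_add, h1, h2, add_smul]⟩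
  | single P a =>
    obtain ⟨c, hc⟩ := hsingle P
    refine ⟨a * c, ?_⟩
    have : Finsupp.single P a = a • Finsupp.single P (1 : ℚ) := by
      rw [Finsupp.smul_single, smul_eq_mul, mul_one]
    rw [this, map_smul, hc, smul_smul]

end Pool.Agent.HCH
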