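import Pool.Agent.HCH.C3b
import Pool.Agent.HCH.C4
import Pool.Agent.HCH.A2
import Pool.Agent.HCH.B

namespace Pool.Agent.HCH

open MvPolynomial

theorem mem_deh {K : Type} [Field K] {m : ℕ} (w : PrimeSpectrum (MvPolynomial (Fin m) K))
    (F : MvPolynomial (Fin (m + 1)) K) (hF : F ∈ (hm w).asIdeal) : deh F ∈ w.asIdeal := by
  have h := Ideal.mem_map_of_mem
    (deh : MvPolynomial (Fin (m + 1)) K →ₐ[K] MvPolynomial (Fin m) K) hF
  rwa [map_hm] at h

/-- The divisor of a form restricted to the affine part. -/
theorem pdiv_hm {K : Type} [Field K] {m : ℕ} (w : PrimeSpectrum (MvPolynomial (Fin m) K))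
    (G : MvPolynomial (Fin (m + 1)) K) (a : ℕ) (hG : G.IsHomogeneous a) (e : ℕ)
    (p : PrimeSpectrum (MvPolynomial (Fin m) K)) :
    pdiv K (hm w).asIdeal G (e + 1) (hm p) = adiv K w.asIdeal (deh G) e p := by
  classical
  unfold pdiv adiv od
  have h1 : HgI (hm p).asIdeal := hm_homog p
  have h2 := dm_hm p
  have h3 := mlt_hm w p G a hG
  rw [h2, h3]
  by_cases h4 : dm K p.asIdeal = e
  · rw [if_pos h4, if_pos ⟨h1, by rw [h4]⟩]
  · rw [if_neg h4, if_neg]
    rintro ⟨_, h5⟩
    omega

theorem res_PRat {K : Type} [Field K] {m : ℕ} (F : MvPolynomial (Fin (m + 1)) K) (e : ℕ)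
    (z : PrimeSpectrum (MvPolynomial (Fin (m + 1)) K) → ℤ) (hz : z ∈ PRat F (e + 1)) :
    (fun p => z (hm p)) ∈ ARat K (deh F) e := by
  classical
  unfold PRat at hz
  induction hz using AddSubgroup.closure_induction with
  | mem z hz =>
    obtain ⟨W, G, H, a, hW, hF, hd, hG, hH, hGW, hHW, rfl⟩ := hz
    by_cases hl : (X (Fin.last m) : MvPolynomial (Fin (m + 1)) K) ∈ W.asIdeal
    · have h0 : ∀ (G : MvPolynomial (Fin (m + 1)) K) p, pdiv K W.asIdeal G (e + 1) (hm p) = 0 := by
        intro G p
        unfold pdiv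
        have : od (W.asIdeal ⊔ Ideal.span {G}) (hm p) = 0 := by
          unfold od
          rw [mlt_eq_zero]
          · simp
          · intro hle
            exact last_notMem p (hle (Submodule.mem_sup_left hl))
        rw [this]
        split_ifs <;> rfl
      have : (fun p => (pdiv K W.asIdeal G (e + 1) - pdiv K W.asIdeal H (e + 1)) (hm p)) = 0 := by
        funext p
        rw [Pi.sub_apply, h0, h0, sub_zero]
        rfl
      rw [this]
      exact (ARat K (deh F) e).zero_mem
    · obtain ⟨w, rfl⟩ := hm_surj W hW hl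
      have hdw : dm K w.asIdeal = e + 1 := by
        rw [dm_hm] at hd
        omega
      have key : ∀ (G : MvPolynomial (Fin (m + 1)) K), G.IsHomogeneous a → G ∉ (hm w).asIdeal →
          (fun p => pdiv K (hm w).asIdeal G (e + 1) (hm p)) ∈ ARat K (deh F) e := by
        intro G hG hGW
        apply AddSubgroup.subset_closure
        refine ⟨w, deh G, mem_deh w F hF, hdw, ?_, ?_⟩
        · intro hc
          exact hGW ((mem_hm w G a hG).mpr hc)
        · funext p
          exact pdiv_hm w G a hG e p
      exact (ARat K (deh F) e).sub_mem (key G hG hGW) (key H hH hHW)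
  | zero => exact (ARat K (deh F) e).zero_mem
  | add x y _ _ hx hy => exact (ARat K (deh F) e).add_mem hx hy
  | neg x _ hx => exact (ARat K (deh F) e).neg_mem hx

theorem res_cls {K : Type} [Field K] {m : ℕ} (F G : MvPolynomial (Fin (m + 1)) K) (e b : ℕ)
    (W Q : PrimeSpectrum (MvPolynomial (Fin (m + 1)) K)) (hW : HgI W.asIdeal)
    (hQ : HgI Q.asIdeal) (hF : F ∈ W.asIdeal) (hdW : dm K W.asIdeal = e + 2)
    (hdQ : dm K Q.asIdeal = e + 1) (hG : G.IsHomogeneous b)
    (h : W.asIdeal ⊔ Ideal.span {G} = Q.asIdeal) :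
    (fun p => cls Q (hm p)) ∈ ARat K (deh F) e := by
  classical
  by_cases hl : (X (Fin.last m) : MvPolynomial (Fin (m + 1)) K) ∈ Q.asIdeal
  · have : (fun p => cls Q (hm p)) = (0 : PrimeSpectrum (MvPolynomial (Fin m) K) → ℤ) := by
      funext p
      unfold cls
      rw [if_neg]
      · rfl
      · intro hc
        apply last_notMem p
        rw [hc]
        exact hl
    rw [this]
    exact (ARat K (deh F) e).zero_mem
  · have hlW : (X (Fin.last m) : MvPolynomial (Fin (m + 1)) K) ∉ W.asIdeal := by
      intro hc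
      apply hl
      rw [← h]
      exact Submodule.mem_sup_left hc
    obtain ⟨q, rfl⟩ := hm_surj Q hQ hl
    obtain ⟨w, rfl⟩ := hm_surj W hW hlW
    have hdw : dm K w.asIdeal = e + 1 := by
      rw [dm_hm] at hdW
      omega
    have hdq : dm K q.asIdeal = e := by
      rw [dm_hm] at hdQ
      omega
    have hGw : deh G ∉ w.asIdeal := by
      intro hc
      have h1 := (mem_hm w G b hG).mpr hc
      have h2 : (hm w).asIdeal = (hm q).asIdeal := by
        rw [← h]
        symm
        apply sup_eq_left.mpr
        rw [Ideal.span_singleton_le_iff_mem]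
        exact h1
      rw [h2] at hdW
      omega
    have hsup : w.asIdeal ⊔ Ideal.span {deh G} = q.asIdeal := by
      have h1 := congrArg (Ideal.map
        (deh : MvPolynomial (Fin (m + 1)) K →ₐ[K] MvPolynomial (Fin m) K)) h
      rw [Ideal.map_sup, Ideal.map_span, Set.image_singleton, map_hm, map_hm] at h1
      exact h1
    apply AddSubgroup.subset_closure
    refine ⟨w, deh G, mem_deh w F hF, hdw, hGw, ?_⟩
    funext p
    unfold adiv cls
    rw [hsup]
    by_cases hp : p = q
    · subst hp
      rw [if_pos rfl, if_pos hdq]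
      unfold od
      rw [mlt_self]
      rfl
    · rw [if_neg (fun hc => hp (hm_inj hc))]
      split_ifs with h1
      · unfold od
        rw [mlt_eq_zero]
        · rfl
        · intro hle
          apply hp
          apply PrimeSpectrum.ext
          exact (eq_of_dm_le (K := K) q.asIdeal p.asIdeal hle (by rw [h1, hdq])).symm
      · rfl

end Pool.Agent.HCH
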