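import Pool.Agent.HCH.P1

namespace Pool.Agent.HCH

open MvPolynomial

theorem lift_ARat {K : Type} [Field K] {m d : ℕ} (F : MvPolynomial (Fin (m + 1)) K)
    (hF : F.IsHomogeneous d) (e : ℕ) (z : PrimeSpectrum (MvPolynomial (Fin m) K) → ℤ)
    (hz : z ∈ ARat K (deh F) e) : ∃ Z ∈ PRat F (e + 1), ∀ p, Z (hm p) = z p := by
  classical
  unfold ARat at hz
  induction hz using AddSubgroup.closure_induction with
  | mem z hz =>
    obtain ⟨w, g, hf, hd, hg, rfl⟩ := hz
    obtain ⟨b, G, hG, rfl⟩ := deh_lift g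
    have hX : (X (Fin.last m) ^ b : MvPolynomial (Fin (m + 1)) K).IsHomogeneous b := by
      have := (isHomogeneous_X K (Fin.last m)).pow b
      rwa [one_mul] at this
    refine ⟨pdiv K (hm w).asIdeal G (e + 1) -
      pdiv K (hm w).asIdeal (X (Fin.last m) ^ b) (e + 1), ?_, ?_⟩
    · apply AddSubgroup.subset_closure
      refine ⟨hm w, G, X (Fin.last m) ^ b, b, hm_homog w, (mem_hm w F d hF).mpr hf, ?_, hG, hX,
        fun hc => hg ((mem_hm w G b hG).mp hc), fun hc => ?_, rfl⟩
      · rw [dm_hm, hd]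
      · exact last_notMem w ((hm w).isPrime.mem_of_pow_mem b hc)
    · intro p
      rw [Pi.sub_apply, pdiv_hm w G b hG, pdiv_hm w _ b hX, map_pow, deh_last, one_pow]
      have : adiv K w.asIdeal (1 : MvPolynomial (Fin m) K) e p = 0 := by
        unfold adiv
        have : od (w.asIdeal ⊔ Ideal.span {(1 : MvPolynomial (Fin m) K)}) p = 0 := by
          unfold od
          rw [mlt_eq_zero]
          · rfl
          · intro hle
            apply p.isPrime.ne_top
            rw [Ideal.eq_top_iff_one]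
            exact hle (Submodule.mem_sup_right (Ideal.mem_span_singleton_self _))
        rw [this]
        split_ifs <;> rfl
      rw [this, sub_zero]
  | zero => exact ⟨0, (PRat F (e + 1)).zero_mem, fun _ => rfl⟩
  | add x y _ _ hx hy =>
    obtain ⟨z1, h1, h2⟩ := hx
    obtain ⟨z2, h3, h4⟩ := hy
    exact ⟨z1 + z2, (PRat F (e + 1)).add_mem h1 h3, fun p => by
      rw [Pi.add_apply, Pi.add_apply, h2, h4]⟩
  | neg x _ hx =>
    obtain ⟨z1, h1, h2⟩ := hx
    exact ⟨-z1, (PRat F (e + 1)).neg_mem h1, fun p => by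
      rw [Pi.neg_apply, Pi.neg_apply, h2]⟩

end Pool.Agent.HCH
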